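import Mathlib

/-!
# From `l^1` to `l^s` sums (`0 < s ≤ 1`) in a multilinear inequality, without pigeonholing
-/

open MeasureTheory Finset
open scoped ENNReal

namespace BDDK

theorem sum_rpow_le {ι : Type*} (T : Finset ι) {s : ℝ} (hs0 : 0 < s) (hs1 : s ≤ 1)
    (a b : ι → ℝ≥0∞) (ha : ∀ τ ∈ T, a τ ≠ ∞) (hab : ∀ τ ∈ T, a τ = 0 → b τ = 0) :
    ∑ τ ∈ T, (b τ) ^ s ≤ (∑ τ ∈ T, (a τ) ^ (s - 1) * b τ) ^ s *
      (∑ τ ∈ T, (a τ) ^ s) ^ (1 - s) := by
  rcases eq_or_lt_of_le hs1 with rfl | hs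
  · simp
  · have hpq : (1 / s).HolderConjugate (1 / (1 - s)) := by
      rw [Real.holderConjugate_iff]
      constructor
      · rw [lt_div_iff₀ hs0]; linarith
      · simp
    have h := ENNReal.inner_le_Lp_mul_Lq T (fun τ => ((a τ) ^ (s - 1) * b τ) ^ s)
      (fun τ => (a τ) ^ (s * (1 - s))) hpq
    have h1s : (1 - s) ≠ 0 := by linarith
    have e1 : ∀ τ ∈ T, (b τ) ^ s = ((a τ) ^ (s - 1) * b τ) ^ s * (a τ) ^ (s * (1 - s)) := by
      intro τ hτ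
      by_cases h0 : a τ = 0
      · rw [hab τ hτ h0, h0, ENNReal.zero_rpow_of_pos hs0,
          ENNReal.zero_rpow_of_pos (by nlinarith : 0 < s * (1 - s))]
        simp
      · rw [ENNReal.mul_rpow_of_nonneg _ _ hs0.le, ← ENNReal.rpow_mul, mul_right_comm,
          ← ENNReal.rpow_add _ _ h0 (ha τ hτ)]
        rw [show (s - 1) * s + s * (1 - s) = 0 by ring]
        simp
    rw [Finset.sum_congr rfl e1]
    refine h.trans (le_of_eq ?_)
    congr 1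
    · rw [show (1 / (1 / s)) = s by field_simp]
      congr 1
      refine Finset.sum_congr rfl fun τ _ => ?_
      rw [← ENNReal.rpow_mul]
      rw [show s * (1 / s) = 1 by field_simp]
      simp
    · rw [show (1 / (1 / (1 - s))) = 1 - s by field_simp]
      congr 1
      refine Finset.sum_congr rfl fun τ _ => ?_
      rw [← ENNReal.rpow_mul]
      congr 1
      field_simp

theorem multi_holder {n : ℕ} {ι : Type*} {Z : Type*} [MeasurableSpace Z] (κ : Measure Z)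
    {s p e : ℝ} (hs0 : 0 < s) (hs1 : s ≤ 1) (hp : 0 ≤ p) (he : e * s = p)
    (T : Fin n → Finset ι) (a : Fin n → ι → ℝ≥0∞) (b : Fin n → ι → Z → ℝ≥0∞) (A : ℝ≥0∞)
    (ha : ∀ i, ∀ τ ∈ T i, a i τ ≠ ∞)
    (hab : ∀ i, ∀ τ ∈ T i, a i τ = 0 → ∀ z, b i τ z = 0)
    (hb : ∀ i, ∀ τ ∈ T i, Measurable (b i τ))
    (h : ∀ c : Fin n → ι → ℝ≥0∞, (∀ i τ, c i τ ≠ ∞) →
      ∫⁻ z, ∏ i, (∑ τ ∈ T i, c i τ * b i τ z) ^ p ∂κ ≤ A * ∏ i, (∑ τ ∈ T i, c i τ * a i τ) ^ p) :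
    ∫⁻ z, ∏ i, (∑ τ ∈ T i, (b i τ z) ^ s) ^ e ∂κ ≤ A * ∏ i, (∑ τ ∈ T i, (a i τ) ^ s) ^ e := by
  classical
  have he0 : 0 ≤ e := by
    rcases hp.eq_or_lt with h0 | h0
    · rw [← h0] at he
      rcases mul_eq_zero.mp he with h | h
      · exact h.ge
      · linarith
    · by_contra hc
      push Not at hc
      nlinarith
  set c : Fin n → ι → ℝ≥0∞ := fun i τ => if τ ∈ T i ∧ a i τ ≠ 0 then (a i τ) ^ (s - 1) else 0
    with hcdef
  have hcfin : ∀ i τ, c i τ ≠ ∞ := by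
    intro i τ
    simp only [hcdef]
    split_ifs with hh
    · intro h1
      rw [ENNReal.rpow_eq_top_iff] at h1
      rcases h1 with h1 | h1
      · exact hh.2 h1.1
      · exact ha i τ hh.1 h1.1
    · simp
  have key := h c hcfin
  -- pointwise
  have hpt : ∀ z, ∏ i, (∑ τ ∈ T i, (b i τ z) ^ s) ^ e ≤
      (∏ i, (∑ τ ∈ T i, (a i τ) ^ s) ^ ((1 - s) * e)) *
        ∏ i, (∑ τ ∈ T i, c i τ * b i τ z) ^ p := by
    intro z
    rw [← Finset.prod_mul_distrib]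
    gcongr with i _
    have h1 : ∑ τ ∈ T i, (b i τ z) ^ s ≤ (∑ τ ∈ T i, c i τ * b i τ z) ^ s *
        (∑ τ ∈ T i, (a i τ) ^ s) ^ (1 - s) := by
      refine (sum_rpow_le (T i) hs0 hs1 (a i) (fun τ => b i τ z) (ha i)
        (fun τ hτ h0 => hab i τ hτ h0 z)).trans (le_of_eq ?_)
      congr 2
      refine Finset.sum_congr rfl fun τ hτ => ?_
      by_cases h0 : a i τ = 0
      · rw [hab i τ hτ h0 z]; simp
      · simp only [hcdef]
        rw [if_pos ⟨hτ, h0⟩]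
    calc (∑ τ ∈ T i, (b i τ z) ^ s) ^ e
        ≤ ((∑ τ ∈ T i, c i τ * b i τ z) ^ s * (∑ τ ∈ T i, (a i τ) ^ s) ^ (1 - s)) ^ e := by
          gcongr
      _ = _ := by
          rw [ENNReal.mul_rpow_of_nonneg _ _ he0, ← ENNReal.rpow_mul, ← ENNReal.rpow_mul, mul_comm s e,
            he, mul_comm]
  have hca : ∀ i, ∑ τ ∈ T i, c i τ * a i τ ≤ ∑ τ ∈ T i, (a i τ) ^ s := by
    intro i
    gcongr with τ hτ
    by_cases h0 : a i τ = 0
    · rw [h0]; simp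
    · simp only [hcdef]
      rw [if_pos ⟨hτ, h0⟩]
      nth_rw 2 [← ENNReal.rpow_one (a i τ)]
      rw [← ENNReal.rpow_add _ _ h0 (ha i τ hτ)]
      simp
  calc ∫⁻ z, ∏ i, (∑ τ ∈ T i, (b i τ z) ^ s) ^ e ∂κ
      ≤ ∫⁻ z, (∏ i, (∑ τ ∈ T i, (a i τ) ^ s) ^ ((1 - s) * e)) *
        ∏ i, (∑ τ ∈ T i, c i τ * b i τ z) ^ p ∂κ := lintegral_mono hpt
    _ = (∏ i, (∑ τ ∈ T i, (a i τ) ^ s) ^ ((1 - s) * e)) *
        ∫⁻ z, ∏ i, (∑ τ ∈ T i, c i τ * b i τ z) ^ p ∂κ := by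
        rw [lintegral_const_mul]
        apply Finset.measurable_prod
        intro i _
        apply Measurable.pow_const
        apply Finset.measurable_sum
        intro τ hτ
        exact (hb i τ hτ).const_mul _
    _ ≤ (∏ i, (∑ τ ∈ T i, (a i τ) ^ s) ^ ((1 - s) * e)) *
        (A * ∏ i, (∑ τ ∈ T i, (a i τ) ^ s) ^ p) := by
        gcongr
        refine key.trans ?_
        exact mul_le_mul_right (Finset.prod_le_prod' fun i _ => ENNReal.rpow_le_rpow (hca i) hp) _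
    _ = A * ∏ i, (∑ τ ∈ T i, (a i τ) ^ s) ^ e := by
        rw [mul_left_comm, ← Finset.prod_mul_distrib]
        congr 1
        refine Finset.prod_congr rfl fun i _ => ?_
        rw [← ENNReal.rpow_add_of_nonneg _ _ (by nlinarith) hp]
        congr 1
        rw [← he]; ring

end BDDK
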