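import Mathlib

/-!
# Loomis-Whitney inequality for `n` different functions (probability measures)
-/

open MeasureTheory Finset
open scoped ENNReal

namespace BDDK

theorem lw_aux {n : ℕ} (hn : 2 ≤ n) (μ : Fin n → Measure ℝ) [∀ i, IsProbabilityMeasure (μ i)]
    (F : Fin n → (Fin n → ℝ) → ℝ≥0∞) (hF : ∀ i, Measurable (F i)) (s : Finset (Fin n))
    (x : Fin n → ℝ) :
    (∫⋯∫⁻_s, (fun y => ∏ i, ((∫⋯∫⁻_{i}, F i ∂μ) y) ^ (1 / ((n : ℝ) - 1))) ∂μ) x
      ≤ ∏ i, ((∫⋯∫⁻_(insert i s), F i ∂μ) x) ^ (1 / ((n : ℝ) - 1)) := by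
  have hn1 : (0 : ℝ) < (n : ℝ) - 1 := by
    have : (2 : ℝ) ≤ n := by exact_mod_cast hn
    linarith
  have hp0 : 0 ≤ 1 / ((n : ℝ) - 1) := by positivity
  have hmeas : Measurable (fun y => ∏ i, ((∫⋯∫⁻_{i}, F i ∂μ) y) ^ (1 / ((n : ℝ) - 1))) := by
    apply Finset.measurable_prod
    intro i _
    exact ((hF i).lmarginal μ).pow_const _
  induction s using Finset.induction_on generalizing x with
  | empty => simp
  | insert j s hj ih =>
    rw [lmarginal_insert _ hmeas hj]
    calc ∫⁻ t, (∫⋯∫⁻_s, (fun y => ∏ i, ((∫⋯∫⁻_{i}, F i ∂μ) y) ^ (1 / ((n : ℝ) - 1))) ∂μ)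
            (Function.update x j t) ∂(μ j)
        ≤ ∫⁻ t, ∏ i, ((∫⋯∫⁻_(insert i s), F i ∂μ) (Function.update x j t)) ^ (1 / ((n : ℝ) - 1))
            ∂(μ j) := lintegral_mono fun t => ih _
      _ = ∫⁻ t, ((∫⋯∫⁻_(insert j s), F j ∂μ) x) ^ (1 / ((n : ℝ) - 1)) *
            ∏ i ∈ univ.erase j, ((∫⋯∫⁻_(insert i s), F i ∂μ) (Function.update x j t)) ^
              (1 / ((n : ℝ) - 1)) ∂(μ j) := by
          refine lintegral_congr fun t => ?_
          rw [← Finset.mul_prod_erase univ _ (Finset.mem_univ j)]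
          rw [lmarginal_update_of_mem (μ := μ) (Finset.mem_insert_self j s) (F j) x t]
      _ = ((∫⋯∫⁻_(insert j s), F j ∂μ) x) ^ (1 / ((n : ℝ) - 1)) *
            ∫⁻ t, ∏ i ∈ univ.erase j, ((∫⋯∫⁻_(insert i s), F i ∂μ) (Function.update x j t)) ^
              (1 / ((n : ℝ) - 1)) ∂(μ j) := by
          rw [lintegral_const_mul]
          apply Finset.measurable_prod
          intro i _
          exact (((hF i).lmarginal μ).comp (measurable_update x)).pow_const _
      _ ≤ ((∫⋯∫⁻_(insert j s), F j ∂μ) x) ^ (1 / ((n : ℝ) - 1)) *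
            ∏ i ∈ univ.erase j, (∫⁻ t, (∫⋯∫⁻_(insert i s), F i ∂μ) (Function.update x j t)
              ∂(μ j)) ^ (1 / ((n : ℝ) - 1)) := by
          gcongr
          refine ENNReal.lintegral_prod_norm_pow_le _ ?_ ?_ ?_
          · intro i _
            exact (((hF i).lmarginal μ).comp (measurable_update x)).aemeasurable
          · rw [Finset.sum_const, Finset.card_erase_of_mem (Finset.mem_univ j), Finset.card_univ,
              Fintype.card_fin, nsmul_eq_mul, Nat.cast_sub (by omega)]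
            field_simp
            simp
          · intro i _; exact hp0
      _ = ∏ i, ((∫⋯∫⁻_(insert i (insert j s)), F i ∂μ) x) ^ (1 / ((n : ℝ) - 1)) := by
          rw [← Finset.mul_prod_erase univ _ (Finset.mem_univ j)]
          congr 1
          · simp
          · refine Finset.prod_congr rfl fun i hi => ?_
            have hij : j ≠ i := (Finset.ne_of_mem_erase hi).symm
            have hj' : j ∉ insert i s := by simp [hij, hj]
            rw [Finset.insert_comm, lmarginal_insert _ (hF i) hj']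

/-- Loomis-Whitney for `n` different functions, probability measures. -/
theorem lw {n : ℕ} (hn : 2 ≤ n) (μ : Fin n → Measure ℝ) [∀ i, IsProbabilityMeasure (μ i)]
    (F : Fin n → (Fin n → ℝ) → ℝ≥0∞) (hF : ∀ i, Measurable (F i)) :
    ∫⁻ y, ∏ i, ((∫⋯∫⁻_{i}, F i ∂μ) y) ^ (1 / ((n : ℝ) - 1)) ∂(Measure.pi μ)
      ≤ ∏ i, (∫⁻ y, F i y ∂(Measure.pi μ)) ^ (1 / ((n : ℝ) - 1)) := by
  have h := lw_aux hn μ F hF univ (fun _ => 0)
  rw [← lintegral_eq_lmarginal_univ] at h
  refine h.trans (le_of_eq ?_)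
  refine Finset.prod_congr rfl fun i _ => ?_
  rw [lintegral_eq_lmarginal_univ (fun _ => (0 : ℝ))]
  simp

end BDDK
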