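import Mathlib
import Pool.Agent.BDD.KakLW

/-!
# One step of the multiscale Loomis-Whitney argument
-/

open MeasureTheory Finset
open scoped ENNReal

namespace BDDK

/-- uniform probability on `[0,r]` -/
noncomputable def unif (r : ℝ) : Measure ℝ :=
  (ENNReal.ofReal r)⁻¹ • volume.restrict (Set.Icc 0 r)

theorem unif_prob {r : ℝ} (hr : 0 < r) : IsProbabilityMeasure (unif r) := by
  constructor
  unfold unif
  rw [Measure.smul_apply, Measure.restrict_apply MeasurableSet.univ, Set.univ_inter,
    Real.volume_Icc, sub_zero, smul_eq_mul]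
  apply ENNReal.inv_mul_cancel
  · simpa using hr
  · exact ENNReal.ofReal_ne_top

theorem unif_ae {r : ℝ} : ∀ᵐ t ∂(unif r), t ∈ Set.Icc 0 r := by
  unfold unif
  apply Measure.ae_smul_measure
  exact ae_restrict_mem measurableSet_Icc

theorem unif_pi_ae {n : ℕ} {r : ℝ} (hr : 0 < r) :
    ∀ᵐ y ∂(Measure.pi (fun _ : Fin n => unif r)), ∀ i, y i ∈ Set.Icc 0 r := by
  have : IsProbabilityMeasure (unif r) := unif_prob hr
  rw [ae_all_iff]
  intro i
  have h := (measurePreserving_eval (fun _ : Fin n => unif r) i).quasiMeasurePreserving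
  exact h.ae unif_ae

/-- one step on the cube: functions which are almost constant in the direction `e_i`. -/
theorem one_step {n : ℕ} (hn : 2 ≤ n) {r : ℝ} (hr : 0 < r) {C : ℝ≥0∞}
    (F : Fin n → (Fin n → ℝ) → ℝ≥0∞) (hF : ∀ i, Measurable (F i))
    (hc : ∀ i y t, |t| ≤ r → F i (y + Pi.single i t) ≤ C * F i y) :
    ∫⁻ y, ∏ i, (F i y) ^ (1 / ((n : ℝ) - 1)) ∂(Measure.pi (fun _ : Fin n => unif r))
      ≤ C ^ ((n : ℝ) / ((n : ℝ) - 1)) *
        ∏ i, (∫⁻ y, F i y ∂(Measure.pi (fun _ : Fin n => unif r))) ^ (1 / ((n : ℝ) - 1)) := by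
  have : IsProbabilityMeasure (unif r) := unif_prob hr
  have hn1 : (0 : ℝ) < (n : ℝ) - 1 := by
    have : (2 : ℝ) ≤ n := by exact_mod_cast hn
    linarith
  have hp0 : 0 ≤ 1 / ((n : ℝ) - 1) := by positivity
  have key : ∀ᵐ y ∂(Measure.pi (fun _ : Fin n => unif r)),
      ∏ i, (F i y) ^ (1 / ((n : ℝ) - 1)) ≤ C ^ ((n : ℝ) / ((n : ℝ) - 1)) *
        ∏ i, ((∫⋯∫⁻_{i}, F i ∂(fun _ : Fin n => unif r)) y) ^ (1 / ((n : ℝ) - 1)) := by
    filter_upwards [unif_pi_ae (n := n) hr] with y hy
    have h1 : ∀ i, F i y ≤ C * (∫⋯∫⁻_{i}, F i ∂(fun _ : Fin n => unif r)) y := by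
      intro i
      rw [lmarginal_singleton]
      show F i y ≤ C * ∫⁻ t, F i (Function.update y i t) ∂(unif r)
      have hm : Measurable (fun t => F i (Function.update y i t)) :=
        (hF i).comp (measurable_update y)
      rw [← lintegral_const_mul _ hm]
      calc F i y = ∫⁻ _t, F i y ∂(unif r) := by simp
        _ ≤ ∫⁻ t, C * F i (Function.update y i t) ∂(unif r) := by
          apply lintegral_mono_ae
          filter_upwards [unif_ae (r := r)] with t ht
          have e : y = Function.update y i t + Pi.single i (y i - t) := by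
            funext k
            by_cases hk : k = i
            · subst hk; simp
            · simp [hk, Function.update_of_ne hk, Pi.single_eq_of_ne hk]
          calc F i y = F i (Function.update y i t + Pi.single i (y i - t)) := by rw [← e]
            _ ≤ C * F i (Function.update y i t) := by
              apply hc
              have := hy i
              rw [abs_le]
              constructor <;> [linarith [this.1, ht.2]; linarith [this.2, ht.1]]
    calc ∏ i, (F i y) ^ (1 / ((n : ℝ) - 1))
        ≤ ∏ i, (C * (∫⋯∫⁻_{i}, F i ∂(fun _ : Fin n => unif r)) y) ^ (1 / ((n : ℝ) - 1)) := by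
          gcongr with i _
          exact h1 i
      _ = _ := by
          simp_rw [ENNReal.mul_rpow_of_nonneg _ _ hp0]
          rw [Finset.prod_mul_distrib, Finset.prod_const, Finset.card_univ, Fintype.card_fin,
            ← ENNReal.rpow_natCast, ← ENNReal.rpow_mul]
          congr 2
          field_simp
  calc _ ≤ ∫⁻ y, C ^ ((n : ℝ) / ((n : ℝ) - 1)) *
        ∏ i, ((∫⋯∫⁻_{i}, F i ∂(fun _ : Fin n => unif r)) y) ^ (1 / ((n : ℝ) - 1))
          ∂(Measure.pi (fun _ : Fin n => unif r)) := lintegral_mono_ae key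
    _ = C ^ ((n : ℝ) / ((n : ℝ) - 1)) * ∫⁻ y,
        ∏ i, ((∫⋯∫⁻_{i}, F i ∂(fun _ : Fin n => unif r)) y) ^ (1 / ((n : ℝ) - 1))
          ∂(Measure.pi (fun _ : Fin n => unif r)) := by
        rw [lintegral_const_mul]
        apply Finset.measurable_prod
        intro i _
        exact ((hF i).lmarginal _).pow_const _
    _ ≤ _ := by
        gcongr
        exact lw hn _ F hF

end BDDK
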