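import Mathlib
import Pool.Agent.BDD.KakStep

/-!
# Multiscale Loomis-Whitney (Guth's argument for the multilinear Kakeya inequality)

`box v r` is the law of `∑ i, y i • v i`, `y` uniform in `[0,r]^n`;
`kap v r m = box v (r 1) * ... * box v (r m)` (convolution).
-/

open MeasureTheory Finset
open scoped ENNReal

namespace BDDK

variable {E : Type*} [NormedAddCommGroup E] [NormedSpace ℝ E] [MeasurableSpace E] [BorelSpace E]
  [SecondCountableTopology E]

/-- the linear map `y ↦ ∑ i, y i • v i` -/
noncomputable def lin {n : ℕ} (v : Fin n → E) (y : Fin n → ℝ) : E := ∑ i, y i • v i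

omit [MeasurableSpace E] [BorelSpace E] [SecondCountableTopology E] in
theorem lin_cont {n : ℕ} (v : Fin n → E) : Continuous (lin v) := by
  unfold lin; fun_prop

omit [SecondCountableTopology E] in
theorem lin_meas {n : ℕ} (v : Fin n → E) : Measurable (lin v) := (lin_cont v).measurable

/-- law of `∑ i, y i • v i`, `y` uniform in `[0,r]^n` -/
noncomputable def box {n : ℕ} (v : Fin n → E) (r : ℝ) : Measure E :=
  (Measure.pi (fun _ : Fin n => unif r)).map (lin v)

omit [SecondCountableTopology E] in
theorem box_prob {n : ℕ} (v : Fin n → E) {r : ℝ} (hr : 0 < r) : IsProbabilityMeasure (box v r) := by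
  have := unif_prob hr
  exact Measure.isProbabilityMeasure_map (lin_meas v).aemeasurable

theorem one_step_vec {n : ℕ} (hn : 2 ≤ n) (v : Fin n → E) {r : ℝ} (hr : 0 < r) {C : ℝ≥0∞}
    (F : Fin n → E → ℝ≥0∞) (hF : ∀ i, Measurable (F i))
    (hc : ∀ i x t, |t| ≤ r → F i (x + t • v i) ≤ C * F i x) (x : E) :
    ∫⁻ z, ∏ i, (F i (x + z)) ^ (1 / ((n : ℝ) - 1)) ∂(box v r)
      ≤ C ^ ((n : ℝ) / ((n : ℝ) - 1)) *
        ∏ i, (∫⁻ z, F i (x + z) ∂(box v r)) ^ (1 / ((n : ℝ) - 1)) := by
  unfold box
  have hm : Measurable (fun z : E => x + z) := measurable_const_add x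
  rw [lintegral_map _ (lin_meas v)]
  · have e : ∀ i, ∫⁻ z, F i (x + z) ∂((Measure.pi (fun _ : Fin n => unif r)).map (lin v))
        = ∫⁻ y, F i (x + lin v y) ∂(Measure.pi (fun _ : Fin n => unif r)) := by
      intro i
      exact lintegral_map ((hF i).comp hm) (lin_meas v)
    simp_rw [e]
    apply one_step hn hr (fun i y => F i (x + lin v y))
    · intro i
      exact (hF i).comp (hm.comp (lin_meas v))
    · intro i y t ht
      have : x + lin v (y + Pi.single i t) = (x + lin v y) + t • v i := by
        unfold lin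
        simp only [Pi.add_apply, add_smul, Finset.sum_add_distrib]
        rw [add_assoc]
        congr 2
        rw [Finset.sum_eq_single i]
        · simp
        · intro j _ hj; simp [Pi.single_eq_of_ne hj]
        · simp
      show F i (x + lin v (y + Pi.single i t)) ≤ C * F i (x + lin v y)
      rw [this]
      exact hc i _ t ht
  · apply Finset.measurable_prod
    intro i _
    exact ((hF i).comp hm).pow_const _

/-- the kernel `box v (r 1) * ... * box v (r m)` -/
noncomputable def kap {n : ℕ} (v : Fin n → E) (r : ℕ → ℝ) : ℕ → Measure E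
  | 0 => Measure.dirac 0
  | (m + 1) => Measure.conv (kap v r m) (box v (r (m + 1)))

theorem kap_prob {n : ℕ} (v : Fin n → E) {r : ℕ → ℝ} {m : ℕ} (hr : ∀ k, k < m → 0 < r (k + 1)) :
    IsProbabilityMeasure (kap v r m) := by
  induction m with
  | zero => unfold kap; infer_instance
  | succ m ih =>
    have h1 := ih (fun k hk => hr k (by omega))
    have h2 := box_prob v (hr m (by omega))
    unfold kap
    infer_instance

/-- the multiscale argument -/
theorem multi_step {n : ℕ} (hn : 2 ≤ n) (v : Fin n → E) {C : ℝ≥0∞} (r : ℕ → ℝ) (m : ℕ)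
    (hr : ∀ k, k < m → 0 < r (k + 1))
    (F : ℕ → Fin n → E → ℝ≥0∞) (hF : ∀ k i, Measurable (F k i))
    (h1 : ∀ k, k < m → ∀ i x t, |t| ≤ r (k + 1) → F k i (x + t • v i) ≤ C * F k i x)
    (h2 : ∀ k, k < m → ∀ i x, ∫⁻ z, F k i (x + z) ∂(box v (r (k + 1))) ≤ C * F (k + 1) i x)
    (x : E) :
    ∫⁻ z, ∏ i, (F 0 i (x + z)) ^ (1 / ((n : ℝ) - 1)) ∂(kap v r m)
      ≤ (C ^ (2 * (n : ℝ) / ((n : ℝ) - 1))) ^ m *
        ∏ i, (F m i x) ^ (1 / ((n : ℝ) - 1)) := by
  have hn1 : (0 : ℝ) < (n : ℝ) - 1 := by
    have : (2 : ℝ) ≤ n := by exact_mod_cast hn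
    linarith
  have hp0 : 0 ≤ 1 / ((n : ℝ) - 1) := by positivity
  induction m generalizing x with
  | zero => simp [kap]
  | succ m ih =>
    have hb := box_prob v (hr m (by omega))
    have hk := kap_prob v (m := m) (r := r) (fun k hk => hr k (by omega))
    have hP : Measurable (fun z => ∏ i, (F 0 i z) ^ (1 / ((n : ℝ) - 1))) := by
      apply Finset.measurable_prod
      intro i _
      exact (hF 0 i).pow_const _
    unfold kap
    rw [Measure.lintegral_conv]
    · have ih' := fun y => ih (fun k hk => hr k (by omega)) (fun k hk => h1 k (by omega))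
        (fun k hk => h2 k (by omega)) y
      have hsw : ∫⁻ z, ∫⁻ y, ∏ i, (F 0 i (x + (z + y))) ^ (1 / ((n : ℝ) - 1))
            ∂(box v (r (m + 1))) ∂(kap v r m)
          = ∫⁻ y, ∫⁻ z, ∏ i, (F 0 i (x + (z + y))) ^ (1 / ((n : ℝ) - 1))
            ∂(kap v r m) ∂(box v (r (m + 1))) := by
        apply lintegral_lintegral_swap
        apply Measurable.aemeasurable
        exact hP.comp (measurable_const.add (measurable_fst.add measurable_snd))
      rw [hsw]
      calc ∫⁻ y, ∫⁻ z, ∏ i, (F 0 i (x + (z + y))) ^ (1 / ((n : ℝ) - 1))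
            ∂(kap v r m) ∂(box v (r (m + 1)))
          ≤ ∫⁻ y, (C ^ (2 * (n : ℝ) / ((n : ℝ) - 1))) ^ m *
              ∏ i, (F m i (x + y)) ^ (1 / ((n : ℝ) - 1)) ∂(box v (r (m + 1))) := by
            apply lintegral_mono
            intro y
            have := ih' (x + y)
            simp only [show ∀ z, x + (z + y) = x + y + z from fun z => by abel]
            exact this
        _ = (C ^ (2 * (n : ℝ) / ((n : ℝ) - 1))) ^ m * ∫⁻ y,
              ∏ i, (F m i (x + y)) ^ (1 / ((n : ℝ) - 1)) ∂(box v (r (m + 1))) := by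
            rw [lintegral_const_mul]
            apply Finset.measurable_prod
            intro i _
            exact ((hF m i).comp (measurable_const_add x)).pow_const _
        _ ≤ (C ^ (2 * (n : ℝ) / ((n : ℝ) - 1))) ^ m * (C ^ ((n : ℝ) / ((n : ℝ) - 1)) *
              ∏ i, (∫⁻ y, F m i (x + y) ∂(box v (r (m + 1)))) ^ (1 / ((n : ℝ) - 1))) := by
            gcongr
            exact one_step_vec hn v (hr m (by omega)) (F m) (hF m) (h1 m (by omega)) x
        _ ≤ (C ^ (2 * (n : ℝ) / ((n : ℝ) - 1))) ^ m * (C ^ ((n : ℝ) / ((n : ℝ) - 1)) *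
              ∏ i, (C * F (m + 1) i x) ^ (1 / ((n : ℝ) - 1))) := by
            gcongr with i _
            exact h2 m (by omega) i x
        _ = _ := by
            simp_rw [ENNReal.mul_rpow_of_nonneg _ _ hp0]
            rw [Finset.prod_mul_distrib, Finset.prod_const, Finset.card_univ, Fintype.card_fin,
              ← ENNReal.rpow_natCast (C ^ (1 / ((n : ℝ) - 1))) n, ← ENNReal.rpow_mul]
            rw [pow_succ, mul_assoc, ← mul_assoc (C ^ ((n : ℝ) / ((n : ℝ) - 1)))]
            congr 2
            rw [show 1 / ((n : ℝ) - 1) * (n : ℝ) = (n : ℝ) / ((n : ℝ) - 1) by field_simp]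
            rw [← ENNReal.rpow_add_of_nonneg _ _ (by positivity) (by positivity)]
            congr 1
            ring
    · exact hP.comp (measurable_const_add x)

end BDDK
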