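import Mathlib
import Pool.Agent.BDD.KakMulti

/-!
# The weights `W r x = r^-n (1 + |x|/r)^-(n+1)` on `ℝ^n` (sup norm) and the boxes
-/

open MeasureTheory Finset
open scoped ENNReal

namespace BDDK

/-- `W r x = r^-n (1 + |x|/r)^-(n+1)` -/
noncomputable def W {n : ℕ} (r : ℝ) (x : Fin n → ℝ) : ℝ≥0∞ :=
  ENNReal.ofReal ((r⁻¹) ^ n * ((1 + ‖x‖ / r)⁻¹) ^ (n + 1))

theorem W_meas {n : ℕ} (r : ℝ) : Measurable (W (n := n) r) := by
  unfold W; fun_prop

theorem W_neg {n : ℕ} (r : ℝ) (x : Fin n → ℝ) : W r (-x) = W r x := by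
  unfold W; rw [norm_neg]

theorem W_sub_comm {n : ℕ} (r : ℝ) (x y : Fin n → ℝ) : W r (x - y) = W r (y - x) := by
  rw [← W_neg, neg_sub]

theorem W_ne_top {n : ℕ} (r : ℝ) (x : Fin n → ℝ) : W r x ≠ ∞ := ENNReal.ofReal_ne_top

theorem W_pos {n : ℕ} {r : ℝ} (hr : 0 < r) (x : Fin n → ℝ) : 0 < W r x := by
  unfold W
  rw [ENNReal.ofReal_pos]
  positivity

/-- slow variation, general form -/
theorem W_add_le {n : ℕ} {r : ℝ} (hr : 0 < r) (x y : Fin n → ℝ) :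
    W r (x + y) ≤ ENNReal.ofReal ((1 + ‖y‖ / r) ^ (n + 1)) * W r x := by
  unfold W
  rw [← ENNReal.ofReal_mul (by positivity)]
  apply ENNReal.ofReal_le_ofReal
  have hx : 0 < 1 + ‖x‖ / r := by positivity
  have hy : 0 < 1 + ‖y‖ / r := by positivity
  have hxy : 0 < 1 + ‖x + y‖ / r := by positivity
  have key : (1 + ‖x + y‖ / r)⁻¹ ≤ (1 + ‖y‖ / r) * (1 + ‖x‖ / r)⁻¹ := by
    rw [inv_eq_one_div, div_le_iff₀ hxy, mul_assoc, mul_comm, mul_assoc]
    rw [inv_mul_eq_div, le_div_iff₀ hx, one_mul]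
    have h1 : ‖x‖ ≤ ‖x + y‖ + ‖y‖ := by
      calc ‖x‖ = ‖(x + y) - y‖ := by simp
        _ ≤ _ := norm_sub_le _ _
    have h2 : ‖x‖ / r ≤ ‖x + y‖ / r + ‖y‖ / r := by
      rw [← add_div]; gcongr
    have h3 : 0 ≤ ‖x + y‖ / r * (‖y‖ / r) := by positivity
    nlinarith
  calc (r⁻¹) ^ n * ((1 + ‖x + y‖ / r)⁻¹) ^ (n + 1)
      ≤ (r⁻¹) ^ n * ((1 + ‖y‖ / r) * (1 + ‖x‖ / r)⁻¹) ^ (n + 1) := by gcongr
    _ = _ := by rw [mul_pow]; ring

/-- slow variation -/
theorem W_add_le_two {n : ℕ} {r : ℝ} (hr : 0 < r) (x y : Fin n → ℝ) (hy : ‖y‖ ≤ r) :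
    W r (x + y) ≤ 2 ^ (n + 1) * W r x := by
  refine (W_add_le hr x y).trans ?_
  gcongr
  have : (2 : ℝ≥0∞) ^ (n + 1) = ENNReal.ofReal (2 ^ (n + 1)) := by
    rw [ENNReal.ofReal_pow (by norm_num)]; norm_num
  rw [this]
  apply ENNReal.ofReal_le_ofReal
  gcongr
  have : ‖y‖ / r ≤ 1 := (div_le_one hr).mpr hy
  linarith

/-- total mass of `W 1` -/
noncomputable def cW (n : ℕ) : ℝ≥0∞ := ∫⁻ x : Fin n → ℝ, W 1 x

theorem cW_lt_top (n : ℕ) : cW n < ∞ := by
  have h := finite_integral_one_add_norm (E := Fin n → ℝ) (μ := volume) (r := (n : ℝ) + 1)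
    (by simp)
  unfold cW W
  convert h using 4 with x
  simp only [inv_one, one_pow, one_mul, div_one]
  rw [Real.rpow_neg (by positivity), ← Nat.cast_succ, Real.rpow_natCast, inv_pow]

theorem lintegral_W {n : ℕ} {r : ℝ} (hr : 0 < r) : ∫⁻ x : Fin n → ℝ, W r x = cW n := by
  have h : ∫⁻ x : Fin n → ℝ, W 1 (r⁻¹ • x) = ENNReal.ofReal (r ^ n) * cW n := by
    have hm := Measure.map_addHaar_smul (volume : Measure (Fin n → ℝ)) (r := r⁻¹) (by positivity)
    have h2 : ∫⁻ x : Fin n → ℝ, W 1 (r⁻¹ • x) =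
        ∫⁻ x, W 1 x ∂(Measure.map (fun x : Fin n → ℝ => r⁻¹ • x) volume) := by
      rw [lintegral_map (W_meas 1) (measurable_const_smul _)]
    rw [h2]
    rw [show (fun x : Fin n → ℝ => r⁻¹ • x) = (r⁻¹ • · : (Fin n → ℝ) → (Fin n → ℝ)) from rfl, hm]
    rw [lintegral_smul_measure, cW]
    simp only [Module.finrank_fintype_fun_eq_card, Fintype.card_fin, inv_pow, inv_inv, smul_eq_mul]
    rw [abs_of_nonneg (by positivity)]
  have e : ∀ x : Fin n → ℝ, W r x = ENNReal.ofReal ((r⁻¹) ^ n) * W 1 (r⁻¹ • x) := by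
    intro x
    unfold W
    rw [← ENNReal.ofReal_mul (by positivity)]
    congr 1
    rw [norm_smul, Real.norm_of_nonneg (by positivity)]
    simp only [inv_one, one_pow, one_mul, div_one]
    congr 3
    field_simp
  simp_rw [e]
  rw [lintegral_const_mul]
  · rw [h, ← mul_assoc, ← ENNReal.ofReal_mul (by positivity), ← mul_pow, inv_mul_cancel₀ hr.ne']
    simp
  · exact (W_meas 1).comp (measurable_const_smul _)

theorem pi_unif {n : ℕ} {r : ℝ} (hr : 0 < r) : Measure.pi (fun _ : Fin n => unif r) =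
    ((ENNReal.ofReal r)⁻¹ ^ n) • (volume : Measure (Fin n → ℝ)).restrict
      (Set.univ.pi fun _ => Set.Icc 0 r) := by
  have := unif_prob hr
  apply Measure.pi_eq
  intro s hs
  rw [Measure.smul_apply, volume_pi, Measure.restrict_pi_pi, Measure.pi_pi]
  unfold unif
  simp only [Measure.smul_apply, smul_eq_mul]
  rw [Finset.prod_mul_distrib]
  simp

theorem pi_unif_le {n : ℕ} {r : ℝ} (hr : 0 < r) (g : (Fin n → ℝ) → ℝ≥0∞) :
    ∫⁻ y, g y ∂(Measure.pi (fun _ : Fin n => unif r)) ≤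
      ENNReal.ofReal ((r⁻¹) ^ n) * ∫⁻ y, g y := by
  rw [pi_unif hr, lintegral_smul_measure, smul_eq_mul]
  have : (ENNReal.ofReal r)⁻¹ ^ n = ENNReal.ofReal ((r⁻¹) ^ n) := by
    rw [ENNReal.ofReal_pow (by positivity), ENNReal.ofReal_inv_of_pos hr]
  rw [this]
  gcongr
  exact Measure.restrict_le_self

/-- density bound for the boxes -/
theorem box_le {n : ℕ} (v : Fin n → (Fin n → ℝ)) {D r : ℝ} (hr : 0 < r) (hD : 0 < D)
    (hdet : D⁻¹ ≤ |(Matrix.of v).det|) (g : (Fin n → ℝ) → ℝ≥0∞) (hg : Measurable g) :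
    ∫⁻ z, g z ∂(box v r) ≤ ENNReal.ofReal (D * (r⁻¹) ^ n) * ∫⁻ z, g z := by
  unfold box
  rw [lintegral_map hg (lin_meas v)]
  refine (pi_unif_le hr _).trans ?_
  have hdet0 : (Matrix.of v).det ≠ 0 := by
    intro h
    rw [h, abs_zero] at hdet
    have : 0 < D⁻¹ := by positivity
    linarith
  have hT : ((Matrix.of v).transpose).det ≠ 0 := by rwa [Matrix.det_transpose]
  have hmap := Real.map_matrix_volume_pi_eq_smul_volume_pi hT
  have hlin : lin v = Matrix.toLin' ((Matrix.of v).transpose) := by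
    funext y
    rw [Matrix.toLin'_apply, Matrix.mulVec_transpose]
    funext j
    simp [lin, Matrix.vecMul, dotProduct]
  have e : ∫⁻ y, g (lin v y) = ENNReal.ofReal |((Matrix.of v).transpose).det⁻¹| * ∫⁻ z, g z := by
    rw [hlin, ← lintegral_map hg (by rw [← hlin]; exact lin_meas v), hmap,
      lintegral_smul_measure, smul_eq_mul]
  rw [e, ← mul_assoc]
  gcongr
  rw [← ENNReal.ofReal_mul (by positivity)]
  apply ENNReal.ofReal_le_ofReal
  rw [mul_comm]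
  gcongr
  rw [Matrix.det_transpose, abs_inv]
  rw [inv_le_comm₀ (abs_pos.mpr hdet0) hD]
  exact hdet

end BDDK
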