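import Mathlib
import Pool.Agent.BDD.KakKer

/-!
# Averages of the weights over boxes; operators `Kop`
-/

open MeasureTheory Finset
open scoped ENNReal

namespace BDDK

theorem box_ae {n : ℕ} (v : Fin n → (Fin n → ℝ)) {B r : ℝ} (hr : 0 < r)
    (hv : ∀ i, ‖v i‖ ≤ B) : ∀ᵐ z ∂(box v r), ‖z‖ ≤ n * B * r := by
  unfold box
  rw [ae_map_iff (lin_meas v).aemeasurable (measurableSet_le measurable_norm measurable_const)]
  filter_upwards [unif_pi_ae (n := n) hr] with y hy
  unfold lin
  calc ‖∑ i, y i • v i‖ ≤ ∑ i, ‖y i • v i‖ := norm_sum_le _ _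
    _ ≤ ∑ _i : Fin n, r * B := by
        apply Finset.sum_le_sum
        intro i _
        rw [norm_smul]
        have h0 : 0 ≤ ‖v i‖ := norm_nonneg _
        have := hy i
        rw [Real.norm_of_nonneg this.1]
        exact mul_le_mul this.2 (hv i) h0 hr.le
    _ = n * B * r := by simp; ring

theorem W_far {n : ℕ} {r r' : ℝ} (hr : 0 < r) (hrr : r ≤ r') (x : Fin n → ℝ) (hx : r' ≤ ‖x‖) :
    W r x ≤ 2 ^ (n + 1) * W r' x := by
  have hr' : 0 < r' := hr.trans_le hrr
  unfold W
  have : (2 : ℝ≥0∞) ^ (n + 1) = ENNReal.ofReal (2 ^ (n + 1)) := by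
    rw [ENNReal.ofReal_pow (by norm_num)]; norm_num
  rw [this, ← ENNReal.ofReal_mul (by positivity)]
  apply ENNReal.ofReal_le_ofReal
  have e : ∀ s : ℝ, 0 < s → (s⁻¹) ^ n * ((1 + ‖x‖ / s)⁻¹) ^ (n + 1) =
      s * ((s + ‖x‖)⁻¹) ^ (n + 1) := by
    intro s hs
    have : 1 + ‖x‖ / s = (s + ‖x‖) / s := by field_simp
    rw [this, inv_div, div_eq_mul_inv, mul_pow, inv_pow, pow_succ s n]
    field_simp
  rw [e r hr, e r' hr']
  have hx0 : 0 ≤ ‖x‖ := norm_nonneg _
  have h1 : (r + ‖x‖)⁻¹ ≤ 2 * (r' + ‖x‖)⁻¹ := by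
    rw [← div_eq_mul_inv, inv_eq_one_div, div_le_div_iff₀ (by positivity) (by positivity)]
    nlinarith
  calc r * ((r + ‖x‖)⁻¹) ^ (n + 1) ≤ r' * (2 * (r' + ‖x‖)⁻¹) ^ (n + 1) := by gcongr
    _ = _ := by rw [mul_pow]; ring

/-- the constant in `box_W_le` -/
noncomputable def C2 (n : ℕ) (B D : ℝ) : ℝ≥0∞ :=
  ENNReal.ofReal (D * (2 + 2 * n * B) ^ (n + 1)) * cW n + 4 ^ (n + 1)

theorem C2_lt_top (n : ℕ) (B D : ℝ) : C2 n B D < ∞ := by
  unfold C2
  apply ENNReal.add_lt_top.mpr
  constructor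
  · exact ENNReal.mul_lt_top ENNReal.ofReal_lt_top (cW_lt_top n)
  · exact ENNReal.pow_lt_top (by norm_num)

theorem box_W_le {n : ℕ} (v : Fin n → (Fin n → ℝ)) {B D r r' : ℝ} (hr : 0 < r) (hrr : r ≤ r')
    (hB : 0 ≤ B) (hD : 0 < D) (hv : ∀ i, ‖v i‖ ≤ B) (hdet : D⁻¹ ≤ |(Matrix.of v).det|)
    (x : Fin n → ℝ) :
    ∫⁻ z, W r (x + z) ∂(box v r') ≤ C2 n B D * W r' x := by
  have hr' : 0 < r' := hr.trans_le hrr
  have hprob := box_prob v hr'
  by_cases hx : ‖x‖ ≤ 2 * n * B * r' + r'
  · have h1 : ∫⁻ z, W r (x + z) ∂(box v r') ≤ ENNReal.ofReal (D * (r'⁻¹) ^ n) * cW n := by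
      refine (box_le v hr' hD hdet _ ((W_meas r).comp (measurable_const_add x))).trans ?_
      have := lintegral_add_left_eq_self (μ := (volume : Measure (Fin n → ℝ))) (W r) x
      rw [lintegral_W hr] at this
      exact mul_le_mul_right this.le _
    refine h1.trans ?_
    have h2 : ENNReal.ofReal (D * (r'⁻¹) ^ n) ≤
        ENNReal.ofReal (D * (2 + 2 * n * B) ^ (n + 1)) * W r' x := by
      unfold W
      rw [← ENNReal.ofReal_mul (by positivity)]
      apply ENNReal.ofReal_le_ofReal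
      have h3 : (1 + ‖x‖ / r') ≤ 2 + 2 * n * B := by
        have : ‖x‖ / r' ≤ 2 * n * B + 1 := by
          rw [div_le_iff₀ hr']; linarith
        linarith
      have h4 : 1 ≤ (2 + 2 * n * B) * (1 + ‖x‖ / r')⁻¹ := by
        rw [← div_eq_mul_inv, one_le_div (by positivity)]; exact h3
      have h5 : 1 ≤ ((2 + 2 * n * B) * (1 + ‖x‖ / r')⁻¹) ^ (n + 1) := one_le_pow₀ h4
      rw [mul_pow] at h5
      calc D * (r'⁻¹) ^ n = D * (r'⁻¹) ^ n * 1 := by ring
        _ ≤ D * (r'⁻¹) ^ n * ((2 + 2 * n * B) ^ (n + 1) * (1 + ‖x‖ / r')⁻¹ ^ (n + 1)) := by gcongr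
        _ = _ := by ring
    calc ENNReal.ofReal (D * (r'⁻¹) ^ n) * cW n
        ≤ (ENNReal.ofReal (D * (2 + 2 * n * B) ^ (n + 1)) * W r' x) * cW n := by gcongr
      _ = ENNReal.ofReal (D * (2 + 2 * n * B) ^ (n + 1)) * cW n * W r' x := by ring
      _ ≤ _ := by
        unfold C2
        gcongr
        exact le_self_add
  · push Not at hx
    have hxr : r' ≤ ‖x‖ := by
      have : 0 ≤ 2 * n * B * r' := by positivity
      linarith
    have h1 : ∀ᵐ z ∂(box v r'), W r (x + z) ≤ 4 ^ (n + 1) * W r' x := by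
      filter_upwards [box_ae v hr' hv] with z hz
      have hzx : ‖z‖ ≤ ‖x‖ / 2 := by linarith
      have h2 : W r (x + z) ≤ 2 ^ (n + 1) * W r x := by
        have hxz : ‖x‖ / 2 ≤ ‖x + z‖ := by
          have : ‖x‖ ≤ ‖x + z‖ + ‖z‖ := by
            calc ‖x‖ = ‖(x + z) - z‖ := by simp
              _ ≤ _ := norm_sub_le _ _
          linarith
        unfold W
        have : (2 : ℝ≥0∞) ^ (n + 1) = ENNReal.ofReal (2 ^ (n + 1)) := by
          rw [ENNReal.ofReal_pow (by norm_num)]; norm_num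
        rw [this, ← ENNReal.ofReal_mul (by positivity)]
        apply ENNReal.ofReal_le_ofReal
        have h3 : (1 + ‖x + z‖ / r)⁻¹ ≤ 2 * (1 + ‖x‖ / r)⁻¹ := by
          rw [← div_eq_mul_inv, inv_eq_one_div, div_le_div_iff₀ (by positivity) (by positivity)]
          have : ‖x‖ / r ≤ 2 * (‖x + z‖ / r) := by
            rw [← mul_div_assoc]; gcongr; linarith
          linarith
        calc (r⁻¹) ^ n * ((1 + ‖x + z‖ / r)⁻¹) ^ (n + 1)
            ≤ (r⁻¹) ^ n * (2 * (1 + ‖x‖ / r)⁻¹) ^ (n + 1) := by gcongr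
          _ = _ := by rw [mul_pow]; ring
      calc W r (x + z) ≤ 2 ^ (n + 1) * W r x := h2
        _ ≤ 2 ^ (n + 1) * (2 ^ (n + 1) * W r' x) := by gcongr; exact W_far hr hrr x hxr
        _ = 4 ^ (n + 1) * W r' x := by rw [← mul_assoc, ← mul_pow]; norm_num
    calc ∫⁻ z, W r (x + z) ∂(box v r') ≤ ∫⁻ _z, 4 ^ (n + 1) * W r' x ∂(box v r') :=
          lintegral_mono_ae h1
      _ = 4 ^ (n + 1) * W r' x := by simp
      _ ≤ _ := by
        unfold C2
        gcongr
        exact le_add_self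

/-- `Kop K g x = ∫ K (y - x) g y dy` -/
noncomputable def Kop {n : ℕ} (K g : (Fin n → ℝ) → ℝ≥0∞) (x : Fin n → ℝ) : ℝ≥0∞ :=
  ∫⁻ y, K (y - x) * g y

theorem Kop_meas {n : ℕ} {K g : (Fin n → ℝ) → ℝ≥0∞} (hK : Measurable K) (hg : Measurable g) :
    Measurable (Kop K g) := by
  unfold Kop
  apply Measurable.lintegral_prod_right
  exact (hK.comp (measurable_snd.sub measurable_fst)).mul (hg.comp measurable_snd)

theorem Kop_mono {n : ℕ} {K g h : (Fin n → ℝ) → ℝ≥0∞} {C : ℝ≥0∞} (hK : Measurable K)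
    (hh : Measurable h) (hgh : ∀ x, g x ≤ C * h x) (x : Fin n → ℝ) :
    Kop K g x ≤ C * Kop K h x := by
  unfold Kop
  rw [← lintegral_const_mul]
  · apply lintegral_mono
    intro y
    calc K (y - x) * g y ≤ K (y - x) * (C * h y) := by gcongr; exact hgh y
      _ = C * (K (y - x) * h y) := by ring
  · exact (hK.comp (measurable_id.sub_const x)).mul hh

/-- translate the average of the weight -/
theorem box_Kop_W {n : ℕ} (v : Fin n → (Fin n → ℝ)) {B D r r' : ℝ} (hr : 0 < r) (hrr : r ≤ r')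
    (hB : 0 ≤ B) (hD : 0 < D) (hv : ∀ i, ‖v i‖ ≤ B) (hdet : D⁻¹ ≤ |(Matrix.of v).det|)
    {G : (Fin n → ℝ) → ℝ≥0∞} (hG : Measurable G) (x : Fin n → ℝ) :
    ∫⁻ z, Kop (W r) G (x + z) ∂(box v r') ≤ C2 n B D * Kop (W r') G x := by
  have hr' : 0 < r' := hr.trans_le hrr
  have hprob := box_prob v hr'
  unfold Kop
  rw [lintegral_lintegral_swap]
  · rw [← lintegral_const_mul]
    · apply lintegral_mono
      intro y
      show ∫⁻ z, W r (y - (x + z)) * G y ∂(box v r') ≤ C2 n B D * (W r' (y - x) * G y)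
      rw [lintegral_mul_const]
      · have : ∀ z, W r (y - (x + z)) = W r ((x - y) + z) := by
          intro z
          rw [W_sub_comm]; congr 1; abel
        simp_rw [this]
        rw [W_sub_comm r' y x, ← mul_assoc]
        gcongr
        exact box_W_le v hr hrr hB hD hv hdet (x - y)
      · apply (W_meas r).comp
        fun_prop
    · exact ((W_meas r').comp (measurable_id.sub_const x)).mul hG
  · apply Measurable.aemeasurable
    apply Measurable.mul
    · apply (W_meas r).comp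
      fun_prop
    · exact hG.comp measurable_snd

/-- the smoothed function is almost constant in the direction of the tube -/
theorem shift_Kop {n : ℕ} {r R : ℝ} (hr : 0 < r) {CK : ℝ≥0∞}
    {K g : (Fin n → ℝ) → ℝ≥0∞} (hKm : Measurable K) (hg : Measurable g) (w : Fin n → ℝ)
    (hK : ∀ x t, |t| ≤ R → K (x + t • w) ≤ CK * K x) (u : Fin n → ℝ) (x : Fin n → ℝ) (t : ℝ)
    (ht : |t| ≤ R) (htr : |t| * ‖w - u‖ ≤ r) :
    Kop (W r) (Kop K g) (x + t • u) ≤ 2 ^ (n + 1) * CK * Kop (W r) (Kop K g) x := by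
  have h1 : Kop (W r) (Kop K g) (x + t • u) =
      ∫⁻ y, W r ((y + t • w) - (x + t • u)) * Kop K g (y + t • w) := by
    have := lintegral_add_right_eq_self (μ := (volume : Measure (Fin n → ℝ)))
      (fun y => W r (y - (x + t • u)) * Kop K g y) (t • w)
    exact this.symm
  rw [h1]
  have h2 : ∀ y, Kop K g (y + t • w) ≤ CK * Kop K g y := by
    intro y
    unfold Kop
    rw [← lintegral_const_mul]
    · apply lintegral_mono
      intro z
      show K (z - (y + t • w)) * g z ≤ CK * (K (z - y) * g z)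
      rw [← mul_assoc]
      gcongr
      have := hK (z - y) (-t) (by rwa [abs_neg])
      rw [show z - (y + t • w) = z - y + (-t) • w by rw [neg_smul]; abel]
      exact this
    · exact (hKm.comp (measurable_id.sub_const y)).mul hg
  have h3 : ∀ y, W r ((y + t • w) - (x + t • u)) ≤ 2 ^ (n + 1) * W r (y - x) := by
    intro y
    rw [show (y + t • w) - (x + t • u) = (y - x) + t • (w - u) by rw [smul_sub]; abel]
    apply W_add_le_two hr
    rw [norm_smul, Real.norm_eq_abs]
    exact htr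
  calc ∫⁻ y, W r ((y + t • w) - (x + t • u)) * Kop K g (y + t • w)
      ≤ ∫⁻ y, (2 ^ (n + 1) * CK) * (W r (y - x) * Kop K g y) := by
        apply lintegral_mono
        intro y
        calc W r ((y + t • w) - (x + t • u)) * Kop K g (y + t • w)
            ≤ (2 ^ (n + 1) * W r (y - x)) * (CK * Kop K g y) := mul_le_mul' (h3 y) (h2 y)
          _ = _ := by ring
    _ = 2 ^ (n + 1) * CK * Kop (W r) (Kop K g) x := by
        rw [lintegral_const_mul]
        · rfl
        · exact ((W_meas r).comp (measurable_id.sub_const x)).mul (Kop_meas hKm hg)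

theorem Kop_Kop_le {n : ℕ} {r : ℝ} {CK : ℝ≥0∞}
    {K g : (Fin n → ℝ) → ℝ≥0∞} (hKm : Measurable K) (hg : Measurable g)
    (hK : ∀ x, Kop (W r) (fun y => K (x - y)) 0 ≤ CK * W r x) (x : Fin n → ℝ) :
    Kop (W r) (Kop K g) x ≤ CK * Kop (W r) g x := by
  have h1 : Kop (W r) (Kop K g) x = ∫⁻ y, ∫⁻ z, W r (y - x) * (K (z - y) * g z) := by
    unfold Kop
    refine lintegral_congr fun y => ?_
    rw [lintegral_const_mul]
    exact (hKm.comp (measurable_id.sub_const y)).mul hg
  rw [h1, lintegral_lintegral_swap]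
  · unfold Kop
    rw [← lintegral_const_mul]
    · apply lintegral_mono
      intro z
      show ∫⁻ y, W r (y - x) * (K (z - y) * g z) ≤ CK * (W r (z - x) * g z)
      have h2 : ∫⁻ y, W r (y - x) * (K (z - y) * g z) =
          (∫⁻ y, W r (y - x) * K (z - y)) * g z := by
        rw [← lintegral_mul_const]
        · refine lintegral_congr fun y => ?_
          ring
        · exact ((W_meas r).comp (measurable_id.sub_const x)).mul
            (hKm.comp (measurable_id.const_sub z))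
      rw [h2, ← mul_assoc]
      gcongr
      have h3 := hK (z - x)
      unfold Kop at h3
      have h4 : ∫⁻ y, W r (y - x) * K (z - y) = ∫⁻ y, W r (y - 0) * K (z - x - y) := by
        have := lintegral_add_right_eq_self (μ := (volume : Measure (Fin n → ℝ)))
          (fun y => W r (y - x) * K (z - y)) x
        rw [← this]
        refine lintegral_congr fun y => ?_
        simp only [add_sub_cancel_right, sub_zero]
        congr 2
        abel
      rw [h4]
      exact h3
    · exact ((W_meas r).comp (measurable_id.sub_const x)).mul hg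
  · apply Measurable.aemeasurable
    apply Measurable.mul
    · exact (W_meas r).comp (measurable_fst.sub_const x)
    · exact (hKm.comp (measurable_snd.sub measurable_fst)).mul (hg.comp measurable_snd)

end BDDK
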