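import Mathlib
import Pool.Agent.BDD.KakKer2
import Pool.Agent.BDD.KakHolder

/-!
# Ball inflation (pointwise form, tubes with almost equal directions in each family)
-/

open MeasureTheory Finset
open scoped ENNReal

namespace BDDK

/-- the constant of one step -/
noncomputable def C1 (n : ℕ) (B D : ℝ) (CK : ℝ≥0∞) : ℝ≥0∞ := 2 ^ (n + 1) * CK + C2 n B D

theorem C1_lt_top (n : ℕ) (B D : ℝ) {CK : ℝ≥0∞} (h : CK ≠ ∞) : C1 n B D CK < ∞ := by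
  unfold C1
  apply ENNReal.add_lt_top.mpr
  exact ⟨ENNReal.mul_lt_top (ENNReal.pow_lt_top (by norm_num)) h.lt_top, C2_lt_top n B D⟩

/-- weighted version, `l^1` sums. -/
theorem BI_l1 {n : ℕ} (hn : 2 ≤ n) {B D : ℝ} (hB : 0 ≤ B) (hD : 0 < D) {CK : ℝ≥0∞}
    {ν q r0 R : ℝ} (m : ℕ) (hq : 1 ≤ q) (hqν : q * ν ≤ 1) (hr0 : 0 < r0)
    (hR : R = r0 * q ^ m)
    (v : Fin n → (Fin n → ℝ)) (hv : ∀ i, ‖v i‖ ≤ B) (hdet : D⁻¹ ≤ |(Matrix.of v).det|)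
    {ι : Type*} (T : Fin n → Finset ι) (w : Fin n → ι → (Fin n → ℝ))
    (hw : ∀ i, ∀ τ ∈ T i, ‖w i τ - v i‖ ≤ ν)
    (K g : Fin n → ι → (Fin n → ℝ) → ℝ≥0∞)
    (hKm : ∀ i τ, Measurable (K i τ)) (hgm : ∀ i τ, Measurable (g i τ))
    (hK1 : ∀ i, ∀ τ ∈ T i, ∀ x t, |t| ≤ R → K i τ (x + t • w i τ) ≤ CK * K i τ x)
    (hK2 : ∀ i, ∀ τ ∈ T i, ∀ x, Kop (W R) (fun y => K i τ (x - y)) 0 ≤ CK * W R x)
    (hg : ∀ i, ∀ τ ∈ T i, ∀ x, g i τ x ≤ CK * Kop (K i τ) (g i τ) x)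
    (c : Fin n → ι → ℝ≥0∞) (x : Fin n → ℝ) :
    ∫⁻ z, ∏ i, (∑ τ ∈ T i, c i τ * Kop (W r0) (g i τ) (x + z)) ^ (1 / ((n : ℝ) - 1))
        ∂(kap v (fun k => r0 * q ^ k) m)
      ≤ (CK ^ (2 * (n : ℝ) / ((n : ℝ) - 1)) * (C1 n B D CK ^ (2 * (n : ℝ) / ((n : ℝ) - 1))) ^ m) *
        ∏ i, (∑ τ ∈ T i, c i τ * Kop (W R) (g i τ) x) ^ (1 / ((n : ℝ) - 1)) := by
  have hn1 : (0 : ℝ) < (n : ℝ) - 1 := by
    have : (2 : ℝ) ≤ n := by exact_mod_cast hn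
    linarith
  have hp0 : 0 ≤ 1 / ((n : ℝ) - 1) := by positivity
  have hq0 : 0 < q := by linarith
  set r : ℕ → ℝ := fun k => r0 * q ^ k with hrdef
  have hrpos : ∀ k, 0 < r k := fun k => by simp only [hrdef]; positivity
  have hrmono : ∀ j k, j ≤ k → r j ≤ r k := by
    intro j k hjk
    simp only [hrdef]
    gcongr
  set F : ℕ → Fin n → (Fin n → ℝ) → ℝ≥0∞ := fun k i x =>
    ∑ τ ∈ T i, c i τ * Kop (W (r k)) (Kop (K i τ) (g i τ)) x with hFdef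
  have hKKm : ∀ k i τ, Measurable (Kop (W (r k)) (Kop (K i τ) (g i τ))) := fun k i τ =>
    Kop_meas (W_meas _) (Kop_meas (hKm i τ) (hgm i τ))
  have hFm : ∀ k i, Measurable (F k i) := by
    intro k i
    apply Finset.measurable_sum
    intro τ _
    exact (hKKm k i τ).const_mul _
  have h1 : ∀ k, k < m → ∀ i x t, |t| ≤ r (k + 1) →
      F k i (x + t • v i) ≤ C1 n B D CK * F k i x := by
    intro k hk i x t ht
    simp only [hFdef]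
    rw [Finset.mul_sum]
    apply Finset.sum_le_sum
    intro τ hτ
    have hRk : r (k + 1) ≤ R := by
      rw [hR]; exact hrmono _ _ hk
    have := shift_Kop (hrpos k) (hKm i τ) (hgm i τ) (w i τ) (hK1 i τ hτ) (v i) x t
      (ht.trans hRk) (by
        calc |t| * ‖w i τ - v i‖ ≤ r (k + 1) * ν := by
              gcongr
              exact hw i τ hτ
          _ = r k * (q * ν) := by simp only [hrdef, pow_succ]; ring
          _ ≤ r k * 1 := mul_le_mul_of_nonneg_left hqν (hrpos k).le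
          _ = r k := by ring)
    calc c i τ * Kop (W (r k)) (Kop (K i τ) (g i τ)) (x + t • v i)
        ≤ c i τ * (2 ^ (n + 1) * CK * Kop (W (r k)) (Kop (K i τ) (g i τ)) x) := by gcongr
      _ ≤ c i τ * (C1 n B D CK * Kop (W (r k)) (Kop (K i τ) (g i τ)) x) := by
          gcongr
          unfold C1
          exact le_self_add
      _ = _ := by ring
  have h2 : ∀ k, k < m → ∀ i x, ∫⁻ z, F k i (x + z) ∂(box v (r (k + 1))) ≤
      C1 n B D CK * F (k + 1) i x := by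
    intro k hk i x
    simp only [hFdef]
    rw [lintegral_finsetSum]
    · rw [Finset.mul_sum]
      apply Finset.sum_le_sum
      intro τ hτ
      rw [lintegral_const_mul]
      · calc c i τ * ∫⁻ z, Kop (W (r k)) (Kop (K i τ) (g i τ)) (x + z) ∂(box v (r (k + 1)))
            ≤ c i τ * (C2 n B D * Kop (W (r (k + 1))) (Kop (K i τ) (g i τ)) x) := by
              gcongr
              exact box_Kop_W v (hrpos k) (hrmono k (k + 1) (by omega)) hB hD hv hdet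
                (Kop_meas (hKm i τ) (hgm i τ)) x
          _ ≤ c i τ * (C1 n B D CK * Kop (W (r (k + 1))) (Kop (K i τ) (g i τ)) x) := by
              gcongr
              unfold C1
              exact le_add_self
          _ = _ := by ring
      · exact (hKKm k i τ).comp (measurable_const_add x)
    · intro τ _
      exact ((hKKm k i τ).comp (measurable_const_add x)).const_mul _
  have hms := multi_step hn v r m (fun k _ => hrpos (k + 1)) F hFm h1 h2 x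
  have hstart : ∀ i z, ∑ τ ∈ T i, c i τ * Kop (W r0) (g i τ) z ≤ CK * F 0 i z := by
    intro i z
    simp only [hFdef]
    rw [Finset.mul_sum]
    apply Finset.sum_le_sum
    intro τ hτ
    have hr00 : r 0 = r0 := by simp [hrdef]
    rw [hr00]
    calc c i τ * Kop (W r0) (g i τ) z ≤ c i τ * (CK * Kop (W r0) (Kop (K i τ) (g i τ)) z) := by
          gcongr
          exact Kop_mono (W_meas r0) (Kop_meas (hKm i τ) (hgm i τ)) (hg i τ hτ) z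
      _ = _ := by ring
  have hend : ∀ i, F m i x ≤ CK * ∑ τ ∈ T i, c i τ * Kop (W R) (g i τ) x := by
    intro i
    simp only [hFdef]
    rw [Finset.mul_sum]
    apply Finset.sum_le_sum
    intro τ hτ
    have hrm : r m = R := by rw [hR]
    rw [hrm]
    calc c i τ * Kop (W R) (Kop (K i τ) (g i τ)) x ≤ c i τ * (CK * Kop (W R) (g i τ) x) := by
          gcongr
          exact Kop_Kop_le (hKm i τ) (hgm i τ) (hK2 i τ hτ) x
      _ = _ := by ring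
  have hprodC : ∀ G : Fin n → ℝ≥0∞, ∏ i, (CK * G i) ^ (1 / ((n : ℝ) - 1)) =
      CK ^ ((n : ℝ) / ((n : ℝ) - 1)) * ∏ i, (G i) ^ (1 / ((n : ℝ) - 1)) := by
    intro G
    simp_rw [ENNReal.mul_rpow_of_nonneg _ _ hp0]
    rw [Finset.prod_mul_distrib, Finset.prod_const, Finset.card_univ, Fintype.card_fin,
      ← ENNReal.rpow_natCast, ← ENNReal.rpow_mul]
    congr 2
    field_simp
  calc ∫⁻ z, ∏ i, (∑ τ ∈ T i, c i τ * Kop (W r0) (g i τ) (x + z)) ^ (1 / ((n : ℝ) - 1))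
        ∂(kap v r m)
      ≤ ∫⁻ z, CK ^ ((n : ℝ) / ((n : ℝ) - 1)) *
          ∏ i, (F 0 i (x + z)) ^ (1 / ((n : ℝ) - 1)) ∂(kap v r m) := by
        apply lintegral_mono
        intro z
        show _ ≤ CK ^ ((n : ℝ) / ((n : ℝ) - 1)) * ∏ i, (F 0 i (x + z)) ^ (1 / ((n : ℝ) - 1))
        rw [← hprodC]
        exact Finset.prod_le_prod' fun i _ => ENNReal.rpow_le_rpow (hstart i (x + z)) hp0
    _ = CK ^ ((n : ℝ) / ((n : ℝ) - 1)) *
          ∫⁻ z, ∏ i, (F 0 i (x + z)) ^ (1 / ((n : ℝ) - 1)) ∂(kap v r m) := by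
        rw [lintegral_const_mul]
        apply Finset.measurable_prod
        intro i _
        exact ((hFm 0 i).comp (measurable_const_add x)).pow_const _
    _ ≤ CK ^ ((n : ℝ) / ((n : ℝ) - 1)) * ((C1 n B D CK ^ (2 * (n : ℝ) / ((n : ℝ) - 1))) ^ m *
          ∏ i, (F m i x) ^ (1 / ((n : ℝ) - 1))) := by gcongr
    _ ≤ CK ^ ((n : ℝ) / ((n : ℝ) - 1)) * ((C1 n B D CK ^ (2 * (n : ℝ) / ((n : ℝ) - 1))) ^ m *
          (CK ^ ((n : ℝ) / ((n : ℝ) - 1)) *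
            ∏ i, (∑ τ ∈ T i, c i τ * Kop (W R) (g i τ) x) ^ (1 / ((n : ℝ) - 1)))) := by
        rw [← hprodC]
        gcongr with i _
        exact hend i
    _ = _ := by
        have e2 : CK ^ (2 * (n : ℝ) / ((n : ℝ) - 1)) =
            CK ^ ((n : ℝ) / ((n : ℝ) - 1)) * CK ^ ((n : ℝ) / ((n : ℝ) - 1)) := by
          rw [← ENNReal.rpow_add_of_nonneg _ _ (by positivity) (by positivity)]
          congr 1
          ring
        rw [e2]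
        ring

theorem one_le_C1 (n : ℕ) (B D : ℝ) (CK : ℝ≥0∞) : 1 ≤ C1 n B D CK := by
  have h4 : (1 : ℝ≥0∞) ≤ 4 ^ (n + 1) := one_le_pow₀ (by norm_num)
  calc (1 : ℝ≥0∞) ≤ 4 ^ (n + 1) := h4
    _ ≤ C2 n B D := le_add_self
    _ ≤ _ := le_add_self

/-- for probability measures, exponent `θ ≤ 1` -/
theorem lintegral_rpow_le_of_le_one {Z : Type*} [MeasurableSpace Z] (κ : Measure Z)
    [IsProbabilityMeasure κ] {θ : ℝ} (h0 : 0 ≤ θ) (h1 : θ ≤ 1) {Y : Z → ℝ≥0∞}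
    (hY : Measurable Y) : ∫⁻ z, (Y z) ^ θ ∂κ ≤ (∫⁻ z, Y z ∂κ) ^ θ := by
  have h := ENNReal.lintegral_mul_norm_pow_le (μ := κ) (f := Y) (g := fun _ => 1)
    hY.aemeasurable aemeasurable_const h0 (sub_nonneg.mpr h1) (by ring)
  simpa using h

/-- weighted version, `l^1` sums, smaller exponents. -/
theorem BI_l1' {n : ℕ} (hn : 2 ≤ n) {B D : ℝ} (hB : 0 ≤ B) (hD : 0 < D) {CK : ℝ≥0∞}
    (hCK : 1 ≤ CK)
    {ν q r0 R : ℝ} (m : ℕ) (hq : 1 ≤ q) (hqν : q * ν ≤ 1) (hr0 : 0 < r0)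
    (hR : R = r0 * q ^ m)
    (v : Fin n → (Fin n → ℝ)) (hv : ∀ i, ‖v i‖ ≤ B) (hdet : D⁻¹ ≤ |(Matrix.of v).det|)
    {ι : Type*} (T : Fin n → Finset ι) (w : Fin n → ι → (Fin n → ℝ))
    (hw : ∀ i, ∀ τ ∈ T i, ‖w i τ - v i‖ ≤ ν)
    (K g : Fin n → ι → (Fin n → ℝ) → ℝ≥0∞)
    (hKm : ∀ i τ, Measurable (K i τ)) (hgm : ∀ i τ, Measurable (g i τ))
    (hK1 : ∀ i, ∀ τ ∈ T i, ∀ x t, |t| ≤ R → K i τ (x + t • w i τ) ≤ CK * K i τ x)
    (hK2 : ∀ i, ∀ τ ∈ T i, ∀ x, Kop (W R) (fun y => K i τ (x - y)) 0 ≤ CK * W R x)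
    (hg : ∀ i, ∀ τ ∈ T i, ∀ x, g i τ x ≤ CK * Kop (K i τ) (g i τ) x)
    {p : ℝ} (hp0 : 0 ≤ p) (hp1 : p ≤ 1 / ((n : ℝ) - 1))
    (c : Fin n → ι → ℝ≥0∞) (x : Fin n → ℝ) :
    ∫⁻ z, ∏ i, (∑ τ ∈ T i, c i τ * Kop (W r0) (g i τ) (x + z)) ^ p
        ∂(kap v (fun k => r0 * q ^ k) m)
      ≤ (CK ^ (2 * (n : ℝ) / ((n : ℝ) - 1)) * (C1 n B D CK ^ (2 * (n : ℝ) / ((n : ℝ) - 1))) ^ m) *
        ∏ i, (∑ τ ∈ T i, c i τ * Kop (W R) (g i τ) x) ^ p := by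
  have hn1 : (0 : ℝ) < (n : ℝ) - 1 := by
    have : (2 : ℝ) ≤ n := by exact_mod_cast hn
    linarith
  have hq0 : 0 < q := by linarith
  have hkp := kap_prob v (m := m) (r := fun k => r0 * q ^ k) (fun k _ => by positivity)
  have h := BI_l1 hn hB hD m hq hqν hr0 hR v hv hdet T w hw K g hKm hgm hK1 hK2 hg c x
  set θ : ℝ := p * ((n : ℝ) - 1) with hθ
  have hθ0 : 0 ≤ θ := by positivity
  have hθ1 : θ ≤ 1 := by
    rw [hθ, ← le_div_iff₀ hn1]; exact hp1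
  have hpθ : 1 / ((n : ℝ) - 1) * θ = p := by rw [hθ]; field_simp
  set A : ℝ≥0∞ := CK ^ (2 * (n : ℝ) / ((n : ℝ) - 1)) *
    (C1 n B D CK ^ (2 * (n : ℝ) / ((n : ℝ) - 1))) ^ m with hA
  have hA1 : 1 ≤ A := by
    have h1 : (1 : ℝ≥0∞) ≤ CK ^ (2 * (n : ℝ) / ((n : ℝ) - 1)) := by
      rw [← ENNReal.one_rpow (2 * (n : ℝ) / ((n : ℝ) - 1))]
      exact ENNReal.rpow_le_rpow hCK (by positivity)
    have h2 : (1 : ℝ≥0∞) ≤ C1 n B D CK ^ (2 * (n : ℝ) / ((n : ℝ) - 1)) := by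
      rw [← ENNReal.one_rpow (2 * (n : ℝ) / ((n : ℝ) - 1))]
      exact ENNReal.rpow_le_rpow (one_le_C1 n B D CK) (by positivity)
    calc (1 : ℝ≥0∞) = 1 * 1 := by simp
      _ ≤ A := mul_le_mul' h1 (one_le_pow₀ h2)
  have hpow : ∀ X : Fin n → ℝ≥0∞, ∏ i, (X i) ^ p = (∏ i, (X i) ^ (1 / ((n : ℝ) - 1))) ^ θ := by
    intro X
    rw [← ENNReal.prod_rpow_of_nonneg hθ0]
    refine Finset.prod_congr rfl fun i _ => ?_
    rw [← ENNReal.rpow_mul, hpθ]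
  simp_rw [hpow]
  have hYm : Measurable (fun z => ∏ i, (∑ τ ∈ T i, c i τ * Kop (W r0) (g i τ) (x + z)) ^
      (1 / ((n : ℝ) - 1))) := by
    apply Finset.measurable_prod
    intro i _
    apply Measurable.pow_const
    apply Finset.measurable_sum
    intro τ _
    exact ((Kop_meas (W_meas r0) (hgm i τ)).comp (measurable_const_add x)).const_mul _
  calc _ ≤ (∫⁻ z, ∏ i, (∑ τ ∈ T i, c i τ * Kop (W r0) (g i τ) (x + z)) ^ (1 / ((n : ℝ) - 1))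
        ∂(kap v (fun k => r0 * q ^ k) m)) ^ θ := lintegral_rpow_le_of_le_one _ hθ0 hθ1 hYm
    _ ≤ (A * ∏ i, (∑ τ ∈ T i, c i τ * Kop (W R) (g i τ) x) ^ (1 / ((n : ℝ) - 1))) ^ θ :=
        ENNReal.rpow_le_rpow h hθ0
    _ = A ^ θ * (∏ i, (∑ τ ∈ T i, c i τ * Kop (W R) (g i τ) x) ^ (1 / ((n : ℝ) - 1))) ^ θ :=
        ENNReal.mul_rpow_of_nonneg _ _ hθ0
    _ ≤ A * (∏ i, (∑ τ ∈ T i, c i τ * Kop (W R) (g i τ) x) ^ (1 / ((n : ℝ) - 1))) ^ θ := by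
        gcongr
        calc A ^ θ ≤ A ^ (1 : ℝ) := ENNReal.rpow_le_rpow_of_exponent_le hA1 hθ1
          _ = A := ENNReal.rpow_one A

/-- ball inflation, pointwise form -/
theorem BI_pt {n : ℕ} (hn : 2 ≤ n) {B D : ℝ} (hB : 0 ≤ B) (hD : 0 < D) {CK : ℝ≥0∞}
    (hCK : 1 ≤ CK)
    {ν q r0 R : ℝ} (m : ℕ) (hq : 1 ≤ q) (hqν : q * ν ≤ 1) (hr0 : 0 < r0)
    (hR : R = r0 * q ^ m)
    (v : Fin n → (Fin n → ℝ)) (hv : ∀ i, ‖v i‖ ≤ B) (hdet : D⁻¹ ≤ |(Matrix.of v).det|)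
    {ι : Type*} (T : Fin n → Finset ι) (w : Fin n → ι → (Fin n → ℝ))
    (hw : ∀ i, ∀ τ ∈ T i, ‖w i τ - v i‖ ≤ ν)
    (K g : Fin n → ι → (Fin n → ℝ) → ℝ≥0∞)
    (hKm : ∀ i τ, Measurable (K i τ)) (hgm : ∀ i τ, Measurable (g i τ))
    (hK1 : ∀ i, ∀ τ ∈ T i, ∀ x t, |t| ≤ R → K i τ (x + t • w i τ) ≤ CK * K i τ x)
    (hK2 : ∀ i, ∀ τ ∈ T i, ∀ x, Kop (W R) (fun y => K i τ (x - y)) 0 ≤ CK * W R x)
    (hg : ∀ i, ∀ τ ∈ T i, ∀ x, g i τ x ≤ CK * Kop (K i τ) (g i τ) x)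
    {s e : ℝ} (hs0 : 0 < s) (hs1 : s ≤ 1) (he0 : 0 ≤ e) (he : e * s ≤ 1 / ((n : ℝ) - 1))
    (x : Fin n → ℝ)
    (hfin : ∀ i, ∀ τ ∈ T i, Kop (W R) (g i τ) x ≠ ∞) :
    ∫⁻ z, ∏ i, (∑ τ ∈ T i, (Kop (W r0) (g i τ) (x + z)) ^ s) ^ e
        ∂(kap v (fun k => r0 * q ^ k) m)
      ≤ (CK ^ (2 * (n : ℝ) / ((n : ℝ) - 1)) * (C1 n B D CK ^ (2 * (n : ℝ) / ((n : ℝ) - 1))) ^ m) *
        ∏ i, (∑ τ ∈ T i, (Kop (W R) (g i τ) x) ^ s) ^ e := by
  have hn1 : (0 : ℝ) < (n : ℝ) - 1 := by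
    have : (2 : ℝ) ≤ n := by exact_mod_cast hn
    linarith
  have hRpos : 0 < R := by rw [hR]; positivity
  refine multi_holder (kap v (fun k => r0 * q ^ k) m) hs0 hs1 (p := e * s) (by positivity) rfl T
    (fun i τ => Kop (W R) (g i τ) x) (fun i τ z => Kop (W r0) (g i τ) (x + z)) _ hfin ?_ ?_ ?_
  · intro i τ _ h0 z
    unfold Kop at h0 ⊢
    rw [lintegral_eq_zero_iff] at h0
    · have h1 : ∀ᵐ y ∂(volume : Measure (Fin n → ℝ)), g i τ y = 0 := by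
        filter_upwards [h0] with y hy
        simp only [Pi.zero_apply, mul_eq_zero] at hy
        rcases hy with hy | hy
        · exact absurd hy (W_pos hRpos _).ne'
        · exact hy
      rw [lintegral_eq_zero_iff]
      · filter_upwards [h1] with y hy
        simp [hy]
      · exact ((W_meas r0).comp (measurable_id.sub_const _)).mul (hgm i τ)
    · exact ((W_meas R).comp (measurable_id.sub_const _)).mul (hgm i τ)
  · intro i τ _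
    exact (Kop_meas (W_meas r0) (hgm i τ)).comp (measurable_const_add x)
  · intro c _
    exact BI_l1' hn hB hD hCK m hq hqν hr0 hR v hv hdet T w hw K g hKm hgm hK1 hK2 hg
      (by positivity) he c x

end BDDK
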