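import Mathlib
import Pool.Agent.BDD.KakBI

/-!
# Ball inflation on a measure space with a measure preserving `ℝ^n`-action
-/

open MeasureTheory Finset
open scoped ENNReal

namespace BDDK

/-- a jointly measurable, measure preserving action of `ℝ^n` -/
structure Flow {n : ℕ} {Ω : Type*} [MeasurableSpace Ω] (μ : Measure Ω)
    (T : (Fin n → ℝ) → Ω → Ω) : Prop where
  meas : Measurable (fun p : (Fin n → ℝ) × Ω => T p.1 p.2)
  add : ∀ x y ω, T (x + y) ω = T x (T y ω)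
  pres : ∀ x, MeasurePreserving (T x) μ μ

/-- average of `G` along the flow: `∫ K y * G (T y ω) dy` -/
noncomputable def Av {n : ℕ} {Ω : Type*} (T : (Fin n → ℝ) → Ω → Ω) (K : (Fin n → ℝ) → ℝ≥0∞)
    (G : Ω → ℝ≥0∞) (ω : Ω) : ℝ≥0∞ := ∫⁻ y, K y * G (T y ω)

variable {n : ℕ} {Ω : Type*} [MeasurableSpace Ω] {μ : Measure Ω} {T : (Fin n → ℝ) → Ω → Ω}

theorem Av_eq_Kop (hT : Flow μ T) (K : (Fin n → ℝ) → ℝ≥0∞) (G : Ω → ℝ≥0∞) (ω : Ω)
    (x : Fin n → ℝ) : Kop K (fun y => G (T y ω)) x = Av T K G (T x ω) := by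
  unfold Kop Av
  have := lintegral_add_right_eq_self (μ := (volume : Measure (Fin n → ℝ)))
    (fun y => K (y - x) * G (T y ω)) x
  rw [← this]
  refine lintegral_congr fun y => ?_
  simp only [add_sub_cancel_right]
  rw [hT.add]

theorem Av_meas (hT : Flow μ T) {K : (Fin n → ℝ) → ℝ≥0∞} (hK : Measurable K)
    {G : Ω → ℝ≥0∞} (hG : Measurable G) : Measurable (Av T K G) := by
  unfold Av
  apply Measurable.lintegral_prod_right
  apply Measurable.mul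
  · exact hK.comp measurable_snd
  · exact hG.comp (hT.meas.comp measurable_swap)

theorem Flow.orbit_meas (hT : Flow μ T) (ω : Ω) : Measurable (fun x => T x ω) :=
  hT.meas.comp (measurable_id.prodMk measurable_const)

/-- averages with respect to a probability measure disappear after integration -/
theorem lintegral_flow [SFinite μ] (hT : Flow μ T) (κ : Measure (Fin n → ℝ)) [IsProbabilityMeasure κ]
    {P : Ω → ℝ≥0∞} (hP : Measurable P) : ∫⁻ ω, ∫⁻ z, P (T z ω) ∂κ ∂μ = ∫⁻ ω, P ω ∂μ := by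
  rw [lintegral_lintegral_swap]
  · have : ∀ z, ∫⁻ ω, P (T z ω) ∂μ = ∫⁻ ω, P ω ∂μ := fun z => (hT.pres z).lintegral_comp hP
    simp_rw [this]
    simp
  · exact (hP.comp (hT.meas.comp measurable_swap)).aemeasurable

/-- ball inflation after integration, families with almost equal directions -/
theorem BI_int [SFinite μ] (hT : Flow μ T) (hn : 2 ≤ n) {B D : ℝ} (hB : 0 ≤ B) (hD : 0 < D)
    {CK : ℝ≥0∞} (hCK : 1 ≤ CK) {ν q r0 R : ℝ} (m : ℕ) (hq : 1 ≤ q) (hqν : q * ν ≤ 1)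
    (hr0 : 0 < r0)
    (hR : R = r0 * q ^ m)
    (v : Fin n → (Fin n → ℝ)) (hv : ∀ i, ‖v i‖ ≤ B) (hdet : D⁻¹ ≤ |(Matrix.of v).det|)
    {ι : Type*} (S : Fin n → Finset ι) (w : Fin n → ι → (Fin n → ℝ))
    (hw : ∀ i, ∀ τ ∈ S i, ‖w i τ - v i‖ ≤ ν)
    (K : Fin n → ι → (Fin n → ℝ) → ℝ≥0∞) (g : Fin n → ι → Ω → ℝ≥0∞)
    (hKm : ∀ i τ, Measurable (K i τ)) (hgm : ∀ i τ, Measurable (g i τ))
    (hK1 : ∀ i, ∀ τ ∈ S i, ∀ x t, |t| ≤ R → K i τ (x + t • w i τ) ≤ CK * K i τ x)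
    (hK2 : ∀ i, ∀ τ ∈ S i, ∀ x, Kop (W R) (fun y => K i τ (x - y)) 0 ≤ CK * W R x)
    (hg : ∀ i, ∀ τ ∈ S i, ∀ ω, g i τ ω ≤ CK * Av T (K i τ) (g i τ) ω)
    {s e : ℝ} (hs0 : 0 < s) (hs1 : s ≤ 1) (he0 : 0 ≤ e) (he : e * s ≤ 1 / ((n : ℝ) - 1))
    (hfin : ∀ i, ∀ τ ∈ S i, ∀ ω, Av T (W R) (g i τ) ω ≠ ∞) :
    ∫⁻ ω, ∏ i, (∑ τ ∈ S i, (Av T (W r0) (g i τ) ω) ^ s) ^ e ∂μ
      ≤ (CK ^ (2 * (n : ℝ) / ((n : ℝ) - 1)) * (C1 n B D CK ^ (2 * (n : ℝ) / ((n : ℝ) - 1))) ^ m) *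
        ∫⁻ ω, ∏ i, (∑ τ ∈ S i, (Av T (W R) (g i τ) ω) ^ s) ^ e ∂μ := by
  have hq0 : 0 < q := by linarith
  have hkp := kap_prob v (m := m) (r := fun k => r0 * q ^ k) (fun k _ => by positivity)
  have hPm : ∀ r, Measurable (fun ω => ∏ i, (∑ τ ∈ S i, (Av T (W r) (g i τ) ω) ^ s) ^ e) := by
    intro r
    apply Finset.measurable_prod
    intro i _
    apply Measurable.pow_const
    apply Finset.measurable_sum
    intro τ _
    exact (Av_meas hT (W_meas r) (hgm i τ)).pow_const _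
  rw [← lintegral_flow hT (kap v (fun k => r0 * q ^ k) m) (hPm r0)]
  rw [← lintegral_const_mul _ (hPm R)]
  apply lintegral_mono
  intro ω
  have h := BI_pt hn hB hD hCK m hq hqν hr0 hR v hv hdet S w hw K
    (fun i τ y => g i τ (T y ω)) hKm (fun i τ => (hgm i τ).comp (hT.orbit_meas ω)) hK1 hK2
    (fun i τ hτ x => by
      rw [Av_eq_Kop hT]
      exact hg i τ hτ _) hs0 hs1 he0 he 0
    (fun i τ hτ => by
      rw [Av_eq_Kop hT]
      exact hfin i τ hτ _)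
  simp only [Av_eq_Kop hT, zero_add] at h
  refine h.trans ?_
  have hT0 : ∀ (G : Ω → ℝ≥0∞) (r : ℝ), Av T (W r) G (T 0 ω) = Av T (W r) G ω := by
    intro G r
    unfold Av
    refine lintegral_congr fun y => ?_
    rw [← hT.add, add_zero]
  simp only [hT0]
  exact le_rfl

end BDDK
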