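import Mathlib
import Pool.Agent.BDD.KakOmega

/-!
# BDD/AvgBox (OPEN MODULE): averaging a local inequality

PROOF. `κ = Measure.pi (fun _ : Fin n => unif R)` (BDD/KakLW etc.; probability measure, `unif_prob`), equal to
`(ofReal R)⁻¹^n • volume.restrict ([0,R]^n)` (`pi_unif`, BDD/KakKer), so `κ`-a.e. `‖y‖ ≤ R`.
`∫⁻ P dμ = ∫⁻∫⁻ P (T y ω) dκ(y) dμ(ω)` (`lintegral_flow`, BDD/KakOmega). Insert the hypothesis:
`≤ ∫⁻ Q + ∑_s ∫⁻_ω ∫⁻_y 1_{E s}(ω) f s (T y ω) dκ dμ`. Swap the integrals (`lintegral_lintegral_swap`) and use the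
invariance of `μ` under `T (-y)`:
`∫⁻ 1_{E s}(ω) f s (T y ω) dμ = ∫⁻ 1_{E s}(T (-y) ω) f s (T y (T (-y) ω)) dμ = ∫⁻ 1_{E s}(T (-y) ω) f s ω dμ`
(`T y (T (-y) ω) = T 0 ω`, `hf0`). Swap again; the density of `κ` is `R^-n ≤ 2^(n+1) W R y` on `‖y‖ ≤ R`
(`W R y = R^-n (1+‖y‖/R)^-(n+1)`), and `W R (-y) = W R y` (`W_neg`), substitution `y -> -y`
(`lintegral_neg_eq_self` or `MeasureTheory.lintegral_sub_left_eq_self`).
-/

open MeasureTheory Finset
open scoped ENNReal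

namespace BDDK

private theorem AvgBox_pi_le {n : ℕ} {R : ℝ} (hR : 0 < R) (g : (Fin n → ℝ) → ℝ≥0∞)
    (hg : Measurable g) :
    ∫⁻ z, g (-z) ∂(Measure.pi (fun _ : Fin n => unif R)) ≤
      2 ^ (n + 1) * ∫⁻ z, W R z * g z := by
  have hmeas : MeasurableSet (Set.univ.pi fun _ : Fin n => Set.Icc (0 : ℝ) R) :=
    MeasurableSet.univ_pi fun _ => measurableSet_Icc
  have hc : (ENNReal.ofReal R)⁻¹ ^ n ≠ ∞ := by
    apply ENNReal.pow_ne_top
    rw [ENNReal.inv_ne_top]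
    exact (ENNReal.ofReal_pos.2 hR).ne'
  rw [pi_unif hR, lintegral_smul_measure, smul_eq_mul, ← lintegral_const_mul' _ _ hc,
    ← lintegral_indicator hmeas]
  have e1 : ∫⁻ z : Fin n → ℝ, W R z * g z = ∫⁻ z : Fin n → ℝ, W R z * g (-z) := by
    rw [← lintegral_neg_eq_self (fun z : Fin n → ℝ => W R z * g z)]
    refine lintegral_congr fun z => ?_
    rw [W_neg]
  have hm0 : Measurable (fun z : Fin n → ℝ => W R z * g (-z)) :=
    (W_meas R).mul (hg.comp measurable_neg)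
  rw [e1, ← lintegral_const_mul _ hm0]
  apply lintegral_mono
  intro z
  by_cases hz : z ∈ Set.univ.pi fun _ : Fin n => Set.Icc (0 : ℝ) R
  · rw [Set.indicator_of_mem hz]
    show (ENNReal.ofReal R)⁻¹ ^ n * g (-z) ≤ 2 ^ (n + 1) * (W R z * g (-z))
    rw [← mul_assoc]
    gcongr
    have hzR : ‖z‖ ≤ R := by
      rw [pi_norm_le_iff_of_nonneg hR.le]
      intro i
      have := hz i (Set.mem_univ i)
      rw [Real.norm_eq_abs, abs_of_nonneg this.1]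
      exact this.2
    have e2 : (ENNReal.ofReal R)⁻¹ ^ n = ENNReal.ofReal ((R⁻¹) ^ n) := by
      rw [ENNReal.ofReal_pow (by positivity), ENNReal.ofReal_inv_of_pos hR]
    have e3 : (2 : ℝ≥0∞) ^ (n + 1) = ENNReal.ofReal (2 ^ (n + 1)) := by
      rw [ENNReal.ofReal_pow (by norm_num)]; norm_num
    unfold W
    rw [e2, e3, ← ENNReal.ofReal_mul (by positivity)]
    apply ENNReal.ofReal_le_ofReal
    have h1 : (1 : ℝ) ≤ 2 * (1 + ‖z‖ / R)⁻¹ := by
      have h2 : 0 < 1 + ‖z‖ / R := by positivity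
      rw [← div_eq_mul_inv, le_div_iff₀ h2, one_mul]
      have : ‖z‖ / R ≤ 1 := (div_le_one hR).mpr hzR
      linarith
    have h3 : (1 : ℝ) ≤ 2 ^ (n + 1) * ((1 + ‖z‖ / R)⁻¹) ^ (n + 1) := by
      rw [← mul_pow]
      exact one_le_pow₀ h1
    calc (R⁻¹) ^ n = (R⁻¹) ^ n * 1 := (mul_one _).symm
      _ ≤ (R⁻¹) ^ n * (2 ^ (n + 1) * ((1 + ‖z‖ / R)⁻¹) ^ (n + 1)) := by gcongr
      _ = _ := by ring
  · rw [Set.indicator_of_notMem hz]
    exact zero_le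

private theorem AvgBox_ae {n : ℕ} {R : ℝ} (hR : 0 < R) :
    ∀ᵐ z ∂(Measure.pi (fun _ : Fin n => unif R)), ‖z‖ ≤ R := by
  have hmeas : MeasurableSet (Set.univ.pi fun _ : Fin n => Set.Icc (0 : ℝ) R) :=
    MeasurableSet.univ_pi fun _ => measurableSet_Icc
  rw [pi_unif hR]
  apply Measure.ae_smul_measure
  filter_upwards [ae_restrict_mem hmeas] with z hz
  rw [pi_norm_le_iff_of_nonneg hR.le]
  intro i
  have := hz i (Set.mem_univ i)
  rw [Real.norm_eq_abs, abs_of_nonneg this.1]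
  exact this.2

theorem avg_box {n : ℕ} {Ω : Type*} [MeasurableSpace Ω] {μ : Measure Ω} [IsFiniteMeasure μ]
    {T : (Fin n → ℝ) → Ω → Ω} (hT : Flow μ T) {R : ℝ} (hR : 0 < R) {P Q : Ω → ℝ≥0∞}
    (hP : Measurable P) (hQ : Measurable Q) {σ : Type} (𝒮 : Finset σ) (E : σ → Set Ω)
    (hE : ∀ s ∈ 𝒮, MeasurableSet (E s)) (f : σ → Ω → ℝ≥0∞) (hf : ∀ s ∈ 𝒮, Measurable (f s))
    (hf0 : ∀ s ∈ 𝒮, ∀ ω, f s (T 0 ω) = f s ω)
    (h : ∀ ω y, ‖y‖ ≤ R → P (T y ω) ≤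
      Q ω + ∑ s ∈ 𝒮, (E s).indicator (fun _ => (1 : ℝ≥0∞)) ω * f s (T y ω)) :
    ∫⁻ ω, P ω ∂μ ≤ ∫⁻ ω, Q ω ∂μ + 2 ^ (n + 1) * ∑ s ∈ 𝒮, ∫⁻ ω, f s ω *
      Av T (W R) ((E s).indicator (fun _ => (1 : ℝ≥0∞))) ω ∂μ := by
  have := unif_prob hR
  set κ : Measure (Fin n → ℝ) := Measure.pi (fun _ : Fin n => unif R) with hκ
  have hprob : IsProbabilityMeasure κ := by rw [hκ]; infer_instance
  have hind : ∀ s ∈ 𝒮, Measurable ((E s).indicator (fun _ => (1 : ℝ≥0∞))) := fun s hs =>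
    measurable_const.indicator (hE s hs)
  have hTm : Measurable (fun p : Ω × (Fin n → ℝ) => T p.2 p.1) := hT.meas.comp measurable_swap
  have hTm' : Measurable (fun p : Ω × (Fin n → ℝ) => T (-p.2) p.1) :=
    hT.meas.comp ((measurable_snd.neg).prodMk measurable_fst)
  -- the terms
  have hterm : ∀ s ∈ 𝒮, ∫⁻ ω, ∫⁻ z, (E s).indicator (fun _ => (1 : ℝ≥0∞)) ω * f s (T z ω) ∂κ ∂μ ≤
      2 ^ (n + 1) * ∫⁻ ω, f s ω * Av T (W R) ((E s).indicator (fun _ => (1 : ℝ≥0∞))) ω ∂μ := by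
    intro s hs
    have hm1 : Measurable (Function.uncurry fun (ω : Ω) (z : Fin n → ℝ) =>
        (E s).indicator (fun _ => (1 : ℝ≥0∞)) ω * f s (T z ω)) :=
      ((hind s hs).comp measurable_fst).mul ((hf s hs).comp hTm)
    have hm2 : Measurable (Function.uncurry fun (ω : Ω) (z : Fin n → ℝ) =>
        (E s).indicator (fun _ => (1 : ℝ≥0∞)) (T (-z) ω) * f s ω) :=
      ((hind s hs).comp hTm').mul ((hf s hs).comp measurable_fst)
    rw [lintegral_lintegral_swap hm1.aemeasurable]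
    have e1 : ∀ z : Fin n → ℝ, ∫⁻ ω, (E s).indicator (fun _ => (1 : ℝ≥0∞)) ω * f s (T z ω) ∂μ =
        ∫⁻ ω, (E s).indicator (fun _ => (1 : ℝ≥0∞)) (T (-z) ω) * f s ω ∂μ := by
      intro z
      have hmz : Measurable (fun ω => (E s).indicator (fun _ => (1 : ℝ≥0∞)) ω * f s (T z ω)) :=
        (hind s hs).mul ((hf s hs).comp (hT.pres z).measurable)
      rw [← (hT.pres (-z)).lintegral_comp hmz]
      refine lintegral_congr fun ω => ?_
      rw [← hT.add, add_neg_cancel, hf0 s hs]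
    simp_rw [e1]
    have hm3 : Measurable (fun ω =>
        f s ω * Av T (W R) ((E s).indicator (fun _ => (1 : ℝ≥0∞))) ω) :=
      (hf s hs).mul (Av_meas hT (W_meas R) (hind s hs))
    rw [← lintegral_lintegral_swap hm2.aemeasurable, ← lintegral_const_mul _ hm3]
    apply lintegral_mono
    intro ω
    show ∫⁻ z, (E s).indicator (fun _ => (1 : ℝ≥0∞)) (T (-z) ω) * f s ω ∂κ ≤
      2 ^ (n + 1) * (f s ω * Av T (W R) ((E s).indicator (fun _ => (1 : ℝ≥0∞))) ω)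
    have hmo : Measurable (fun z => (E s).indicator (fun _ => (1 : ℝ≥0∞)) (T z ω)) :=
      (hind s hs).comp (hT.orbit_meas ω)
    have hmo' : Measurable (fun z => (E s).indicator (fun _ => (1 : ℝ≥0∞)) (T (-z) ω)) :=
      hmo.comp measurable_neg
    rw [lintegral_mul_const _ hmo']
    calc (∫⁻ z, (E s).indicator (fun _ => (1 : ℝ≥0∞)) (T (-z) ω) ∂κ) * f s ω
        ≤ (2 ^ (n + 1) * ∫⁻ z, W R z * (E s).indicator (fun _ => (1 : ℝ≥0∞)) (T z ω)) * f s ω := by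
          gcongr
          exact AvgBox_pi_le hR (fun z => (E s).indicator (fun _ => (1 : ℝ≥0∞)) (T z ω)) hmo
      _ = _ := by
          unfold Av
          ring
  rw [← lintegral_flow hT κ hP]
  have hsumm : ∀ s ∈ 𝒮, Measurable (fun ω =>
      ∫⁻ z, (E s).indicator (fun _ => (1 : ℝ≥0∞)) ω * f s (T z ω) ∂κ) := by
    intro s hs
    apply Measurable.lintegral_prod_right
    exact ((hind s hs).comp measurable_fst).mul ((hf s hs).comp hTm)
  calc ∫⁻ ω, ∫⁻ z, P (T z ω) ∂κ ∂μ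
      ≤ ∫⁻ ω, (Q ω + ∑ s ∈ 𝒮,
          ∫⁻ z, (E s).indicator (fun _ => (1 : ℝ≥0∞)) ω * f s (T z ω) ∂κ) ∂μ := by
        apply lintegral_mono
        intro ω
        show ∫⁻ z, P (T z ω) ∂κ ≤ Q ω + ∑ s ∈ 𝒮,
          ∫⁻ z, (E s).indicator (fun _ => (1 : ℝ≥0∞)) ω * f s (T z ω) ∂κ
        have hms : ∀ s ∈ 𝒮, Measurable (fun z =>
            (E s).indicator (fun _ => (1 : ℝ≥0∞)) ω * f s (T z ω)) := fun s hs =>
          measurable_const.mul ((hf s hs).comp (hT.orbit_meas ω))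
        calc ∫⁻ z, P (T z ω) ∂κ
            ≤ ∫⁻ z, (Q ω + ∑ s ∈ 𝒮, (E s).indicator (fun _ => (1 : ℝ≥0∞)) ω * f s (T z ω)) ∂κ := by
              apply lintegral_mono_ae
              filter_upwards [AvgBox_ae (n := n) hR] with z hz
              exact h ω z hz
          _ = _ := by
              rw [lintegral_add_left measurable_const, lintegral_const, measure_univ, mul_one,
                lintegral_finsetSum _ hms]
    _ = ∫⁻ ω, Q ω ∂μ + ∑ s ∈ 𝒮,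
          ∫⁻ ω, ∫⁻ z, (E s).indicator (fun _ => (1 : ℝ≥0∞)) ω * f s (T z ω) ∂κ ∂μ := by
        rw [lintegral_add_left hQ, lintegral_finsetSum _ hsumm]
    _ ≤ _ := by
        rw [Finset.mul_sum]
        gcongr with s hs
        exact hterm s hs

end BDDK
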