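import Mathlib
import Pool.Agent.BDD.KakOmega

/-!
# Ball inflation with `ε`-loss for transversal families
-/

open MeasureTheory Finset
open scoped ENNReal

namespace BDDK

theorem sum_rpow_card {α : Type*} (A : Finset α) (X : α → ℝ≥0∞) {e : ℝ} (he' : 0 < e) :
    (∑ a ∈ A, X a) ^ e ≤ (A.card : ℝ≥0∞) ^ e * ∑ a ∈ A, (X a) ^ e := by
  have he : 0 ≤ e := he'.le
  rcases A.eq_empty_or_nonempty with rfl | hA
  · simp [ENNReal.zero_rpow_of_pos he']
  · obtain ⟨b, hb, hmax⟩ := Finset.exists_max_image A X hA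
    calc (∑ a ∈ A, X a) ^ e ≤ (∑ _a ∈ A, X b) ^ e := by
          apply ENNReal.rpow_le_rpow _ he
          exact Finset.sum_le_sum hmax
      _ = (A.card : ℝ≥0∞) ^ e * (X b) ^ e := by
          rw [Finset.sum_const, nsmul_eq_mul, ENNReal.mul_rpow_of_nonneg _ _ he]
      _ ≤ _ := by
          gcongr
          exact Finset.single_le_sum (f := fun a => (X a) ^ e) (fun _ _ => zero_le) hb

/-- choice of the number of scales -/
theorem scales {a ε : ℝ} (ha : 1 ≤ a) (hε : 0 < ε) : ∃ ν : ℝ, 0 < ν ∧ ν < 1 ∧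
    ∀ r0 : ℝ, 1 ≤ r0 → ∃ (m : ℕ) (q : ℝ), 1 ≤ q ∧ q * ν ≤ 1 ∧ r0 ^ 2 = r0 * q ^ m ∧
      a ^ m ≤ a * r0 ^ ε := by
  set L := max 1 (Real.log a / ε) with hL
  have hL1 : 1 ≤ L := le_max_left _ _
  have hL2 : Real.log a ≤ ε * L := by
    have := le_max_right 1 (Real.log a / ε)
    rw [div_le_iff₀ hε] at this
    rw [hL, mul_comm]; exact this
  have hL0 : 0 < L := by linarith
  refine ⟨Real.exp (-L), Real.exp_pos _, by rw [Real.exp_lt_one_iff]; linarith, ?_⟩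
  intro r0 hr0
  have hr00 : 0 < r0 := by linarith
  have hlog : 0 ≤ Real.log r0 := Real.log_nonneg hr0
  set m := ⌈Real.log r0 / L⌉₊ with hm
  have hm1 : Real.log r0 / L ≤ m := Nat.le_ceil _
  have hm2 : (m : ℝ) < Real.log r0 / L + 1 := Nat.ceil_lt_add_one (by positivity)
  refine ⟨m, r0 ^ ((1 : ℝ) / m), ?_, ?_, ?_, ?_⟩
  · exact Real.one_le_rpow hr0 (by positivity)
  · rw [Real.rpow_def_of_pos hr00, ← Real.exp_add, Real.exp_le_one_iff]
    rcases Nat.eq_zero_or_pos m with h0 | h0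
    · rw [h0]; simp; linarith
    · have : (0 : ℝ) < m := by exact_mod_cast h0
      have h2 : Real.log r0 * (1 / m) ≤ L := by
        rw [mul_one_div, div_le_iff₀ this, mul_comm, ← div_le_iff₀ hL0]; exact hm1
      linarith
  · rcases Nat.eq_zero_or_pos m with h0 | h0
    · have h3 : Real.log r0 / L ≤ 0 := by rw [h0] at hm1; simpa using hm1
      have h4 : Real.log r0 ≤ 0 := by
        by_contra hc
        push Not at hc
        have : 0 < Real.log r0 / L := by positivity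
        linarith
      have h5 : r0 = 1 := by
        have : Real.log r0 = 0 := le_antisymm h4 hlog
        rcases Real.log_eq_zero.mp this with h | h | h <;> linarith
      rw [h5]; simp
    · have : (0 : ℝ) < m := by exact_mod_cast h0
      have e1 : (r0 ^ ((1 : ℝ) / m)) ^ m = r0 := by
        rw [← Real.rpow_natCast (r0 ^ ((1 : ℝ) / m)) m, ← Real.rpow_mul hr00.le,
          one_div_mul_cancel this.ne', Real.rpow_one]
      rw [e1]
      ring
  · have ha0 : 0 < a := by linarith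
    have hla : 0 ≤ Real.log a := Real.log_nonneg ha
    rw [← Real.rpow_natCast, Real.rpow_def_of_pos ha0, Real.rpow_def_of_pos hr00]
    nth_rw 2 [← Real.exp_log ha0]
    rw [← Real.exp_add]
    apply Real.exp_le_exp.mpr
    have h6 : Real.log a * (Real.log r0 / L) ≤ Real.log r0 * ε := by
      rw [← mul_div_assoc, div_le_iff₀ hL0]
      nlinarith
    nlinarith

/-- BALL INFLATION for transversal families. -/
theorem BI {n : ℕ} (hn : 2 ≤ n) {B D : ℝ} (hB : 0 ≤ B) (hD : 0 < D) {CK : ℝ≥0∞} (hCK : CK ≠ ∞)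
    (hCK1 : 1 ≤ CK) {s e ε : ℝ} (hs0 : 0 < s) (hs1 : s ≤ 1) (he0 : 0 < e)
    (he : e * s ≤ 1 / ((n : ℝ) - 1)) (hε : 0 < ε) :
    ∃ C : ℝ≥0∞, C ≠ ∞ ∧ ∀ {Ω : Type*} [MeasurableSpace Ω] (μ : Measure Ω) [SFinite μ]
      (T : (Fin n → ℝ) → Ω → Ω) (_ : Flow μ T) {ι : Type*} (r0 : ℝ) (_ : 1 ≤ r0)
      (S : Fin n → Finset ι) (w : Fin n → ι → (Fin n → ℝ))
      (_ : ∀ i, ∀ τ ∈ S i, ‖w i τ‖ ≤ B)
      (_ : ∀ t : Fin n → ι, (∀ i, t i ∈ S i) →
        D⁻¹ ≤ |(Matrix.of (fun i => w i (t i))).det|)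
      (K : Fin n → ι → (Fin n → ℝ) → ℝ≥0∞) (g : Fin n → ι → Ω → ℝ≥0∞)
      (_ : ∀ i τ, Measurable (K i τ)) (_ : ∀ i τ, Measurable (g i τ))
      (_ : ∀ i, ∀ τ ∈ S i, ∀ x t, |t| ≤ r0 ^ 2 → K i τ (x + t • w i τ) ≤ CK * K i τ x)
      (_ : ∀ i, ∀ τ ∈ S i, ∀ x, Kop (W (r0 ^ 2)) (fun y => K i τ (x - y)) 0 ≤ CK * W (r0 ^ 2) x)
      (_ : ∀ i, ∀ τ ∈ S i, ∀ ω, g i τ ω ≤ CK * Av T (K i τ) (g i τ) ω)
      (_ : ∀ i, ∀ τ ∈ S i, ∀ ω, Av T (W (r0 ^ 2)) (g i τ) ω ≠ ∞),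
      ∫⁻ ω, ∏ i, (∑ τ ∈ S i, (Av T (W r0) (g i τ) ω) ^ s) ^ e ∂μ
        ≤ C * ENNReal.ofReal (r0 ^ ε) *
          ∫⁻ ω, ∏ i, (∑ τ ∈ S i, (Av T (W (r0 ^ 2)) (g i τ) ω) ^ s) ^ e ∂μ := by
  classical
  have hn1 : (0 : ℝ) < (n : ℝ) - 1 := by
    have : (2 : ℝ) ≤ n := by exact_mod_cast hn
    linarith
  set A1 : ℝ≥0∞ := C1 n B D CK ^ (2 * (n : ℝ) / ((n : ℝ) - 1)) with hA1
  have hC1 : C1 n B D CK ≠ ∞ := (C1_lt_top n B D hCK).ne
  have hA1t : A1 ≠ ∞ := ENNReal.rpow_ne_top_of_nonneg (by positivity) hC1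
  have hC1one : 1 ≤ C1 n B D CK := by
    have h4 : (1 : ℝ≥0∞) ≤ 4 ^ (n + 1) := one_le_pow₀ (by norm_num)
    calc (1 : ℝ≥0∞) ≤ 4 ^ (n + 1) := h4
      _ ≤ C2 n B D := le_add_self
      _ ≤ _ := le_add_self
  have hA1one : 1 ≤ A1 := by
    rw [hA1, ← ENNReal.one_rpow (2 * (n : ℝ) / ((n : ℝ) - 1))]
    exact ENNReal.rpow_le_rpow hC1one (by positivity)
  set a : ℝ := A1.toReal with haT
  have ha1 : 1 ≤ a := by
    have := ENNReal.toReal_mono hA1t hA1one
    simpa using this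
  have haA : A1 = ENNReal.ofReal a := (ENNReal.ofReal_toReal hA1t).symm
  obtain ⟨ν, hν0, hν1, hscale⟩ := scales ha1 hε
  set G : ℤ := ⌈B / ν⌉ + 1 with hG
  set A : Finset (Fin n → ℤ) := Fintype.piFinset (fun _ => Finset.Icc (-G) G) with hA
  refine ⟨((A.card : ℝ≥0∞) ^ e) ^ n * (A.card : ℝ≥0∞) ^ n *
    (CK ^ (2 * (n : ℝ) / ((n : ℝ) - 1)) * ENNReal.ofReal a), ?_, ?_⟩
  · apply ENNReal.mul_ne_top
    · apply ENNReal.mul_ne_top
      · exact ENNReal.pow_ne_top (ENNReal.rpow_ne_top_of_nonneg he0.le (by simp))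
      · exact ENNReal.pow_ne_top (by simp)
    · exact ENNReal.mul_ne_top (ENNReal.rpow_ne_top_of_nonneg (by positivity) hCK)
        ENNReal.ofReal_ne_top
  · intro Ω _ μ _ T hT ι r0 hr0 S w hwB hdet K g hKm hgm hK1 hK2 hg hfin
    obtain ⟨m, q, hq1, hqν, hR, ham⟩ := hscale r0 hr0
    have hr00 : 0 < r0 := by linarith
    -- classes
    set cls : Fin n → ι → (Fin n → ℤ) := fun i τ j => ⌊w i τ j / ν⌋ with hcls
    have hclsA : ∀ i, ∀ τ ∈ S i, cls i τ ∈ A := by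
      intro i τ hτ
      rw [hA, Fintype.mem_piFinset]
      intro j
      rw [Finset.mem_Icc]
      have h1 : |w i τ j| ≤ B := by
        have := norm_le_pi_norm (w i τ) j
        rw [Real.norm_eq_abs] at this
        exact this.trans (hwB i τ hτ)
      rw [abs_le] at h1
      have h2 : B / ν ≤ ⌈B / ν⌉ := Int.le_ceil _
      constructor
      · rw [Int.le_floor]
        push_cast [hG]
        have : -B / ν ≤ w i τ j / ν := by gcongr; linarith
        have h3 : -B / ν = -(B / ν) := by ring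
        linarith
      · have h4 : ⌊w i τ j / ν⌋ ≤ ⌈B / ν⌉ := by
          have h5 : (⌊w i τ j / ν⌋ : ℝ) ≤ w i τ j / ν := Int.floor_le _
          have h6 : w i τ j / ν ≤ B / ν := by gcongr; linarith
          have : (⌊w i τ j / ν⌋ : ℝ) ≤ (⌈B / ν⌉ : ℝ) := by linarith
          exact_mod_cast this
        show ⌊w i τ j / ν⌋ ≤ G
        omega
    have hclsν : ∀ i τ i' τ', cls i τ = cls i' τ' → ‖w i τ - w i' τ'‖ ≤ ν := by
      intro i τ i' τ' h
      rw [pi_norm_le_iff_of_nonneg hν0.le]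
      intro j
      have hj : ⌊w i τ j / ν⌋ = ⌊w i' τ' j / ν⌋ := congrFun h j
      have h1 := Int.floor_le (w i τ j / ν)
      have h2 := Int.lt_floor_add_one (w i τ j / ν)
      have h3 := Int.floor_le (w i' τ' j / ν)
      have h4 := Int.lt_floor_add_one (w i' τ' j / ν)
      rw [hj] at h1 h2
      rw [Pi.sub_apply, Real.norm_eq_abs, abs_le]
      have e1 : w i τ j = ν * (w i τ j / ν) := by field_simp
      have e2 : w i' τ' j = ν * (w i' τ' j / ν) := by field_simp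
      constructor
      · nlinarith
      · nlinarith
    set S' : Fin n → (Fin n → ℤ) → Finset ι := fun i a => (S i).filter (fun τ => cls i τ = a)
      with hS'
    have hsplit : ∀ (r : ℝ) (i : Fin n) (ω : Ω), ∑ τ ∈ S i, (Av T (W r) (g i τ) ω) ^ s =
        ∑ a ∈ A, ∑ τ ∈ S' i a, (Av T (W r) (g i τ) ω) ^ s := by
      intro r i ω
      rw [← Finset.sum_fiberwise_of_maps_to (hclsA i)]
    have hPm : ∀ r (S'' : Fin n → Finset ι),
        Measurable (fun ω => ∏ i, (∑ τ ∈ S'' i, (Av T (W r) (g i τ) ω) ^ s) ^ e) := by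
      intro r S''
      apply Finset.measurable_prod
      intro i _
      apply Measurable.pow_const
      apply Finset.measurable_sum
      intro τ _
      exact (Av_meas hT (W_meas r) (hgm i τ)).pow_const _
    -- pointwise splitting
    have h1 : ∀ ω, ∏ i, (∑ τ ∈ S i, (Av T (W r0) (g i τ) ω) ^ s) ^ e ≤
        ((A.card : ℝ≥0∞) ^ e) ^ n * ∑ a ∈ Fintype.piFinset (fun _ : Fin n => A),
          ∏ i, (∑ τ ∈ S' i (a i), (Av T (W r0) (g i τ) ω) ^ s) ^ e := by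
      intro ω
      calc ∏ i, (∑ τ ∈ S i, (Av T (W r0) (g i τ) ω) ^ s) ^ e
          ≤ ∏ i, ((A.card : ℝ≥0∞) ^ e *
              ∑ a ∈ A, (∑ τ ∈ S' i a, (Av T (W r0) (g i τ) ω) ^ s) ^ e) := by
            apply Finset.prod_le_prod'
            intro i _
            rw [hsplit]
            exact sum_rpow_card A _ he0
        _ = _ := by
            rw [Finset.prod_mul_distrib, Finset.prod_const, Finset.card_univ, Fintype.card_fin,
              Finset.prod_univ_sum]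
    -- one tuple
    have h2 : ∀ a ∈ Fintype.piFinset (fun _ : Fin n => A),
        ∫⁻ ω, ∏ i, (∑ τ ∈ S' i (a i), (Av T (W r0) (g i τ) ω) ^ s) ^ e ∂μ ≤
          (CK ^ (2 * (n : ℝ) / ((n : ℝ) - 1)) * A1 ^ m) *
          ∫⁻ ω, ∏ i, (∑ τ ∈ S i, (Av T (W (r0 ^ 2)) (g i τ) ω) ^ s) ^ e ∂μ := by
      intro a _
      by_cases hne : ∀ i, (S' i (a i)).Nonempty
      · choose t ht using hne
        have htS : ∀ i, t i ∈ S i := fun i => (Finset.mem_filter.mp (ht i)).1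
        have htc : ∀ i, cls i (t i) = a i := fun i => (Finset.mem_filter.mp (ht i)).2
        have hsub : ∀ i τ, τ ∈ S' i (a i) → τ ∈ S i := fun i τ h => (Finset.mem_filter.mp h).1
        refine (BI_int hT hn hB hD hCK1 m hq1 hqν hr00 hR (fun i => w i (t i))
          (fun i => hwB i _ (htS i)) (hdet t htS) (fun i => S' i (a i)) w ?_ K g hKm hgm
          (fun i τ hτ => hK1 i τ (hsub i τ hτ)) (fun i τ hτ => hK2 i τ (hsub i τ hτ))
          (fun i τ hτ => hg i τ (hsub i τ hτ)) hs0 hs1 he0.le he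
          (fun i τ hτ => hfin i τ (hsub i τ hτ))).trans ?_
        · intro i τ hτ
          apply hclsν
          rw [htc i]
          exact (Finset.mem_filter.mp hτ).2
        · gcongr with ω i _
          exact fun τ hτ => hsub i τ hτ
      · push Not at hne
        obtain ⟨i0, hi0⟩ := hne
        have hz : ∀ ω, ∏ i, (∑ τ ∈ S' i (a i), (Av T (W r0) (g i τ) ω) ^ s) ^ e = 0 := by
          intro ω
          apply Finset.prod_eq_zero (Finset.mem_univ i0)
          rw [hi0]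
          simp [ENNReal.zero_rpow_of_pos he0]
        simp [hz]
    calc ∫⁻ ω, ∏ i, (∑ τ ∈ S i, (Av T (W r0) (g i τ) ω) ^ s) ^ e ∂μ
        ≤ ∫⁻ ω, ((A.card : ℝ≥0∞) ^ e) ^ n * ∑ a ∈ Fintype.piFinset (fun _ : Fin n => A),
          ∏ i, (∑ τ ∈ S' i (a i), (Av T (W r0) (g i τ) ω) ^ s) ^ e ∂μ := lintegral_mono h1
      _ = ((A.card : ℝ≥0∞) ^ e) ^ n * ∑ a ∈ Fintype.piFinset (fun _ : Fin n => A),
          ∫⁻ ω, ∏ i, (∑ τ ∈ S' i (a i), (Av T (W r0) (g i τ) ω) ^ s) ^ e ∂μ := by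
          rw [lintegral_const_mul, lintegral_finsetSum]
          · intro a _; exact hPm r0 _
          · apply Finset.measurable_sum
            intro a _; exact hPm r0 _
      _ ≤ ((A.card : ℝ≥0∞) ^ e) ^ n * ∑ _a ∈ Fintype.piFinset (fun _ : Fin n => A),
          (CK ^ (2 * (n : ℝ) / ((n : ℝ) - 1)) * A1 ^ m) *
          ∫⁻ ω, ∏ i, (∑ τ ∈ S i, (Av T (W (r0 ^ 2)) (g i τ) ω) ^ s) ^ e ∂μ := by
          gcongr with a ha
          exact h2 a ha
      _ = ((A.card : ℝ≥0∞) ^ e) ^ n * ((A.card : ℝ≥0∞) ^ n *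
          ((CK ^ (2 * (n : ℝ) / ((n : ℝ) - 1)) * A1 ^ m) *
          ∫⁻ ω, ∏ i, (∑ τ ∈ S i, (Av T (W (r0 ^ 2)) (g i τ) ω) ^ s) ^ e ∂μ)) := by
          have hcard : ((Fintype.piFinset (fun _ : Fin n => A)).card : ℝ≥0∞) =
              (A.card : ℝ≥0∞) ^ n := by
            have hc := Fintype.card_piFinset (fun _ : Fin n => A)
            rw [hc, Finset.prod_const, Finset.card_univ, Fintype.card_fin, Nat.cast_pow]
          rw [Finset.sum_const, nsmul_eq_mul, hcard]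
      _ ≤ ((A.card : ℝ≥0∞) ^ e) ^ n * ((A.card : ℝ≥0∞) ^ n *
          ((CK ^ (2 * (n : ℝ) / ((n : ℝ) - 1)) * (ENNReal.ofReal a * ENNReal.ofReal (r0 ^ ε))) *
          ∫⁻ ω, ∏ i, (∑ τ ∈ S i, (Av T (W (r0 ^ 2)) (g i τ) ω) ^ s) ^ e ∂μ)) := by
          gcongr
          rw [haA, ← ENNReal.ofReal_pow (by linarith), ← ENNReal.ofReal_mul (by linarith)]
          exact ENNReal.ofReal_le_ofReal ham
      _ = _ := by ring

end BDDK
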