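import Mathlib

/-!
# One dimensional kernels (Schwartz functions with prescribed Fourier transform)
-/

open MeasureTheory Finset Real
open scoped ENNReal FourierTransform SchwartzMap ContDiff

namespace BDDK

/-- `e(t) = exp(2 π i t)` -/
noncomputable def ee (t : ℝ) : ℂ := Complex.exp (2 * π * t * Complex.I)

theorem ee_add (s t : ℝ) : ee (s + t) = ee s * ee t := by
  unfold ee
  rw [← Complex.exp_add]
  congr 1
  push_cast
  ring

theorem ee_zero : ee 0 = 1 := by simp [ee]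

theorem norm_ee (t : ℝ) : ‖ee t‖ = 1 := by
  unfold ee
  have : (2 * π * t * Complex.I : ℂ) = ((2 * π * t : ℝ) : ℂ) * Complex.I := by push_cast; ring
  rw [this, Complex.norm_exp_ofReal_mul_I]

theorem ee_neg (t : ℝ) : ee (-t) = (starRingEnd ℂ) (ee t) := by
  unfold ee
  rw [← Complex.exp_conj]
  congr 1
  have : (starRingEnd ℂ) 2 = 2 := by
    have := Complex.conj_ofReal 2
    simpa using this
  simp [this]

theorem ee_cont : Continuous ee := by unfold ee; fun_prop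

theorem ee_ne_zero (t : ℝ) : ee t ≠ 0 := Complex.exp_ne_zero _

theorem ee_eq_char (t : ℝ) : ee t = (Real.fourierChar t : ℂ) := by
  rw [Real.fourierChar_apply]
  unfold ee
  congr 1
  push_cast
  ring

theorem decay_of_schwartz (f : 𝓢(ℝ, ℂ)) (N : ℕ) :
    ∃ C : ℝ, 0 < C ∧ ∀ x, ‖f x‖ ≤ C * ((1 + |x|)⁻¹) ^ N := by
  refine ⟨2 ^ N * ((Finset.Iic (N, 0)).sup fun m => SchwartzMap.seminorm ℂ m.1 m.2) f + 1,
    ?_, ?_⟩
  · have : 0 ≤ ((Finset.Iic (N, 0)).sup fun m => SchwartzMap.seminorm ℂ (F := ℂ) (E := ℝ) m.1 m.2) f :=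
      apply_nonneg _ _
    positivity
  · intro x
    have h := SchwartzMap.one_add_le_sup_seminorm_apply (𝕜 := ℂ) (m := (N, 0)) (k := N) (n := 0)
      le_rfl le_rfl f x
    rw [norm_iteratedFDeriv_zero] at h
    rw [inv_pow, ← div_eq_mul_inv, le_div_iff₀ (by positivity), mul_comm]
    rw [Real.norm_eq_abs] at h
    refine h.trans ?_
    simp only
    linarith

/-- a bump function equal to `1` on `[-1,1]`, as a Schwartz function -/
theorem exists_bump : ∃ b : 𝓢(ℝ, ℂ), ∀ x, |x| ≤ 1 → b x = 1 := by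
  let f : ContDiffBump (0 : ℝ) := ⟨1, 2, by norm_num, by norm_num⟩
  have h1 : HasCompactSupport (fun x => ((f x : ℝ) : ℂ)) :=
    f.hasCompactSupport.comp_left (g := fun y : ℝ => (y : ℂ)) (by simp)
  have h2 : ContDiff ℝ ∞ (fun x => ((f x : ℝ) : ℂ)) := Complex.ofRealCLM.contDiff.comp f.contDiff
  refine ⟨h1.toSchwartzMap h2, ?_⟩
  intro x hx
  show ((f x : ℝ) : ℂ) = 1
  rw [f.one_of_mem_closedBall (by simpa [Real.norm_eq_abs] using hx)]
  simp

/-- reproducing kernel in one variable -/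
theorem exists_ker1 (N : ℕ) : ∃ ψ : ℝ → ℂ, Continuous ψ ∧
    (∃ C : ℝ, 0 < C ∧ ∀ x, ‖ψ x‖ ≤ C * ((1 + |x|)⁻¹) ^ N) ∧ Integrable ψ ∧
    ∀ η : ℝ, |η| ≤ 1 → ∫ x, ψ x * ee (η * x) = 1 := by
  obtain ⟨b, hb⟩ := exists_bump
  set B : 𝓢(ℝ, ℂ) := 𝓕 b with hB
  refine ⟨B, B.continuous, decay_of_schwartz B N, B.integrable, ?_⟩
  intro η hη
  have h1 : 𝓕⁻ B = b := by simp [hB]
  have h2 : (𝓕⁻ B) η = 1 := by rw [h1]; exact hb η hη
  rw [SchwartzMap.fourierInv_coe, Real.fourierInv_eq] at h2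
  rw [← h2]
  refine integral_congr_ae (ae_of_all _ fun x => ?_)
  simp only [Real.inner_apply]
  rw [Circle.smul_def, smul_eq_mul, ← ee_eq_char, mul_comm, mul_comm η x]

end BDDK
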