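import Mathlib
import Pool.Agent.BDD.Ker1

/-!
# A nonnegative kernel with compactly supported Fourier transform
-/

open MeasureTheory Finset Real
open scoped ENNReal FourierTransform SchwartzMap ContDiff ComplexConjugate

namespace BDDK

/-- bump at `η` with radii `1/4, 1/2` -/
noncomputable def bmp (η : ℝ) : ContDiffBump η := ⟨1 / 4, 1 / 2, by norm_num, by norm_num⟩

theorem bmp_shift (η x : ℝ) : bmp η x = bmp 0 (x - η) := by
  show (bmp η).toFun x = (bmp 0).toFun (x - η)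
  unfold ContDiffBump.toFun
  simp [bmp]

/-- the same as a Schwartz function -/
noncomputable def bmpS (η : ℝ) : 𝓢(ℝ, ℂ) :=
  HasCompactSupport.toSchwartzMap (f := fun x => ((bmp η x : ℝ) : ℂ))
    ((bmp η).hasCompactSupport.comp_left (g := fun y : ℝ => (y : ℂ)) (by simp))
    (Complex.ofRealCLM.contDiff.comp (bmp η).contDiff)

theorem bmpS_apply (η x : ℝ) : bmpS η x = ((bmp η x : ℝ) : ℂ) := rfl

theorem bmpS_mul {η : ℝ} (hη : 1 ≤ |η|) (x : ℝ) : bmpS 0 x * bmpS η x = 0 := by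
  rw [bmpS_apply, bmpS_apply]
  by_cases h : |x| < 1 / 2
  · have : bmp η x = 0 := by
      apply (bmp η).zero_of_le_dist
      show (1 / 2 : ℝ) ≤ dist x η
      rw [Real.dist_eq]
      have h1 : |η| ≤ |x| + |x - η| := by
        calc |η| = |x - (x - η)| := by ring_nf
          _ ≤ _ := abs_sub _ _
      linarith
    rw [this]; simp
  · have : bmp 0 x = 0 := by
      apply (bmp 0).zero_of_le_dist
      show (1 / 2 : ℝ) ≤ dist x 0
      rw [Real.dist_eq, sub_zero]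
      push Not at h
      exact h
    rw [this]; simp

/-- the Fourier transform of the bump -/
noncomputable def rho : 𝓢(ℝ, ℂ) := 𝓕 (bmpS 0)

theorem rho_apply (x : ℝ) : rho x = ∫ v, ee (-(v * x)) * bmpS 0 v := by
  unfold rho
  rw [SchwartzMap.fourier_coe, Real.fourier_eq]
  refine integral_congr_ae (ae_of_all _ fun v => ?_)
  simp only [Real.inner_apply]
  rw [Circle.smul_def, smul_eq_mul, ← ee_eq_char]

theorem finv_apply (f : 𝓢(ℝ, ℂ)) (x : ℝ) : (𝓕⁻ f : 𝓢(ℝ, ℂ)) x = ∫ v, ee (v * x) * f v := by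
  rw [SchwartzMap.fourierInv_coe, Real.fourierInv_eq]
  refine integral_congr_ae (ae_of_all _ fun v => ?_)
  simp only [Real.inner_apply]
  rw [Circle.smul_def, smul_eq_mul, ← ee_eq_char]

theorem conj_rho (x : ℝ) : conj (rho x) = (𝓕⁻ (bmpS 0) : 𝓢(ℝ, ℂ)) x := by
  rw [rho_apply, finv_apply, ← integral_conj]
  refine integral_congr_ae (ae_of_all _ fun v => ?_)
  simp only [map_mul]
  rw [ee_neg]
  simp [bmpS_apply]

theorem finv_shift (η x : ℝ) : (𝓕⁻ (bmpS 0) : 𝓢(ℝ, ℂ)) x * ee (η * x) =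
    (𝓕⁻ (bmpS η) : 𝓢(ℝ, ℂ)) x := by
  rw [finv_apply, finv_apply, ← integral_mul_const]
  rw [← integral_sub_right_eq_self (fun v => ee (v * x) * bmpS 0 v * ee (η * x)) η]
  refine integral_congr_ae (ae_of_all _ fun v => ?_)
  simp only
  rw [bmpS_apply, bmpS_apply, bmp_shift η v]
  rw [mul_right_comm, ← ee_add]
  congr 2
  ring

/-- nonnegative kernel with compactly supported Fourier transform -/
theorem exists_ker2 (N : ℕ) : ∃ ψ : ℝ → ℝ, Continuous ψ ∧ (∀ x, 0 ≤ ψ x) ∧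
    (∃ C : ℝ, 0 < C ∧ ∀ x, ψ x ≤ C * ((1 + |x|)⁻¹) ^ N) ∧
    (∃ c : ℝ, 0 < c ∧ ∃ δ : ℝ, 0 < δ ∧ ∀ x, |x| ≤ δ → c ≤ ψ x) ∧ Integrable ψ ∧
    ∀ η : ℝ, 1 ≤ |η| → ∫ x, (ψ x : ℂ) * ee (η * x) = 0 := by
  obtain ⟨C, hC, hCx⟩ := decay_of_schwartz rho N
  have hcont : Continuous (fun x => ‖rho x‖ ^ 2) := (rho.continuous.norm.pow 2)
  have hbound : ∀ x, ‖rho x‖ ^ 2 ≤ C ^ 2 * ((1 + |x|)⁻¹) ^ N := by
    intro x
    have h0 : ((1 + |x|)⁻¹) ^ N ≤ 1 := by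
      apply pow_le_one₀ (by positivity)
      apply inv_le_one_of_one_le₀
      have := abs_nonneg x
      linarith
    have h1 : 0 ≤ ((1 + |x|)⁻¹) ^ N := by positivity
    calc ‖rho x‖ ^ 2 ≤ (C * ((1 + |x|)⁻¹) ^ N) ^ 2 := by gcongr; exact hCx x
      _ = C ^ 2 * (((1 + |x|)⁻¹) ^ N * ((1 + |x|)⁻¹) ^ N) := by ring
      _ ≤ C ^ 2 * (((1 + |x|)⁻¹) ^ N * 1) := by gcongr
      _ = _ := by ring
  have hint : Integrable (fun x => ‖rho x‖ ^ 2) := by
    have h2 : MemLp rho 2 := rho.memLp 2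
    have := h2.integrable_norm_pow (by norm_num)
    simpa using this
  have hrho0 : 0 < ‖rho 0‖ := by
    rw [norm_pos_iff, rho_apply]
    have : ∫ v, ee (-(v * 0)) * bmpS 0 v = ((∫ v, bmp 0 v : ℝ) : ℂ) := by
      rw [← integral_complex_ofReal]
      refine integral_congr_ae (ae_of_all _ fun v => ?_)
      simp [ee_zero, bmpS_apply]
    rw [this]
    have hp : 0 < ∫ v, bmp 0 v := (bmp 0).integral_pos
    exact_mod_cast hp.ne'
  refine ⟨fun x => ‖rho x‖ ^ 2, hcont, fun x => by positivity, ⟨C ^ 2, by positivity, hbound⟩,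
    ?_, hint, ?_⟩
  · have h1 : Filter.Tendsto (fun x => ‖rho x‖ ^ 2) (nhds 0) (nhds (‖rho 0‖ ^ 2)) :=
      hcont.continuousAt
    have h2 : ‖rho 0‖ ^ 2 / 2 < ‖rho 0‖ ^ 2 := by
      have : 0 < ‖rho 0‖ ^ 2 := by positivity
      linarith
    have h3 := h1.eventually (lt_mem_nhds h2)
    rw [Metric.eventually_nhds_iff] at h3
    obtain ⟨δ, hδ, h4⟩ := h3
    refine ⟨‖rho 0‖ ^ 2 / 2, by positivity, δ / 2, by positivity, ?_⟩
    intro x hx
    exact (h4 (by rw [Real.dist_eq, sub_zero]; linarith)).le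
  · intro η hη
    have h1 : ∀ x, ((‖rho x‖ ^ 2 : ℝ) : ℂ) * ee (η * x) = rho x * (𝓕⁻ (bmpS η) : 𝓢(ℝ, ℂ)) x := by
      intro x
      rw [← finv_shift, ← conj_rho, ← mul_assoc, Complex.mul_conj, Complex.normSq_eq_norm_sq]
    simp_rw [h1]
    have h2 := SchwartzMap.integral_fourier_mul_eq (bmpS 0) (𝓕⁻ (bmpS η) : 𝓢(ℝ, ℂ))
    have h3 : (𝓕 (𝓕⁻ (bmpS η) : 𝓢(ℝ, ℂ)) : 𝓢(ℝ, ℂ)) = bmpS η := by simp
    rw [h3] at h2
    have h4 : ∫ x, rho x * (𝓕⁻ (bmpS η) : 𝓢(ℝ, ℂ)) x = ∫ x, bmpS 0 x * bmpS η x := h2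
    rw [h4]
    simp_rw [bmpS_mul hη]
    simp

end BDDK
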