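import Mathlib
import Pool.Agent.BDD.Ker2

/-!
# Product kernels on `ℝ^n`
-/

open MeasureTheory Finset
open scoped ENNReal

namespace BDDK

theorem prod_decay {n : ℕ} (N : ℕ) {C : ℝ} (f : Fin n → ℝ → ℝ) (hf0 : ∀ i t, 0 ≤ f i t)
    (hf : ∀ i t, f i t ≤ C * ((1 + |t|)⁻¹) ^ N) (hC : 1 ≤ C) (x : Fin n → ℝ) :
    ∏ i, f i (x i) ≤ C ^ n * ((1 + ‖x‖)⁻¹) ^ N := by
  have hle1 : ∀ t : ℝ, ((1 + |t|)⁻¹) ^ N ≤ 1 := by
    intro t
    apply pow_le_one₀ (by positivity)
    apply inv_le_one_of_one_le₀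
    have := abs_nonneg t
    linarith
  rcases Nat.eq_zero_or_pos n with hn | hn
  · subst hn
    have : ‖x‖ = 0 := by rw [Subsingleton.elim x 0]; simp
    rw [this]
    simp
  · haveI : Nonempty (Fin n) := ⟨⟨0, hn⟩⟩
    obtain ⟨j, hj⟩ : ∃ j, ‖x‖ = |x j| := by
      obtain ⟨j, _, hj⟩ := Finset.exists_max_image univ (fun i => ‖x i‖) univ_nonempty
      refine ⟨j, le_antisymm ?_ ?_⟩
      · rw [pi_norm_le_iff_of_nonneg (abs_nonneg _)]
        intro i
        exact hj i (Finset.mem_univ i)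
      · have := norm_le_pi_norm x j
        rwa [Real.norm_eq_abs] at this
    have h1 : ∏ i, f i (x i) = f j (x j) * ∏ i ∈ univ.erase j, f i (x i) :=
      (Finset.mul_prod_erase univ _ (Finset.mem_univ j)).symm
    have h2 : ∏ i ∈ univ.erase j, f i (x i) ≤ C ^ (n - 1) := by
      calc ∏ i ∈ univ.erase j, f i (x i) ≤ ∏ _i ∈ univ.erase j, C := by
            apply Finset.prod_le_prod
            · intro i _; exact hf0 i _
            · intro i _
              calc f i (x i) ≤ C * ((1 + |x i|)⁻¹) ^ N := hf i _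
                _ ≤ C * 1 := by gcongr; exact hle1 _
                _ = C := mul_one C
        _ = C ^ (n - 1) := by
            rw [Finset.prod_const, Finset.card_erase_of_mem (Finset.mem_univ j), Finset.card_univ,
              Fintype.card_fin]
    rw [h1, hj]
    calc f j (x j) * ∏ i ∈ univ.erase j, f i (x i)
        ≤ (C * ((1 + |x j|)⁻¹) ^ N) * C ^ (n - 1) := by
          gcongr
          · exact Finset.prod_nonneg fun i _ => hf0 i _
          · exact hf j _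
      _ = C ^ n * ((1 + |x j|)⁻¹) ^ N := by
          have : C ^ n = C * C ^ (n - 1) := by
            rw [← pow_succ']; congr 1; omega
          rw [this]; ring

/-- reproducing kernel on `ℝ^n` -/
theorem exists_kerN (n N : ℕ) : ∃ φ : (Fin n → ℝ) → ℂ, Continuous φ ∧
    (∃ C : ℝ, 1 ≤ C ∧ ∀ x, ‖φ x‖ ≤ C * ((1 + ‖x‖)⁻¹) ^ N) ∧ Integrable φ ∧
    ∀ η : Fin n → ℝ, ‖η‖ ≤ 1 → ∫ x, φ x * ee (∑ i, η i * x i) = 1 := by
  obtain ⟨ψ, hψc, ⟨C, hC, hCx⟩, hψi, hψη⟩ := exists_ker1 N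
  refine ⟨fun x => ∏ i, ψ (x i), by fun_prop, ⟨(max C 1) ^ n, one_le_pow₀ (le_max_right _ _), ?_⟩,
    ?_, ?_⟩
  · intro x
    rw [norm_prod]
    apply prod_decay N (fun _ t => ‖ψ t‖) (fun _ t => norm_nonneg _) _ (le_max_right _ _)
    intro _ t
    refine (hCx t).trans ?_
    gcongr
    exact le_max_left _ _
  · exact Integrable.fintype_prod (fun _ => hψi)
  · intro η hη
    have h1 : ∀ x : Fin n → ℝ, (∏ i, ψ (x i)) * ee (∑ i, η i * x i) =
        ∏ i, (ψ (x i) * ee (η i * x i)) := by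
      intro x
      rw [Finset.prod_mul_distrib]
      congr 1
      unfold ee
      rw [← Complex.exp_sum]
      congr 1
      push_cast
      rw [Finset.mul_sum, Finset.sum_mul]
    simp_rw [h1]
    rw [integral_fintype_prod_volume_eq_prod (fun i t => ψ t * ee (η i * t))]
    apply Finset.prod_eq_one
    intro i _
    apply hψη
    have := norm_le_pi_norm η i
    rw [Real.norm_eq_abs] at this
    exact this.trans hη

/-- nonnegative kernel with compactly supported Fourier transform -/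
theorem exists_kerP (n N : ℕ) : ∃ φ : (Fin n → ℝ) → ℝ, Continuous φ ∧ (∀ x, 0 ≤ φ x) ∧
    (∃ C : ℝ, 1 ≤ C ∧ ∀ x, φ x ≤ C * ((1 + ‖x‖)⁻¹) ^ N) ∧
    (∃ c : ℝ, 0 < c ∧ ∃ δ : ℝ, 0 < δ ∧ ∀ x, ‖x‖ ≤ δ → c ≤ φ x) ∧ Integrable φ ∧
    ∀ η : Fin n → ℝ, (∃ i, 1 ≤ |η i|) → ∫ x, (φ x : ℂ) * ee (∑ i, η i * x i) = 0 := by
  obtain ⟨ψ, hψc, hψ0, ⟨C, hC, hCx⟩, ⟨c, hc, δ, hδ, hcx⟩, hψi, hψη⟩ := exists_ker2 N
  refine ⟨fun x => ∏ i, ψ (x i), by fun_prop, fun x => Finset.prod_nonneg fun i _ => hψ0 _,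
    ⟨(max C 1) ^ n, one_le_pow₀ (le_max_right _ _), ?_⟩, ⟨c ^ n, by positivity, δ, hδ, ?_⟩,
    ?_, ?_⟩
  · intro x
    apply prod_decay N (fun _ t => ψ t) (fun _ t => hψ0 _) _ (le_max_right _ _)
    intro _ t
    refine (hCx t).trans ?_
    gcongr
    exact le_max_left _ _
  · intro x hx
    calc c ^ n = ∏ _i : Fin n, c := by simp
      _ ≤ ∏ i, ψ (x i) := by
        apply Finset.prod_le_prod
        · intro i _; exact hc.le
        · intro i _
          apply hcx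
          have := norm_le_pi_norm x i
          rw [Real.norm_eq_abs] at this
          exact this.trans hx
  · exact Integrable.fintype_prod (fun _ => hψi)
  · rintro η ⟨j, hj⟩
    have h1 : ∀ x : Fin n → ℝ, ((∏ i, ψ (x i) : ℝ) : ℂ) * ee (∑ i, η i * x i) =
        ∏ i, ((ψ (x i) : ℂ) * ee (η i * x i)) := by
      intro x
      rw [Finset.prod_mul_distrib]
      push_cast
      congr 1
      unfold ee
      rw [← Complex.exp_sum]
      congr 1
      push_cast
      rw [Finset.mul_sum, Finset.sum_mul]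
    simp_rw [h1]
    rw [integral_fintype_prod_volume_eq_prod (fun i t => (ψ t : ℂ) * ee (η i * t))]
    exact Finset.prod_eq_zero (Finset.mem_univ j) (hψη _ hj)

end BDDK
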