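import Mathlib
import Pool.Agent.BDD.KakOmega
import Pool.Agent.BDD.Ker1

/-!
# Functions on `Ω` with spectrum (with respect to the flow) in a set
-/

open MeasureTheory Finset
open scoped ENNReal ComplexConjugate

namespace BDDK

/-- bounded measurable eigenfunctions of the flow -/
structure IsEig {n : ℕ} {Ω : Type*} [MeasurableSpace Ω] (T : (Fin n → ℝ) → Ω → Ω)
    (ξ : Fin n → ℝ) (φ : Ω → ℂ) : Prop where
  meas : Measurable φ
  bdd : ∃ M : ℝ, ∀ ω, ‖φ ω‖ ≤ M
  eig : ∀ x ω, φ (T x ω) = ee (∑ i, ξ i * x i) * φ ω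

/-- finite sums of eigenfunctions with frequencies in `A` -/
noncomputable def Spec {n : ℕ} {Ω : Type*} [MeasurableSpace Ω] (T : (Fin n → ℝ) → Ω → Ω)
    (A : Set (Fin n → ℝ)) : Submodule ℂ (Ω → ℂ) :=
  Submodule.span ℂ {φ | ∃ ξ ∈ A, IsEig T ξ φ}

variable {n : ℕ} {Ω : Type*} [MeasurableSpace Ω] {T : (Fin n → ℝ) → Ω → Ω}

theorem Spec_mono {A B : Set (Fin n → ℝ)} (h : A ⊆ B) : Spec T A ≤ Spec T B := by
  apply Submodule.span_mono
  rintro φ ⟨ξ, hξ, hφ⟩
  exact ⟨ξ, h hξ, hφ⟩

theorem Spec_of_eig {A : Set (Fin n → ℝ)} {ξ : Fin n → ℝ} {φ : Ω → ℂ} (hξ : ξ ∈ A)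
    (h : IsEig T ξ φ) : φ ∈ Spec T A := Submodule.subset_span ⟨ξ, hξ, h⟩

theorem Spec_meas {A : Set (Fin n → ℝ)} {f : Ω → ℂ} (hf : f ∈ Spec T A) : Measurable f := by
  induction hf using Submodule.span_induction with
  | mem x hx => obtain ⟨ξ, _, h⟩ := hx; exact h.meas
  | zero => exact measurable_const
  | add x y _ _ hx hy => exact hx.add hy
  | smul a x _ hx => exact hx.const_smul a

theorem Spec_bdd {A : Set (Fin n → ℝ)} {f : Ω → ℂ} (hf : f ∈ Spec T A) :
    ∃ M : ℝ, 0 ≤ M ∧ ∀ ω, ‖f ω‖ ≤ M := by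
  induction hf using Submodule.span_induction with
  | mem x hx =>
    obtain ⟨ξ, _, h⟩ := hx
    obtain ⟨M, hM⟩ := h.bdd
    exact ⟨max M 0, le_max_right _ _, fun ω => (hM ω).trans (le_max_left _ _)⟩
  | zero => exact ⟨0, le_rfl, fun ω => by simp⟩
  | add x y _ _ hx hy =>
    obtain ⟨M, hM0, hM⟩ := hx
    obtain ⟨M', hM0', hM'⟩ := hy
    exact ⟨M + M', by positivity, fun ω => (norm_add_le _ _).trans (add_le_add (hM ω) (hM' ω))⟩
  | smul a x _ hx =>
    obtain ⟨M, hM0, hM⟩ := hx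
    refine ⟨‖a‖ * M, by positivity, fun ω => ?_⟩
    simp only [Pi.smul_apply, norm_smul]
    gcongr
    exact hM ω

/-- along an orbit the functions in `Spec` are continuous -/
theorem Spec_orbit_cont {A : Set (Fin n → ℝ)} {f : Ω → ℂ} (hf : f ∈ Spec T A) (ω : Ω) :
    Continuous (fun x => f (T x ω)) := by
  induction hf using Submodule.span_induction with
  | mem x hx =>
    obtain ⟨ξ, _, h⟩ := hx
    simp_rw [h.eig]
    exact (ee_cont.comp (by fun_prop)).mul continuous_const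
  | zero => exact continuous_const
  | add x y _ _ hx hy => exact hx.add hy
  | smul a x _ hx => exact hx.const_smul a

theorem Spec_mul {A B C : Set (Fin n → ℝ)} (hABC : ∀ ξ ∈ A, ∀ η ∈ B, ξ + η ∈ C) {f g : Ω → ℂ}
    (hf : f ∈ Spec T A) (hg : g ∈ Spec T B) : f * g ∈ Spec T C := by
  induction hf using Submodule.span_induction with
  | mem x hx =>
    obtain ⟨ξ, hξ, h⟩ := hx
    induction hg using Submodule.span_induction with
    | mem y hy =>
      obtain ⟨η, hη, h'⟩ := hy
      refine Spec_of_eig (hABC ξ hξ η hη) ⟨h.meas.mul h'.meas, ?_, ?_⟩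
      · obtain ⟨M, hM⟩ := h.bdd
        obtain ⟨M', hM'⟩ := h'.bdd
        refine ⟨max M 0 * max M' 0, fun ω => ?_⟩
        simp only [Pi.mul_apply, norm_mul]
        gcongr
        · exact (hM ω).trans (le_max_left _ _)
        · exact (hM' ω).trans (le_max_left _ _)
      · intro z ω
        simp only [Pi.mul_apply]
        rw [h.eig, h'.eig]
        have : ∑ i, (ξ + η) i * z i = (∑ i, ξ i * z i) + ∑ i, η i * z i := by
          rw [← Finset.sum_add_distrib]
          refine Finset.sum_congr rfl fun i _ => ?_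
          simp only [Pi.add_apply]; ring
        rw [this, ee_add]
        ring
    | zero => rw [mul_zero]; exact Submodule.zero_mem _
    | add y z _ _ hy hz => rw [mul_add]; exact Submodule.add_mem _ hy hz
    | smul a y _ hy => rw [mul_smul_comm]; exact Submodule.smul_mem _ a hy
  | zero => rw [zero_mul]; exact Submodule.zero_mem _
  | add x y _ _ hx hy => rw [add_mul]; exact Submodule.add_mem _ hx hy
  | smul a x _ hx => rw [smul_mul_assoc]; exact Submodule.smul_mem _ a hx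

theorem Spec_conj {A : Set (Fin n → ℝ)} {f : Ω → ℂ} (hf : f ∈ Spec T A) :
    (fun ω => conj (f ω)) ∈ Spec T {ξ | -ξ ∈ A} := by
  induction hf using Submodule.span_induction with
  | mem x hx =>
    obtain ⟨ξ, hξ, h⟩ := hx
    refine Spec_of_eig (ξ := -ξ) (by simpa using hξ) ⟨?_, ?_, ?_⟩
    · exact Complex.continuous_conj.measurable.comp h.meas
    · obtain ⟨M, hM⟩ := h.bdd
      exact ⟨M, fun ω => by rw [RCLike.norm_conj]; exact hM ω⟩
    · intro z ω
      rw [h.eig, map_mul, ← ee_neg]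
      congr 2
      rw [← Finset.sum_neg_distrib]
      refine Finset.sum_congr rfl fun i _ => ?_
      simp only [Pi.neg_apply]; ring
  | zero =>
    have : (fun ω : Ω => conj ((0 : Ω → ℂ) ω)) = 0 := by funext ω; simp
    rw [this]
    exact Submodule.zero_mem _
  | add x y _ _ hx hy =>
    have : (fun ω => conj ((x + y) ω)) = (fun ω => conj (x ω)) + fun ω => conj (y ω) := by
      funext ω; simp
    rw [this]
    exact Submodule.add_mem _ hx hy
  | smul a x _ hx =>
    have : (fun ω => conj ((a • x) ω)) = (conj a) • fun ω => conj (x ω) := by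
      funext ω; simp
    rw [this]
    exact Submodule.smul_mem _ _ hx

/-- change of the flow -/
theorem Spec_comp {k : ℕ} (L : (Fin k → ℝ) → (Fin n → ℝ)) {A : Set (Fin n → ℝ)}
    {A' : Set (Fin k → ℝ)}
    (hA : ∀ ξ ∈ A, ∃ ξ' ∈ A', ∀ y, ∑ i, ξ' i * y i = ∑ i, ξ i * (L y) i) :
    Spec T A ≤ Spec (fun y ω => T (L y) ω) A' := by
  apply Submodule.span_le.mpr
  rintro φ ⟨ξ, hξ, h⟩
  obtain ⟨ξ', hξ', hy⟩ := hA ξ hξ
  refine Spec_of_eig hξ' ⟨h.meas, h.bdd, fun y ω => ?_⟩
  rw [h.eig, hy]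

theorem Flow.comp {k : ℕ} {μ : Measure Ω} (hT : Flow μ T) (L : (Fin k → ℝ) → (Fin n → ℝ))
    (hL : Measurable L) (hadd : ∀ x y, L (x + y) = L x + L y) :
    Flow μ (fun y ω => T (L y) ω) where
  meas := hT.meas.comp ((hL.comp measurable_fst).prodMk measurable_snd)
  add x y ω := by rw [hadd, hT.add]
  pres x := hT.pres _

/-- reproducing formula -/
theorem Spec_rep {A : Set (Fin n → ℝ)} {κ : (Fin n → ℝ) → ℂ} (hκ : Integrable κ)
    (hA : ∀ ξ ∈ A, ∫ x, κ x * ee (∑ i, ξ i * x i) = 1) {f : Ω → ℂ} (hf : f ∈ Spec T A) (ω : Ω) :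
    ∫ x, κ x * f (T x ω) = f ω ∧ Integrable (fun x => κ x * f (T x ω)) := by
  induction hf using Submodule.span_induction with
  | mem x hx =>
    obtain ⟨ξ, hξ, h⟩ := hx
    simp_rw [h.eig]
    have h1 : ∀ y, κ y * (ee (∑ i, ξ i * y i) * x ω) = (κ y * ee (∑ i, ξ i * y i)) * x ω :=
      fun y => by ring
    simp_rw [h1]
    constructor
    · rw [integral_mul_const, hA ξ hξ, one_mul]
    · apply Integrable.mul_const
      apply hκ.mul_bdd (c := 1)
      · exact (ee_cont.comp (by fun_prop)).aestronglyMeasurable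
      · exact Filter.Eventually.of_forall fun y => (norm_ee _).le
  | zero => simp
  | add x y _ _ hx hy =>
    simp only [Pi.add_apply, mul_add]
    exact ⟨by rw [integral_add hx.2 hy.2, hx.1, hy.1], hx.2.add hy.2⟩
  | smul a x _ hx =>
    simp only [Pi.smul_apply, smul_eq_mul]
    have h1 : ∀ y, κ y * (a * x (T y ω)) = a * (κ y * x (T y ω)) := fun y => by ring
    simp_rw [h1]
    exact ⟨by rw [integral_const_mul, hx.1], hx.2.const_mul a⟩

end BDDK
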