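import Mathlib
import Pool.Agent.BDD.Spec
import Pool.Agent.BDD.KerN

/-!
# Local constancy: `|f| ≤ C |f| * K_A` for functions with spectrum in a parallelepiped
-/

open MeasureTheory Finset
open scoped ENNReal

namespace BDDK

/-- the parallelepiped `ξc + A^t [-1,1]^n` -/
def BoxSet {n : ℕ} (ξc : Fin n → ℝ) (A : (Fin n → ℝ) →ₗ[ℝ] (Fin n → ℝ)) : Set (Fin n → ℝ) :=
  {ξ | ∃ η : Fin n → ℝ, ‖η‖ ≤ 1 ∧
    ∀ x : Fin n → ℝ, ∑ i, ξ i * x i = ∑ i, ξc i * x i + ∑ i, η i * (A x) i}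

/-- the kernel `|det A| (1 + |A x|)^-(2n+2)` -/
noncomputable def KT {n : ℕ} (A : (Fin n → ℝ) →ₗ[ℝ] (Fin n → ℝ)) (x : Fin n → ℝ) : ℝ≥0∞ :=
  ENNReal.ofReal (|LinearMap.det A| * ((1 + ‖A x‖)⁻¹) ^ (2 * n + 2))

theorem KT_meas {n : ℕ} (A : (Fin n → ℝ) →ₗ[ℝ] (Fin n → ℝ)) : Measurable (KT A) := by
  unfold KT
  have : Continuous A := A.continuous_of_finiteDimensional
  have h := this.measurable
  fun_prop

theorem KT_neg {n : ℕ} (A : (Fin n → ℝ) →ₗ[ℝ] (Fin n → ℝ)) (x : Fin n → ℝ) :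
    KT A (-x) = KT A x := by
  unfold KT; rw [map_neg, norm_neg]

/-- change of variables -/
theorem lintegral_comp_lin {n : ℕ} (A : (Fin n → ℝ) →ₗ[ℝ] (Fin n → ℝ))
    (hA : LinearMap.det A ≠ 0) {F : (Fin n → ℝ) → ℝ≥0∞} (hF : Measurable F) :
    ∫⁻ x, ENNReal.ofReal |LinearMap.det A| * F (A x) = ∫⁻ z, F z := by
  have hAm : Measurable A := (A.continuous_of_finiteDimensional).measurable
  have h0 : ∫⁻ x, ENNReal.ofReal |LinearMap.det A| * F (A x) =
      ENNReal.ofReal |LinearMap.det A| * ∫⁻ x, F (A x) := lintegral_const_mul _ (hF.comp hAm)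
  rw [h0]
  rw [← lintegral_map hF hAm, Real.map_linearMap_volume_pi_eq_smul_volume_pi hA,
    lintegral_smul_measure, smul_eq_mul, ← mul_assoc, ← ENNReal.ofReal_mul (abs_nonneg _),
    abs_inv, mul_inv_cancel₀ (abs_pos.mpr hA).ne']
  simp

theorem lintegral_KT_le {n : ℕ} (A : (Fin n → ℝ) →ₗ[ℝ] (Fin n → ℝ))
    (hA : LinearMap.det A ≠ 0) : ∫⁻ x, KT A x ≤ cW n := by
  have h := lintegral_comp_lin A hA
    (F := fun z => ENNReal.ofReal (((1 + ‖z‖)⁻¹) ^ (2 * n + 2))) (by fun_prop)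
  have e : ∀ x, KT A x = ENNReal.ofReal |LinearMap.det A| *
      ENNReal.ofReal (((1 + ‖A x‖)⁻¹) ^ (2 * n + 2)) := by
    intro x
    unfold KT
    rw [ENNReal.ofReal_mul (abs_nonneg _)]
  simp_rw [e]
  rw [h]
  unfold cW W
  apply lintegral_mono
  intro z
  apply ENNReal.ofReal_le_ofReal
  simp only [inv_one, one_pow, one_mul, div_one]
  apply pow_le_pow_of_le_one (by positivity)
  · apply inv_le_one_of_one_le₀
    have := norm_nonneg z
    linarith
  · omega

/-- the constant in the local constancy estimate -/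
noncomputable def Crep (n : ℕ) : ℝ := (exists_kerN n (2 * n + 2)).choose_spec.2.1.choose

theorem Crep_one_le (n : ℕ) : 1 ≤ Crep n := (exists_kerN n (2 * n + 2)).choose_spec.2.1.choose_spec.1

theorem rep_bound {n : ℕ} {Ω : Type*} [MeasurableSpace Ω] {T : (Fin n → ℝ) → Ω → Ω}
    {ξc : Fin n → ℝ} {A : (Fin n → ℝ) →ₗ[ℝ] (Fin n → ℝ)} (hA : LinearMap.det A ≠ 0)
    {f : Ω → ℂ} (hf : f ∈ Spec T (BoxSet ξc A)) (ω : Ω) :
    ‖f ω‖ₑ ≤ ENNReal.ofReal (Crep n) * Av T (KT A) (fun ω => ‖f ω‖ₑ) ω := by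
  set φ := (exists_kerN n (2 * n + 2)).choose with hφ
  have hφc : Continuous φ := (exists_kerN n (2 * n + 2)).choose_spec.1
  have hφb : ∀ x, ‖φ x‖ ≤ Crep n * ((1 + ‖x‖)⁻¹) ^ (2 * n + 2) :=
    (exists_kerN n (2 * n + 2)).choose_spec.2.1.choose_spec.2
  have hφi : Integrable φ := (exists_kerN n (2 * n + 2)).choose_spec.2.2.1
  have hφη : ∀ η : Fin n → ℝ, ‖η‖ ≤ 1 → ∫ x, φ x * ee (∑ i, η i * x i) = 1 :=
    (exists_kerN n (2 * n + 2)).choose_spec.2.2.2
  have hAc : Continuous A := A.continuous_of_finiteDimensional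
  have hdet : 0 < |LinearMap.det A| := abs_pos.mpr hA
  -- the kernel
  set κ : (Fin n → ℝ) → ℂ := fun x =>
    (|LinearMap.det A| : ℝ) * φ (A x) * ee (-(∑ i, ξc i * x i)) with hκ
  have hκc : Continuous κ := by
    apply Continuous.mul
    · exact continuous_const.mul (hφc.comp hAc)
    · exact ee_cont.comp (by fun_prop)
  have hκb : ∀ x, ‖κ x‖ₑ ≤ ENNReal.ofReal (Crep n) * KT A x := by
    intro x
    rw [← ofReal_norm]
    unfold KT
    rw [← ENNReal.ofReal_mul (by linarith [Crep_one_le n])]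
    apply ENNReal.ofReal_le_ofReal
    simp only [hκ, norm_mul, norm_ee, mul_one, Complex.norm_real, Real.norm_eq_abs, abs_abs]
    calc |LinearMap.det A| * ‖φ (A x)‖
        ≤ |LinearMap.det A| * (Crep n * ((1 + ‖A x‖)⁻¹) ^ (2 * n + 2)) := by
          gcongr; exact hφb _
      _ = _ := by ring
  have hκi : Integrable κ := by
    refine ⟨hκc.aestronglyMeasurable, ?_⟩
    unfold HasFiniteIntegral
    calc ∫⁻ x, ‖κ x‖ₑ ≤ ∫⁻ x, ENNReal.ofReal (Crep n) * KT A x := lintegral_mono hκb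
      _ = ENNReal.ofReal (Crep n) * ∫⁻ x, KT A x := lintegral_const_mul _ (KT_meas A)
      _ ≤ ENNReal.ofReal (Crep n) * cW n := by gcongr; exact lintegral_KT_le A hA
      _ < ∞ := ENNReal.mul_lt_top ENNReal.ofReal_lt_top (cW_lt_top n)
  have hκA : ∀ ξ ∈ BoxSet ξc A, ∫ x, κ x * ee (∑ i, ξ i * x i) = 1 := by
    rintro ξ ⟨η, hη, hξ⟩
    have h1 : ∀ x, κ x * ee (∑ i, ξ i * x i) =
        (|LinearMap.det A| : ℝ) • (φ (A x) * ee (∑ i, η i * (A x) i)) := by
      intro x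
      rw [hξ x, hκ]
      simp only [Complex.real_smul]
      rw [ee_add, mul_assoc ((|LinearMap.det A| : ℝ) * φ (A x) : ℂ), ← mul_assoc (ee _) (ee _),
        ← ee_add, neg_add_cancel, ee_zero]
      ring
    simp_rw [h1]
    rw [integral_smul]
    have h2 : ∫ x, φ (A x) * ee (∑ i, η i * (A x) i) =
        |(LinearMap.det A)⁻¹| • ∫ z, φ z * ee (∑ i, η i * z i) := by
      have hm := Real.map_linearMap_volume_pi_eq_smul_volume_pi hA
      have h3 := integral_map (μ := (volume : Measure (Fin n → ℝ))) hAc.measurable.aemeasurable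
        (f := fun z => φ z * ee (∑ i, η i * z i))
        ((hφc.mul (ee_cont.comp (by fun_prop))).aestronglyMeasurable)
      rw [← h3, hm, integral_smul_measure]
      rw [ENNReal.toReal_ofReal (abs_nonneg _)]
    rw [h2, hφη η hη, smul_smul, abs_inv, mul_inv_cancel₀ hdet.ne', one_smul]
  have hrep := (Spec_rep hκi hκA hf ω).1
  calc ‖f ω‖ₑ = ‖∫ x, κ x * f (T x ω)‖ₑ := by rw [hrep]
    _ ≤ ∫⁻ x, ‖κ x * f (T x ω)‖ₑ := enorm_integral_le_lintegral_enorm _
    _ ≤ ∫⁻ x, ENNReal.ofReal (Crep n) * (KT A x * ‖f (T x ω)‖ₑ) := by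
        apply lintegral_mono
        intro x
        simp only [enorm_mul]
        rw [← mul_assoc]
        gcongr
        exact hκb x
    _ = _ := by
        rw [lintegral_const_mul]
        · rfl
        · exact (KT_meas A).mul (Spec_orbit_cont hf ω).measurable.enorm

/-- power version -/
theorem rep_bound_pow {n : ℕ} {Ω : Type*} [MeasurableSpace Ω] {T : (Fin n → ℝ) → Ω → Ω}
    {ξc : Fin n → ℝ} {A : (Fin n → ℝ) →ₗ[ℝ] (Fin n → ℝ)} (hA : LinearMap.det A ≠ 0)
    {f : Ω → ℂ} (hf : f ∈ Spec T (BoxSet ξc A)) {q : ℝ} (hq : 1 ≤ q) (ω : Ω) :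
    ‖f ω‖ₑ ^ q ≤ ENNReal.ofReal (Crep n) ^ q * (cW n) ^ (q - 1) *
      Av T (KT A) (fun ω => ‖f ω‖ₑ ^ q) ω := by
  have hq0 : 0 < q := by linarith
  have hfm : Measurable (fun x => ‖f (T x ω)‖ₑ) := (Spec_orbit_cont hf ω).measurable.enorm
  have h1 : Av T (KT A) (fun ω => ‖f ω‖ₑ) ω ≤
      (cW n) ^ ((q - 1) / q) * (Av T (KT A) (fun ω => ‖f ω‖ₑ ^ q) ω) ^ (1 / q) := by
    rcases eq_or_lt_of_le hq with rfl | hq1
    · simp
    · have hpq : (q / (q - 1)).HolderConjugate q := by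
        rw [Real.holderConjugate_comm, Real.holderConjugate_iff]
        refine ⟨hq1, ?_⟩
        have : q - 1 ≠ 0 := by linarith
        field_simp
        ring
      unfold Av
      have h2 : ∀ x, KT A x * ‖f (T x ω)‖ₑ =
          (KT A x) ^ ((q - 1) / q) * ((KT A x) ^ (1 / q) * ‖f (T x ω)‖ₑ) := by
        intro x
        rw [← mul_assoc, ← ENNReal.rpow_add_of_nonneg _ _ (by apply div_nonneg <;> linarith)
          (by positivity)]
        rw [← add_div, sub_add_cancel, div_self hq0.ne', ENNReal.rpow_one]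
      simp_rw [h2]
      refine (ENNReal.lintegral_mul_le_Lp_mul_Lq volume hpq ?_ ?_).trans ?_
      · exact ((KT_meas A).pow_const _).aemeasurable
      · exact (((KT_meas A).pow_const _).mul hfm).aemeasurable
      · have h3 : ∀ x, ((KT A x) ^ ((q - 1) / q)) ^ (q / (q - 1)) = KT A x := by
          intro x
          rw [← ENNReal.rpow_mul]
          have : (q - 1) / q * (q / (q - 1)) = 1 := by
            have : q - 1 ≠ 0 := by linarith
            field_simp
          rw [this, ENNReal.rpow_one]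
        have h4 : ∀ x, ((KT A x) ^ (1 / q) * ‖f (T x ω)‖ₑ) ^ q = KT A x * ‖f (T x ω)‖ₑ ^ q := by
          intro x
          rw [ENNReal.mul_rpow_of_nonneg _ _ hq0.le, ← ENNReal.rpow_mul,
            one_div_mul_cancel hq0.ne', ENNReal.rpow_one]
        simp_rw [h3, h4]
        gcongr
        · rw [one_div_div]
          apply ENNReal.rpow_le_rpow (lintegral_KT_le A hA)
          apply div_nonneg <;> linarith
  calc ‖f ω‖ₑ ^ q ≤ (ENNReal.ofReal (Crep n) * ((cW n) ^ ((q - 1) / q) *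
        (Av T (KT A) (fun ω => ‖f ω‖ₑ ^ q) ω) ^ (1 / q))) ^ q := by
        apply ENNReal.rpow_le_rpow _ hq0.le
        refine (rep_bound hA hf ω).trans ?_
        gcongr
    _ = _ := by
        rw [ENNReal.mul_rpow_of_nonneg _ _ hq0.le, ENNReal.mul_rpow_of_nonneg _ _ hq0.le,
          ← ENNReal.rpow_mul, ← ENNReal.rpow_mul, one_div_mul_cancel hq0.ne', ENNReal.rpow_one,
          div_mul_cancel₀ _ hq0.ne', mul_assoc]

end BDDK
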