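import Mathlib
import Pool.Agent.BDD.Rep

/-!
# The kernels `KT A` satisfy the hypotheses of ball inflation
-/

open MeasureTheory Finset
open scoped ENNReal

namespace BDDK

theorem KT_shift {n : ℕ} (A : (Fin n → ℝ) →ₗ[ℝ] (Fin n → ℝ)) (x u : Fin n → ℝ) {c : ℝ}
    (hu : ‖A u‖ ≤ c) : KT A (x + u) ≤ ENNReal.ofReal ((1 + c) ^ (2 * n + 2)) * KT A x := by
  have hc : 0 ≤ c := (norm_nonneg _).trans hu
  unfold KT
  rw [← ENNReal.ofReal_mul (by positivity)]
  apply ENNReal.ofReal_le_ofReal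
  have hx : 0 < 1 + ‖A x‖ := by positivity
  have hxu : 0 < 1 + ‖A (x + u)‖ := by positivity
  have key : (1 + ‖A (x + u)‖)⁻¹ ≤ (1 + c) * (1 + ‖A x‖)⁻¹ := by
    rw [← div_eq_mul_inv, inv_eq_one_div, div_le_div_iff₀ hxu hx]
    have h1 : ‖A x‖ ≤ ‖A (x + u)‖ + ‖A u‖ := by
      calc ‖A x‖ = ‖A (x + u) - A u‖ := by rw [map_add]; simp
        _ ≤ _ := norm_sub_le _ _
    have h2 : 0 ≤ ‖A (x + u)‖ := norm_nonneg _
    nlinarith
  calc |LinearMap.det A| * ((1 + ‖A (x + u)‖)⁻¹) ^ (2 * n + 2)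
      ≤ |LinearMap.det A| * ((1 + c) * (1 + ‖A x‖)⁻¹) ^ (2 * n + 2) := by gcongr
    _ = _ := by rw [mul_pow]; ring

/-- `∫ (1 + |A y|)^(n+1) KT A y dy ≤ cW n` -/
theorem lintegral_KT_weight {n : ℕ} (A : (Fin n → ℝ) →ₗ[ℝ] (Fin n → ℝ))
    (hA : LinearMap.det A ≠ 0) :
    ∫⁻ y, ENNReal.ofReal ((1 + ‖A y‖) ^ (n + 1)) * KT A y = cW n := by
  have h := lintegral_comp_lin A hA
    (F := fun z => ENNReal.ofReal (((1 + ‖z‖)⁻¹) ^ (n + 1))) (by fun_prop)
  unfold cW W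
  simp only [inv_one, one_pow, one_mul, div_one]
  rw [← h]
  refine lintegral_congr fun y => ?_
  unfold KT
  rw [← ENNReal.ofReal_mul (by positivity), ← ENNReal.ofReal_mul (abs_nonneg _)]
  congr 1
  have hy : 0 < 1 + ‖A y‖ := by positivity
  have h6 : ((1 + ‖A y‖)⁻¹) ^ (2 * n + 2) =
      ((1 + ‖A y‖)⁻¹) ^ (n + 1) * ((1 + ‖A y‖)⁻¹) ^ (n + 1) := by
    rw [← pow_add]; congr 1; ring
  rw [h6]
  have h5 : (1 + ‖A y‖) ^ (n + 1) * ((1 + ‖A y‖)⁻¹) ^ (n + 1) = 1 := by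
    rw [← mul_pow, mul_inv_cancel₀ hy.ne', one_pow]
  calc (1 + ‖A y‖) ^ (n + 1) * (|LinearMap.det A| *
        (((1 + ‖A y‖)⁻¹) ^ (n + 1) * ((1 + ‖A y‖)⁻¹) ^ (n + 1)))
      = ((1 + ‖A y‖) ^ (n + 1) * ((1 + ‖A y‖)⁻¹) ^ (n + 1)) *
        (|LinearMap.det A| * ((1 + ‖A y‖)⁻¹) ^ (n + 1)) := by ring
    _ = _ := by rw [h5, one_mul]

/-- convolution of a weight with a kernel at a smaller scale -/
theorem KT_conv {n : ℕ} (A : (Fin n → ℝ) →ₗ[ℝ] (Fin n → ℝ)) (hA : LinearMap.det A ≠ 0)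
    {C R : ℝ} (hR : 0 < R) (hC : 1 ≤ C) (hAC : ∀ y, ‖y‖ ≤ C * R * ‖A y‖) (x : Fin n → ℝ) :
    Kop (W R) (fun y => KT A (x - y)) 0 ≤ ENNReal.ofReal (C ^ (n + 1)) * cW n * W R x := by
  unfold Kop
  have h1 : ∫⁻ y, W R (y - 0) * KT A (x - y) = ∫⁻ y, W R (x - y) * KT A y := by
    have := lintegral_sub_left_eq_self (μ := (volume : Measure (Fin n → ℝ)))
      (fun y => W R (x - y) * KT A y) x
    rw [← this]
    refine lintegral_congr fun y => ?_
    simp
  rw [h1]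
  calc ∫⁻ y, W R (x - y) * KT A y
      ≤ ∫⁻ y, (ENNReal.ofReal (C ^ (n + 1)) * W R x) *
          (ENNReal.ofReal ((1 + ‖A y‖) ^ (n + 1)) * KT A y) := by
        apply lintegral_mono
        intro y
        have h2 : W R (x - y) ≤ ENNReal.ofReal ((1 + ‖y‖ / R) ^ (n + 1)) * W R x := by
          have := W_add_le hR x (-y)
          rwa [norm_neg, ← sub_eq_add_neg] at this
        have h3 : (1 + ‖y‖ / R) ^ (n + 1) ≤ C ^ (n + 1) * (1 + ‖A y‖) ^ (n + 1) := by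
          rw [← mul_pow]
          gcongr
          have : ‖y‖ / R ≤ C * ‖A y‖ := by
            rw [div_le_iff₀ hR]
            calc ‖y‖ ≤ C * R * ‖A y‖ := hAC y
              _ = _ := by ring
          linarith
        calc W R (x - y) * KT A y
            ≤ (ENNReal.ofReal (C ^ (n + 1) * (1 + ‖A y‖) ^ (n + 1)) * W R x) * KT A y := by
              gcongr
              refine h2.trans ?_
              gcongr
          _ = _ := by
              rw [ENNReal.ofReal_mul (by positivity)]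
              ring
    _ = (ENNReal.ofReal (C ^ (n + 1)) * W R x) * cW n := by
        rw [lintegral_const_mul, lintegral_KT_weight A hA]
        have : Continuous A := A.continuous_of_finiteDimensional
        have h := this.measurable
        exact (by fun_prop : Measurable fun y => ENNReal.ofReal ((1 + ‖A y‖) ^ (n + 1))).mul
          (KT_meas A)
    _ = _ := by ring

end BDDK
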