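import Mathlib
import Pool.Agent.BDD.Tube

/-!
# Local `L^2` orthogonality
-/

open MeasureTheory Finset
open scoped ENNReal ComplexConjugate

namespace BDDK

variable {n : ℕ} {Ω : Type*} [MeasurableSpace Ω] {T : (Fin n → ℝ) → Ω → Ω}

theorem Spec_vanish {A : Set (Fin n → ℝ)} {κ : (Fin n → ℝ) → ℂ} (hκ : Integrable κ)
    (hA : ∀ ξ ∈ A, ∫ x, κ x * ee (∑ i, ξ i * x i) = 0) {f : Ω → ℂ} (hf : f ∈ Spec T A) (ω : Ω) :
    ∫ x, κ x * f (T x ω) = 0 ∧ Integrable (fun x => κ x * f (T x ω)) := by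
  induction hf using Submodule.span_induction with
  | mem x hx =>
    obtain ⟨ξ, hξ, h⟩ := hx
    simp_rw [h.eig]
    have h1 : ∀ y, κ y * (ee (∑ i, ξ i * y i) * x ω) = (κ y * ee (∑ i, ξ i * y i)) * x ω :=
      fun y => by ring
    simp_rw [h1]
    constructor
    · rw [integral_mul_const, hA ξ hξ, zero_mul]
    · apply Integrable.mul_const
      apply hκ.mul_bdd (c := 1)
      · exact (ee_cont.comp (by fun_prop)).aestronglyMeasurable
      · exact Filter.Eventually.of_forall fun y => (norm_ee _).le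
  | zero => simp
  | add x y _ _ hx hy =>
    simp only [Pi.add_apply, mul_add]
    exact ⟨by rw [integral_add hx.2 hy.2, hx.1, hy.1, add_zero], hx.2.add hy.2⟩
  | smul a x _ hx =>
    simp only [Pi.smul_apply, smul_eq_mul]
    have h1 : ∀ y, κ y * (a * x (T y ω)) = a * (κ y * x (T y ω)) := fun y => by ring
    simp_rw [h1]
    exact ⟨by rw [integral_const_mul, hx.1, mul_zero], hx.2.const_mul a⟩

theorem Spec_integrable {A : Set (Fin n → ℝ)} {κ : (Fin n → ℝ) → ℂ} (hκ : Integrable κ)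
    {f : Ω → ℂ} (hf : f ∈ Spec T A) (ω : Ω) : Integrable (fun x => κ x * f (T x ω)) := by
  obtain ⟨M, hM0, hM⟩ := Spec_bdd hf
  exact hκ.mul_bdd (c := M) (Spec_orbit_cont hf ω).aestronglyMeasurable
    (Filter.Eventually.of_forall fun y => hM _)

/-- abstract almost orthogonality -/
theorem orth_ker {κ : (Fin n → ℝ) → ℝ} (hκ0 : ∀ x, 0 ≤ κ x) (hκ : Integrable κ)

    {ι : Type*} (J : Finset ι) (A : ι → Set (Fin n → ℝ)) (f : ι → Ω → ℂ)
    (hf : ∀ j ∈ J, f j ∈ Spec T (A j)) (P : ι → ι → Prop) [DecidableRel P]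
    (hPsymm : ∀ j k, P j k → P k j)
    (hP : ∀ j ∈ J, ∀ k ∈ J, ¬ P j k → ∀ ξ ∈ A j, ∀ η ∈ A k,
      ∫ x, (κ x : ℂ) * ee (∑ i, (ξ - η) i * x i) = 0)
    (M : ℕ) (hM : ∀ j ∈ J, (J.filter (P j)).card ≤ M) (ω : Ω) :
    Av T (fun x => ENNReal.ofReal (κ x)) (fun ω => ‖∑ j ∈ J, f j ω‖ₑ ^ 2) ω ≤
      M * ∑ j ∈ J, Av T (fun x => ENNReal.ofReal (κ x)) (fun ω => ‖f j ω‖ₑ ^ 2) ω := by
  have hκC : Integrable (fun x => (κ x : ℂ)) := hκ.ofReal
  -- functions along the orbit
  set F : ι → (Fin n → ℝ) → ℂ := fun j x => f j (T x ω) with hF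
  have hFc : ∀ j ∈ J, Continuous (F j) := fun j hj => Spec_orbit_cont (hf j hj) ω
  have hprod : ∀ j ∈ J, ∀ k ∈ J, Integrable (fun x => (κ x : ℂ) * (F j x * conj (F k x))) := by
    intro j hj k hk
    have h1 : f j * (fun ω => conj (f k ω)) ∈ Spec T Set.univ :=
      Spec_mul (fun _ _ _ _ => Set.mem_univ _) (hf j hj) (Spec_conj (hf k hk))
    exact Spec_integrable hκC h1 ω
  have hzero : ∀ j ∈ J, ∀ k ∈ J, ¬ P j k →
      ∫ x, (κ x : ℂ) * (F j x * conj (F k x)) = 0 := by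
    intro j hj k hk hjk
    have h1 : f j * (fun ω => conj (f k ω)) ∈
        Spec T {ζ | ∃ ξ ∈ A j, ∃ η ∈ A k, ζ = ξ - η} := by
      apply Spec_mul _ (hf j hj) (Spec_conj (hf k hk))
      intro ξ hξ η hη
      exact ⟨ξ, hξ, -η, hη, by simp⟩
    refine (Spec_vanish hκC ?_ h1 ω).1
    rintro ζ ⟨ξ, hξ, η, hη, rfl⟩
    exact hP j hj k hk hjk ξ hξ η hη
  have hsq : ∀ j ∈ J, Integrable (fun x => κ x * ‖F j x‖ ^ 2) := by
    intro j hj
    have h1 := (hprod j hj j hj).re
    refine h1.congr (Filter.Eventually.of_forall fun x => ?_)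
    simp only
    rw [Complex.mul_conj, Complex.normSq_eq_norm_sq]
    norm_cast
  -- the real inequality
  have hreal : ∫ x, κ x * ‖∑ j ∈ J, F j x‖ ^ 2 ≤ M * ∑ j ∈ J, ∫ x, κ x * ‖F j x‖ ^ 2 := by
    have h1 : ∀ x, ((κ x * ‖∑ j ∈ J, F j x‖ ^ 2 : ℝ) : ℂ) =
        ∑ j ∈ J, ∑ k ∈ J, (κ x : ℂ) * (F j x * conj (F k x)) := by
      intro x
      push_cast
      rw [← Complex.ofReal_pow, ← Complex.normSq_eq_norm_sq, ← Complex.mul_conj, map_sum,
        Finset.sum_mul_sum, Finset.mul_sum]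
      refine Finset.sum_congr rfl fun j _ => ?_
      rw [Finset.mul_sum]
    have h2 : ((∫ x, κ x * ‖∑ j ∈ J, F j x‖ ^ 2 : ℝ) : ℂ) =
        ∑ j ∈ J, ∑ k ∈ J.filter (P j), ∫ x, (κ x : ℂ) * (F j x * conj (F k x)) := by
      rw [← integral_complex_ofReal]
      simp_rw [h1]
      rw [integral_finsetSum]
      · refine Finset.sum_congr rfl fun j hj => ?_
        rw [integral_finsetSum _ (fun k hk => hprod j hj k hk)]
        rw [Finset.sum_filter]
        refine Finset.sum_congr rfl fun k hk => ?_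
        split_ifs with h
        · rfl
        · exact hzero j hj k hk h
      · intro j hj
        exact integrable_finsetSum _ fun k hk => hprod j hj k hk
    have h3 : ∀ j ∈ J, ∀ k ∈ J, ‖∫ x, (κ x : ℂ) * (F j x * conj (F k x))‖ ≤
        (1 / 2) * (∫ x, κ x * ‖F j x‖ ^ 2) + (1 / 2) * ∫ x, κ x * ‖F k x‖ ^ 2 := by
      intro j hj k hk
      calc ‖∫ x, (κ x : ℂ) * (F j x * conj (F k x))‖
          ≤ ∫ x, ‖(κ x : ℂ) * (F j x * conj (F k x))‖ := norm_integral_le_integral_norm _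
        _ ≤ ∫ x, ((1 / 2) * (κ x * ‖F j x‖ ^ 2) + (1 / 2) * (κ x * ‖F k x‖ ^ 2)) := by
            apply integral_mono (hprod j hj k hk).norm
            · exact ((hsq j hj).const_mul _).add ((hsq k hk).const_mul _)
            · intro x
              simp only [norm_mul, Complex.norm_real, RCLike.norm_conj]
              rw [Real.norm_of_nonneg (hκ0 x)]
              have := hκ0 x
              have h5 := sq_nonneg (‖F j x‖ - ‖F k x‖)
              nlinarith
        _ = _ := by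
            rw [integral_add ((hsq j hj).const_mul _) ((hsq k hk).const_mul _),
              integral_const_mul, integral_const_mul]
    have h4 : (∫ x, κ x * ‖∑ j ∈ J, F j x‖ ^ 2) ≤
        ∑ j ∈ J, ∑ k ∈ J.filter (P j),
          ((1 / 2) * (∫ x, κ x * ‖F j x‖ ^ 2) + (1 / 2) * ∫ x, κ x * ‖F k x‖ ^ 2) := by
      calc (∫ x, κ x * ‖∑ j ∈ J, F j x‖ ^ 2)
          ≤ ‖((∫ x, κ x * ‖∑ j ∈ J, F j x‖ ^ 2 : ℝ) : ℂ)‖ := by
            rw [Complex.norm_real]; exact le_abs_self _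
        _ ≤ ∑ j ∈ J, ∑ k ∈ J.filter (P j), ‖∫ x, (κ x : ℂ) * (F j x * conj (F k x))‖ := by
            rw [h2]
            refine (norm_sum_le _ _).trans ?_
            gcongr with j hj
            exact norm_sum_le _ _
        _ ≤ _ := by
            gcongr with j hj k hk
            exact h3 j hj k (Finset.mem_filter.mp hk).1
    refine h4.trans ?_
    set a : ι → ℝ := fun j => ∫ x, κ x * ‖F j x‖ ^ 2 with ha
    have ha0 : ∀ j, 0 ≤ a j := fun j => integral_nonneg fun x => by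
      have := hκ0 x
      positivity
    have h5 : ∑ j ∈ J, ∑ k ∈ J.filter (P j), (1 / 2) * a j ≤ (1 / 2) * (M * ∑ j ∈ J, a j) := by
      rw [Finset.mul_sum, Finset.mul_sum]
      apply Finset.sum_le_sum
      intro j hj
      rw [Finset.sum_const, nsmul_eq_mul]
      have : ((J.filter (P j)).card : ℝ) ≤ M := by exact_mod_cast hM j hj
      have := ha0 j
      nlinarith
    have h6 : ∑ j ∈ J, ∑ k ∈ J.filter (P j), (1 / 2) * a k ≤ (1 / 2) * (M * ∑ j ∈ J, a j) := by
      have : ∑ j ∈ J, ∑ k ∈ J.filter (P j), (1 / 2) * a k =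
          ∑ k ∈ J, ∑ j ∈ J.filter (P k), (1 / 2) * a k := by
        simp_rw [Finset.sum_filter]
        rw [Finset.sum_comm]
        refine Finset.sum_congr rfl fun k _ => Finset.sum_congr rfl fun j _ => ?_
        by_cases h : P j k
        · rw [if_pos h, if_pos (hPsymm _ _ h)]
        · rw [if_neg h, if_neg (fun h' => h (hPsymm _ _ h'))]
      rw [this]
      exact h5
    calc ∑ j ∈ J, ∑ k ∈ J.filter (P j), ((1 / 2) * a j + (1 / 2) * a k)
        = ∑ j ∈ J, ∑ k ∈ J.filter (P j), (1 / 2) * a j +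
          ∑ j ∈ J, ∑ k ∈ J.filter (P j), (1 / 2) * a k := by
          simp_rw [Finset.sum_add_distrib]
      _ ≤ _ := by linarith
  -- back to `ENNReal`
  have hconv : ∀ G : (Fin n → ℝ) → ℂ, Integrable (fun x => κ x * ‖G x‖ ^ 2) →
      ∫⁻ x, ENNReal.ofReal (κ x) * ‖G x‖ₑ ^ 2 = ENNReal.ofReal (∫ x, κ x * ‖G x‖ ^ 2) := by
    intro G hG
    rw [ofReal_integral_eq_lintegral_ofReal hG]
    · refine lintegral_congr fun x => ?_
      rw [ENNReal.ofReal_mul (hκ0 x), ENNReal.ofReal_pow (norm_nonneg _), ofReal_norm]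
    · exact Filter.Eventually.of_forall fun x => by
        have := hκ0 x
        positivity
  have hsumint : Integrable (fun x => κ x * ‖∑ j ∈ J, F j x‖ ^ 2) := by
    have h0 : (∑ j ∈ J, f j) ∈ Spec T Set.univ :=
      Submodule.sum_mem _ fun j hj => Spec_mono (Set.subset_univ _) (hf j hj)
    obtain ⟨B, hB0, hB⟩ := Spec_bdd h0
    apply hκ.mul_bdd (c := B ^ 2)
    · have := Spec_orbit_cont h0 ω
      simp only [Finset.sum_apply] at this
      exact (this.norm.pow 2).aestronglyMeasurable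
    · refine Filter.Eventually.of_forall fun x => ?_
      rw [Real.norm_of_nonneg (by positivity)]
      have := hB (T x ω)
      simp only [Finset.sum_apply] at this
      gcongr
  unfold Av
  calc ∫⁻ x, ENNReal.ofReal (κ x) * ‖∑ j ∈ J, F j x‖ₑ ^ 2
      = ENNReal.ofReal (∫ x, κ x * ‖∑ j ∈ J, F j x‖ ^ 2) :=
        hconv (fun x => ∑ j ∈ J, F j x) hsumint
    _ ≤ ENNReal.ofReal (M * ∑ j ∈ J, ∫ x, κ x * ‖F j x‖ ^ 2) := ENNReal.ofReal_le_ofReal hreal
    _ = M * ∑ j ∈ J, ENNReal.ofReal (∫ x, κ x * ‖F j x‖ ^ 2) := by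
        rw [ENNReal.ofReal_mul (by positivity), ENNReal.ofReal_natCast, ENNReal.ofReal_sum_of_nonneg]
        intro j _
        exact integral_nonneg fun x => by
          have := hκ0 x
          positivity
    _ = M * ∑ j ∈ J, ∫⁻ x, ENNReal.ofReal (κ x) * ‖F j x‖ₑ ^ 2 := by
        congr 1
        refine Finset.sum_congr rfl fun j hj => ?_
        rw [hconv (F j) (hsq j hj)]

end BDDK
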