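import Mathlib
import Pool.Agent.BDD.Orth

/-!
# Local `L^2` orthogonality with the weights `W R`
-/

open MeasureTheory Finset
open scoped ENNReal

namespace BDDK

/-- scaled positive kernel with compactly supported Fourier transform -/
theorem exists_kerR (n : ℕ) : ∃ (φ : ℝ → (Fin n → ℝ) → ℝ) (C : ℝ≥0∞), C ≠ ∞ ∧
    ∀ R : ℝ, 0 < R → Continuous (φ R) ∧ (∀ x, 0 ≤ φ R x) ∧ Integrable (φ R) ∧
      (∀ η : Fin n → ℝ, (∃ i, 1 / R ≤ |η i|) → ∫ x, (φ R x : ℂ) * ee (∑ i, η i * x i) = 0) ∧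
      (∀ y, W R y ≤ C * ∫⁻ z, W R z * ENNReal.ofReal (φ R (y - z))) ∧
      (∀ y, ∫⁻ z, W R z * ENNReal.ofReal (φ R (y - z)) ≤ C * W R y) := by
  obtain ⟨φ, hφc, hφ0, ⟨C, hC, hCx⟩, ⟨c, hc, δ, hδ, hcx⟩, hφi, hφη⟩ := exists_kerP n (2 * n + 2)
  set δ' := min δ 1 with hδ'
  have hδ'0 : 0 < δ' := lt_min hδ one_pos
  have hδ'1 : δ' ≤ 1 := min_le_right _ _
  refine ⟨fun R x => (R⁻¹) ^ n * φ (R⁻¹ • x),
    2 ^ (n + 1) * ENNReal.ofReal ((c * (2 * δ') ^ n)⁻¹) + ENNReal.ofReal C * cW n, ?_, ?_⟩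
  · apply ENNReal.add_ne_top.mpr
    constructor
    · exact ENNReal.mul_ne_top (ENNReal.pow_ne_top (by norm_num)) ENNReal.ofReal_ne_top
    · exact ENNReal.mul_ne_top ENNReal.ofReal_ne_top (cW_lt_top n).ne
  · intro R hR
    have hRi : 0 < R⁻¹ := by positivity
    refine ⟨by fun_prop, fun x => mul_nonneg (by positivity) (hφ0 _), ?_, ?_, ?_, ?_⟩
    · exact (hφi.comp_smul hRi.ne').const_mul _
    · rintro η ⟨i, hi⟩
      have h1 : ∀ x : Fin n → ℝ, (((R⁻¹) ^ n * φ (R⁻¹ • x) : ℝ) : ℂ) * ee (∑ i, η i * x i) =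
          ((R⁻¹) ^ n : ℝ) • ((φ (R⁻¹ • x) : ℂ) * ee (∑ i, (R • η) i * (R⁻¹ • x) i)) := by
        intro x
        rw [Complex.real_smul, Complex.ofReal_mul, mul_assoc]
        congr 3
        refine Finset.sum_congr rfl fun j _ => ?_
        simp only [Pi.smul_apply, smul_eq_mul]
        field_simp
      simp_rw [h1]
      rw [integral_smul]
      have h2 := Measure.integral_comp_smul (volume : Measure (Fin n → ℝ))
        (fun z => (φ z : ℂ) * ee (∑ i, (R • η) i * z i)) R⁻¹
      rw [h2, hφη (R • η) ⟨i, ?_⟩]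
      · simp
      · simp only [Pi.smul_apply, smul_eq_mul, abs_mul, abs_of_pos hR]
        rw [div_le_iff₀ hR] at hi
        linarith
    · intro y
      have hball : ∫⁻ z, W R z * ENNReal.ofReal ((R⁻¹) ^ n * φ (R⁻¹ • (y - z))) ≥
          ENNReal.ofReal (c * (2 * δ') ^ n) * ((2 ^ (n + 1))⁻¹ * W R y) := by
        have hset : ∀ z ∈ Metric.closedBall y (δ' * R),
            (2 ^ (n + 1))⁻¹ * W R y * ENNReal.ofReal ((R⁻¹) ^ n * c) ≤
            W R z * ENNReal.ofReal ((R⁻¹) ^ n * φ (R⁻¹ • (y - z))) := by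
          intro z hz
          rw [Metric.mem_closedBall, dist_eq_norm] at hz
          gcongr
          · rw [mul_comm, ← div_eq_mul_inv]
            apply ENNReal.div_le_of_le_mul'
            have := W_add_le_two hR z (y - z) (by
              rw [norm_sub_rev]
              refine hz.trans ?_
              nlinarith)
            rwa [add_sub_cancel] at this
          · apply hcx
            rw [norm_smul, Real.norm_of_nonneg hRi.le, norm_sub_rev]
            calc R⁻¹ * ‖z - y‖ ≤ R⁻¹ * (δ' * R) := by gcongr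
              _ = δ' := by field_simp
              _ ≤ δ := min_le_left _ _
        calc ENNReal.ofReal (c * (2 * δ') ^ n) * ((2 ^ (n + 1))⁻¹ * W R y)
            = ∫⁻ _z in Metric.closedBall y (δ' * R),
                (2 ^ (n + 1))⁻¹ * W R y * ENNReal.ofReal ((R⁻¹) ^ n * c) := by
              rw [setLIntegral_const, Real.volume_pi_closedBall _ (by positivity),
                Fintype.card_fin]
              rw [mul_assoc ((2 ^ (n + 1))⁻¹ * W R y), ← ENNReal.ofReal_mul (by positivity)]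
              rw [mul_comm]
              congr 2
              rw [mul_pow, mul_pow, mul_pow, inv_pow]
              field_simp
          _ ≤ ∫⁻ z in Metric.closedBall y (δ' * R),
                W R z * ENNReal.ofReal ((R⁻¹) ^ n * φ (R⁻¹ • (y - z))) := by
              apply setLIntegral_mono' Metric.isClosed_closedBall.measurableSet hset
          _ ≤ _ := setLIntegral_le_lintegral _ _
      have hcδ : 0 < c * (2 * δ') ^ n := by positivity
      calc W R y = (2 ^ (n + 1) * ENNReal.ofReal ((c * (2 * δ') ^ n)⁻¹)) *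
            (ENNReal.ofReal (c * (2 * δ') ^ n) * ((2 ^ (n + 1))⁻¹ * W R y)) := by
            have e1 : ENNReal.ofReal ((c * (2 * δ') ^ n)⁻¹) * ENNReal.ofReal (c * (2 * δ') ^ n) = 1 := by
              rw [← ENNReal.ofReal_mul (by positivity), inv_mul_cancel₀ hcδ.ne']; simp
            have e2 : (2 : ℝ≥0∞) ^ (n + 1) * (2 ^ (n + 1))⁻¹ = 1 :=
              ENNReal.mul_inv_cancel (by simp) (ENNReal.pow_ne_top (by norm_num))
            calc W R y = (2 ^ (n + 1) * (2 ^ (n + 1))⁻¹) * (ENNReal.ofReal ((c * (2 * δ') ^ n)⁻¹) *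
                  ENNReal.ofReal (c * (2 * δ') ^ n)) * W R y := by rw [e1, e2]; simp
              _ = _ := by ring
        _ ≤ (2 ^ (n + 1) * ENNReal.ofReal ((c * (2 * δ') ^ n)⁻¹) + ENNReal.ofReal C * cW n) *
            ∫⁻ z, W R z * ENNReal.ofReal ((R⁻¹) ^ n * φ (R⁻¹ • (y - z))) := by
            exact mul_le_mul' le_self_add hball
    · intro y
      set A : (Fin n → ℝ) →ₗ[ℝ] (Fin n → ℝ) := R⁻¹ • LinearMap.id with hA
      have hdet : LinearMap.det A = (R⁻¹) ^ n := by
        rw [hA, LinearMap.det_smul]; simp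
      have hdet0 : LinearMap.det A ≠ 0 := by rw [hdet]; positivity
      have hAx : ∀ x, A x = R⁻¹ • x := fun x => by simp [hA]
      have h1 := KT_conv A hdet0 (C := 1) hR le_rfl (fun y => by
        rw [hAx, norm_smul, Real.norm_of_nonneg hRi.le]
        apply le_of_eq; field_simp) y
      unfold Kop at h1
      simp only [sub_zero, one_pow, ENNReal.ofReal_one, one_mul] at h1
      calc ∫⁻ z, W R z * ENNReal.ofReal ((R⁻¹) ^ n * φ (R⁻¹ • (y - z)))
          ≤ ∫⁻ z, ENNReal.ofReal C * (W R z * KT A (y - z)) := by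
            apply lintegral_mono
            intro z
            show W R z * ENNReal.ofReal ((R⁻¹) ^ n * φ (R⁻¹ • (y - z))) ≤
              ENNReal.ofReal C * (W R z * KT A (y - z))
            rw [mul_left_comm]
            refine mul_le_mul_right ?_ _
            unfold KT
            rw [← ENNReal.ofReal_mul (by positivity), hdet, hAx, abs_of_nonneg (by positivity)]
            apply ENNReal.ofReal_le_ofReal
            calc (R⁻¹) ^ n * φ (R⁻¹ • (y - z))
                ≤ (R⁻¹) ^ n * (C * ((1 + ‖R⁻¹ • (y - z)‖)⁻¹) ^ (2 * n + 2)) := by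
                  gcongr
                  exact hCx _
              _ = _ := by ring
        _ = ENNReal.ofReal C * ∫⁻ z, W R z * KT A (y - z) := by
            rw [lintegral_const_mul]
            exact (W_meas R).mul ((KT_meas A).comp (measurable_id.const_sub y))
        _ ≤ ENNReal.ofReal C * (cW n * W R y) := by gcongr
        _ ≤ _ := by
            rw [← mul_assoc]
            gcongr
            exact le_add_self

/-- composition of averages -/
theorem Av_Av {n : ℕ} {Ω : Type*} [MeasurableSpace Ω] {μ : Measure Ω}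
    {T : (Fin n → ℝ) → Ω → Ω} (hT : Flow μ T) {K φ : (Fin n → ℝ) → ℝ≥0∞} (hK : Measurable K)
    (hφ : Measurable φ) {G : Ω → ℝ≥0∞} (hG : Measurable G) (ω : Ω) :
    Av T K (Av T φ G) ω = ∫⁻ y, (∫⁻ z, K z * φ (y - z)) * G (T y ω) := by
  unfold Av
  have h1 : ∀ z, ∫⁻ y, φ y * G (T y (T z ω)) = ∫⁻ y, φ (y - z) * G (T y ω) := by
    intro z
    have := lintegral_add_right_eq_self (μ := (volume : Measure (Fin n → ℝ)))
      (fun y => φ (y - z) * G (T y ω)) z
    rw [← this]
    refine lintegral_congr fun y => ?_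
    rw [add_sub_cancel_right, hT.add]
  simp_rw [h1]
  have hGo : Measurable (fun y => G (T y ω)) := hG.comp (hT.orbit_meas ω)
  have h2 : ∀ z, K z * ∫⁻ y, φ (y - z) * G (T y ω) = ∫⁻ y, K z * (φ (y - z) * G (T y ω)) := by
    intro z
    rw [lintegral_const_mul]
    exact (hφ.comp (measurable_id.sub_const z)).mul hGo
  simp_rw [h2]
  rw [lintegral_lintegral_swap]
  · refine lintegral_congr fun y => ?_
    rw [← lintegral_mul_const]
    · refine lintegral_congr fun z => ?_
      ring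
    · exact hK.mul (hφ.comp (measurable_id.const_sub y))
  · apply Measurable.aemeasurable
    apply Measurable.mul
    · exact hK.comp measurable_fst
    · exact (hφ.comp (measurable_snd.sub measurable_fst)).mul (hGo.comp measurable_snd)

/-- LOCAL `L^2` ORTHOGONALITY -/
theorem orth (n : ℕ) : ∃ C : ℝ≥0∞, C ≠ ∞ ∧ ∀ {Ω : Type*} [MeasurableSpace Ω] (μ : Measure Ω)
    (T : (Fin n → ℝ) → Ω → Ω) (_ : Flow μ T) (R : ℝ) (_ : 0 < R)
    {ι : Type*} (J : Finset ι) (A : ι → Set (Fin n → ℝ)) (f : ι → Ω → ℂ)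
    (_ : ∀ j ∈ J, f j ∈ Spec T (A j)) (P : ι → ι → Prop) [DecidableRel P]
    (_ : ∀ j k, P j k → P k j)
    (_ : ∀ j ∈ J, ∀ k ∈ J, ¬ P j k → ∀ ξ ∈ A j, ∀ η ∈ A k, ∃ i, 1 / R ≤ |ξ i - η i|)
    (M : ℕ) (_ : ∀ j ∈ J, (J.filter (P j)).card ≤ M) (ω : Ω),
    Av T (W R) (fun ω => ‖∑ j ∈ J, f j ω‖ₑ ^ 2) ω ≤
      C * M * ∑ j ∈ J, Av T (W R) (fun ω => ‖f j ω‖ₑ ^ 2) ω := by
  obtain ⟨φ, C, hC, hφ⟩ := exists_kerR n
  refine ⟨C * C, ENNReal.mul_ne_top hC hC, ?_⟩
  intro Ω _ μ T hT R hR ι J A f hf P _ hPs hP M hM ω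
  obtain ⟨hφc, hφ0, hφi, hφη, hlow, hup⟩ := hφ R hR
  have hφm : Measurable (fun x => ENNReal.ofReal (φ R x)) := by fun_prop
  have hfm : ∀ j ∈ J, Measurable (fun ω => ‖f j ω‖ₑ ^ 2) := fun j hj =>
    ((Spec_meas (hf j hj)).enorm).pow_const 2
  have hsm : Measurable (fun ω => ‖∑ j ∈ J, f j ω‖ₑ ^ 2) := by
    apply Measurable.pow_const
    apply Measurable.enorm
    apply Finset.measurable_fun_sum
    intro j hj
    exact Spec_meas (hf j hj)
  have hbase := fun ω => orth_ker (T := T) (hφ0) hφi J A f hf P hPs (fun j hj k hk hjk ξ hξ η hη =>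
    hφη (ξ - η) (hP j hj k hk hjk ξ hξ η hη)) M hM ω
  calc Av T (W R) (fun ω => ‖∑ j ∈ J, f j ω‖ₑ ^ 2) ω
      ≤ ∫⁻ y, (C * ∫⁻ z, W R z * ENNReal.ofReal (φ R (y - z))) * ‖∑ j ∈ J, f j (T y ω)‖ₑ ^ 2 := by
        unfold Av
        apply lintegral_mono
        intro y
        show W R y * ‖∑ j ∈ J, f j (T y ω)‖ₑ ^ 2 ≤
          (C * ∫⁻ z, W R z * ENNReal.ofReal (φ R (y - z))) * ‖∑ j ∈ J, f j (T y ω)‖ₑ ^ 2
        exact mul_le_mul_left (hlow y) _
    _ = C * Av T (W R) (Av T (fun x => ENNReal.ofReal (φ R x))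
          (fun ω => ‖∑ j ∈ J, f j ω‖ₑ ^ 2)) ω := by
        rw [Av_Av hT (W_meas R) hφm hsm, ← lintegral_const_mul]
        · refine lintegral_congr fun y => ?_
          ring
        · apply Measurable.mul
          · apply Measurable.lintegral_prod_right
            exact ((W_meas R).comp measurable_snd).mul
              (hφm.comp (measurable_fst.sub measurable_snd))
          · exact hsm.comp (hT.orbit_meas ω)
    _ ≤ C * Av T (W R) (fun ω => M * ∑ j ∈ J, Av T (fun x => ENNReal.ofReal (φ R x))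
          (fun ω => ‖f j ω‖ₑ ^ 2) ω) ω := by
        refine mul_le_mul_right ?_ _
        unfold Av
        apply lintegral_mono
        intro y
        exact mul_le_mul_right (hbase (T y ω)) _
    _ = C * (M * ∑ j ∈ J, Av T (W R) (Av T (fun x => ENNReal.ofReal (φ R x))
          (fun ω => ‖f j ω‖ₑ ^ 2)) ω) := by
        congr 1
        have hAm : ∀ j ∈ J, Measurable (fun y => Av T (fun x => ENNReal.ofReal (φ R x))
            (fun ω => ‖f j ω‖ₑ ^ 2) (T y ω)) := fun j hj =>
          (Av_meas hT hφm (hfm j hj)).comp (hT.orbit_meas ω)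
        show ∫⁻ y, W R y * (M * ∑ j ∈ J, Av T (fun x => ENNReal.ofReal (φ R x))
          (fun ω => ‖f j ω‖ₑ ^ 2) (T y ω)) = _
        have e1 : ∀ y, W R y * (M * ∑ j ∈ J, Av T (fun x => ENNReal.ofReal (φ R x))
          (fun ω => ‖f j ω‖ₑ ^ 2) (T y ω)) = M * ∑ j ∈ J, W R y *
            Av T (fun x => ENNReal.ofReal (φ R x)) (fun ω => ‖f j ω‖ₑ ^ 2) (T y ω) := by
          intro y
          rw [mul_left_comm, Finset.mul_sum]
        simp_rw [e1]
        rw [lintegral_const_mul, lintegral_finsetSum']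
        · rfl
        · intro j hj
          exact ((W_meas R).mul (hAm j hj)).aemeasurable
        · apply Finset.measurable_fun_sum
          intro j hj
          exact (W_meas R).mul (hAm j hj)
    _ ≤ C * (M * ∑ j ∈ J, C * Av T (W R) (fun ω => ‖f j ω‖ₑ ^ 2) ω) := by
        gcongr with j hj
        rw [Av_Av hT (W_meas R) hφm (hfm j hj)]
        unfold Av
        rw [← lintegral_const_mul]
        · apply lintegral_mono
          intro y
          show (∫⁻ z, W R z * ENNReal.ofReal (φ R (y - z))) * ‖f j (T y ω)‖ₑ ^ 2 ≤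
            C * (W R y * ‖f j (T y ω)‖ₑ ^ 2)
          rw [← mul_assoc]
          exact mul_le_mul_left (hup y) _
        · exact (W_meas R).mul ((hfm j hj).comp (hT.orbit_meas ω))
    _ = _ := by
        rw [← Finset.mul_sum]
        ring

end BDDK
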