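import Mathlib
import Pool.Agent.BDD.Orth2
import Pool.Agent.BDD.KakFinal

/-!
# The decoupling inequality: definitions

Time coordinate first: `ξ 0` is the time frequency, `ξ i.succ` the space frequencies.
-/

open MeasureTheory Finset
open scoped ENNReal

namespace BDDK

/-- `L^p` norm -/
noncomputable def nrm {Ω : Type*} [MeasurableSpace Ω] (μ : Measure Ω) (p : ℝ) (f : Ω → ℂ) : ℝ≥0∞ :=
  (∫⁻ ω, ‖f ω‖ₑ ^ p ∂μ) ^ (1 / p)

/-- finite sums of eigenfunctions are dense in all `L^p`, `p < ∞` -/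
def DenseSpec {n : ℕ} {Ω : Type*} [MeasurableSpace Ω] (μ : Measure Ω)
    (T : (Fin n → ℝ) → Ω → Ω) : Prop :=
  ∀ h : Ω → ℂ, Measurable h → (∃ M : ℝ, ∀ ω, ‖h ω‖ ≤ M) → ∀ p : ℝ, 1 ≤ p →
    ∀ ε : ℝ≥0∞, 0 < ε → ∃ P ∈ Spec T Set.univ, nrm μ p (fun ω => h ω - P ω) ≤ ε

/-- the `N^-1`-cap of the (translated) paraboloid centred at `c`, thickness `N^-2` -/
def Cap (d : ℕ) (N : ℝ) (ξ0 : Fin (d + 1) → ℝ) (c : Fin d → ℝ) : Set (Fin (d + 1) → ℝ) :=
  {ξ | ∃ (z : Fin d → ℝ) (s : ℝ), ‖z‖ ≤ 1 ∧ |s| ≤ 1 ∧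
    (∀ i : Fin d, ξ i.succ = ξ0 i.succ + (c i + z i / N)) ∧
    ξ 0 = ξ0 0 + ∑ i, (c i + z i / N) ^ 2 + s / N ^ 2}

/-- decoupling inequality at scale `N` with constant `A` -/
def DecB (d : ℕ) (p N : ℝ) (A : ℝ≥0∞) : Prop :=
  ∀ (Ω : Type) [MeasurableSpace Ω] (μ : Measure Ω) [IsFiniteMeasure μ]
    (T : (Fin (d + 1) → ℝ) → Ω → Ω), Flow μ T → DenseSpec μ T →
  ∀ (ξ0 : Fin (d + 1) → ℝ) (ι : Type) (J : Finset ι) (c : ι → Fin d → ℝ) (g : ι → Ω → ℂ),
    (∀ j ∈ J, ∀ i, 0 ≤ c j i ∧ c j i ≤ 1) →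
    (∀ j ∈ J, ∀ k ∈ J, j ≠ k → ∃ i, 1 / N ≤ |c j i - c k i|) →
    (∀ j ∈ J, g j ∈ Spec T (Cap d N ξ0 (c j))) →
    nrm μ p (fun ω => ∑ j ∈ J, g j ω) ≤ A * (∑ j ∈ J, nrm μ p (g j) ^ 2) ^ (1 / 2 : ℝ)

/-- the linear map adapted to the cap -/
noncomputable def AC (d : ℕ) (N : ℝ) (c : Fin d → ℝ) :
    (Fin (d + 1) → ℝ) →ₗ[ℝ] (Fin (d + 1) → ℝ) where
  toFun x := Fin.cons (((d : ℝ) + 1) * x 0 / N ^ 2) (fun i => (x i.succ + 2 * c i * x 0) / N)
  map_add' x y := by
    funext j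
    refine Fin.cases ?_ (fun i => ?_) j
    · simp only [Fin.cons_zero, Pi.add_apply]; ring
    · simp only [Fin.cons_succ, Pi.add_apply]; ring
  map_smul' a x := by
    funext j
    refine Fin.cases ?_ (fun i => ?_) j
    · simp only [Fin.cons_zero, Pi.smul_apply, smul_eq_mul, RingHom.id_apply]; ring
    · simp only [Fin.cons_succ, Pi.smul_apply, smul_eq_mul, RingHom.id_apply]; ring

theorem AC_zero {d : ℕ} (N : ℝ) (c : Fin d → ℝ) (x : Fin (d + 1) → ℝ) :
    (AC d N c x) 0 = ((d : ℝ) + 1) * x 0 / N ^ 2 := rfl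

theorem AC_succ {d : ℕ} (N : ℝ) (c : Fin d → ℝ) (x : Fin (d + 1) → ℝ) (i : Fin d) :
    (AC d N c x) i.succ = (x i.succ + 2 * c i * x 0) / N := rfl

/-- direction of the tubes -/
def wC {d : ℕ} (c : Fin d → ℝ) : Fin (d + 1) → ℝ := Fin.cons 1 (fun i => -2 * c i)

theorem AC_det {d : ℕ} {N : ℝ} (hN : N ≠ 0) (c : Fin d → ℝ) : LinearMap.det (AC d N c) ≠ 0 := by
  have hinj : Function.Injective (AC d N c) := by
    rw [← LinearMap.ker_eq_bot, LinearMap.ker_eq_bot']
    intro x hx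
    have h0 : x 0 = 0 := by
      have := congrFun hx 0
      rw [AC_zero, Pi.zero_apply, div_eq_zero_iff] at this
      rcases this with h | h
      · rcases mul_eq_zero.mp h with h | h
        · exfalso; have : (0 : ℝ) < (d : ℝ) + 1 := by positivity
          linarith
        · exact h
      · exact absurd h (pow_ne_zero 2 hN)
    funext j
    refine Fin.cases h0 (fun i => ?_) j
    have := congrFun hx i.succ
    rw [AC_succ, Pi.zero_apply, div_eq_zero_iff, h0] at this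
    rcases this with h | h
    · simpa using h
    · exact absurd h hN
  intro h
  have := LinearMap.bot_lt_ker_of_det_eq_zero h
  rw [LinearMap.ker_eq_bot.mpr hinj] at this
  exact lt_irrefl _ this

/-- caps are contained in the corresponding parallelepiped -/
theorem Cap_sub_Box {d : ℕ} {N : ℝ} (hN : N ≠ 0) (ξ0 : Fin (d + 1) → ℝ) (c : Fin d → ℝ) :
    Cap d N ξ0 c ⊆ BoxSet (ξ0 + Fin.cons (∑ i, c i ^ 2) c) (AC d N c) := by
  rintro ξ ⟨z, s, hz, hs, h1, h0⟩
  have hd : (0 : ℝ) < (d : ℝ) + 1 := by positivity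
  refine ⟨Fin.cons ((∑ i, z i ^ 2 + s) / ((d : ℝ) + 1)) z, ?_, ?_⟩
  · rw [pi_norm_le_iff_of_nonneg zero_le_one]
    intro j
    refine Fin.cases ?_ (fun i => ?_) j
    · rw [Fin.cons_zero, Real.norm_eq_abs, abs_div, abs_of_pos hd, div_le_one hd]
      have h2 : ∑ i, z i ^ 2 ≤ d := by
        calc ∑ i, z i ^ 2 ≤ ∑ _i : Fin d, (1 : ℝ) := by
              apply Finset.sum_le_sum
              intro i _
              have := (norm_le_pi_norm z i).trans hz
              rw [Real.norm_eq_abs] at this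
              rw [← sq_abs]
              have h3 := abs_nonneg (z i)
              nlinarith
          _ = d := by simp
      have h4 : 0 ≤ ∑ i, z i ^ 2 := Finset.sum_nonneg fun i _ => sq_nonneg _
      rw [abs_le] at hs ⊢
      constructor <;> linarith [hs.1, hs.2]
    · rw [Fin.cons_succ]
      exact (norm_le_pi_norm z i).trans hz
  · intro x
    rw [Fin.sum_univ_succ, Fin.sum_univ_succ, Fin.sum_univ_succ]
    simp only [Pi.add_apply, Fin.cons_zero, Fin.cons_succ, AC_zero, AC_succ, h0]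
    simp_rw [h1]
    have e1 : ∑ i, (c i + z i / N) ^ 2 = ∑ i, c i ^ 2 + ∑ i, 2 * c i * z i / N +
        (∑ i, z i ^ 2) / N ^ 2 := by
      rw [Finset.sum_div, ← Finset.sum_add_distrib, ← Finset.sum_add_distrib]
      refine Finset.sum_congr rfl fun i _ => ?_
      field_simp
      ring
    have e2 : ∑ i, (ξ0 i.succ + (c i + z i / N)) * x i.succ =
        ∑ i, (ξ0 i.succ + c i) * x i.succ + ∑ i, z i / N * x i.succ := by
      rw [← Finset.sum_add_distrib]
      refine Finset.sum_congr rfl fun i _ => ?_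
      ring
    have e3 : ∑ i, z i * ((x i.succ + 2 * c i * x 0) / N) =
        ∑ i, z i / N * x i.succ + (∑ i, 2 * c i * z i / N) * x 0 := by
      rw [Finset.sum_mul, ← Finset.sum_add_distrib]
      refine Finset.sum_congr rfl fun i _ => ?_
      ring
    rw [e1, e2, e3]
    field_simp
    ring

theorem Cap_coarse {d : ℕ} {N M : ℝ} (hM : 0 < M) (hN : 2 * M ≤ N) (ξ0 : Fin (d + 1) → ℝ)
    (c c' : Fin d → ℝ) (hc : ∀ i, |c' i - c i| ≤ 1 / (2 * M)) :
    Cap d N ξ0 c' ⊆ Cap d M ξ0 c := by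
  rintro ξ ⟨z, s, hz, hs, h1, h0⟩
  have hN0 : 0 < N := by linarith
  have e : ∀ i, c i + (M * (c' i + z i / N - c i)) / M = c' i + z i / N := by
    intro i; field_simp; ring
  refine ⟨fun i => M * (c' i + z i / N - c i), s * M ^ 2 / N ^ 2, ?_, ?_, ?_, ?_⟩
  · rw [pi_norm_le_iff_of_nonneg zero_le_one]
    intro i
    have h3 : |z i / N| ≤ 1 / (2 * M) := by
      rw [abs_div, abs_of_pos hN0]
      have := (norm_le_pi_norm z i).trans hz
      rw [Real.norm_eq_abs] at this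
      calc |z i| / N ≤ 1 / N := by gcongr
        _ ≤ 1 / (2 * M) := one_div_le_one_div_of_le (by positivity) hN
    rw [Real.norm_eq_abs, abs_mul, abs_of_pos hM]
    calc M * |c' i + z i / N - c i| = M * |(c' i - c i) + z i / N| := by congr 2; ring
      _ ≤ M * (|c' i - c i| + |z i / N|) := by gcongr; exact abs_add_le _ _
      _ ≤ M * (1 / (2 * M) + 1 / (2 * M)) := by gcongr; exact hc i
      _ = 1 := by field_simp; norm_num
  · rw [abs_div, abs_mul, abs_of_nonneg (sq_nonneg M), abs_of_nonneg (sq_nonneg N),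
      div_le_one (by positivity)]
    have : M ^ 2 ≤ N ^ 2 := by gcongr; linarith
    have := abs_nonneg s
    nlinarith [sq_nonneg M]
  · intro i; rw [e]; exact h1 i
  · simp_rw [e]
    rw [h0]
    congr 1
    field_simp

end BDDK
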