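import Mathlib
import Pool.Agent.BDD.Dec

/-!
# Ball inflation for caps of the paraboloid
-/

open MeasureTheory Finset
open scoped ENNReal

namespace BDDK

theorem norm_wC_le {d : ℕ} {c : Fin d → ℝ} (hc : ‖c‖ ≤ 1) : ‖wC c‖ ≤ 2 := by
  rw [pi_norm_le_iff_of_nonneg (by norm_num)]
  intro j
  refine Fin.cases ?_ (fun i => ?_) j
  · simp [wC]
  · simp only [wC, Fin.cons_succ, Real.norm_eq_abs, abs_mul, abs_neg, Nat.abs_ofNat]
    have := (norm_le_pi_norm c i).trans hc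
    rw [Real.norm_eq_abs] at this
    linarith

theorem AC_dir {d : ℕ} (N : ℝ) (c : Fin d → ℝ) (t : ℝ) :
    AC d N c (t • wC c) = Fin.cons (((d : ℝ) + 1) * t / N ^ 2) 0 := by
  funext j
  refine Fin.cases ?_ (fun i => ?_) j
  · rw [AC_zero, Fin.cons_zero]; simp [wC]
  · rw [AC_succ, Fin.cons_succ]
    simp only [wC, Pi.smul_apply, Fin.cons_succ, Fin.cons_zero, smul_eq_mul, Pi.zero_apply]
    ring_nf

theorem AC_dir_norm {d : ℕ} {N : ℝ} (c : Fin d → ℝ) (t : ℝ) :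
    ‖AC d N c (t • wC c)‖ ≤ ((d : ℝ) + 1) * |t| / N ^ 2 := by
  rw [AC_dir, pi_norm_le_iff_of_nonneg (by positivity)]
  intro j
  refine Fin.cases ?_ (fun i => ?_) j
  · rw [Fin.cons_zero, Real.norm_eq_abs, abs_div, abs_mul, abs_of_nonneg (sq_nonneg N),
      abs_of_nonneg (by positivity : (0 : ℝ) ≤ (d : ℝ) + 1)]
  · rw [Fin.cons_succ, Pi.zero_apply, norm_zero]
    positivity

theorem AC_low {d : ℕ} {N : ℝ} (hN : 1 / 2 ≤ N) {c : Fin d → ℝ} (hc : ‖c‖ ≤ 1)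
    (x : Fin (d + 1) → ℝ) : ‖x‖ ≤ 4 * N ^ 2 * ‖AC d N c x‖ := by
  have hN0 : 0 < N := by linarith
  have h0 : |x 0| ≤ N ^ 2 * ‖AC d N c x‖ := by
    have h := norm_le_pi_norm (AC d N c x) 0
    rw [AC_zero, Real.norm_eq_abs, abs_div, abs_mul, abs_of_nonneg (sq_nonneg N),
      abs_of_nonneg (by positivity : (0 : ℝ) ≤ (d : ℝ) + 1), div_le_iff₀ (by positivity)] at h
    have h1 := abs_nonneg (x 0)
    have hd : (0 : ℝ) ≤ d := by positivity
    nlinarith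
  have hA := norm_nonneg (AC d N c x)
  rw [pi_norm_le_iff_of_nonneg (by positivity)]
  intro j
  refine Fin.cases ?_ (fun i => ?_) j
  · rw [Real.norm_eq_abs]
    have : 0 ≤ N ^ 2 * ‖AC d N c x‖ := by positivity
    linarith
  · have h := norm_le_pi_norm (AC d N c x) i.succ
    rw [AC_succ, Real.norm_eq_abs, abs_div, abs_of_pos hN0, div_le_iff₀ hN0] at h
    have hci : |c i| ≤ 1 := by
      have := (norm_le_pi_norm c i).trans hc
      rwa [Real.norm_eq_abs] at this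
    rw [Real.norm_eq_abs]
    have h2 : |x i.succ| ≤ |x i.succ + 2 * c i * x 0| + 2 * |x 0| := by
      calc |x i.succ| = |(x i.succ + 2 * c i * x 0) - 2 * c i * x 0| := by ring_nf
        _ ≤ |x i.succ + 2 * c i * x 0| + |2 * c i * x 0| := abs_sub _ _
        _ ≤ _ := by
          rw [abs_mul, abs_mul, abs_two]
          have := abs_nonneg (x 0)
          have := abs_nonneg (c i)
          nlinarith
    have h3 : N ≤ 2 * N ^ 2 := by nlinarith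
    nlinarith

/-- the constant `CK` for caps -/
noncomputable def CKc (d : ℕ) (q : ℝ) : ℝ≥0∞ :=
  1 + ENNReal.ofReal ((1 + 4 * ((d : ℝ) + 1)) ^ (2 * (d + 1) + 2)) + cW (d + 1) +
    ENNReal.ofReal (Crep (d + 1)) ^ q * (cW (d + 1)) ^ (q - 1)

theorem CKc_ne_top (d : ℕ) {q : ℝ} (hq : 1 ≤ q) : CKc d q ≠ ∞ := by
  unfold CKc
  apply ENNReal.add_ne_top.mpr
  constructor
  · apply ENNReal.add_ne_top.mpr
    constructor
    · exact ENNReal.add_ne_top.mpr ⟨by simp, ENNReal.ofReal_ne_top⟩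
    · exact (cW_lt_top _).ne
  · apply ENNReal.mul_ne_top
    · exact ENNReal.rpow_ne_top_of_nonneg (by linarith) ENNReal.ofReal_ne_top
    · exact ENNReal.rpow_ne_top_of_nonneg (by linarith) (cW_lt_top _).ne

theorem Av_ne_top {n : ℕ} {Ω : Type*} {T : (Fin n → ℝ) → Ω → Ω}
    {K : (Fin n → ℝ) → ℝ≥0∞} (hK : Measurable K) (hKi : ∫⁻ x, K x ≠ ∞) {G : Ω → ℝ≥0∞} {M : ℝ≥0∞} (hM : M ≠ ∞)
    (hG : ∀ ω, G ω ≤ M) (ω : Ω) : Av T K G ω ≠ ∞ := by
  unfold Av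
  have : ∫⁻ y, K y * G (T y ω) ≤ (∫⁻ y, K y) * M := by
    rw [← lintegral_mul_const _ hK]
    apply lintegral_mono
    intro y
    exact mul_le_mul_right (hG _) _
  exact ne_top_of_le_ne_top (ENNReal.mul_ne_top hKi hM) this

/-- BALL INFLATION FOR CAPS -/
theorem BIcap {d : ℕ} (hd : 1 ≤ d) {D : ℝ} (hD : 0 < D) {p q ε : ℝ} (hq : 2 ≤ q) (hp : 0 < p)
    (hpq : p / (((d : ℝ) + 1) * q) ≤ 1 / (d : ℝ)) (hε : 0 < ε) :
    ∃ C : ℝ≥0∞, C ≠ ∞ ∧ ∀ (Ω : Type) [MeasurableSpace Ω] (μ : Measure Ω) [SFinite μ]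
      (T : (Fin (d + 1) → ℝ) → Ω → Ω) (_ : Flow μ T) (ξ0 : Fin (d + 1) → ℝ) (ι : Type) (r0 : ℝ)
      (_ : 1 ≤ r0) (S : Fin (d + 1) → Finset ι) (c : Fin (d + 1) → ι → Fin d → ℝ)
      (_ : ∀ i, ∀ τ ∈ S i, ‖c i τ‖ ≤ 1)
      (_ : ∀ t : Fin (d + 1) → ι, (∀ i, t i ∈ S i) →
        D⁻¹ ≤ |(Matrix.of (fun i => wC (c i (t i)))).det|)
      (f : Fin (d + 1) → ι → Ω → ℂ)
      (_ : ∀ i, ∀ τ ∈ S i, f i τ ∈ Spec T (Cap d (r0 / 2) ξ0 (c i τ))),
      ∫⁻ ω, ∏ i, (∑ τ ∈ S i, (Av T (W r0) (fun ω => ‖f i τ ω‖ₑ ^ q) ω) ^ (2 / q)) ^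
          (p / (2 * ((d : ℝ) + 1))) ∂μ
        ≤ C * ENNReal.ofReal (r0 ^ ε) *
          ∫⁻ ω, ∏ i, (∑ τ ∈ S i, (Av T (W (r0 ^ 2)) (fun ω => ‖f i τ ω‖ₑ ^ q) ω) ^ (2 / q)) ^
          (p / (2 * ((d : ℝ) + 1))) ∂μ := by
  classical
  have hq0 : 0 < q := by linarith
  have hd0 : (0 : ℝ) < d := by exact_mod_cast hd
  obtain ⟨C, hC, hBI⟩ := BI (n := d + 1) (by omega) (B := 2) (by norm_num) hD
    (CKc_ne_top d (by linarith : 1 ≤ q))
    (by unfold CKc; rw [add_assoc, add_assoc]; exact le_self_add) (s := 2 / q)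
    (e := p / (2 * ((d : ℝ) + 1))) (ε := ε) (by positivity)
    (by rw [div_le_one hq0]; exact hq) (by positivity)
    (by
      push_cast
      rw [add_sub_cancel_right]
      refine le_trans (le_of_eq ?_) hpq
      field_simp) hε
  refine ⟨C, hC, ?_⟩
  intro Ω _ μ _ T hT ξ0 ι r0 hr0 S c hc hdet f hf
  have hr00 : 0 < r0 := by linarith
  -- replace `f` by `0` outside of `S`
  set g : Fin (d + 1) → ι → Ω → ℝ≥0∞ := fun i τ ω => if τ ∈ S i then ‖f i τ ω‖ₑ ^ q else 0 with hg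
  have hgS : ∀ i, ∀ τ ∈ S i, g i τ = fun ω => ‖f i τ ω‖ₑ ^ q := by
    intro i τ hτ
    funext ω
    simp only [hg, if_pos hτ]
  have hgm : ∀ i τ, Measurable (g i τ) := by
    intro i τ
    by_cases hτ : τ ∈ S i
    · rw [hgS i τ hτ]
      exact (Spec_meas (hf i τ hτ)).enorm.pow_const q
    · have : g i τ = fun _ => 0 := by
        funext ω
        simp only [hg, if_neg hτ]
      rw [this]
      exact measurable_const
  have hCK1 : ENNReal.ofReal ((1 + 4 * ((d : ℝ) + 1)) ^ (2 * (d + 1) + 2)) ≤ CKc d q := by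
    unfold CKc
    calc _ ≤ 1 + ENNReal.ofReal ((1 + 4 * ((d : ℝ) + 1)) ^ (2 * (d + 1) + 2)) := le_add_self
      _ ≤ _ := by rw [add_assoc (1 + _)]; exact le_self_add
  have hCK2 : cW (d + 1) ≤ CKc d q := by
    unfold CKc
    calc _ ≤ 1 + ENNReal.ofReal ((1 + 4 * ((d : ℝ) + 1)) ^ (2 * (d + 1) + 2)) + cW (d + 1) :=
          le_add_self
      _ ≤ _ := le_self_add
  have hCK3 : ENNReal.ofReal (Crep (d + 1)) ^ q * (cW (d + 1)) ^ (q - 1) ≤ CKc d q := by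
    unfold CKc; exact le_add_self
  have key := hBI μ T hT (ι := ι) r0 hr0 S (fun i τ => wC (c i τ))
    (fun i τ hτ => norm_wC_le (hc i τ hτ)) hdet (fun i τ => KT (AC d (r0 / 2) (c i τ))) g
    (fun i τ => KT_meas _) hgm ?_ ?_ ?_ ?_
  · have e : ∀ (r : ℝ) (ω : Ω), ∏ i, (∑ τ ∈ S i, (Av T (W r) (g i τ) ω) ^ (2 / q)) ^
        (p / (2 * ((d : ℝ) + 1))) = ∏ i, (∑ τ ∈ S i,
          (Av T (W r) (fun ω => ‖f i τ ω‖ₑ ^ q) ω) ^ (2 / q)) ^ (p / (2 * ((d : ℝ) + 1))) := by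
      intro r ω
      refine Finset.prod_congr rfl fun i _ => ?_
      congr 1
      refine Finset.sum_congr rfl fun τ hτ => ?_
      rw [hgS i τ hτ]
    simp_rw [e] at key
    exact key
  · intro i τ hτ x t ht
    refine (KT_shift _ x (t • wC (c i τ)) (c := 4 * ((d : ℝ) + 1)) ?_).trans ?_
    · refine (AC_dir_norm _ _).trans ?_
      rw [div_le_iff₀ (by positivity)]
      calc ((d : ℝ) + 1) * |t| ≤ ((d : ℝ) + 1) * r0 ^ 2 := by gcongr
        _ = 4 * ((d : ℝ) + 1) * (r0 / 2) ^ 2 := by ring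
    · exact mul_le_mul_left hCK1 _
  · intro i τ hτ x
    have h := KT_conv (AC d (r0 / 2) (c i τ)) (AC_det (by positivity) _) (C := 1) (R := r0 ^ 2)
      (by positivity) le_rfl (fun y => by
        have := AC_low (N := r0 / 2) (by linarith) (hc i τ hτ) y
        calc ‖y‖ ≤ 4 * (r0 / 2) ^ 2 * ‖AC d (r0 / 2) (c i τ) y‖ := this
          _ = _ := by ring) x
    simp only [one_pow, ENNReal.ofReal_one, one_mul] at h
    exact h.trans (mul_le_mul_left hCK2 _)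
  · intro i τ hτ ω
    rw [hgS i τ hτ]
    have hbox := Spec_mono (T := T) (Cap_sub_Box (N := r0 / 2) (by positivity) ξ0 (c i τ)) (hf i τ hτ)
    exact (rep_bound_pow (AC_det (by positivity) _) hbox (by linarith) ω).trans
      (mul_le_mul_left hCK3 _)
  · intro i τ hτ ω
    rw [hgS i τ hτ]
    obtain ⟨M, hM0, hM⟩ := Spec_bdd (hf i τ hτ)
    apply Av_ne_top (W_meas _) (by rw [lintegral_W (by positivity)]; exact (cW_lt_top _).ne)
      (M := ENNReal.ofReal M ^ q)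
    · exact ENNReal.rpow_ne_top_of_nonneg hq0.le ENNReal.ofReal_ne_top
    · intro ω
      apply ENNReal.rpow_le_rpow _ hq0.le
      rw [← ofReal_norm]
      exact ENNReal.ofReal_le_ofReal (hM ω)

end BDDK
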