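import Mathlib

/-!
# BDD/BNpt (OPEN MODULE, only Mathlib): the pointwise broad-narrow inequality

`BNS 𝒞 L a` is the set of the significant indices. Let `M = 𝒞.sup a`.

PROOF of `bn_broad`: `‖∑ z α‖ₑ ≤ ∑ ‖z α‖ₑ ≤ card * (L M)^(1/2)`, and `M ≤ card² L a (t i)` for every `i`
(`t i ∈ BNS`), so `M = ∏_i M^(1/(d+1)) ≤ card² L ∏_i (a (t i))^(1/(d+1))`; raise to the power `p/2`.
Total `card^p L^(p/2) (card² L)^(p/2) ∏_i (a (t i))^(p/(2(d+1)))`.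

PROOF of `bn_narrow`: `∑_{𝒞} z = ∑_{B} z + ∑_{𝒞 \ B} z`; for `α ∈ 𝒞 \ B` we have `α ∉ BNS`, so
`card² L a α < a β ≤ M` for some `β`, `‖z α‖ₑ² ≤ L a α ≤ M/card²`, `‖z α‖ₑ ≤ M^(1/2)/card`, and
`‖∑_{𝒞 \ B} z‖ₑ ≤ M^(1/2)`. Finally `(x + y)^p ≤ 2^p (x^p + y^p)` (`ENNReal.rpow_add_le_mul_rpow_add_rpow` or
`x + y ≤ 2 max x y`), and `M^(p/2) ≤ ∑_α (a α)^(p/2)` (`Finset.exists_mem_eq_sup`; if `𝒞 = ∅` all is `0`).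
-/

open Finset
open scoped ENNReal

namespace BDDK

/-- significant indices -/
noncomputable def BNS {κ : Type} (𝒞 : Finset κ) (L : ℝ≥0∞) (a : κ → ℝ≥0∞) : Finset κ := by
  classical
  exact 𝒞.filter (fun α => ∀ β ∈ 𝒞, a β ≤ (𝒞.card : ℝ≥0∞) ^ 2 * L * a α)

private theorem BNpt_half {x y : ℝ≥0∞} (h : x ^ 2 ≤ y) : x ≤ y ^ (1 / 2 : ℝ) := by
  have h1 : (x ^ 2) ^ (1 / 2 : ℝ) ≤ y ^ (1 / 2 : ℝ) := ENNReal.rpow_le_rpow h (by norm_num)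
  rw [← ENNReal.rpow_natCast, ← ENNReal.rpow_mul] at h1
  norm_num at h1
  simpa using h1

private theorem BNpt_prod {p : ℝ} (d : ℕ) (M : ℝ≥0∞) :
    ∏ _i : Fin (d + 1), M ^ (p / (2 * ((d : ℝ) + 1))) = M ^ (p / 2) := by
  rw [Finset.prod_const, Finset.card_univ, Fintype.card_fin, ← ENNReal.rpow_natCast,
    ← ENNReal.rpow_mul]
  congr 1
  have : (d : ℝ) + 1 ≠ 0 := by positivity
  push_cast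
  field_simp

theorem bn_broad {κ : Type} {𝒞 : Finset κ} {L : ℝ≥0∞} (hL : L ≠ ∞) {a : κ → ℝ≥0∞} {z : κ → ℂ}
    (hz : ∀ α ∈ 𝒞, ‖z α‖ₑ ^ 2 ≤ L * a α) {p : ℝ} (hp : 2 ≤ p) {d : ℕ} (t : Fin (d + 1) → κ)
    (ht : ∀ i, t i ∈ BNS 𝒞 L a) :
    ‖∑ α ∈ 𝒞, z α‖ₑ ^ p ≤ (𝒞.card : ℝ≥0∞) ^ p * L ^ (p / 2) * ((𝒞.card : ℝ≥0∞) ^ 2 * L) ^ (p / 2) *
      ∏ i, (a (t i)) ^ (p / (2 * ((d : ℝ) + 1))) := by
  classical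
  set M : ℝ≥0∞ := 𝒞.sup a with hM
  have hp0 : 0 ≤ p := by linarith
  have h1 : ‖∑ α ∈ 𝒞, z α‖ₑ ≤ (𝒞.card : ℝ≥0∞) * (L * M) ^ (1 / 2 : ℝ) := by
    calc ‖∑ α ∈ 𝒞, z α‖ₑ ≤ ∑ α ∈ 𝒞, ‖z α‖ₑ := enorm_sum_le _ _
      _ ≤ ∑ _α ∈ 𝒞, (L * M) ^ (1 / 2 : ℝ) := by
          refine Finset.sum_le_sum fun α hα => BNpt_half ((hz α hα).trans ?_)
          exact mul_le_mul_right (Finset.le_sup hα) L
      _ = _ := by rw [Finset.sum_const, nsmul_eq_mul]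
  have h2 : ‖∑ α ∈ 𝒞, z α‖ₑ ^ p ≤ (𝒞.card : ℝ≥0∞) ^ p * L ^ (p / 2) * M ^ (p / 2) := by
    refine (ENNReal.rpow_le_rpow h1 hp0).trans (le_of_eq ?_)
    rw [ENNReal.mul_rpow_of_nonneg _ _ hp0, ← ENNReal.rpow_mul,
      show (1 / 2 : ℝ) * p = p / 2 by ring, ENNReal.mul_rpow_of_nonneg _ _ (by linarith), mul_assoc]
  have h3 : M ^ (p / 2) ≤ ((𝒞.card : ℝ≥0∞) ^ 2 * L) ^ (p / 2) *
      ∏ i, (a (t i)) ^ (p / (2 * ((d : ℝ) + 1))) := by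
    rw [← BNpt_prod (p := p) d M, ← BNpt_prod (p := p) d ((𝒞.card : ℝ≥0∞) ^ 2 * L),
      ← Finset.prod_mul_distrib]
    refine Finset.prod_le_prod' fun i _ => ?_
    have hq : 0 ≤ p / (2 * ((d : ℝ) + 1)) := by positivity
    rw [← ENNReal.mul_rpow_of_nonneg _ _ hq]
    refine ENNReal.rpow_le_rpow ?_ hq
    have h4 := ht i
    unfold BNS at h4
    rw [Finset.mem_filter] at h4
    exact Finset.sup_le h4.2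
  calc ‖∑ α ∈ 𝒞, z α‖ₑ ^ p ≤ (𝒞.card : ℝ≥0∞) ^ p * L ^ (p / 2) * M ^ (p / 2) := h2
    _ ≤ (𝒞.card : ℝ≥0∞) ^ p * L ^ (p / 2) * (((𝒞.card : ℝ≥0∞) ^ 2 * L) ^ (p / 2) *
      ∏ i, (a (t i)) ^ (p / (2 * ((d : ℝ) + 1)))) := mul_le_mul_right h3 _
    _ = _ := by rw [mul_assoc, mul_assoc, mul_assoc]

theorem bn_narrow {κ : Type} [DecidableEq κ] {𝒞 : Finset κ} {L : ℝ≥0∞} (hL : L ≠ ∞) (hL1 : 1 ≤ L)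
    {a : κ → ℝ≥0∞} (ha : ∀ α ∈ 𝒞, a α ≠ ∞) {z : κ → ℂ}
    (hz : ∀ α ∈ 𝒞, ‖z α‖ₑ ^ 2 ≤ L * a α) {p : ℝ} (hp : 2 ≤ p) {B : Finset κ}
    (hB : B ⊆ 𝒞) (hSB : BNS 𝒞 L a ⊆ B) :
    ‖∑ α ∈ 𝒞, z α‖ₑ ^ p ≤ (2 : ℝ≥0∞) ^ p * (‖∑ α ∈ B, z α‖ₑ ^ p + ∑ α ∈ 𝒞, (a α) ^ (p / 2)) := by
  classical
  have hp0 : 0 ≤ p := by linarith
  rcases 𝒞.eq_empty_or_nonempty with h0 | hne
  · subst h0
    simp only [Finset.sum_empty, enorm_zero]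
    rw [ENNReal.zero_rpow_of_pos (by linarith)]
    exact zero_le
  set M : ℝ≥0∞ := 𝒞.sup a with hM
  obtain ⟨μ, hμ, hMμ⟩ := Finset.exists_mem_eq_sup 𝒞 hne a
  have hMp : M ^ (p / 2) ≤ ∑ α ∈ 𝒞, (a α) ^ (p / 2) := by
    rw [hM, hMμ]
    exact Finset.single_le_sum (f := fun α => (a α) ^ (p / 2)) (fun _ _ => zero_le) hμ
  have hcard0 : (𝒞.card : ℝ≥0∞) ≠ 0 := by
    simpa using hne.ne_empty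
  have hcardt : (𝒞.card : ℝ≥0∞) ≠ ∞ := ENNReal.natCast_ne_top _
  have hout : ‖∑ α ∈ 𝒞 \ B, z α‖ₑ ≤ M ^ (1 / 2 : ℝ) := by
    have hone : ∀ α ∈ 𝒞 \ B, (𝒞.card : ℝ≥0∞) * ‖z α‖ₑ ≤ M ^ (1 / 2 : ℝ) := by
      intro α hα
      rw [Finset.mem_sdiff] at hα
      have hnot : α ∉ BNS 𝒞 L a := fun h => hα.2 (hSB h)
      unfold BNS at hnot
      rw [Finset.mem_filter] at hnot
      push Not at hnot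
      obtain ⟨β, hβ, hlt⟩ := hnot hα.1
      refine BNpt_half ?_
      calc ((𝒞.card : ℝ≥0∞) * ‖z α‖ₑ) ^ 2 = (𝒞.card : ℝ≥0∞) ^ 2 * ‖z α‖ₑ ^ 2 := mul_pow _ _ _
        _ ≤ (𝒞.card : ℝ≥0∞) ^ 2 * (L * a α) := mul_le_mul_right (hz α hα.1) _
        _ = (𝒞.card : ℝ≥0∞) ^ 2 * L * a α := by rw [mul_assoc]
        _ ≤ a β := hlt.le
        _ ≤ M := Finset.le_sup hβ
    have hsum : (𝒞.card : ℝ≥0∞) * ‖∑ α ∈ 𝒞 \ B, z α‖ₑ ≤ (𝒞.card : ℝ≥0∞) * M ^ (1 / 2 : ℝ) := by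
      calc (𝒞.card : ℝ≥0∞) * ‖∑ α ∈ 𝒞 \ B, z α‖ₑ
          ≤ (𝒞.card : ℝ≥0∞) * ∑ α ∈ 𝒞 \ B, ‖z α‖ₑ := mul_le_mul_right (enorm_sum_le _ _) _
        _ = ∑ α ∈ 𝒞 \ B, (𝒞.card : ℝ≥0∞) * ‖z α‖ₑ := by rw [Finset.mul_sum]
        _ ≤ ∑ _α ∈ 𝒞 \ B, M ^ (1 / 2 : ℝ) := Finset.sum_le_sum hone
        _ = ((𝒞 \ B).card : ℝ≥0∞) * M ^ (1 / 2 : ℝ) := by rw [Finset.sum_const, nsmul_eq_mul]
        _ ≤ (𝒞.card : ℝ≥0∞) * M ^ (1 / 2 : ℝ) := by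
            refine mul_le_mul_left ?_ _
            exact_mod_cast Finset.card_le_card Finset.sdiff_subset
    exact (ENNReal.mul_le_mul_iff_right hcard0 hcardt).1 hsum
  have htri : ‖∑ α ∈ 𝒞, z α‖ₑ ≤ ‖∑ α ∈ B, z α‖ₑ + M ^ (1 / 2 : ℝ) := by
    rw [← Finset.sum_sdiff hB, add_comm]
    exact (enorm_add_le _ _).trans (add_le_add_right hout _)
  have hmax : ‖∑ α ∈ B, z α‖ₑ + M ^ (1 / 2 : ℝ) ≤ 2 * max ‖∑ α ∈ B, z α‖ₑ (M ^ (1 / 2 : ℝ)) := by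
    rw [two_mul]
    exact add_le_add (le_max_left _ _) (le_max_right _ _)
  calc ‖∑ α ∈ 𝒞, z α‖ₑ ^ p ≤ (2 * max ‖∑ α ∈ B, z α‖ₑ (M ^ (1 / 2 : ℝ))) ^ p :=
        ENNReal.rpow_le_rpow (htri.trans hmax) hp0
    _ = (2 : ℝ≥0∞) ^ p * (max ‖∑ α ∈ B, z α‖ₑ (M ^ (1 / 2 : ℝ))) ^ p :=
        ENNReal.mul_rpow_of_nonneg _ _ hp0
    _ ≤ (2 : ℝ≥0∞) ^ p * (‖∑ α ∈ B, z α‖ₑ ^ p + ∑ α ∈ 𝒞, (a α) ^ (p / 2)) := by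
        refine mul_le_mul_right ?_ _
        rcases max_choice ‖∑ α ∈ B, z α‖ₑ (M ^ (1 / 2 : ℝ)) with h | h
        · rw [h]; exact le_self_add
        · rw [h, ← ENNReal.rpow_mul, show (1 / 2 : ℝ) * p = p / 2 by ring]
          exact hMp.trans le_add_self

end BDDK
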