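import Mathlib

/-!
# BDD/Boot (OPEN MODULE): bootstrapping of the exponent (pure real analysis)

`Dp N A` stands for `DecB d p N A`. `P(η)` = `∃ C ≠ ∞, ∀ N ≥ 1, Dp N (C N^η)`.

PROOF. Fix `ε > 0`; put `η* = ε/2` (any `η* ≤ ε` works) and take `W, δ` from `main`.
CLAIM: for `η ≥ η*`, `P(η)` implies `P(η - δ)`. Let `η'' = η - δ ≥ η*/2 > 0`, `θ = η*/4`. By `main` with
`k0` so large that `(2^(k0 2^W))^(-η*/4) ≤ 1/2` we get `k1 ≥ k0`, `CK`, `m0`. Put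
`N_m = 2^(m 2^W)`, `K1 = N_{k1}`. Let `C' = max(2 CK, sup of the trivial constants for m < max m0 k1)`
(finite maximum of the constants `C N_m^η` from `P(η)`, divided by `N_m^η'' ≥ 1`: simply
`C' = 2 CK + C * ofReal (N_{m0+k1}^η)`). Strong induction on `m`: `Dp N_m (C' N_m^η'')`: for
`m < max m0 k1` from `P(η)` and `mono`; for `m ≥ max m0 k1` from `main` with `A = C' N_{m-k1}^η''`:
`K1^θ C' N_{m-k1}^η'' + CK N_m^(η-δ) = K1^(θ-η'') C' N_m^η'' + CK N_m^η'' ≤ (C'/2 + C'/2) N_m^η''`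
(`θ - η'' ≤ -η*/4`). General `N ≥ 1`: choose `m` with `N_m ≤ N < N_{m+1} = 2^(2^W) N_m` and use `coarse`
with `M = 2^(2^W)`: `Dp N (Cc C' N_m^η'')`, `N_m ≤ N`.
Now start with `P(η0)` (`triv`; if `η0 < η*` replace it by `η*`, `N ≥ 1`) and apply the claim `k` times as
long as the exponent is `≥ η*`: after finitely many steps the exponent is `< η* ≤ ε`. (Formally:
prove by induction on `k`: `P(max (η0 - k δ) η*)`-type statement, e.g. `P(max (η0 - k δ) ε)` with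
`η* = ε/2`: if `max = ε` nothing to do; otherwise `η = η0 - k δ > ε ≥ η*` and the claim gives
`P(η - δ)`, hence `P(max (η - δ) ε)`.) For `k` large `max = ε`.
-/

open scoped ENNReal

namespace BDDK

private theorem Boot_mono_exp (Dp : ℝ → ℝ≥0∞ → Prop)
    (mono : ∀ N A A', Dp N A → A ≤ A' → Dp N A') {η η' : ℝ} (h : η ≤ η')
    (hP : ∃ C : ℝ≥0∞, C ≠ ∞ ∧ ∀ N : ℝ, 1 ≤ N → Dp N (C * ENNReal.ofReal (N ^ η))) :
    ∃ C : ℝ≥0∞, C ≠ ∞ ∧ ∀ N : ℝ, 1 ≤ N → Dp N (C * ENNReal.ofReal (N ^ η')) := by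
  obtain ⟨C, hC, hN⟩ := hP
  refine ⟨C, hC, fun N h1 => mono _ _ _ (hN N h1) ?_⟩
  exact mul_le_mul' le_rfl (ENNReal.ofReal_le_ofReal (Real.rpow_le_rpow_of_exponent_le h1 h))

private theorem Boot_claim (Dp : ℝ → ℝ≥0∞ → Prop)
    (mono : ∀ N A A', Dp N A → A ≤ A' → Dp N A')
    (coarse : ∀ M : ℝ, 1 ≤ M → ∃ C : ℝ≥0∞, C ≠ ∞ ∧
      ∀ (N N' : ℝ) (A : ℝ≥0∞), 1 ≤ N → N ≤ N' → N' ≤ M * N → Dp N A → Dp N' (C * A))
    (ηs : ℝ) (hηs : 0 < ηs) (W : ℕ) (δ : ℝ) (hδ' : δ ≤ ηs / 2) (η : ℝ) (hη : ηs ≤ η)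
    (hP : ∃ C : ℝ≥0∞, C ≠ ∞ ∧ ∀ N : ℝ, 1 ≤ N → Dp N (C * ENNReal.ofReal (N ^ η)))
    (main : ∀ θ : ℝ, 0 < θ → ∀ k0 : ℕ, ∃ k1 : ℕ, k0 ≤ k1 ∧ 1 ≤ k1 ∧ ∃ CK : ℝ≥0∞, CK ≠ ∞ ∧
        ∃ m0 : ℕ, ∀ m : ℕ, m0 ≤ m → k1 ≤ m → ∀ A : ℝ≥0∞,
            Dp ((2 : ℝ) ^ ((m - k1) * 2 ^ W)) A →
            Dp ((2 : ℝ) ^ (m * 2 ^ W)) (ENNReal.ofReal (((2 : ℝ) ^ (k1 * 2 ^ W)) ^ θ) * A +
              CK * ENNReal.ofReal (((2 : ℝ) ^ (m * 2 ^ W)) ^ (η - δ)))) :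
    ∃ C : ℝ≥0∞, C ≠ ∞ ∧ ∀ N : ℝ, 1 ≤ N → Dp N (C * ENNReal.ofReal (N ^ (η - δ))) := by
  obtain ⟨C, hC, hCN⟩ := hP
  set b : ℝ := (2 : ℝ) ^ (2 ^ W) with hb
  have hb1 : 1 < b := by
    rw [hb]
    exact one_lt_pow₀ (by norm_num) (by positivity)
  have hb0 : 0 < b := by linarith
  have hbm : ∀ m : ℕ, (2 : ℝ) ^ (m * 2 ^ W) = b ^ m := by
    intro m
    rw [hb, ← pow_mul, mul_comm]
  -- choose k0
  obtain ⟨k0, hk0⟩ : ∃ k0 : ℕ, (b ^ k0) ^ (-(ηs / 4)) ≤ 1 / 2 := by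
    have h1 : 1 < b ^ (ηs / 4) := Real.one_lt_rpow hb1 (by linarith)
    obtain ⟨n, hn⟩ := pow_unbounded_of_one_lt (2 : ℝ) h1
    refine ⟨n, ?_⟩
    have h2 : (b ^ n) ^ (-(ηs / 4)) = ((b ^ (ηs / 4)) ^ n)⁻¹ := by
      rw [Real.rpow_neg (by positivity), ← Real.rpow_natCast b n, ← Real.rpow_mul hb0.le,
        ← Real.rpow_natCast (b ^ (ηs / 4)) n, ← Real.rpow_mul hb0.le, mul_comm]
    rw [h2, one_div]
    exact inv_anti₀ (by norm_num) hn.le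
  obtain ⟨k1, hk01, hk1, CK, hCK, m0, hmain⟩ := main (ηs / 4) (by linarith) k0
  set η2 : ℝ := η - δ with hη2
  have hη2pos : 0 < η2 := by
    rw [hη2]
    linarith
  have hpow1 : ∀ m : ℕ, (1 : ℝ) ≤ b ^ m := fun m => one_le_pow₀ hb1.le
  have hhalf : (b ^ k1) ^ (ηs / 4 - η2) ≤ 1 / 2 := by
    calc (b ^ k1) ^ (ηs / 4 - η2) ≤ (b ^ k1) ^ (-(ηs / 4)) := by
          apply Real.rpow_le_rpow_of_exponent_le (hpow1 k1)
          rw [hη2]
          linarith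
      _ ≤ (b ^ k0) ^ (-(ηs / 4)) := by
          apply Real.rpow_le_rpow_of_nonpos (by positivity) (pow_le_pow_right₀ hb1.le hk01)
          linarith
      _ ≤ 1 / 2 := hk0
  set C' : ℝ≥0∞ := 2 * CK + C * ENNReal.ofReal ((b ^ (m0 + k1)) ^ η) with hC'
  have hC'top : C' ≠ ∞ := by
    rw [hC']
    exact ENNReal.add_ne_top.2 ⟨ENNReal.mul_ne_top (by norm_num) hCK,
      ENNReal.mul_ne_top hC ENNReal.ofReal_ne_top⟩
  have hind : ∀ m : ℕ, Dp (b ^ m) (C' * ENNReal.ofReal ((b ^ m) ^ η2)) := by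
    intro m
    induction m using Nat.strong_induction_on with
    | _ m ih =>
      by_cases hm : m0 ≤ m ∧ k1 ≤ m
      · have h1 := hmain m hm.1 hm.2 (C' * ENNReal.ofReal ((b ^ (m - k1)) ^ η2)) (by
          rw [hbm]
          exact ih (m - k1) (by omega))
        rw [hbm, hbm] at h1
        refine mono _ _ _ h1 ?_
        have h2 : ENNReal.ofReal ((b ^ k1) ^ (ηs / 4)) *
            (C' * ENNReal.ofReal ((b ^ (m - k1)) ^ η2)) ≤
            C' * (2⁻¹ * ENNReal.ofReal ((b ^ m) ^ η2)) := by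
          have e1 : ENNReal.ofReal ((b ^ k1) ^ (ηs / 4)) *
            (C' * ENNReal.ofReal ((b ^ (m - k1)) ^ η2)) =
            C' * (ENNReal.ofReal ((b ^ k1) ^ (ηs / 4)) *
              ENNReal.ofReal ((b ^ (m - k1)) ^ η2)) := by ring
          rw [e1, ← ENNReal.ofReal_mul (by positivity)]
          refine mul_le_mul' le_rfl ?_
          have e2 : (2⁻¹ : ℝ≥0∞) = ENNReal.ofReal (1 / 2) := by
            rw [one_div, ENNReal.ofReal_inv_of_pos (by norm_num), ENNReal.ofReal_ofNat]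
          rw [e2, ← ENNReal.ofReal_mul (by norm_num)]
          apply ENNReal.ofReal_le_ofReal
          have e3 : b ^ m = b ^ k1 * b ^ (m - k1) := by
            rw [← pow_add]
            congr 1
            omega
          have e4 : (b ^ k1) ^ (ηs / 4) = (b ^ k1) ^ (ηs / 4 - η2) * (b ^ k1) ^ η2 := by
            rw [← Real.rpow_add (by positivity)]
            congr 1
            ring
          rw [e3, Real.mul_rpow (by positivity) (by positivity), e4]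
          have e5 : 0 ≤ (b ^ k1) ^ η2 * (b ^ (m - k1)) ^ η2 := by positivity
          calc (b ^ k1) ^ (ηs / 4 - η2) * (b ^ k1) ^ η2 * (b ^ (m - k1)) ^ η2
              = (b ^ k1) ^ (ηs / 4 - η2) * ((b ^ k1) ^ η2 * (b ^ (m - k1)) ^ η2) := by ring
            _ ≤ 1 / 2 * ((b ^ k1) ^ η2 * (b ^ (m - k1)) ^ η2) :=
                mul_le_mul_of_nonneg_right hhalf e5
        have h3 : CK ≤ 2⁻¹ * C' := by
          have e1 : CK = 2⁻¹ * (2 * CK) := by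
            rw [← mul_assoc, ENNReal.inv_mul_cancel (by norm_num) (by norm_num), one_mul]
          calc CK = 2⁻¹ * (2 * CK) := e1
            _ ≤ 2⁻¹ * C' := mul_le_mul' le_rfl (by rw [hC']; exact le_self_add)
        calc ENNReal.ofReal ((b ^ k1) ^ (ηs / 4)) *
              (C' * ENNReal.ofReal ((b ^ (m - k1)) ^ η2)) +
              CK * ENNReal.ofReal ((b ^ m) ^ η2)
            ≤ C' * (2⁻¹ * ENNReal.ofReal ((b ^ m) ^ η2)) +
              (2⁻¹ * C') * ENNReal.ofReal ((b ^ m) ^ η2) :=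
              add_le_add h2 (mul_le_mul' h3 le_rfl)
          _ = (2⁻¹ + 2⁻¹) * (C' * ENNReal.ofReal ((b ^ m) ^ η2)) := by ring
          _ = C' * ENNReal.ofReal ((b ^ m) ^ η2) := by
              rw [ENNReal.inv_two_add_inv_two, one_mul]
      · refine mono _ _ _ (hCN (b ^ m) (hpow1 m)) ?_
        have h1 : (b ^ m) ^ η ≤ (b ^ (m0 + k1)) ^ η := by
          apply Real.rpow_le_rpow (by positivity) (pow_le_pow_right₀ hb1.le (by omega))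
          linarith
        have h2 : (1 : ℝ≥0∞) ≤ ENNReal.ofReal ((b ^ m) ^ η2) := by
          rw [← ENNReal.ofReal_one]
          exact ENNReal.ofReal_le_ofReal (Real.one_le_rpow (hpow1 m) hη2pos.le)
        calc C * ENNReal.ofReal ((b ^ m) ^ η)
            ≤ C * ENNReal.ofReal ((b ^ (m0 + k1)) ^ η) :=
              mul_le_mul' le_rfl (ENNReal.ofReal_le_ofReal h1)
          _ ≤ C' := by
              rw [hC']
              exact le_add_self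
          _ = C' * 1 := (mul_one _).symm
          _ ≤ C' * ENNReal.ofReal ((b ^ m) ^ η2) := mul_le_mul' le_rfl h2
  obtain ⟨Cc, hCc, hco⟩ := coarse b hb1.le
  refine ⟨Cc * C', ENNReal.mul_ne_top hCc hC'top, ?_⟩
  intro N hN
  obtain ⟨m, hm1, hm2⟩ := exists_nat_pow_near hN hb1
  have h1 := hco (b ^ m) N _ (hpow1 m) hm1 (by
    rw [pow_succ] at hm2
    nlinarith) (hind m)
  refine mono _ _ _ h1 ?_
  rw [mul_assoc]
  refine mul_le_mul' le_rfl (mul_le_mul' le_rfl (ENNReal.ofReal_le_ofReal ?_))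
  exact Real.rpow_le_rpow (by positivity) hm1 hη2pos.le

theorem boot (Dp : ℝ → ℝ≥0∞ → Prop)
    (mono : ∀ N A A', Dp N A → A ≤ A' → Dp N A')
    (triv : ∃ C : ℝ≥0∞, C ≠ ∞ ∧ ∃ η0 : ℝ, 0 ≤ η0 ∧ ∀ N : ℝ, 1 ≤ N → Dp N (C * ENNReal.ofReal (N ^ η0)))
    (coarse : ∀ M : ℝ, 1 ≤ M → ∃ C : ℝ≥0∞, C ≠ ∞ ∧
      ∀ (N N' : ℝ) (A : ℝ≥0∞), 1 ≤ N → N ≤ N' → N' ≤ M * N → Dp N A → Dp N' (C * A))
    (main : ∀ ηs : ℝ, 0 < ηs → ∃ (W : ℕ) (δ : ℝ), 0 < δ ∧ δ ≤ ηs / 2 ∧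
      ∀ η : ℝ, ηs ≤ η → (∃ C : ℝ≥0∞, C ≠ ∞ ∧ ∀ N : ℝ, 1 ≤ N → Dp N (C * ENNReal.ofReal (N ^ η))) →
        ∀ θ : ℝ, 0 < θ → ∀ k0 : ℕ, ∃ k1 : ℕ, k0 ≤ k1 ∧ 1 ≤ k1 ∧ ∃ CK : ℝ≥0∞, CK ≠ ∞ ∧ ∃ m0 : ℕ,
          ∀ m : ℕ, m0 ≤ m → k1 ≤ m → ∀ A : ℝ≥0∞,
            Dp ((2 : ℝ) ^ ((m - k1) * 2 ^ W)) A →
            Dp ((2 : ℝ) ^ (m * 2 ^ W)) (ENNReal.ofReal (((2 : ℝ) ^ (k1 * 2 ^ W)) ^ θ) * A +
              CK * ENNReal.ofReal (((2 : ℝ) ^ (m * 2 ^ W)) ^ (η - δ))))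
    (ε : ℝ) (hε : 0 < ε) :
    ∃ C : ℝ≥0∞, C ≠ ∞ ∧ ∀ N : ℝ, 1 ≤ N → Dp N (C * ENNReal.ofReal (N ^ ε)) := by
  obtain ⟨W, δ, hδ, hδ', hmain⟩ := main (ε / 2) (by linarith)
  obtain ⟨C0, hC0, η0, hη0, hN0⟩ := triv
  have key : ∀ k : ℕ, ∃ C : ℝ≥0∞, C ≠ ∞ ∧
      ∀ N : ℝ, 1 ≤ N → Dp N (C * ENNReal.ofReal (N ^ (max (η0 - k * δ) ε))) := by
    intro k
    induction k with
    | zero =>
      refine Boot_mono_exp Dp mono ?_ ⟨C0, hC0, hN0⟩
      refine le_max_of_le_left ?_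
      simp
    | succ k ih =>
      by_cases hk : η0 - k * δ ≤ ε
      · have e1 : max (η0 - k * δ) ε = ε := max_eq_right hk
        have e2 : max (η0 - ((k + 1 : ℕ) : ℝ) * δ) ε = ε := by
          apply max_eq_right
          push_cast
          linarith
        rw [e1] at ih
        rw [e2]
        exact ih
      · push Not at hk
        have e1 : max (η0 - k * δ) ε = η0 - k * δ := max_eq_left hk.le
        rw [e1] at ih
        have h1 := Boot_claim Dp mono coarse (ε / 2) (by linarith) W δ hδ' (η0 - k * δ)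
          (by linarith) ih (hmain (η0 - k * δ) (by linarith) ih)
        refine Boot_mono_exp Dp mono ?_ h1
        refine le_max_of_le_left ?_
        push_cast
        linarith
  obtain ⟨k, hk⟩ := exists_nat_gt ((η0 - ε) / δ)
  have h1 := key k
  have h2 : max (η0 - k * δ) ε = ε := by
    apply max_eq_right
    rw [div_lt_iff₀ hδ] at hk
    linarith
  rw [h2] at h1
  exact h1

end BDDK
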