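import Mathlib
import Pool.Agent.BDD.Dec

/-!
# Norm inequalities
-/

open MeasureTheory Finset
open scoped ENNReal

namespace BDDK

theorem nrm_rpow {Ω : Type*} [MeasurableSpace Ω] (μ : Measure Ω) {p : ℝ} (hp : 0 < p) (f : Ω → ℂ) :
    nrm μ p f ^ p = ∫⁻ ω, ‖f ω‖ₑ ^ p ∂μ := by
  unfold nrm
  rw [← ENNReal.rpow_mul, one_div_mul_cancel hp.ne', ENNReal.rpow_one]

theorem nrm_eq_eLpNorm {Ω : Type*} [MeasurableSpace Ω] (μ : Measure Ω) {p : ℝ} (hp : 0 < p)
    (f : Ω → ℂ) : nrm μ p f = eLpNorm f (ENNReal.ofReal p) μ := by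
  rw [eLpNorm_eq_lintegral_rpow_enorm_toReal (by simpa using hp) ENNReal.ofReal_ne_top,
    ENNReal.toReal_ofReal hp.le]
  rfl

theorem nrm_sum_le {Ω ι : Type*} [MeasurableSpace Ω] (μ : Measure Ω) {p : ℝ} (hp : 1 ≤ p)
    (J : Finset ι) (f : ι → Ω → ℂ) (hf : ∀ j ∈ J, Measurable (f j)) :
    nrm μ p (fun ω => ∑ j ∈ J, f j ω) ≤ ∑ j ∈ J, nrm μ p (f j) := by
  have hp0 : 0 < p := by linarith
  rw [nrm_eq_eLpNorm μ hp0]
  have h := eLpNorm_sum_le (μ := μ) (p := ENNReal.ofReal p) (s := J) (f := f)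
    (fun j hj => (hf j hj).aestronglyMeasurable) (by simpa using hp)
  have e : (fun ω => ∑ j ∈ J, f j ω) = ∑ j ∈ J, f j := by
    funext ω; simp
  rw [e]
  refine h.trans (le_of_eq ?_)
  refine Finset.sum_congr rfl fun j _ => ?_
  rw [nrm_eq_eLpNorm μ hp0]

theorem nrm_add_le {Ω : Type*} [MeasurableSpace Ω] (μ : Measure Ω) {p : ℝ} (hp : 1 ≤ p)
    {f g : Ω → ℂ} (hf : Measurable f) (hg : Measurable g) :
    nrm μ p (fun ω => f ω + g ω) ≤ nrm μ p f + nrm μ p g := by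
  have hp0 : 0 < p := by linarith
  rw [nrm_eq_eLpNorm μ hp0, nrm_eq_eLpNorm μ hp0, nrm_eq_eLpNorm μ hp0]
  exact eLpNorm_add_le hf.aestronglyMeasurable hg.aestronglyMeasurable (by simpa using hp)

theorem nrm_ne_top {n : ℕ} {Ω : Type*} [MeasurableSpace Ω] {μ : Measure Ω} [IsFiniteMeasure μ]
    {T : (Fin n → ℝ) → Ω → Ω} {A : Set (Fin n → ℝ)} {f : Ω → ℂ} (hf : f ∈ Spec T A) {p : ℝ}
    (hp : 0 < p) : nrm μ p f ≠ ∞ := by
  obtain ⟨M, hM0, hM⟩ := Spec_bdd hf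
  unfold nrm
  apply ENNReal.rpow_ne_top_of_nonneg (by positivity)
  have : ∫⁻ ω, ‖f ω‖ₑ ^ p ∂μ ≤ ∫⁻ _ω, (ENNReal.ofReal M) ^ p ∂μ := by
    apply lintegral_mono
    intro ω
    apply ENNReal.rpow_le_rpow _ hp.le
    rw [← ofReal_norm]
    exact ENNReal.ofReal_le_ofReal (hM ω)
  refine ne_top_of_le_ne_top ?_ this
  rw [lintegral_const]
  exact ENNReal.mul_ne_top (ENNReal.rpow_ne_top_of_nonneg hp.le ENNReal.ofReal_ne_top)
    (measure_ne_top _ _)

/-- Minkowski -/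
theorem minkowski {Ω ι : Type*} [MeasurableSpace Ω] (μ : Measure Ω) {a : ℝ} (ha : 1 ≤ a)
    (J : Finset ι) (X : ι → Ω → ℝ≥0∞) (hX : ∀ j ∈ J, Measurable (X j)) :
    (∫⁻ ω, (∑ j ∈ J, X j ω) ^ a ∂μ) ^ (1 / a) ≤ ∑ j ∈ J, (∫⁻ ω, (X j ω) ^ a ∂μ) ^ (1 / a) := by
  classical
  have ha0 : 0 < a := by linarith
  induction J using Finset.induction_on with
  | empty => simp [ENNReal.zero_rpow_of_pos ha0, ha0]
  | insert j J hj ih =>
    simp_rw [Finset.sum_insert hj]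
    have hXJ : Measurable (fun ω => ∑ j ∈ J, X j ω) := by
      apply Finset.measurable_fun_sum
      intro k hk
      exact hX k (Finset.mem_insert_of_mem hk)
    have h1 := ENNReal.lintegral_Lp_add_le (μ := μ) (p := a) (f := X j)
      (g := fun ω => ∑ j ∈ J, X j ω) (hX j (Finset.mem_insert_self _ _)).aemeasurable
      hXJ.aemeasurable ha
    refine le_trans ?_ (h1.trans ?_)
    · exact le_rfl
    · gcongr
      exact ih fun k hk => hX k (Finset.mem_insert_of_mem hk)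

variable {n : ℕ} {Ω : Type*} [MeasurableSpace Ω] {μ : Measure Ω} {T : (Fin n → ℝ) → Ω → Ω}

theorem lintegral_Av [SFinite μ] (hT : Flow μ T) {K : (Fin n → ℝ) → ℝ≥0∞} (hK : Measurable K)
    {G : Ω → ℝ≥0∞} (hG : Measurable G) : ∫⁻ ω, Av T K G ω ∂μ = (∫⁻ x, K x) * ∫⁻ ω, G ω ∂μ := by
  unfold Av
  rw [lintegral_lintegral_swap]
  · have h1 : ∀ y, ∫⁻ ω, K y * G (T y ω) ∂μ = K y * ∫⁻ ω, G ω ∂μ := by
      intro y
      have hm : Measurable (fun ω => G (T y ω)) := hG.comp (hT.pres y).measurable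
      rw [lintegral_const_mul _ hm]
      congr 1
      exact (hT.pres y).lintegral_comp hG
    simp_rw [h1]
    rw [lintegral_mul_const _ hK]
  · apply Measurable.aemeasurable
    exact (hK.comp measurable_snd).mul (hG.comp (hT.meas.comp measurable_swap))

omit [MeasurableSpace Ω] in
/-- Jensen -/
theorem Av_rpow {K : (Fin n → ℝ) → ℝ≥0∞} (hK : Measurable K) {G : Ω → ℝ≥0∞} {a : ℝ} (ha : 1 ≤ a)
    (ω : Ω) (hG : Measurable (fun x => G (T x ω))) :
    (Av T K G ω) ^ a ≤ (∫⁻ x, K x) ^ (a - 1) * Av T K (fun ω => (G ω) ^ a) ω := by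
  have ha0 : 0 < a := by linarith
  unfold Av
  have h := ENNReal.lintegral_mul_norm_pow_le (μ := (volume : Measure (Fin n → ℝ)))
    (f := K) (g := fun x => K x * (G (T x ω)) ^ a) (p := 1 - 1 / a) (q := 1 / a)
    hK.aemeasurable (hK.mul (hG.pow_const a)).aemeasurable
    (by rw [sub_nonneg, div_le_one ha0]; exact ha) (by positivity) (by ring)
  have e : ∀ x, K x ^ (1 - 1 / a) * (K x * (G (T x ω)) ^ a) ^ (1 / a) = K x * G (T x ω) := by
    intro x
    rw [ENNReal.mul_rpow_of_nonneg _ _ (by positivity : (0 : ℝ) ≤ 1 / a), ← mul_assoc,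
      ← ENNReal.rpow_add_of_nonneg _ _ (by rw [sub_nonneg, div_le_one ha0]; exact ha)
        (by positivity), ← ENNReal.rpow_mul, mul_one_div_cancel ha0.ne', ENNReal.rpow_one]
    rw [sub_add_cancel, ENNReal.rpow_one]
  simp_rw [e] at h
  calc (∫⁻ x, K x * G (T x ω)) ^ a
      ≤ ((∫⁻ x, K x) ^ (1 - 1 / a) * (∫⁻ x, K x * (G (T x ω)) ^ a) ^ (1 / a)) ^ a :=
        ENNReal.rpow_le_rpow h ha0.le
    _ = _ := by
        rw [ENNReal.mul_rpow_of_nonneg _ _ ha0.le, ← ENNReal.rpow_mul, ← ENNReal.rpow_mul,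
          one_div_mul_cancel ha0.ne', ENNReal.rpow_one]
        congr 2
        field_simp

omit [MeasurableSpace Ω] in
/-- interpolation: `u^q` between `u^2` and `u^p` with weights `1/2, 1/2` -/
theorem Av_interp {K : (Fin n → ℝ) → ℝ≥0∞} (hK : Measurable K) {u : Ω → ℝ≥0∞} {p q : ℝ}
    (hp : 0 < p) (hq : 0 < q) (hpq : q / 4 + q / (2 * p) ≤ 1)
    (ω : Ω) (hu : Measurable (fun x => u (T x ω))) :
    Av T K (fun ω => (u ω) ^ q) ω ≤ (Av T K (fun ω => (u ω) ^ (2 : ℝ)) ω) ^ (q / 4) *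
      (Av T K (fun ω => (u ω) ^ p) ω) ^ (q / (2 * p)) *
      (∫⁻ x, K x) ^ (1 - (q / 4 + q / (2 * p))) := by
  unfold Av
  have h0 : 0 ≤ 1 - (q / 4 + q / (2 * p)) := by linarith
  have h := ENNReal.lintegral_prod_norm_pow_le (μ := (volume : Measure (Fin n → ℝ)))
    (Finset.univ : Finset (Fin 3))
    (f := ![fun x => K x * (u (T x ω)) ^ (2 : ℝ), fun x => K x * (u (T x ω)) ^ p, K])
    (p := ![q / 4, q / (2 * p), 1 - (q / 4 + q / (2 * p))])
    (by
      intro i _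
      fin_cases i
      · exact (hK.mul (hu.pow_const _)).aemeasurable
      · exact (hK.mul (hu.pow_const _)).aemeasurable
      · exact hK.aemeasurable)
    (by simp [Fin.sum_univ_succ]; ring)
    (by
      intro i _
      fin_cases i
      · simp; positivity
      · simp; positivity
      · simpa using h0)
  simp only [Fin.prod_univ_three, Matrix.cons_val_zero, Matrix.cons_val_one, Matrix.cons_val_two,
    Matrix.head_cons, Matrix.tail_cons] at h
  refine le_trans (le_of_eq ?_) h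
  refine lintegral_congr fun x => ?_
  rw [ENNReal.mul_rpow_of_nonneg _ _ (by positivity : 0 ≤ q / 4),
    ENNReal.mul_rpow_of_nonneg _ _ (by positivity : 0 ≤ q / (2 * p)),
    ← ENNReal.rpow_mul, ← ENNReal.rpow_mul]
  have e1 : (2 : ℝ) * (q / 4) + p * (q / (2 * p)) = q := by field_simp; ring
  calc K x * (u (T x ω)) ^ q
      = (K x ^ (q / 4) * K x ^ (q / (2 * p)) * K x ^ (1 - (q / 4 + q / (2 * p)))) *
        ((u (T x ω)) ^ (2 * (q / 4)) * (u (T x ω)) ^ (p * (q / (2 * p)))) := by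
        rw [← ENNReal.rpow_add_of_nonneg _ _ (by positivity) (by positivity),
          ← ENNReal.rpow_add_of_nonneg _ _ (by positivity) h0,
          ← ENNReal.rpow_add_of_nonneg _ _ (by positivity) (by positivity), e1]
        rw [add_sub_cancel, ENNReal.rpow_one]
    _ = _ := by ring

end BDDK
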