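import Mathlib
import Pool.Agent.BDD.Norms

/-!
# Cells: `cell r x = ⌊r x⌋` (coordinatewise), and the pieces `F r J κ`
-/

open MeasureTheory Finset
open scoped ENNReal

namespace BDDK

/-- index of the cell of side `1/r` -/
noncomputable def cell {d : ℕ} (r : ℕ) (x : Fin d → ℝ) : Fin d → ℤ := fun i => ⌊(r : ℝ) * x i⌋

/-- corner of the cell -/
noncomputable def corner {d : ℕ} (r : ℕ) (κ : Fin d → ℤ) : Fin d → ℝ := fun i => (κ i : ℝ) / r

section pieces

variable {d : ℕ} {Ω ι : Type*}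

/-- the cells which occur -/
noncomputable def cells (r : ℕ) (c : ι → Fin d → ℝ) (J : Finset ι) : Finset (Fin d → ℤ) :=
  J.image (fun j => cell r (c j))

/-- members of a cell -/
noncomputable def mem (r : ℕ) (c : ι → Fin d → ℝ) (J : Finset ι) (κ : Fin d → ℤ) : Finset ι :=
  J.filter (fun j => cell r (c j) = κ)

/-- the piece of a cell -/
noncomputable def piece (g : ι → Ω → ℂ) (r : ℕ) (c : ι → Fin d → ℝ) (J : Finset ι)
    (κ : Fin d → ℤ) (ω : Ω) : ℂ := ∑ j ∈ mem r c J κ, g j ω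

theorem mem_subset (r : ℕ) (c : ι → Fin d → ℝ) (J : Finset ι) (κ : Fin d → ℤ) :
    mem r c J κ ⊆ J := Finset.filter_subset _ _

theorem sum_cells {M : Type*} [AddCommMonoid M] (r : ℕ) (c : ι → Fin d → ℝ) (J : Finset ι)
    (h : ι → M) : ∑ κ ∈ cells r c J, ∑ j ∈ mem r c J κ, h j = ∑ j ∈ J, h j := by
  unfold cells mem
  exact Finset.sum_fiberwise_of_maps_to (fun j hj => Finset.mem_image_of_mem _ hj) h

theorem sum_piece (g : ι → Ω → ℂ) (r : ℕ) (c : ι → Fin d → ℝ) (J : Finset ι) (ω : Ω) :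
    ∑ κ ∈ cells r c J, piece g r c J κ ω = ∑ j ∈ J, g j ω := sum_cells r c J (fun j => g j ω)

theorem cell_parent {r s : ℕ} (hs : 0 < s) (x : Fin d → ℝ) :
    cell r x = fun i => cell (r * s) x i / (s : ℤ) := by
  funext i
  unfold cell
  have h1 : (r : ℝ) * x i = ((r * s : ℕ) : ℝ) * x i / (s : ℕ) := by
    have : (s : ℝ) ≠ 0 := by positivity
    push_cast
    field_simp
  rw [h1, Int.floor_div_natCast]

/-- cells of the finer scale inside the cell `κ` -/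
theorem mem_mem {r s : ℕ} (hs : 0 < s) (c : ι → Fin d → ℝ) (J : Finset ι) (κ κ' : Fin d → ℤ)
    (hκ : κ' ∈ cells (r * s) c (mem r c J κ)) :
    mem (r * s) c (mem r c J κ) κ' = mem (r * s) c J κ' := by
  unfold cells at hκ
  rw [Finset.mem_image] at hκ
  obtain ⟨j0, hj0, hj0'⟩ := hκ
  unfold mem at hj0 ⊢
  rw [Finset.mem_filter] at hj0
  ext j
  simp only [Finset.mem_filter]
  constructor
  · rintro ⟨⟨h1, _⟩, h3⟩; exact ⟨h1, h3⟩
  · rintro ⟨h1, h3⟩
    refine ⟨⟨h1, ?_⟩, h3⟩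
    rw [cell_parent hs, h3, ← hj0', ← cell_parent hs, hj0.2]

theorem piece_split {r s : ℕ} (hs : 0 < s) (g : ι → Ω → ℂ) (c : ι → Fin d → ℝ) (J : Finset ι)
    (κ : Fin d → ℤ) (ω : Ω) :
    piece g r c J κ ω = ∑ κ' ∈ cells (r * s) c (mem r c J κ), piece g (r * s) c J κ' ω := by
  rw [show piece g r c J κ ω = ∑ j ∈ mem r c J κ, g j ω from rfl]
  rw [← sum_cells (r * s) c (mem r c J κ) (fun j => g j ω)]
  refine Finset.sum_congr rfl fun κ' hκ' => ?_
  unfold piece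
  rw [mem_mem hs c J κ κ' hκ']

theorem cells_split {M : Type*} [AddCommMonoid M] {r s : ℕ} (hs : 0 < s) (c : ι → Fin d → ℝ)
    (J : Finset ι) (h : (Fin d → ℤ) → M) :
    ∑ κ ∈ cells r c J, ∑ κ' ∈ cells (r * s) c (mem r c J κ), h κ' =
      ∑ κ' ∈ cells (r * s) c J, h κ' := by
  have h1 : ∀ κ ∈ cells r c J, cells (r * s) c (mem r c J κ) =
      (cells (r * s) c J).filter (fun κ' => (fun i => κ' i / (s : ℤ)) = κ) := by
    intro κ _
    ext κ'
    unfold cells mem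
    simp only [Finset.mem_image, Finset.mem_filter]
    constructor
    · rintro ⟨j, ⟨hj, hjκ⟩, rfl⟩
      refine ⟨⟨j, hj, rfl⟩, ?_⟩
      rw [← cell_parent hs]; exact hjκ
    · rintro ⟨⟨j, hj, rfl⟩, hκ⟩
      refine ⟨j, ⟨hj, ?_⟩, rfl⟩
      rw [cell_parent hs]; exact hκ
  rw [Finset.sum_congr rfl (fun κ hκ => by rw [h1 κ hκ])]
  apply Finset.sum_fiberwise_of_maps_to
  intro κ' hκ'
  unfold cells at hκ' ⊢
  rw [Finset.mem_image] at hκ' ⊢
  obtain ⟨j, hj, rfl⟩ := hκ'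
  exact ⟨j, hj, by rw [cell_parent hs]⟩

theorem cell_corner {r : ℕ} (hr : 0 < r) (x : Fin d → ℝ) (i : Fin d) :
    |x i - corner r (cell r x) i| ≤ 1 / r := by
  unfold corner cell
  have hr' : (0 : ℝ) < r := by exact_mod_cast hr
  have h1 := Int.floor_le ((r : ℝ) * x i)
  have h2 := Int.lt_floor_add_one ((r : ℝ) * x i)
  rw [abs_le]
  constructor
  · rw [neg_le_sub_iff_le_add, div_le_iff₀ hr']
    have : (x i + 1 / r) * r = r * x i + 1 := by field_simp
    rw [this]; linarith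
  · rw [sub_le_iff_le_add, ← add_div, le_div_iff₀ hr']
    linarith

theorem corner_mem {r : ℕ} (hr : 0 < r) {x : Fin d → ℝ} (hx : ∀ i, 0 ≤ x i ∧ x i ≤ 1) (i : Fin d) :
    0 ≤ corner r (cell r x) i ∧ corner r (cell r x) i ≤ 1 := by
  unfold corner cell
  have hr' : (0 : ℝ) < r := by exact_mod_cast hr
  constructor
  · apply div_nonneg _ hr'.le
    have : 0 ≤ ⌊(r : ℝ) * x i⌋ := Int.floor_nonneg.mpr (mul_nonneg hr'.le (hx i).1)
    exact_mod_cast this
  · rw [div_le_one hr']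
    calc ((⌊(r : ℝ) * x i⌋ : ℤ) : ℝ) ≤ r * x i := Int.floor_le _
      _ ≤ r * 1 := by gcongr; exact (hx i).2
      _ = r := mul_one _

theorem piece_spec {N : ℝ} [MeasurableSpace Ω] {T : (Fin (d + 1) → ℝ) → Ω → Ω}
    {ξ0 : Fin (d + 1) → ℝ} {g : ι → Ω → ℂ} {c : ι → Fin d → ℝ} {J : Finset ι}
    (hg : ∀ j ∈ J, g j ∈ Spec T (Cap d N ξ0 (c j))) {r : ℕ} (hr : 0 < r) (hrN : (r : ℝ) ≤ N)
    (κ : Fin d → ℤ) : piece g r c J κ ∈ Spec T (Cap d (r / 2) ξ0 (corner r κ)) := by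
  have hr' : (0 : ℝ) < r := by exact_mod_cast hr
  have e : piece g r c J κ = ∑ j ∈ mem r c J κ, g j := by
    funext ω; simp [piece]
  rw [e]
  apply Submodule.sum_mem
  intro j hj
  unfold mem at hj
  rw [Finset.mem_filter] at hj
  refine Spec_mono (Cap_coarse (by positivity) (by linarith) ξ0 (corner r κ) (c j) ?_) (hg j hj.1)
  intro i
  rw [← hj.2]
  calc |c j i - corner r (cell r (c j)) i| ≤ 1 / r := cell_corner hr (c j) i
    _ = 1 / (2 * (r / 2)) := by congr 1; ring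

end pieces

end BDDK
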