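import Mathlib
import Pool.Agent.BDD.Dec

/-!
# Parabolic rescaling
-/

open MeasureTheory Finset
open scoped ENNReal

namespace BDDK

theorem DenseSpec.comp {n k : ℕ} {Ω : Type*} [MeasurableSpace Ω] {μ : Measure Ω}
    {T : (Fin n → ℝ) → Ω → Ω} (hT : DenseSpec μ T) (L : (Fin k → ℝ) → (Fin n → ℝ))
    (Lt : (Fin n → ℝ) → (Fin k → ℝ))
    (hL : ∀ ξ y, ∑ i, Lt ξ i * y i = ∑ i, ξ i * (L y) i) :
    DenseSpec μ (fun y ω => T (L y) ω) := by
  intro h hm hb p hp ε hε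
  obtain ⟨P, hP, hPε⟩ := hT h hm hb p hp ε hε
  exact ⟨P, Spec_comp L (fun ξ _ => ⟨Lt ξ, Set.mem_univ _, hL ξ⟩) hP, hPε⟩

/-- decoupling for families contained in `c0 + [0,ρ]^d` -/
theorem DecB_resc {d : ℕ} {p N ρ : ℝ} {A : ℝ≥0∞} (hρ : 0 < ρ) (hN : 0 < N)
    (h : DecB d p (N * ρ) A)
    {Ω : Type} [MeasurableSpace Ω] {μ : Measure Ω} [IsFiniteMeasure μ]
    {T : (Fin (d + 1) → ℝ) → Ω → Ω} (hT : Flow μ T) (hD : DenseSpec μ T)
    (ξ0 : Fin (d + 1) → ℝ) (c0 : Fin d → ℝ) {ι : Type} (J : Finset ι) (c : ι → Fin d → ℝ)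
    (g : ι → Ω → ℂ)
    (hc : ∀ j ∈ J, ∀ i, c0 i ≤ c j i ∧ c j i ≤ c0 i + ρ)
    (hsep : ∀ j ∈ J, ∀ k ∈ J, j ≠ k → ∃ i, 1 / N ≤ |c j i - c k i|)
    (hg : ∀ j ∈ J, g j ∈ Spec T (Cap d N ξ0 (c j))) :
    nrm μ p (fun ω => ∑ j ∈ J, g j ω) ≤ A * (∑ j ∈ J, nrm μ p (g j) ^ 2) ^ (1 / 2 : ℝ) := by
  set L : (Fin (d + 1) → ℝ) → (Fin (d + 1) → ℝ) := fun x =>
    Fin.cons (x 0 / ρ ^ 2) (fun i => x i.succ / ρ - 2 * c0 i * x 0 / ρ ^ 2) with hL
  set Lt : (Fin (d + 1) → ℝ) → (Fin (d + 1) → ℝ) := fun ξ =>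
    Fin.cons (ξ 0 / ρ ^ 2 - ∑ i, 2 * c0 i * ξ i.succ / ρ ^ 2) (fun i => ξ i.succ / ρ) with hLt
  have hdual : ∀ ξ y, ∑ i, Lt ξ i * y i = ∑ i, ξ i * (L y) i := by
    intro ξ y
    rw [Fin.sum_univ_succ, Fin.sum_univ_succ]
    simp only [hL, hLt, Fin.cons_zero, Fin.cons_succ]
    rw [sub_mul, Finset.sum_mul]
    simp_rw [mul_sub]
    rw [Finset.sum_sub_distrib]
    have e1 : ∑ i : Fin d, ξ i.succ / ρ * y i.succ = ∑ i : Fin d, ξ i.succ * (y i.succ / ρ) := by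
      refine Finset.sum_congr rfl fun i _ => ?_
      ring
    have e2 : ∑ i : Fin d, 2 * c0 i * ξ i.succ / ρ ^ 2 * y 0 =
        ∑ i : Fin d, ξ i.succ * (2 * c0 i * y 0 / ρ ^ 2) := by
      refine Finset.sum_congr rfl fun i _ => ?_
      ring
    rw [e1, e2]
    ring
  have hadd : ∀ x y, L (x + y) = L x + L y := by
    intro x y
    funext j
    refine Fin.cases ?_ (fun i => ?_) j
    · simp only [hL, Fin.cons_zero, Pi.add_apply]; ring
    · simp only [hL, Fin.cons_succ, Pi.add_apply]; ring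
  have hLm : Measurable L := by
    rw [measurable_pi_iff]
    intro j
    refine Fin.cases ?_ (fun i => ?_) j
    · simp only [hL, Fin.cons_zero]; fun_prop
    · simp only [hL, Fin.cons_succ]; fun_prop
  refine h Ω μ (fun y ω => T (L y) ω) (hT.comp L hLm hadd) (hD.comp L Lt hdual)
    (Fin.cons ((ξ0 0 - ∑ i, 2 * c0 i * ξ0 i.succ - ∑ i, c0 i ^ 2) / ρ ^ 2)
      (fun i => (ξ0 i.succ + c0 i) / ρ)) ι J (fun j i => (c j i - c0 i) / ρ) g ?_ ?_ ?_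
  · intro j hj i
    have := hc j hj i
    constructor
    · apply div_nonneg _ hρ.le; linarith [this.1]
    · rw [div_le_one hρ]; linarith [this.2]
  · intro j hj k hk hjk
    obtain ⟨i, hi⟩ := hsep j hj k hk hjk
    refine ⟨i, ?_⟩
    rw [← sub_div, abs_div, abs_of_pos hρ, sub_sub_sub_cancel_right, le_div_iff₀ hρ]
    calc 1 / (N * ρ) * ρ = 1 / N := by field_simp
      _ ≤ _ := hi
  · intro j hj
    refine Spec_comp L (A := Cap d N ξ0 (c j)) ?_ (hg j hj)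
    rintro ξ ⟨z, s, hz, hs, h1, h0⟩
    refine ⟨Lt ξ, ⟨z, s, hz, hs, ?_, ?_⟩, hdual ξ⟩
    · intro i
      simp only [hLt, Fin.cons_succ, h1]
      field_simp
      ring
    · simp only [hLt, Fin.cons_zero, h0]
      simp_rw [h1]
      have e1 : ∑ i, 2 * c0 i * (ξ0 i.succ + (c j i + z i / N)) / ρ ^ 2 =
          (∑ i, 2 * c0 i * ξ0 i.succ) / ρ ^ 2 + (∑ i, 2 * c0 i * (c j i + z i / N)) / ρ ^ 2 := by
        rw [Finset.sum_div, Finset.sum_div, ← Finset.sum_add_distrib]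
        refine Finset.sum_congr rfl fun i _ => ?_
        ring
      have e2 : ∑ i, ((c j i - c0 i) / ρ + z i / (N * ρ)) ^ 2 =
          (∑ i, (c j i + z i / N) ^ 2) / ρ ^ 2 - (∑ i, 2 * c0 i * (c j i + z i / N)) / ρ ^ 2 +
            (∑ i, c0 i ^ 2) / ρ ^ 2 := by
        rw [Finset.sum_div, Finset.sum_div, Finset.sum_div, ← Finset.sum_sub_distrib,
          ← Finset.sum_add_distrib]
        refine Finset.sum_congr rfl fun i _ => ?_
        field_simp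
        ring
      rw [e1, e2]
      generalize ∑ i, 2 * c0 i * ξ0 i.succ = S1
      generalize ∑ i, 2 * c0 i * (c j i + z i / N) = S2
      generalize ∑ i, (c j i + z i / N) ^ 2 = S3
      generalize ∑ i, c0 i ^ 2 = S4
      field_simp
      ring

end BDDK
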