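import Mathlib
import Pool.Agent.BDD.Cells
import Pool.Agent.BDD.BICap
import Pool.Agent.BDD.Resc

/-!
# One step of the iteration
-/

open MeasureTheory Finset
open scoped ENNReal

namespace BDDK

variable {d : ℕ} {Ω : Type} [MeasurableSpace Ω] {μ : Measure Ω}
  {T : (Fin (d + 1) → ℝ) → Ω → Ω}

/-- the multilinear quantity at scale `r` -/
noncomputable def Mq (μ : Measure Ω) (T : (Fin (d + 1) → ℝ) → Ω → Ω) (p : ℝ) {ι : Type}
    (c : ι → Fin d → ℝ) (g : ι → Ω → ℂ) (J : Fin (d + 1) → Finset ι) (r : ℕ) : ℝ≥0∞ :=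
  ∫⁻ ω, ∏ i, (∑ κ ∈ cells r c (J i),
    Av T (W (r : ℝ)) (fun ω => ‖piece g r c (J i) κ ω‖ₑ ^ 2) ω) ^ (p / (2 * ((d : ℝ) + 1))) ∂μ

/-- orthogonality for the pieces -/
theorem orth_piece (d : ℕ) : ∃ C : ℝ≥0∞, C ≠ ∞ ∧ ∀ (Ω : Type) [MeasurableSpace Ω] (μ : Measure Ω)
    (T : (Fin (d + 1) → ℝ) → Ω → Ω) (_ : Flow μ T) (N : ℝ) (ξ0 : Fin (d + 1) → ℝ) (ι : Type)
    (J : Finset ι) (c : ι → Fin d → ℝ) (g : ι → Ω → ℂ)
    (_ : ∀ j ∈ J, g j ∈ Spec T (Cap d N ξ0 (c j))) (r s : ℕ) (_ : 0 < r) (_ : 0 < s)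
    (_ : ((r * s : ℕ) : ℝ) ≤ N) (ω : Ω),
    ∑ κ ∈ cells r c J, Av T (W ((r * s : ℕ) : ℝ)) (fun ω => ‖piece g r c J κ ω‖ₑ ^ 2) ω ≤
      C * ∑ κ ∈ cells (r * s) c J,
        Av T (W ((r * s : ℕ) : ℝ)) (fun ω => ‖piece g (r * s) c J κ ω‖ₑ ^ 2) ω := by
  classical
  obtain ⟨C, hC, h⟩ := orth (d + 1)
  refine ⟨C * ((9 ^ d : ℕ) : ℝ≥0∞), ENNReal.mul_ne_top hC (by simp), ?_⟩
  intro Ω _ μ T hT N ξ0 ι J c g hg r s hr hs hN ω
  set R : ℕ := r * s with hR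
  have hR0 : 0 < R := by positivity
  have hR' : (0 : ℝ) < R := by exact_mod_cast hR0
  rw [← cells_split hs c J, Finset.mul_sum]
  apply Finset.sum_le_sum
  intro κ _
  have key := h μ T hT (R : ℝ) hR' (cells R c (mem r c J κ))
    (fun κ' => Cap d ((R : ℝ) / 2) ξ0 (corner R κ')) (fun κ' => piece g R c J κ')
    (fun κ' _ => piece_spec hg hR0 hN κ') (fun κ' κ'' => ∀ i, |κ' i - κ'' i| ≤ 4)
    (fun j k hjk i => by rw [abs_sub_comm]; exact hjk i) ?_ (9 ^ d) ?_ ω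
  · calc Av T (W (R : ℝ)) (fun ω => ‖piece g r c J κ ω‖ₑ ^ 2) ω
        = Av T (W (R : ℝ)) (fun ω => ‖∑ κ' ∈ cells R c (mem r c J κ), piece g R c J κ' ω‖ₑ ^ 2) ω := by
          congr 1
          funext ω
          rw [piece_split hs g c J κ ω]
      _ ≤ _ := key
  · intro κ' _ κ'' _ hκ ξ hξ η hη
    push Not at hκ
    obtain ⟨i, hi⟩ := hκ
    obtain ⟨z, s1, hz, _, h1, _⟩ := hξ
    obtain ⟨z', s2, hz', _, h2, _⟩ := hη
    refine ⟨i.succ, ?_⟩
    rw [h1, h2]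
    unfold corner
    have hz1 := (norm_le_pi_norm z i).trans hz
    have hz2 := (norm_le_pi_norm z' i).trans hz'
    rw [Real.norm_eq_abs] at hz1 hz2
    have h5 : (5 : ℝ) ≤ |(κ' i : ℝ) - κ'' i| := by
      have : (5 : ℤ) ≤ |κ' i - κ'' i| := by omega
      exact_mod_cast this
    have e : ξ0 i.succ + ((κ' i : ℝ) / R + z i / ((R : ℝ) / 2)) -
        (ξ0 i.succ + ((κ'' i : ℝ) / R + z' i / ((R : ℝ) / 2))) =
        (((κ' i : ℝ) - κ'' i) - (2 * z' i - 2 * z i)) / R := by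
      field_simp
      ring
    rw [e, abs_div, abs_of_pos hR']
    gcongr
    calc (1 : ℝ) ≤ |(κ' i : ℝ) - κ'' i| - |2 * z' i - 2 * z i| := by
          have : |2 * z' i - 2 * z i| ≤ 4 := by
            calc |2 * z' i - 2 * z i| ≤ |2 * z' i| + |2 * z i| := abs_sub _ _
              _ ≤ 4 := by rw [abs_mul, abs_mul, abs_two]; linarith
          linarith
      _ ≤ _ := abs_sub_abs_le_abs_sub _ _
  · intro κ' _
    calc ((cells R c (mem r c J κ)).filter (fun κ'' => ∀ i, |κ' i - κ'' i| ≤ 4)).card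
        ≤ (Fintype.piFinset (fun i : Fin d => Finset.Icc (κ' i - 4) (κ' i + 4))).card := by
          apply Finset.card_le_card
          intro κ'' hκ''
          rw [Finset.mem_filter] at hκ''
          rw [Fintype.mem_piFinset]
          intro i
          have := hκ''.2 i
          rw [abs_le] at this
          rw [Finset.mem_Icc]
          omega
      _ = 9 ^ d := by
          rw [Fintype.card_piFinset]
          have : ∀ i : Fin d, (Finset.Icc (κ' i - 4) (κ' i + 4)).card = 9 := by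
            intro i
            rw [Int.card_Icc]
            omega
          simp [this]

/-- the `L^p` factor -/
theorem Lp_factor {p : ℝ} (hp : 2 ≤ p) [IsFiniteMeasure μ] (hT : Flow μ T) {ι : Type}
    (S : Fin (d + 1) → Finset ι) (F : Fin (d + 1) → ι → Ω → ℂ)
    (hF : ∀ i, ∀ τ ∈ S i, Measurable (F i τ)) {R : ℝ} (hR : 0 < R) :
    ∫⁻ ω, ∏ i, (∑ τ ∈ S i, (Av T (W R) (fun ω => ‖F i τ ω‖ₑ ^ p) ω) ^ (2 / p)) ^
      (p / (2 * ((d : ℝ) + 1))) ∂μ ≤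
      cW (d + 1) * ∏ i, (∑ τ ∈ S i, nrm μ p (F i τ) ^ 2) ^ (p / (2 * ((d : ℝ) + 1))) := by
  have hp0 : 0 < p := by linarith
  have hd : (0 : ℝ) < (d : ℝ) + 1 := by positivity
  have hAm : ∀ i, ∀ τ ∈ S i, Measurable (Av T (W R) (fun ω => ‖F i τ ω‖ₑ ^ p)) := fun i τ hτ =>
    Av_meas hT (W_meas R) ((hF i τ hτ).enorm.pow_const p)
  have hYm : ∀ i, Measurable (fun ω => ∑ τ ∈ S i,
      (Av T (W R) (fun ω => ‖F i τ ω‖ₑ ^ p) ω) ^ (2 / p)) := by
    intro i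
    apply Finset.measurable_fun_sum
    intro τ hτ
    exact (hAm i τ hτ).pow_const _
  have h1 : ∫⁻ ω, ∏ i, (∑ τ ∈ S i, (Av T (W R) (fun ω => ‖F i τ ω‖ₑ ^ p) ω) ^ (2 / p)) ^
      (p / (2 * ((d : ℝ) + 1))) ∂μ ≤
      ∏ i, (∫⁻ ω, (∑ τ ∈ S i, (Av T (W R) (fun ω => ‖F i τ ω‖ₑ ^ p) ω) ^ (2 / p)) ^
        (p / 2) ∂μ) ^ (1 / ((d : ℝ) + 1)) := by
    have h := ENNReal.lintegral_prod_norm_pow_le (μ := μ) (Finset.univ : Finset (Fin (d + 1)))
      (f := fun i ω => (∑ τ ∈ S i, (Av T (W R) (fun ω => ‖F i τ ω‖ₑ ^ p) ω) ^ (2 / p)) ^ (p / 2))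
      (p := fun _ => 1 / ((d : ℝ) + 1))
      (fun i _ => ((hYm i).pow_const _).aemeasurable)
      (by
        rw [Finset.sum_const, Finset.card_univ, Fintype.card_fin, nsmul_eq_mul]
        push_cast
        field_simp)
      (fun i _ => by positivity)
    refine le_trans (le_of_eq ?_) h
    refine lintegral_congr fun ω => ?_
    refine Finset.prod_congr rfl fun i _ => ?_
    rw [← ENNReal.rpow_mul]
    congr 1
    field_simp
  have h2 : ∀ i, ∫⁻ ω, (∑ τ ∈ S i, (Av T (W R) (fun ω => ‖F i τ ω‖ₑ ^ p) ω) ^ (2 / p)) ^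
        (p / 2) ∂μ ≤ cW (d + 1) * (∑ τ ∈ S i, nrm μ p (F i τ) ^ 2) ^ (p / 2) := by
    intro i
    have hp2 : 1 ≤ p / 2 := by linarith
    have h := minkowski μ hp2 (S i)
      (fun τ ω => (Av T (W R) (fun ω => ‖F i τ ω‖ₑ ^ p) ω) ^ (2 / p))
      (fun τ hτ => (hAm i τ hτ).pow_const _)
    have h3 : ∀ τ ∈ S i, (∫⁻ ω, ((Av T (W R) (fun ω => ‖F i τ ω‖ₑ ^ p) ω) ^ (2 / p)) ^ (p / 2) ∂μ) ^
        (1 / (p / 2)) = (cW (d + 1)) ^ (2 / p) * nrm μ p (F i τ) ^ 2 := by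
      intro τ hτ
      have e1 : ∀ ω, ((Av T (W R) (fun ω => ‖F i τ ω‖ₑ ^ p) ω) ^ (2 / p)) ^ (p / 2) =
          Av T (W R) (fun ω => ‖F i τ ω‖ₑ ^ p) ω := by
        intro ω
        rw [← ENNReal.rpow_mul]
        have : 2 / p * (p / 2) = 1 := by field_simp
        rw [this, ENNReal.rpow_one]
      simp_rw [e1]
      rw [lintegral_Av hT (W_meas R) ((hF i τ hτ).enorm.pow_const p), lintegral_W hR,
        ENNReal.mul_rpow_of_nonneg _ _ (by positivity), ← nrm_rpow μ hp0, ← ENNReal.rpow_mul]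
      have e2 : 1 / (p / 2) = 2 / p := by field_simp
      have e3 : p * (1 / (p / 2)) = 2 := by field_simp
      rw [e3, e2, ENNReal.rpow_two]
    rw [Finset.sum_congr rfl h3, ← Finset.mul_sum] at h
    have h4 := ENNReal.rpow_le_rpow h (by positivity : 0 ≤ p / 2)
    rw [← ENNReal.rpow_mul, one_div_mul_cancel (by positivity), ENNReal.rpow_one,
      ENNReal.mul_rpow_of_nonneg _ _ (by positivity), ← ENNReal.rpow_mul] at h4
    have : 2 / p * (p / 2) = 1 := by field_simp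
    rw [this, ENNReal.rpow_one] at h4
    exact h4
  refine h1.trans ?_
  calc ∏ i, (∫⁻ ω, (∑ τ ∈ S i, (Av T (W R) (fun ω => ‖F i τ ω‖ₑ ^ p) ω) ^ (2 / p)) ^
        (p / 2) ∂μ) ^ (1 / ((d : ℝ) + 1))
      ≤ ∏ i, (cW (d + 1) * (∑ τ ∈ S i, nrm μ p (F i τ) ^ 2) ^ (p / 2)) ^ (1 / ((d : ℝ) + 1)) := by
        apply Finset.prod_le_prod'
        intro i _
        exact ENNReal.rpow_le_rpow (h2 i) (by positivity)
    _ = _ := by
        simp_rw [ENNReal.mul_rpow_of_nonneg _ _ (by positivity : 0 ≤ 1 / ((d : ℝ) + 1))]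
        rw [Finset.prod_mul_distrib, Finset.prod_const, Finset.card_univ, Fintype.card_fin,
          ← ENNReal.rpow_natCast, ← ENNReal.rpow_mul]
        congr 1
        · push_cast
          rw [one_div_mul_cancel hd.ne', ENNReal.rpow_one]
        · refine Finset.prod_congr rfl fun i _ => ?_
          rw [← ENNReal.rpow_mul]
          congr 1
          field_simp

end BDDK
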