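import Mathlib
import Pool.Agent.BDD.StepA

/-!
# One step of the iteration: `Mq r ≤ C r^ε (Mq r²)^(1/2) (A² S)^(p/4)`
-/

open MeasureTheory Finset
open scoped ENNReal

namespace BDDK

theorem mem_corner {d : ℕ} {ι : Type*} {r : ℕ} (hr : 0 < r) {c : ι → Fin d → ℝ} {J : Finset ι}
    {κ : Fin d → ℤ} {j : ι} (hj : j ∈ mem r c J κ) (i : Fin d) :
    corner r κ i ≤ c j i ∧ c j i ≤ corner r κ i + 1 / r := by
  unfold mem at hj
  rw [Finset.mem_filter] at hj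
  have hr' : (0 : ℝ) < r := by exact_mod_cast hr
  have h := congrFun hj.2 i
  unfold cell at h
  unfold corner
  have h1 := Int.floor_le ((r : ℝ) * c j i)
  have h2 := Int.lt_floor_add_one ((r : ℝ) * c j i)
  rw [h] at h1 h2
  constructor
  · rw [div_le_iff₀ hr']; linarith
  · rw [← add_div, le_div_iff₀ hr']; linarith

/-- decoupling of the pieces -/
theorem piece_dec {d : ℕ} {Ω : Type} [MeasurableSpace Ω] {μ : Measure Ω} [IsFiniteMeasure μ]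
    {T : (Fin (d + 1) → ℝ) → Ω → Ω} (hT : Flow μ T) (hDs : DenseSpec μ T) {p N : ℝ} (hN : 0 < N)
    {ξ0 : Fin (d + 1) → ℝ} {ι : Type} {J : Finset ι} {c : ι → Fin d → ℝ} {g : ι → Ω → ℂ}
    (hsep : ∀ j ∈ J, ∀ k ∈ J, j ≠ k → ∃ i, 1 / N ≤ |c j i - c k i|)
    (hg : ∀ j ∈ J, g j ∈ Spec T (Cap d N ξ0 (c j))) {r : ℕ} (hr : 0 < r) {A : ℝ≥0∞}
    (hA : DecB d p (N / r) A) (κ : Fin d → ℤ) :
    nrm μ p (piece g r c J κ) ^ 2 ≤ A ^ 2 * ∑ j ∈ mem r c J κ, nrm μ p (g j) ^ 2 := by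
  have hr' : (0 : ℝ) < r := by exact_mod_cast hr
  have h := DecB_resc (ρ := 1 / r) (by positivity) hN (by rw [mul_one_div]; exact hA) hT hDs ξ0
    (corner r κ) (mem r c J κ) c g (fun j hj i => mem_corner hr hj i)
    (fun j hj k hk hjk => hsep j (mem_subset r c J κ hj) k (mem_subset r c J κ hk) hjk)
    (fun j hj => hg j (mem_subset r c J κ hj))
  calc nrm μ p (piece g r c J κ) ^ 2
      ≤ (A * (∑ j ∈ mem r c J κ, nrm μ p (g j) ^ 2) ^ (1 / 2 : ℝ)) ^ 2 := by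
        gcongr
        exact h
    _ = _ := by
        rw [mul_pow]
        congr 1
        rw [← ENNReal.rpow_two, ← ENNReal.rpow_mul]
        norm_num

theorem stepA {d : ℕ} (hd : 1 ≤ d) {D : ℝ} (hD : 0 < D) {p ε : ℝ} (hp : 2 ≤ p)
    (hpd : p ≤ 2 + 4 / d) (hε : 0 < ε) :
    ∃ C : ℝ≥0∞, C ≠ ∞ ∧ ∀ (Ω : Type) [MeasurableSpace Ω] (μ : Measure Ω) [IsFiniteMeasure μ]
      (T : (Fin (d + 1) → ℝ) → Ω → Ω) (_ : Flow μ T) (_ : DenseSpec μ T) (N : ℝ)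
      (ξ0 : Fin (d + 1) → ℝ) (ι : Type) (J : Finset ι) (c : ι → Fin d → ℝ) (g : ι → Ω → ℂ)
      (_ : ∀ j ∈ J, ∀ i, 0 ≤ c j i ∧ c j i ≤ 1)
      (_ : ∀ j ∈ J, ∀ k ∈ J, j ≠ k → ∃ i, 1 / N ≤ |c j i - c k i|)
      (_ : ∀ j ∈ J, g j ∈ Spec T (Cap d N ξ0 (c j)))
      (Ji : Fin (d + 1) → Finset ι) (_ : ∀ i, Ji i ⊆ J) (r : ℕ) (_ : 0 < r)
      (_ : ((r * r : ℕ) : ℝ) ≤ N)
      (_ : ∀ t : Fin (d + 1) → (Fin d → ℤ), (∀ i, t i ∈ cells r c (Ji i)) →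
        D⁻¹ ≤ |(Matrix.of (fun i => wC (corner r (t i)))).det|)
      (A : ℝ≥0∞) (_ : DecB d p (N / r) A),
      Mq μ T p c g Ji r ≤ C * ENNReal.ofReal ((r : ℝ) ^ ε) *
        (Mq μ T p c g Ji (r * r)) ^ (1 / 2 : ℝ) *
        (A ^ 2 * ∑ j ∈ J, nrm μ p (g j) ^ 2) ^ (p / 4) := by
  have hp0 : 0 < p := by linarith
  have hd0 : (0 : ℝ) < d := by exact_mod_cast hd
  have hd1 : (0 : ℝ) < (d : ℝ) + 1 := by positivity
  -- the exponent `q`
  set q : ℝ := max 2 (p * d / (d + 1)) with hq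
  have hq2 : 2 ≤ q := le_max_left _ _
  have hq0 : 0 < q := by linarith
  have hpq : p / (((d : ℝ) + 1) * q) ≤ 1 / (d : ℝ) := by
    rw [div_le_div_iff₀ (by positivity) hd0, one_mul]
    have h1 : p * d / (d + 1) ≤ q := le_max_right _ _
    rw [div_le_iff₀ hd1] at h1
    linarith
  have hint : q / 4 + q / (2 * p) ≤ 1 := by
    have h1 : q * (p + 2) ≤ 4 * p := by
      rcases le_total 2 (p * d / (d + 1)) with h | h
      · rw [hq, max_eq_right h]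
        have hpd' : p * d ≤ 2 * d + 4 := by
          have : p * d ≤ (2 + 4 / d) * d := by gcongr
          have e : (2 + 4 / (d : ℝ)) * d = 2 * d + 4 := by field_simp
          linarith
        rw [div_mul_eq_mul_div, div_le_iff₀ hd1]
        nlinarith
      · rw [hq, max_eq_left h]; linarith
    have e : q / 4 + q / (2 * p) = q * (p + 2) / (4 * p) := by field_simp; ring
    rw [e, div_le_one (by positivity)]
    exact h1
  obtain ⟨CB, hCB, hBI⟩ := BIcap hd hD (p := p) (q := q) hq2 hp0 hpq hε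
  obtain ⟨CO, hCO, hOr⟩ := orth_piece d
  set e : ℝ := p / (2 * ((d : ℝ) + 1)) with he
  have he0 : 0 < e := by positivity
  set n' : ℕ := d + 1 with hn'
  set w : ℝ≥0∞ := cW (d + 1) with hw
  have hw_top : w ≠ ∞ := (cW_lt_top _).ne
  set a1 : ℝ := 1 - 2 / q with ha1
  have ha1' : 0 ≤ a1 := by
    rw [ha1, sub_nonneg, div_le_one hq0]; exact hq2
  set a2 : ℝ := (1 - (q / 4 + q / (2 * p))) * (2 / q) with ha2
  have ha2' : 0 ≤ a2 := by
    rw [ha2]; apply mul_nonneg (by linarith) (by positivity)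
  refine ⟨((w ^ a1) ^ e) ^ n' * (CB * (((w ^ a2) ^ e) ^ n' * ((CO ^ e) ^ n') ^ (1 / 2 : ℝ) *
    w ^ (1 / 2 : ℝ))), ?_, ?_⟩
  · have h1 : ((w ^ a1) ^ e) ^ n' ≠ ∞ := ENNReal.pow_ne_top
      (ENNReal.rpow_ne_top_of_nonneg he0.le (ENNReal.rpow_ne_top_of_nonneg ha1' hw_top))
    have h2 : ((w ^ a2) ^ e) ^ n' ≠ ∞ := ENNReal.pow_ne_top
      (ENNReal.rpow_ne_top_of_nonneg he0.le (ENNReal.rpow_ne_top_of_nonneg ha2' hw_top))
    have h3 : ((CO ^ e) ^ n') ^ (1 / 2 : ℝ) ≠ ∞ := ENNReal.rpow_ne_top_of_nonneg (by norm_num)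
      (ENNReal.pow_ne_top (ENNReal.rpow_ne_top_of_nonneg he0.le hCO))
    exact ENNReal.mul_ne_top h1 (ENNReal.mul_ne_top hCB (ENNReal.mul_ne_top
      (ENNReal.mul_ne_top h2 h3) (ENNReal.rpow_ne_top_of_nonneg (by norm_num) hw_top)))
  intro Ω _ μ _ T hT hDs N ξ0 ι J c g hc hsep hg Ji hJi r hr hrN hdet A hA
  have hr' : (0 : ℝ) < r := by exact_mod_cast hr
  have hr1 : (1 : ℝ) ≤ r := by exact_mod_cast hr
  have hrN' : (r : ℝ) ≤ N := by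
    refine le_trans ?_ hrN
    push_cast
    nlinarith
  have hN0 : 0 < N := by linarith
  set R : ℕ := r * r with hR
  have hR0 : 0 < R := by positivity
  have hR' : (0 : ℝ) < R := by exact_mod_cast hR0
  have hRr : (R : ℝ) = (r : ℝ) ^ 2 := by rw [hR]; push_cast; ring
  have hgi : ∀ i, ∀ j ∈ Ji i, g j ∈ Spec T (Cap d N ξ0 (c j)) := fun i j hj => hg j (hJi i hj)
  -- abbreviations
  set F : Fin (d + 1) → (Fin d → ℤ) → Ω → ℂ := fun i κ => piece g r c (Ji i) κ with hF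
  set S : Fin (d + 1) → Finset (Fin d → ℤ) := fun i => cells r c (Ji i) with hS
  have hFspec : ∀ i κ, F i κ ∈ Spec T (Cap d (r / 2) ξ0 (corner r κ)) := fun i κ =>
    piece_spec (hgi i) hr hrN' κ
  have hFm : ∀ i κ, Measurable (F i κ) := fun i κ => Spec_meas (hFspec i κ)
  have hcorner : ∀ i, ∀ κ ∈ S i, ‖corner r κ‖ ≤ 1 := by
    intro i κ hκ
    simp only [hS, cells, Finset.mem_image] at hκ
    obtain ⟨j, hj, rfl⟩ := hκ
    rw [pi_norm_le_iff_of_nonneg zero_le_one]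
    intro l
    have := corner_mem hr (hc j (hJi i hj)) l
    rw [Real.norm_eq_abs, abs_of_nonneg this.1]
    exact this.2
  have hum : ∀ i κ ω, Measurable (fun x => ‖F i κ (T x ω)‖ₑ) := fun i κ ω =>
    (Spec_orbit_cont (hFspec i κ) ω).measurable.enorm
  -- step 1: `L^2` to `L^q`
  have s1 : ∀ i κ ω, Av T (W (r : ℝ)) (fun ω => ‖F i κ ω‖ₑ ^ 2) ω ≤
      w ^ a1 * (Av T (W (r : ℝ)) (fun ω => ‖F i κ ω‖ₑ ^ q) ω) ^ (2 / q) := by
    intro i κ ω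
    have h := Av_rpow (T := T) (W_meas (r : ℝ)) (G := fun ω => ‖F i κ ω‖ₑ ^ 2) (a := q / 2)
      (by linarith) ω ((hum i κ ω).pow_const 2)
    rw [lintegral_W hr'] at h
    have e1 : ∀ ω, (‖F i κ ω‖ₑ ^ 2) ^ (q / 2) = ‖F i κ ω‖ₑ ^ q := by
      intro ω
      rw [← ENNReal.rpow_two, ← ENNReal.rpow_mul]
      congr 1; ring
    simp_rw [e1] at h
    have h2 := ENNReal.rpow_le_rpow h (by positivity : 0 ≤ 2 / q)
    rw [← ENNReal.rpow_mul, ENNReal.mul_rpow_of_nonneg _ _ (by positivity), ← ENNReal.rpow_mul] at h2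
    have e2 : q / 2 * (2 / q) = 1 := by field_simp
    have e3 : (q / 2 - 1) * (2 / q) = a1 := by rw [ha1]; field_simp
    rw [e2, ENNReal.rpow_one, e3] at h2
    exact h2
  -- step 2: interpolation
  have s2 : ∀ i κ ω, (Av T (W (R : ℝ)) (fun ω => ‖F i κ ω‖ₑ ^ q) ω) ^ (2 / q) ≤
      w ^ a2 * ((Av T (W (R : ℝ)) (fun ω => ‖F i κ ω‖ₑ ^ 2) ω) ^ (1 / 2 : ℝ) *
        ((Av T (W (R : ℝ)) (fun ω => ‖F i κ ω‖ₑ ^ p) ω) ^ (2 / p)) ^ (1 / 2 : ℝ)) := by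
    intro i κ ω
    have h := Av_interp (T := T) (W_meas (R : ℝ)) (u := fun ω => ‖F i κ ω‖ₑ) hp0 hq0 hint ω
      (hum i κ ω)
    rw [lintegral_W hR'] at h
    have h2 := ENNReal.rpow_le_rpow h (by positivity : 0 ≤ 2 / q)
    rw [ENNReal.mul_rpow_of_nonneg _ _ (by positivity), ENNReal.mul_rpow_of_nonneg _ _ (by positivity),
      ← ENNReal.rpow_mul, ← ENNReal.rpow_mul, ← ENNReal.rpow_mul] at h2
    have e2 : q / 4 * (2 / q) = 1 / 2 := by field_simp; norm_num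
    have e3 : q / (2 * p) * (2 / q) = 1 / p := by field_simp
    rw [e2, e3] at h2
    simp only [ENNReal.rpow_two] at h2
    have e4 : ((Av T (W (R : ℝ)) (fun ω => ‖F i κ ω‖ₑ ^ p) ω) ^ (2 / p)) ^ (1 / 2 : ℝ) =
        (Av T (W (R : ℝ)) (fun ω => ‖F i κ ω‖ₑ ^ p) ω) ^ (1 / p) := by
      rw [← ENNReal.rpow_mul]; congr 1; field_simp
    rw [e4]
    calc _ ≤ _ := h2
      _ = _ := by ring
  -- the two sums
  set X : Fin (d + 1) → Ω → ℝ≥0∞ := fun i ω =>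
    ∑ κ ∈ S i, Av T (W (R : ℝ)) (fun ω => ‖F i κ ω‖ₑ ^ 2) ω with hX
  set Y : Fin (d + 1) → Ω → ℝ≥0∞ := fun i ω =>
    ∑ κ ∈ S i, (Av T (W (R : ℝ)) (fun ω => ‖F i κ ω‖ₑ ^ p) ω) ^ (2 / p) with hY
  have hXm : ∀ i, Measurable (X i) := by
    intro i
    apply Finset.measurable_fun_sum
    intro κ _
    exact Av_meas hT (W_meas _) ((hFm i κ).enorm.pow_const 2)
  have hYm : ∀ i, Measurable (Y i) := by
    intro i
    apply Finset.measurable_fun_sum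
    intro κ _
    exact (Av_meas hT (W_meas _) ((hFm i κ).enorm.pow_const p)).pow_const _
  have s3 : ∀ i ω, ∑ κ ∈ S i, (Av T (W (R : ℝ)) (fun ω => ‖F i κ ω‖ₑ ^ q) ω) ^ (2 / q) ≤
      w ^ a2 * ((X i ω) ^ (1 / 2 : ℝ) * (Y i ω) ^ (1 / 2 : ℝ)) := by
    intro i ω
    have hcs := ENNReal.inner_le_Lp_mul_Lq (S i)
      (fun κ => (Av T (W (R : ℝ)) (fun ω => ‖F i κ ω‖ₑ ^ 2) ω) ^ (1 / 2 : ℝ))
      (fun κ => ((Av T (W (R : ℝ)) (fun ω => ‖F i κ ω‖ₑ ^ p) ω) ^ (2 / p)) ^ (1 / 2 : ℝ))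
      (Real.HolderConjugate.two_two)
    have e1 : ∀ x : ℝ≥0∞, (x ^ (1 / 2 : ℝ)) ^ (2 : ℝ) = x := by
      intro x
      rw [← ENNReal.rpow_mul]; norm_num
    simp_rw [e1] at hcs
    calc ∑ κ ∈ S i, (Av T (W (R : ℝ)) (fun ω => ‖F i κ ω‖ₑ ^ q) ω) ^ (2 / q)
        ≤ ∑ κ ∈ S i, w ^ a2 * ((Av T (W (R : ℝ)) (fun ω => ‖F i κ ω‖ₑ ^ 2) ω) ^ (1 / 2 : ℝ) *
          ((Av T (W (R : ℝ)) (fun ω => ‖F i κ ω‖ₑ ^ p) ω) ^ (2 / p)) ^ (1 / 2 : ℝ)) :=
          Finset.sum_le_sum fun κ _ => s2 i κ ω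
      _ = w ^ a2 * ∑ κ ∈ S i, ((Av T (W (R : ℝ)) (fun ω => ‖F i κ ω‖ₑ ^ 2) ω) ^ (1 / 2 : ℝ) *
          ((Av T (W (R : ℝ)) (fun ω => ‖F i κ ω‖ₑ ^ p) ω) ^ (2 / p)) ^ (1 / 2 : ℝ)) := by
          rw [Finset.mul_sum]
      _ ≤ _ := by
          gcongr
  -- factor extraction
  have prodC : ∀ (C0 : ℝ≥0∞) (G : Fin (d + 1) → ℝ≥0∞), ∏ i, (C0 * G i) ^ e =
      (C0 ^ e) ^ n' * ∏ i, (G i) ^ e := by
    intro C0 G
    simp_rw [ENNReal.mul_rpow_of_nonneg _ _ he0.le]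
    rw [Finset.prod_mul_distrib, Finset.prod_const, Finset.card_univ, Fintype.card_fin]
  -- step A
  have t1 : Mq μ T p c g Ji r ≤ ((w ^ a1) ^ e) ^ n' *
      ∫⁻ ω, ∏ i, (∑ κ ∈ S i, (Av T (W (r : ℝ)) (fun ω => ‖F i κ ω‖ₑ ^ q) ω) ^ (2 / q)) ^ e ∂μ := by
    unfold Mq
    rw [← lintegral_const_mul]
    · apply lintegral_mono
      intro ω
      show ∏ i, (∑ κ ∈ S i, Av T (W (r : ℝ)) (fun ω => ‖F i κ ω‖ₑ ^ 2) ω) ^ e ≤
        ((w ^ a1) ^ e) ^ n' *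
        ∏ i, (∑ κ ∈ S i, (Av T (W (r : ℝ)) (fun ω => ‖F i κ ω‖ₑ ^ q) ω) ^ (2 / q)) ^ e
      rw [← prodC]
      apply Finset.prod_le_prod'
      intro i _
      apply ENNReal.rpow_le_rpow _ he0.le
      rw [Finset.mul_sum]
      exact Finset.sum_le_sum fun κ _ => s1 i κ ω
    · apply Finset.measurable_prod
      intro i _
      apply Measurable.pow_const
      apply Finset.measurable_fun_sum
      intro κ _
      exact (Av_meas hT (W_meas _) ((hFm i κ).enorm.pow_const q)).pow_const _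
  have t2 := hBI Ω μ T hT ξ0 (Fin d → ℤ) (r : ℝ) hr1 S (fun _ κ => corner r κ) hcorner hdet F
    (fun i κ _ => hFspec i κ)
  rw [← hRr] at t2
  have t3 : ∫⁻ ω, ∏ i, (∑ κ ∈ S i, (Av T (W (R : ℝ)) (fun ω => ‖F i κ ω‖ₑ ^ q) ω) ^ (2 / q)) ^ e ∂μ ≤
      ((w ^ a2) ^ e) ^ n' * ((∫⁻ ω, ∏ i, (X i ω) ^ e ∂μ) ^ (1 / 2 : ℝ) *
        (∫⁻ ω, ∏ i, (Y i ω) ^ e ∂μ) ^ (1 / 2 : ℝ)) := by
    have hXp : Measurable (fun ω => ∏ i, (X i ω) ^ e) :=
      Finset.measurable_prod _ fun i _ => (hXm i).pow_const _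
    have hYp : Measurable (fun ω => ∏ i, (Y i ω) ^ e) :=
      Finset.measurable_prod _ fun i _ => (hYm i).pow_const _
    calc ∫⁻ ω, ∏ i, (∑ κ ∈ S i, (Av T (W (R : ℝ)) (fun ω => ‖F i κ ω‖ₑ ^ q) ω) ^ (2 / q)) ^ e ∂μ
        ≤ ∫⁻ ω, ((w ^ a2) ^ e) ^ n' *
            ((∏ i, (X i ω) ^ e) ^ (1 / 2 : ℝ) * (∏ i, (Y i ω) ^ e) ^ (1 / 2 : ℝ)) ∂μ := by
          apply lintegral_mono
          intro ω
          show ∏ i, (∑ κ ∈ S i, (Av T (W (R : ℝ)) (fun ω => ‖F i κ ω‖ₑ ^ q) ω) ^ (2 / q)) ^ e ≤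
            ((w ^ a2) ^ e) ^ n' *
              ((∏ i, (X i ω) ^ e) ^ (1 / 2 : ℝ) * (∏ i, (Y i ω) ^ e) ^ (1 / 2 : ℝ))
          rw [← ENNReal.prod_rpow_of_nonneg (by norm_num : (0 : ℝ) ≤ 1 / 2),
            ← ENNReal.prod_rpow_of_nonneg (by norm_num : (0 : ℝ) ≤ 1 / 2),
            ← Finset.prod_mul_distrib]
          have e5 : ∀ i, ((X i ω) ^ e) ^ (1 / 2 : ℝ) * ((Y i ω) ^ e) ^ (1 / 2 : ℝ) =
              ((X i ω) ^ (1 / 2 : ℝ) * (Y i ω) ^ (1 / 2 : ℝ)) ^ e := by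
            intro i
            rw [ENNReal.mul_rpow_of_nonneg _ _ he0.le, ← ENNReal.rpow_mul, ← ENNReal.rpow_mul,
              ← ENNReal.rpow_mul, ← ENNReal.rpow_mul, mul_comm e]
          simp_rw [e5]
          rw [← prodC]
          apply Finset.prod_le_prod'
          intro i _
          exact ENNReal.rpow_le_rpow (s3 i ω) he0.le
      _ = ((w ^ a2) ^ e) ^ n' * ∫⁻ ω,
            ((∏ i, (X i ω) ^ e) ^ (1 / 2 : ℝ) * (∏ i, (Y i ω) ^ e) ^ (1 / 2 : ℝ)) ∂μ := by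
          rw [lintegral_const_mul]
          exact (hXp.pow_const _).mul (hYp.pow_const _)
      _ ≤ _ := by
          gcongr
          exact ENNReal.lintegral_mul_norm_pow_le hXp.aemeasurable hYp.aemeasurable
            (by norm_num) (by norm_num) (by norm_num)
  have t4 : ∫⁻ ω, ∏ i, (X i ω) ^ e ∂μ ≤ (CO ^ e) ^ n' * Mq μ T p c g Ji R := by
    unfold Mq
    rw [← lintegral_const_mul]
    · apply lintegral_mono
      intro ω
      show ∏ i, (X i ω) ^ e ≤ (CO ^ e) ^ n' * ∏ i, (∑ κ ∈ cells R c (Ji i),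
        Av T (W (R : ℝ)) (fun ω => ‖piece g R c (Ji i) κ ω‖ₑ ^ 2) ω) ^ e
      rw [← prodC]
      apply Finset.prod_le_prod'
      intro i _
      apply ENNReal.rpow_le_rpow _ he0.le
      exact hOr Ω μ T hT N ξ0 ι (Ji i) c g (hgi i) r r hr hr hrN ω
    · apply Finset.measurable_prod
      intro i _
      apply Measurable.pow_const
      apply Finset.measurable_fun_sum
      intro κ _
      exact Av_meas hT (W_meas _) ((Spec_meas (piece_spec (hgi i) hR0 hrN κ)).enorm.pow_const 2)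
  have t5 : ∫⁻ ω, ∏ i, (Y i ω) ^ e ∂μ ≤ w * (A ^ 2 * ∑ j ∈ J, nrm μ p (g j) ^ 2) ^ (p / 2) := by
    refine (Lp_factor hp hT S F (fun i κ _ => hFm i κ) hR').trans ?_
    gcongr
    have h1 : ∀ i, ∑ κ ∈ S i, nrm μ p (F i κ) ^ 2 ≤ A ^ 2 * ∑ j ∈ J, nrm μ p (g j) ^ 2 := by
      intro i
      calc ∑ κ ∈ S i, nrm μ p (F i κ) ^ 2
          ≤ ∑ κ ∈ S i, A ^ 2 * ∑ j ∈ mem r c (Ji i) κ, nrm μ p (g j) ^ 2 := by
            apply Finset.sum_le_sum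
            intro κ _
            exact piece_dec hT hDs hN0
              (fun j hj k hk hjk => hsep j (hJi i hj) k (hJi i hk) hjk) (hgi i) hr hA κ
        _ = A ^ 2 * ∑ j ∈ Ji i, nrm μ p (g j) ^ 2 := by
            rw [← Finset.mul_sum]
            congr 1
            exact sum_cells r c (Ji i) (fun j => nrm μ p (g j) ^ 2)
        _ ≤ _ := by
            gcongr
            exact hJi i
    calc ∏ i, (∑ κ ∈ S i, nrm μ p (F i κ) ^ 2) ^ (p / (2 * ((d : ℝ) + 1)))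
        ≤ ∏ _i : Fin (d + 1), (A ^ 2 * ∑ j ∈ J, nrm μ p (g j) ^ 2) ^ (p / (2 * ((d : ℝ) + 1))) := by
          apply Finset.prod_le_prod'
          intro i _
          exact ENNReal.rpow_le_rpow (h1 i) he0.le
      _ = _ := by
          rw [Finset.prod_const, Finset.card_univ, Fintype.card_fin, ← ENNReal.rpow_natCast,
            ← ENNReal.rpow_mul]
          congr 1
          push_cast
          field_simp
  -- conclusion
  calc Mq μ T p c g Ji r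
      ≤ ((w ^ a1) ^ e) ^ n' * (CB * ENNReal.ofReal ((r : ℝ) ^ ε) *
        (((w ^ a2) ^ e) ^ n' * (((CO ^ e) ^ n' * Mq μ T p c g Ji R) ^ (1 / 2 : ℝ) *
        (w * (A ^ 2 * ∑ j ∈ J, nrm μ p (g j) ^ 2) ^ (p / 2)) ^ (1 / 2 : ℝ)))) := by
        refine t1.trans ?_
        gcongr
        refine t2.trans ?_
        gcongr
        refine t3.trans ?_
        gcongr
    _ = _ := by
        rw [ENNReal.mul_rpow_of_nonneg _ _ (by norm_num : (0 : ℝ) ≤ 1 / 2),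
          ENNReal.mul_rpow_of_nonneg _ _ (by norm_num : (0 : ℝ) ≤ 1 / 2),
          ← ENNReal.rpow_mul (A ^ 2 * _) (p / 2) (1 / 2)]
        have e6 : p / 2 * (1 / 2) = p / 4 := by ring
        rw [e6]
        ring

end BDDK
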