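import Mathlib
import Pool.Agent.BDD.Cells
import Pool.Agent.BDD.StepB

/-!
# BDD/CapSum (OPEN MODULE): three small lemmas

`cap_add`: `ξ = ξ0 + (c + z/N, |c + z/N|² + s/N²)` with `N = K/2`, `u = z/N`;
with `M1 = 7 d + 5`: `c i + z i/N + ζ i.succ = c i + z' i/(K/M1)` with
`z' i = (K/M1) (z i/N + ζ i.succ)`, `|z' i| ≤ (2 + 1/K)/M1 ≤ 3/M1 ≤ 1`; and
`|c + u|² + s/N² + ζ 0 = |c + u + ζ'|² - 2 (c+u)·ζ' - |ζ'|² + 4 s/K² + ζ 0`, where `|c i + u i| ≤ 1 + 2/K ≤ 3`,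
so the error is at most `(6 d + d + 4 + 1)/K² ≤ M1²/K²` since `|ζ i| ≤ 1/K² ≤ 1`. `M1 = 7 d + 5` is enough.

`piece_dec'`: as `piece_dec` (BDD/StepB), but with the constant for the coarser scale `r1 ≤ r`:
`mem r c J κ` is contained in `corner r κ + [0,1/r]^d ⊂ corner r κ + [0,1/r1]^d`.

`broad_Mq`: let `J' = mem K c J α`; `piece g K c J α = ∑_{κ ∈ cells r c J'} piece g r c J' κ` (`sum_piece`,
`piece g K c J α ω = ∑ j ∈ J', g j ω` by definition), the number of cells is at most `(r+1)^d` (values of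
`⌊r x⌋`, `x ∈ [0,1]`, in `{0..r}^d`), so `|piece g K c J α|² ≤ (r+1)^d ∑ |piece g r c J' κ|²` (Cauchy-Schwarz), and
`W R x ≤ r^(d+1) W r x` for `1 ≤ R ≤ r` (`R^-n (1+|x|/R)^-(n+1) ≤ (1+|x|/r)^-(n+1)`, `n = d+1`).
-/

open MeasureTheory Finset
open scoped ENNReal

namespace BDDK

theorem cap_add {d : ℕ} {K : ℝ} (hK : 1 ≤ K) (ξ0 : Fin (d + 1) → ℝ) (c : Fin d → ℝ)
    (hc : ∀ i, 0 ≤ c i ∧ c i ≤ 1) {ξ ζ : Fin (d + 1) → ℝ} (hξ : ξ ∈ Cap d (K / 2) ξ0 c)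
    (hζ : ∀ i, |ζ i| ≤ 1 / K ^ 2) : ξ + ζ ∈ Cap d (K / (7 * d + 5)) ξ0 c := by
  obtain ⟨z, s, hz, hs, h1, h0⟩ := hξ
  have hK0 : 0 < K := by linarith
  have hd0 : (0 : ℝ) ≤ d := Nat.cast_nonneg d
  have hM : (0 : ℝ) < 7 * d + 5 := by positivity
  set M : ℝ := 7 * d + 5 with hMdef
  have hinv : 1 / K ≤ 1 := by rw [div_le_one hK0]; exact hK
  have hinv0 : 0 < 1 / K := by positivity
  have hz' : ∀ i, |z i| ≤ 1 := fun i => (norm_le_pi_norm z i).trans hz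
  -- the new parameters
  set u : Fin d → ℝ := fun i => c i + z i / (K / 2) with hu
  have hu3 : ∀ i, |u i| ≤ 3 := by
    intro i
    have e : z i / (K / 2) = 2 * (z i * (1 / K)) := by field_simp
    have h2 : |z i * (1 / K)| ≤ 1 := by
      rw [abs_mul, abs_of_pos hinv0]
      calc |z i| * (1 / K) ≤ 1 * 1 := by gcongr; exact hz' i
        _ = 1 := one_mul 1
    have h3 := abs_le.1 h2
    rw [hu]
    simp only
    rw [e, abs_le]
    constructor <;> linarith [(hc i).1, (hc i).2]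
  have hq : ∀ i, |(u i) ^ 2 - (u i + ζ i.succ) ^ 2| ≤ 7 / K ^ 2 := by
    intro i
    have e : (u i) ^ 2 - (u i + ζ i.succ) ^ 2 = -(ζ i.succ * (2 * u i + ζ i.succ)) := by ring
    rw [e, abs_neg, abs_mul]
    have h2 : |ζ i.succ| ≤ 1 := by
      refine (hζ _).trans ?_
      rw [div_le_one (by positivity)]
      nlinarith
    have h3 : |2 * u i + ζ i.succ| ≤ 7 := by
      have h4 := abs_le.1 (hu3 i)
      have h5 := abs_le.1 h2
      rw [abs_le]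
      constructor <;> linarith
    calc |ζ i.succ| * |2 * u i + ζ i.succ| ≤ 1 / K ^ 2 * 7 := by
          gcongr
          exact hζ _
      _ = 7 / K ^ 2 := by ring
  refine ⟨fun i => K / M * (z i / (K / 2) + ζ i.succ),
    (K / M) ^ 2 * (ζ 0 + (∑ i, ((u i) ^ 2 - (u i + ζ i.succ) ^ 2)) + s / (K / 2) ^ 2), ?_, ?_, ?_, ?_⟩
  · rw [pi_norm_le_iff_of_nonneg zero_le_one]
    intro i
    rw [Real.norm_eq_abs, abs_mul, abs_of_pos (by positivity : 0 < K / M)]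
    have h2 : |z i / (K / 2) + ζ i.succ| ≤ 3 / K := by
      refine (abs_add_le _ _).trans ?_
      have h3 : |z i / (K / 2)| ≤ 2 / K := by
        rw [abs_div, abs_of_pos (by positivity : 0 < K / 2)]
        calc |z i| / (K / 2) ≤ 1 / (K / 2) := by gcongr; exact hz' i
          _ = 2 / K := by field_simp
      have h4 : |ζ i.succ| ≤ 1 / K := by
        refine (hζ _).trans ?_
        rw [div_le_div_iff₀ (by positivity) hK0]
        nlinarith
      calc |z i / (K / 2)| + |ζ i.succ| ≤ 2 / K + 1 / K := add_le_add h3 h4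
        _ = 3 / K := by ring
    calc K / M * |z i / (K / 2) + ζ i.succ| ≤ K / M * (3 / K) := by gcongr
      _ = 3 / M := by field_simp
      _ ≤ 1 := by
          rw [div_le_one hM, hMdef]
          linarith
  · rw [abs_mul, abs_of_pos (by positivity : 0 < (K / M) ^ 2)]
    have h2 : |ζ 0 + (∑ i, ((u i) ^ 2 - (u i + ζ i.succ) ^ 2)) + s / (K / 2) ^ 2| ≤ M / K ^ 2 := by
      have h3 : |∑ i, ((u i) ^ 2 - (u i + ζ i.succ) ^ 2)| ≤ d * (7 / K ^ 2) := by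
        refine (Finset.abs_sum_le_sum_abs _ _).trans ?_
        calc ∑ i, |(u i) ^ 2 - (u i + ζ i.succ) ^ 2| ≤ ∑ _i : Fin d, 7 / K ^ 2 :=
              Finset.sum_le_sum fun i _ => hq i
          _ = d * (7 / K ^ 2) := by simp
      have h4 : |s / (K / 2) ^ 2| ≤ 4 / K ^ 2 := by
        rw [abs_div, abs_of_pos (by positivity : 0 < (K / 2) ^ 2)]
        calc |s| / (K / 2) ^ 2 ≤ 1 / (K / 2) ^ 2 := by gcongr
          _ = 4 / K ^ 2 := by field_simp; norm_num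
      calc |ζ 0 + (∑ i, ((u i) ^ 2 - (u i + ζ i.succ) ^ 2)) + s / (K / 2) ^ 2|
          ≤ |ζ 0| + |∑ i, ((u i) ^ 2 - (u i + ζ i.succ) ^ 2)| + |s / (K / 2) ^ 2| :=
            abs_add_three _ _ _
        _ ≤ 1 / K ^ 2 + d * (7 / K ^ 2) + 4 / K ^ 2 := by
            gcongr
            exact hζ 0
        _ = M / K ^ 2 := by rw [hMdef]; ring
    calc (K / M) ^ 2 * |ζ 0 + (∑ i, ((u i) ^ 2 - (u i + ζ i.succ) ^ 2)) + s / (K / 2) ^ 2|
        ≤ (K / M) ^ 2 * (M / K ^ 2) := by gcongr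
      _ = 1 / M := by field_simp
      _ ≤ 1 := by
          rw [div_le_one hM, hMdef]
          linarith
  · intro i
    rw [Pi.add_apply, h1 i]
    field_simp
    ring
  · rw [Pi.add_apply, h0]
    have e1 : ∀ i : Fin d, (c i + K / M * (z i / (K / 2) + ζ i.succ) / (K / M)) ^ 2 =
        (u i + ζ i.succ) ^ 2 := by
      intro i
      congr 1
      rw [hu]
      field_simp
      ring
    have e2 : (K / M) ^ 2 * (ζ 0 + (∑ i, ((u i) ^ 2 - (u i + ζ i.succ) ^ 2)) + s / (K / 2) ^ 2) /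
        (K / M) ^ 2 = ζ 0 + (∑ i, ((u i) ^ 2 - (u i + ζ i.succ) ^ 2)) + s / (K / 2) ^ 2 := by
      rw [mul_div_assoc, mul_div_cancel₀]
      positivity
    rw [e2, Finset.sum_congr rfl fun i _ => e1 i, Finset.sum_sub_distrib]
    ring

theorem piece_dec' {d : ℕ} {Ω : Type} [MeasurableSpace Ω] {μ : Measure Ω} [IsFiniteMeasure μ]
    {T : (Fin (d + 1) → ℝ) → Ω → Ω} (hT : Flow μ T) (hDs : DenseSpec μ T) {p N : ℝ} (hN : 0 < N)
    {ξ0 : Fin (d + 1) → ℝ} {ι : Type} {J : Finset ι} {c : ι → Fin d → ℝ} {g : ι → Ω → ℂ}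
    (hsep : ∀ j ∈ J, ∀ k ∈ J, j ≠ k → ∃ i, 1 / N ≤ |c j i - c k i|)
    (hg : ∀ j ∈ J, g j ∈ Spec T (Cap d N ξ0 (c j))) {r r1 : ℕ} (hr1 : 0 < r1) (hr : r1 ≤ r)
    {A : ℝ≥0∞} (hA : DecB d p (N / r1) A) (κ : Fin d → ℤ) :
    nrm μ p (piece g r c J κ) ^ 2 ≤ A ^ 2 * ∑ j ∈ mem r c J κ, nrm μ p (g j) ^ 2 := by
  have hr0 : 0 < r := lt_of_lt_of_le hr1 hr
  have hr' : (0 : ℝ) < r := by exact_mod_cast hr0
  have hr1' : (0 : ℝ) < r1 := by exact_mod_cast hr1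
  have hle : (1 : ℝ) / r ≤ 1 / r1 := by
    apply one_div_le_one_div_of_le hr1'
    exact_mod_cast hr
  have h := DecB_resc (ρ := 1 / r1) (by positivity) hN (by rw [mul_one_div]; exact hA) hT hDs ξ0
    (corner r κ) (mem r c J κ) c g
    (fun j hj i => ⟨(mem_corner hr0 hj i).1, (mem_corner hr0 hj i).2.trans (by linarith)⟩)
    (fun j hj k hk hjk => hsep j (mem_subset r c J κ hj) k (mem_subset r c J κ hk) hjk)
    (fun j hj => hg j (mem_subset r c J κ hj))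
  calc nrm μ p (piece g r c J κ) ^ 2
      ≤ (A * (∑ j ∈ mem r c J κ, nrm μ p (g j) ^ 2) ^ (1 / 2 : ℝ)) ^ 2 := by
        gcongr
        exact h
    _ = _ := by
        rw [mul_pow]
        congr 1
        rw [← ENNReal.rpow_two, ← ENNReal.rpow_mul]
        norm_num

private theorem CapSum_W_le {n : ℕ} {R r : ℝ} (hR : 1 ≤ R) (hRr : R ≤ r) (x : Fin n → ℝ) :
    W R x ≤ ENNReal.ofReal (r ^ n) * W r x := by
  have hr : 0 < r := by linarith
  have hR0 : 0 < R := by linarith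
  unfold W
  rw [← ENNReal.ofReal_mul (by positivity)]
  apply ENNReal.ofReal_le_ofReal
  have e : r ^ n * ((r⁻¹) ^ n * ((1 + ‖x‖ / r)⁻¹) ^ (n + 1)) = 1 * ((1 + ‖x‖ / r)⁻¹) ^ (n + 1) := by
    rw [← mul_assoc, ← mul_pow, mul_inv_cancel₀ hr.ne', one_pow]
  rw [e]
  have h1 : (R⁻¹) ^ n ≤ 1 := pow_le_one₀ (by positivity) (inv_le_one_of_one_le₀ hR)
  have h2 : ((1 + ‖x‖ / R)⁻¹) ^ (n + 1) ≤ ((1 + ‖x‖ / r)⁻¹) ^ (n + 1) := by
    gcongr
  exact mul_le_mul h1 h2 (by positivity) zero_le_one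

private theorem CapSum_card {d : ℕ} {ι : Type} {J : Finset ι} {c : ι → Fin d → ℝ}
    (hc : ∀ j ∈ J, ∀ i, 0 ≤ c j i ∧ c j i ≤ 1) (r : ℕ) :
    (cells r c J).card ≤ (r + 1) ^ d := by
  have hsub : cells r c J ⊆ Fintype.piFinset (fun _ : Fin d => Finset.Icc (0 : ℤ) r) := by
    intro κ hκ
    unfold cells at hκ
    obtain ⟨j, hj, rfl⟩ := Finset.mem_image.1 hκ
    rw [Fintype.mem_piFinset]
    intro i
    rw [Finset.mem_Icc]
    unfold cell
    have h1 := hc j hj i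
    have hr0 : (0 : ℝ) ≤ r := Nat.cast_nonneg r
    constructor
    · exact Int.floor_nonneg.mpr (mul_nonneg hr0 h1.1)
    · have h2 : (r : ℝ) * c j i ≤ r := by nlinarith [h1.2]
      have h3 := Int.floor_le ((r : ℝ) * c j i)
      have h4 : ((⌊(r : ℝ) * c j i⌋ : ℤ) : ℝ) ≤ ((r : ℤ) : ℝ) := by
        push_cast
        linarith
      exact_mod_cast h4
  refine (Finset.card_le_card hsub).trans ?_
  rw [Fintype.card_piFinset]
  simp

theorem broad_Mq {d : ℕ} {Ω : Type} [MeasurableSpace Ω] {T : (Fin (d + 1) → ℝ) → Ω → Ω}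
    {ι : Type} {J : Finset ι} {c : ι → Fin d → ℝ} {g : ι → Ω → ℂ}
    (hc : ∀ j ∈ J, ∀ i, 0 ≤ c j i ∧ c j i ≤ 1) {N : ℝ} {ξ0 : Fin (d + 1) → ℝ}
    (hg : ∀ j ∈ J, g j ∈ Spec T (Cap d N ξ0 (c j))) {K r : ℕ} {R : ℝ} (hR : 1 ≤ R)
    (hRr : R ≤ r) (hr : 0 < r) (α : Fin d → ℤ) (ω : Ω) :
    Av T (W R) (fun ω => ‖piece g K c J α ω‖ₑ ^ 2) ω ≤
      ENNReal.ofReal (((r : ℝ) + 1) ^ d * (r : ℝ) ^ (d + 1)) *
        ∑ κ ∈ cells r c (mem K c J α),
          Av T (W (r : ℝ)) (fun ω => ‖piece g r c (mem K c J α) κ ω‖ₑ ^ 2) ω := by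
  have hJ' : mem K c J α ⊆ J := mem_subset K c J α
  set J' : Finset ι := mem K c J α with hJ'def
  have hcard := CapSum_card (fun j hj => hc j (hJ' hj)) r
  have hcardE : ((cells r c J').card : ℝ≥0∞) ≤ ENNReal.ofReal (((r : ℝ) + 1) ^ d) := by
    have h1 : ((cells r c J').card : ℝ) ≤ ((r : ℝ) + 1) ^ d := by
      have := hcard
      exact_mod_cast this
    calc ((cells r c J').card : ℝ≥0∞) = ENNReal.ofReal ((cells r c J').card : ℝ) := by
          rw [ENNReal.ofReal_natCast]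
      _ ≤ _ := ENNReal.ofReal_le_ofReal h1
  -- pointwise Cauchy-Schwarz
  have hpt : ∀ ω, ‖piece g K c J α ω‖ₑ ^ 2 ≤ ENNReal.ofReal (((r : ℝ) + 1) ^ d) *
      ∑ κ ∈ cells r c J', ‖piece g r c J' κ ω‖ₑ ^ 2 := by
    intro ω
    have e : piece g K c J α ω = ∑ κ ∈ cells r c J', piece g r c J' κ ω := by
      rw [sum_piece]
      rfl
    have h1 : ‖piece g K c J α ω‖ₑ ≤ ∑ κ ∈ cells r c J', ‖piece g r c J' κ ω‖ₑ := by
      rw [e]
      exact enorm_sum_le _ _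
    have h2 := ENNReal.rpow_sum_le_const_mul_sum_rpow (cells r c J')
      (fun κ => ‖piece g r c J' κ ω‖ₑ) (p := 2) (by norm_num)
    have e1 : ((2 : ℝ) - 1) = 1 := by norm_num
    rw [e1, ENNReal.rpow_one] at h2
    simp only [ENNReal.rpow_two] at h2
    calc ‖piece g K c J α ω‖ₑ ^ 2 ≤ (∑ κ ∈ cells r c J', ‖piece g r c J' κ ω‖ₑ) ^ 2 := by
          gcongr
      _ ≤ _ := h2
      _ ≤ _ := by gcongr
  have hmeas : ∀ κ, Measurable (fun y => W (r : ℝ) y * ‖piece g r c J' κ (T y ω)‖ₑ ^ 2) := by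
    intro κ
    refine (W_meas (r : ℝ)).mul (Measurable.pow_const ?_ 2)
    apply Measurable.enorm
    have : Continuous (fun y => piece g r c J' κ (T y ω)) := by
      unfold piece
      refine continuous_finsetSum _ fun j hj => ?_
      exact Spec_orbit_cont (hg j (hJ' (mem_subset _ _ _ _ hj))) ω
    exact this.measurable
  have hr1 : (0 : ℝ) < r := by exact_mod_cast hr
  unfold Av
  calc ∫⁻ y, W R y * ‖piece g K c J α (T y ω)‖ₑ ^ 2
      ≤ ∫⁻ y, ENNReal.ofReal (((r : ℝ) + 1) ^ d * (r : ℝ) ^ (d + 1)) *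
          ∑ κ ∈ cells r c J', W (r : ℝ) y * ‖piece g r c J' κ (T y ω)‖ₑ ^ 2 := by
        apply lintegral_mono
        intro y
        show W R y * ‖piece g K c J α (T y ω)‖ₑ ^ 2 ≤
          ENNReal.ofReal (((r : ℝ) + 1) ^ d * (r : ℝ) ^ (d + 1)) *
          ∑ κ ∈ cells r c J', W (r : ℝ) y * ‖piece g r c J' κ (T y ω)‖ₑ ^ 2
        rw [ENNReal.ofReal_mul (by positivity), ← Finset.mul_sum]
        calc W R y * ‖piece g K c J α (T y ω)‖ₑ ^ 2
            ≤ (ENNReal.ofReal ((r : ℝ) ^ (d + 1)) * W (r : ℝ) y) *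
              (ENNReal.ofReal (((r : ℝ) + 1) ^ d) *
                ∑ κ ∈ cells r c J', ‖piece g r c J' κ (T y ω)‖ₑ ^ 2) :=
              mul_le_mul' (CapSum_W_le hR hRr y) (hpt (T y ω))
          _ = _ := by ring
    _ = ENNReal.ofReal (((r : ℝ) + 1) ^ d * (r : ℝ) ^ (d + 1)) *
          ∫⁻ y, ∑ κ ∈ cells r c J', W (r : ℝ) y * ‖piece g r c J' κ (T y ω)‖ₑ ^ 2 := by
        rw [lintegral_const_mul]
        exact Finset.measurable_fun_sum _ fun κ _ => hmeas κ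
    _ = _ := by
        rw [lintegral_finsetSum _ fun κ _ => hmeas κ]

end BDDK
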