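import Mathlib
import Pool.Agent.BDD.Norms
import Pool.Agent.BDD.Resc

/-!
# BDD/Triv (OPEN MODULE): trivial bound and comparison of scales

COUNTING: if `c j ∈ [0,1]^d` (`j ∈ J`) are `1/N`-separated in the sup norm (`N ≥ 1`), then
`j ↦ (⌊N (c j i)⌋)_i` is injective on `J` (equal floors give `|c j i - c k i| < 1/N` for all `i`) with
values in `{0..⌊N⌋}^d`, so `|J| ≤ (⌊N⌋ + 1)^d ≤ (2N)^d`.

PROOF of `DecB_triv`: `nrm (∑ g_j) ≤ ∑ nrm g_j ≤ |J|^(1/2) (∑ nrm g_j ^ 2)^(1/2)` (`nrm_sum_le`,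
measurability from `Spec_meas`; Cauchy-Schwarz: `ENNReal.inner_le_Lp_mul_Lq` with `2, 2` or
`ENNReal.sum ... `), and `|J|^(1/2) ≤ ((2N)^d)^(1/2)`.

PROOF of `DecB_coarse`: `ρ = N/N' ∈ [1/M, 1]`, `N' ρ = N`. Split `J` according to
`κ(j) = (⌊c j i / ρ⌋)_i`, values in `{0..⌊1/ρ⌋}^d ⊂ {0..⌊M⌋}^d`; each class is contained in the cube
`ρ κ + [0,ρ]^d` and `DecB_resc` (BDD/Resc) applies with constant `A`; by the triangle inequality
`nrm (∑ g_j) ≤ ∑_κ A (∑_{class} nrm²)^(1/2) ≤ (⌊M⌋+1)^d A (∑_J nrm²)^(1/2)`.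
-/

open MeasureTheory Finset
open scoped ENNReal

namespace BDDK

theorem DecB_mono {d : ℕ} {p N : ℝ} {A A' : ℝ≥0∞} (h : DecB d p N A) (hA : A ≤ A') :
    DecB d p N A' := by
  intro Ω _ μ _ T hT hD ξ0 ι J c g h1 h2 h3
  refine (h Ω μ T hT hD ξ0 ι J c g h1 h2 h3).trans ?_
  gcongr

/-- a separated family has at most `(⌊M⌋ + 1)^d` members -/
private theorem triv_card {d : ℕ} {N : ℝ} (hN : 1 ≤ N) {ι : Type} (J : Finset ι)
    (c : ι → Fin d → ℝ) (h1 : ∀ j ∈ J, ∀ i, 0 ≤ c j i ∧ c j i ≤ 1)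
    (h2 : ∀ j ∈ J, ∀ k ∈ J, j ≠ k → ∃ i, 1 / N ≤ |c j i - c k i|) :
    (J.card : ℝ) ≤ (2 * N) ^ d := by
  classical
  have hN0 : 0 < N := by linarith
  have hcard : J.card ≤ (Fintype.piFinset (fun _ : Fin d => range (⌊N⌋₊ + 1))).card := by
    apply Finset.card_le_card_of_injOn (fun j => fun i => ⌊N * c j i⌋₊)
    · intro j hj
      rw [Finset.mem_coe, Fintype.mem_piFinset]
      intro i
      rw [Finset.mem_range]
      have hj' := h1 j hj i
      have : ⌊N * c j i⌋₊ ≤ ⌊N⌋₊ := by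
        apply Nat.floor_le_floor
        nlinarith [hj'.1, hj'.2]
      change ⌊N * c j i⌋₊ < _
      omega
    · intro j hj k hk hjk
      by_contra hne
      obtain ⟨i, hi⟩ := h2 j hj k hk hne
      have hfl : ⌊N * c j i⌋₊ = ⌊N * c k i⌋₊ := congrFun hjk i
      have hj0 : 0 ≤ N * c j i := mul_nonneg hN0.le (h1 j hj i).1
      have hk0 : 0 ≤ N * c k i := mul_nonneg hN0.le (h1 k hk i).1
      have a1 := Nat.floor_le hj0
      have a2 := Nat.lt_floor_add_one (N * c j i)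
      have b1 := Nat.floor_le hk0
      have b2 := Nat.lt_floor_add_one (N * c k i)
      rw [hfl] at a1 a2
      have h3 : |N * c j i - N * c k i| < 1 := by
        rw [abs_lt]
        constructor <;> linarith
      rw [← mul_sub, abs_mul, abs_of_pos hN0] at h3
      have h4 : N * (1 / N) ≤ N * |c j i - c k i| := mul_le_mul_of_nonneg_left hi hN0.le
      rw [mul_one_div_cancel hN0.ne'] at h4
      linarith
  rw [Fintype.card_piFinset] at hcard
  simp only [card_range, prod_const, card_univ, Fintype.card_fin] at hcard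
  calc (J.card : ℝ) ≤ (((⌊N⌋₊ + 1) ^ d : ℕ) : ℝ) := by exact_mod_cast hcard
    _ = ((⌊N⌋₊ : ℝ) + 1) ^ d := by push_cast; ring
    _ ≤ (2 * N) ^ d := by
      have := Nat.floor_le hN0.le
      gcongr
      linarith

private theorem triv_sum {ι : Type} (J : Finset ι) (a : ι → ℝ≥0∞) :
    ∑ j ∈ J, a j ≤ (J.card : ℝ≥0∞) ^ (1 / 2 : ℝ) * (∑ j ∈ J, a j ^ 2) ^ (1 / 2 : ℝ) := by
  have h := ENNReal.inner_le_Lp_mul_Lq J (fun _ => 1) a (p := 2) (q := 2)
    Real.HolderConjugate.two_two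
  simpa using h

theorem DecB_triv (d : ℕ) {p : ℝ} (hp : 1 ≤ p) {N : ℝ} (hN : 1 ≤ N) :
    DecB d p N (ENNReal.ofReal (((2 * N) ^ d) ^ (1 / 2 : ℝ))) := by
  intro Ω _ μ _ T hT hD ξ0 ι J c g h1 h2 h3
  have hN0 : 0 < N := by linarith
  have hm : ∀ j ∈ J, Measurable (g j) := fun j hj => Spec_meas (h3 j hj)
  refine (nrm_sum_le μ hp J g hm).trans ((triv_sum J _).trans ?_)
  gcongr
  rw [← ENNReal.ofReal_rpow_of_nonneg (by positivity) (by norm_num)]
  gcongr
  rw [← ENNReal.ofReal_natCast]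
  exact ENNReal.ofReal_le_ofReal (triv_card hN J c h1 h2)

theorem DecB_coarse (d : ℕ) {p : ℝ} (hp : 1 ≤ p) {M : ℝ} (hM : 1 ≤ M) : ∃ C : ℝ≥0∞, C ≠ ∞ ∧
    ∀ (N N' : ℝ) (A : ℝ≥0∞), 1 ≤ N → N ≤ N' → N' ≤ M * N → DecB d p N A → DecB d p N' (C * A) := by
  classical
  refine ⟨((Fintype.piFinset (fun _ : Fin d => range (⌊M⌋₊ + 1))).card : ℝ≥0∞),
    ENNReal.natCast_ne_top _, ?_⟩
  intro N N' A hN hNN' hN'M h Ω _ μ _ T hT hD ξ0 ι J c g h1 h2 h3
  have hN0 : 0 < N := by linarith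
  have hN'0 : 0 < N' := by linarith
  set K := Fintype.piFinset (fun _ : Fin d => range (⌊M⌋₊ + 1)) with hK
  set ρ : ℝ := N / N' with hρ
  have hρ0 : 0 < ρ := by positivity
  have hNρ : N' * ρ = N := by
    rw [hρ]
    field_simp
  have hρM : 1 ≤ ρ * M := by
    rw [hρ, div_mul_eq_mul_div, le_div_iff₀ hN'0]
    linarith
  set κ : ι → Fin d → ℕ := fun j i => ⌊c j i / ρ⌋₊ with hκ
  have hκK : ∀ j ∈ J, κ j ∈ K := by
    intro j hj
    rw [hK, Fintype.mem_piFinset]
    intro i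
    rw [Finset.mem_range]
    have : ⌊c j i / ρ⌋₊ ≤ ⌊M⌋₊ := by
      apply Nat.floor_le_floor
      rw [div_le_iff₀ hρ0]
      have := (h1 j hj i).2
      linarith
    change ⌊c j i / ρ⌋₊ < _
    omega
  have hm : ∀ j ∈ J, Measurable (g j) := fun j hj => Spec_meas (h3 j hj)
  have hsplit : (fun ω => ∑ j ∈ J, g j ω) =
      fun ω => ∑ k ∈ K, (fun ω => ∑ j ∈ J.filter (fun j => κ j = k), g j ω) ω := by
    funext ω
    exact (Finset.sum_fiberwise_of_maps_to hκK _).symm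
  rw [hsplit]
  refine (nrm_sum_le μ hp K _ ?_).trans ?_
  · intro k _
    apply Finset.measurable_fun_sum
    intro j hj
    exact hm j (Finset.mem_filter.1 hj).1
  · have hk : ∀ k ∈ K, nrm μ p (fun ω => ∑ j ∈ J.filter (fun j => κ j = k), g j ω) ≤
        A * (∑ j ∈ J, nrm μ p (g j) ^ 2) ^ (1 / 2 : ℝ) := by
      intro k _
      have hr := DecB_resc (N := N') hρ0 hN'0 (by rw [hNρ]; exact h) hT hD ξ0
        (fun i => ρ * (k i : ℝ)) (J.filter (fun j => κ j = k)) c g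
        (by
          intro j hj i
          obtain ⟨hjJ, hjk⟩ := Finset.mem_filter.1 hj
          have hki : k i = ⌊c j i / ρ⌋₊ := by rw [← hjk]
          have h0 : 0 ≤ c j i / ρ := div_nonneg (h1 j hjJ i).1 hρ0.le
          have a1 := Nat.floor_le h0
          have a2 := Nat.lt_floor_add_one (c j i / ρ)
          rw [← hki] at a1 a2
          rw [le_div_iff₀ hρ0] at a1
          rw [div_lt_iff₀ hρ0] at a2
          constructor
          · linarith
          · linarith)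
        (by
          intro j hj k hk
          exact h2 j (Finset.mem_filter.1 hj).1 k (Finset.mem_filter.1 hk).1)
        (by
          intro j hj
          exact h3 j (Finset.mem_filter.1 hj).1)
      refine hr.trans ?_
      gcongr
      exact Finset.filter_subset _ _
    refine (Finset.sum_le_sum hk).trans ?_
    rw [Finset.sum_const, nsmul_eq_mul, mul_assoc]

/-- base case: the paraboloid in dimension `0` -/
theorem DecB_zero {p : ℝ} (hp : 0 < p) (N : ℝ) : DecB 0 p N 1 := by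
  classical
  intro Ω _ μ _ T hT hD ξ0 ι J c g h1 h2 h3
  rcases J.eq_empty_or_nonempty with rfl | ⟨j, hj⟩
  · have : nrm μ p (fun ω => ∑ j ∈ (∅ : Finset ι), g j ω) = 0 := by
      unfold nrm
      simp [ENNReal.zero_rpow_of_pos hp, hp]
    rw [this]
    exact bot_le
  · have hJ : J = {j} := by
      apply Finset.eq_singleton_iff_unique_mem.2
      refine ⟨hj, fun k hk => ?_⟩
      by_contra hne
      obtain ⟨i, -⟩ := h2 k hk j hj hne
      exact i.elim0
    rw [hJ]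
    simp only [Finset.sum_singleton, one_mul]
    apply le_of_eq
    rw [← ENNReal.rpow_natCast, ← ENNReal.rpow_mul]
    norm_num

end BDDK
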