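import Mathlib
import Pool.Agent.BDD.StepB
import Pool.Agent.BDD.Triv

/-!
# The iteration
-/

open MeasureTheory Finset
open scoped ENNReal

namespace BDDK

/-- end of the iteration: `Mq r ≤ C (A² S)^(p/2)` -/
theorem Mq_le {d : ℕ} {p : ℝ} (hp : 2 ≤ p) :
    ∃ C : ℝ≥0∞, C ≠ ∞ ∧ ∀ (Ω : Type) [MeasurableSpace Ω] (μ : Measure Ω) [IsFiniteMeasure μ]
      (T : (Fin (d + 1) → ℝ) → Ω → Ω) (_ : Flow μ T) (_ : DenseSpec μ T) (N : ℝ)
      (ξ0 : Fin (d + 1) → ℝ) (ι : Type) (J : Finset ι) (c : ι → Fin d → ℝ) (g : ι → Ω → ℂ)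
      (_ : ∀ j ∈ J, ∀ k ∈ J, j ≠ k → ∃ i, 1 / N ≤ |c j i - c k i|)
      (_ : ∀ j ∈ J, g j ∈ Spec T (Cap d N ξ0 (c j)))
      (Ji : Fin (d + 1) → Finset ι) (_ : ∀ i, Ji i ⊆ J) (r : ℕ) (_ : 0 < r)
      (_ : (r : ℝ) ≤ N) (A : ℝ≥0∞) (_ : DecB d p (N / r) A),
      Mq μ T p c g Ji r ≤ C * (A ^ 2 * ∑ j ∈ J, nrm μ p (g j) ^ 2) ^ (p / 2) := by
  have hp0 : 0 < p := by linarith
  have hd1 : (0 : ℝ) < (d : ℝ) + 1 := by positivity
  set e : ℝ := p / (2 * ((d : ℝ) + 1)) with he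
  have he0 : 0 < e := by positivity
  set w : ℝ≥0∞ := cW (d + 1) with hw
  have hw_top : w ≠ ∞ := (cW_lt_top _).ne
  set a1 : ℝ := 1 - 2 / p with ha1
  have ha1' : 0 ≤ a1 := by
    rw [ha1, sub_nonneg, div_le_one hp0]; exact hp
  refine ⟨((w ^ a1) ^ e) ^ (d + 1) * w, ENNReal.mul_ne_top (ENNReal.pow_ne_top
      (ENNReal.rpow_ne_top_of_nonneg he0.le (ENNReal.rpow_ne_top_of_nonneg ha1' hw_top))) hw_top, ?_⟩
  intro Ω _ μ _ T hT hDs N ξ0 ι J c g hsep hg Ji hJi r hr hrN A hA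
  have hr' : (0 : ℝ) < r := by exact_mod_cast hr
  have hN0 : 0 < N := by linarith
  have hgi : ∀ i, ∀ j ∈ Ji i, g j ∈ Spec T (Cap d N ξ0 (c j)) := fun i j hj => hg j (hJi i hj)
  set F : Fin (d + 1) → (Fin d → ℤ) → Ω → ℂ := fun i κ => piece g r c (Ji i) κ with hF
  set S : Fin (d + 1) → Finset (Fin d → ℤ) := fun i => cells r c (Ji i) with hS
  have hFspec : ∀ i κ, F i κ ∈ Spec T (Cap d (r / 2) ξ0 (corner r κ)) := fun i κ =>
    piece_spec (hgi i) hr hrN κ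
  have hFm : ∀ i κ, Measurable (F i κ) := fun i κ => Spec_meas (hFspec i κ)
  have hum : ∀ i κ ω, Measurable (fun x => ‖F i κ (T x ω)‖ₑ) := fun i κ ω =>
    (Spec_orbit_cont (hFspec i κ) ω).measurable.enorm
  have s1 : ∀ i κ ω, Av T (W (r : ℝ)) (fun ω => ‖F i κ ω‖ₑ ^ 2) ω ≤
      w ^ a1 * (Av T (W (r : ℝ)) (fun ω => ‖F i κ ω‖ₑ ^ p) ω) ^ (2 / p) := by
    intro i κ ω
    have h := Av_rpow (T := T) (W_meas (r : ℝ)) (G := fun ω => ‖F i κ ω‖ₑ ^ 2) (a := p / 2)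
      (by linarith) ω ((hum i κ ω).pow_const 2)
    rw [lintegral_W hr'] at h
    have e1 : ∀ ω, (‖F i κ ω‖ₑ ^ 2) ^ (p / 2) = ‖F i κ ω‖ₑ ^ p := by
      intro ω
      rw [← ENNReal.rpow_two, ← ENNReal.rpow_mul]
      congr 1; ring
    simp_rw [e1] at h
    have h2 := ENNReal.rpow_le_rpow h (by positivity : 0 ≤ 2 / p)
    rw [← ENNReal.rpow_mul, ENNReal.mul_rpow_of_nonneg _ _ (by positivity), ← ENNReal.rpow_mul] at h2
    have e2 : p / 2 * (2 / p) = 1 := by field_simp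
    have e3 : (p / 2 - 1) * (2 / p) = a1 := by rw [ha1]; field_simp
    rw [e2, ENNReal.rpow_one, e3] at h2
    exact h2
  have prodC : ∀ (C0 : ℝ≥0∞) (G : Fin (d + 1) → ℝ≥0∞), ∏ i, (C0 * G i) ^ e =
      (C0 ^ e) ^ (d + 1) * ∏ i, (G i) ^ e := by
    intro C0 G
    simp_rw [ENNReal.mul_rpow_of_nonneg _ _ he0.le]
    rw [Finset.prod_mul_distrib, Finset.prod_const, Finset.card_univ, Fintype.card_fin]
  have t1 : Mq μ T p c g Ji r ≤ ((w ^ a1) ^ e) ^ (d + 1) *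
      ∫⁻ ω, ∏ i, (∑ κ ∈ S i, (Av T (W (r : ℝ)) (fun ω => ‖F i κ ω‖ₑ ^ p) ω) ^ (2 / p)) ^ e ∂μ := by
    unfold Mq
    rw [← lintegral_const_mul]
    · apply lintegral_mono
      intro ω
      show ∏ i, (∑ κ ∈ S i, Av T (W (r : ℝ)) (fun ω => ‖F i κ ω‖ₑ ^ 2) ω) ^ e ≤
        ((w ^ a1) ^ e) ^ (d + 1) *
        ∏ i, (∑ κ ∈ S i, (Av T (W (r : ℝ)) (fun ω => ‖F i κ ω‖ₑ ^ p) ω) ^ (2 / p)) ^ e
      rw [← prodC]
      apply Finset.prod_le_prod'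
      intro i _
      apply ENNReal.rpow_le_rpow _ he0.le
      rw [Finset.mul_sum]
      exact Finset.sum_le_sum fun κ _ => s1 i κ ω
    · apply Finset.measurable_prod
      intro i _
      apply Measurable.pow_const
      apply Finset.measurable_fun_sum
      intro κ _
      exact (Av_meas hT (W_meas _) ((hFm i κ).enorm.pow_const p)).pow_const _
  have h1 : ∀ i, ∑ κ ∈ S i, nrm μ p (F i κ) ^ 2 ≤ A ^ 2 * ∑ j ∈ J, nrm μ p (g j) ^ 2 := by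
    intro i
    calc ∑ κ ∈ S i, nrm μ p (F i κ) ^ 2
        ≤ ∑ κ ∈ S i, A ^ 2 * ∑ j ∈ mem r c (Ji i) κ, nrm μ p (g j) ^ 2 := by
          apply Finset.sum_le_sum
          intro κ _
          exact piece_dec hT hDs hN0
            (fun j hj k hk hjk => hsep j (hJi i hj) k (hJi i hk) hjk) (hgi i) hr hA κ
      _ = A ^ 2 * ∑ j ∈ Ji i, nrm μ p (g j) ^ 2 := by
          rw [← Finset.mul_sum]
          congr 1
          exact sum_cells r c (Ji i) (fun j => nrm μ p (g j) ^ 2)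
      _ ≤ _ := by
          gcongr
          exact hJi i
  have h2 : ∏ i, (∑ κ ∈ S i, nrm μ p (F i κ) ^ 2) ^ (p / (2 * ((d : ℝ) + 1))) ≤
      (A ^ 2 * ∑ j ∈ J, nrm μ p (g j) ^ 2) ^ (p / 2) := by
    calc ∏ i, (∑ κ ∈ S i, nrm μ p (F i κ) ^ 2) ^ (p / (2 * ((d : ℝ) + 1)))
        ≤ ∏ _i : Fin (d + 1), (A ^ 2 * ∑ j ∈ J, nrm μ p (g j) ^ 2) ^ (p / (2 * ((d : ℝ) + 1))) := by
          apply Finset.prod_le_prod'
          intro i _
          exact ENNReal.rpow_le_rpow (h1 i) he0.le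
      _ = _ := by
          rw [Finset.prod_const, Finset.card_univ, Fintype.card_fin, ← ENNReal.rpow_natCast,
            ← ENNReal.rpow_mul]
          congr 1
          push_cast
          field_simp
  refine t1.trans ?_
  rw [mul_assoc]
  gcongr
  refine (Lp_factor hp hT S F (fun i κ _ => hFm i κ) hr').trans ?_
  gcongr

/-- the scales -/
def rk (m k : ℕ) : ℕ := 2 ^ (m * 2 ^ k)

theorem rk_succ (m k : ℕ) : rk m (k + 1) = rk m k * rk m k := by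
  unfold rk
  rw [← pow_add]
  congr 1
  ring

theorem rk_pos (m k : ℕ) : 0 < rk m k := by unfold rk; positivity

theorem rk_mono (m : ℕ) {k l : ℕ} (h : k ≤ l) : rk m k ≤ rk m l := by
  unfold rk
  apply Nat.pow_le_pow_right (by norm_num)
  apply Nat.mul_le_mul_left
  exact Nat.pow_le_pow_right (by norm_num) h

theorem rk_rpow (m k l : ℕ) (hkl : k ≤ l) : (rk m k : ℝ) = (rk m l : ℝ) ^ ((2 : ℝ) ^ (-((l - k : ℕ) : ℝ))) := by
  unfold rk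
  push_cast
  rw [← Real.rpow_natCast 2 (m * 2 ^ k), ← Real.rpow_natCast 2 (m * 2 ^ l), ← Real.rpow_mul (by norm_num)]
  congr 1
  push_cast
  obtain ⟨s, rfl⟩ := Nat.exists_eq_add_of_le hkl
  rw [show k + s - k = s by omega, Real.rpow_neg (by norm_num), Real.rpow_natCast, pow_add]
  field_simp

/-- the exponent -/
noncomputable def bet (p η ε : ℝ) (l : ℕ) : ℝ :=
  p * η - p * η * (2 : ℝ) ^ (-(l : ℝ)) + l * (2 : ℝ) ^ (-(l : ℝ)) * (ε - p * η / 2)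

theorem bet_succ (p η ε : ℝ) (l : ℕ) : bet p η ε (l + 1) =
    ε * (2 : ℝ) ^ (-((l + 1 : ℕ) : ℝ)) + bet p η ε l / 2 +
      (p / 2) * (η * (1 - (2 : ℝ) ^ (-((l + 1 : ℕ) : ℝ)))) := by
  unfold bet
  have : (2 : ℝ) ^ (-(l : ℝ)) = 2 * (2 : ℝ) ^ (-((l + 1 : ℕ) : ℝ)) := by
    push_cast
    rw [show -(l : ℝ) = 1 + -((l : ℝ) + 1) by ring, Real.rpow_add (by norm_num), Real.rpow_one]
  rw [this]
  push_cast
  ring

end BDDK
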