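import Mathlib
import Pool.Agent.BDD.Iter

/-!
# The multilinear estimate
-/

open MeasureTheory Finset
open scoped ENNReal

namespace BDDK

theorem iter {d : ℕ} (hd : 1 ≤ d) {D : ℝ} (hD : 0 < D) {p ε η : ℝ} (hp : 2 ≤ p)
    (hpd : p ≤ 2 + 4 / d) (hε : 0 < ε)
    (hP : ∃ C : ℝ≥0∞, C ≠ ∞ ∧ ∀ N : ℝ, 1 ≤ N → DecB d p N (C * ENNReal.ofReal (N ^ η))) (Wn : ℕ) :
    ∃ Γ : ℝ≥0∞, Γ ≠ ∞ ∧ ∀ (m : ℕ) (Ω : Type) [MeasurableSpace Ω] (μ : Measure Ω) [IsFiniteMeasure μ]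
      (T : (Fin (d + 1) → ℝ) → Ω → Ω) (_ : Flow μ T) (_ : DenseSpec μ T)
      (ξ0 : Fin (d + 1) → ℝ) (ι : Type) (J : Finset ι) (c : ι → Fin d → ℝ) (g : ι → Ω → ℂ)
      (_ : ∀ j ∈ J, ∀ i, 0 ≤ c j i ∧ c j i ≤ 1)
      (_ : ∀ j ∈ J, ∀ k ∈ J, j ≠ k → ∃ i, 1 / (rk m Wn : ℝ) ≤ |c j i - c k i|)
      (_ : ∀ j ∈ J, g j ∈ Spec T (Cap d (rk m Wn : ℝ) ξ0 (c j)))
      (Ji : Fin (d + 1) → Finset ι) (_ : ∀ i, Ji i ⊆ J)
      (_ : ∀ r : ℕ, rk m 0 ≤ r → ∀ t : Fin (d + 1) → (Fin d → ℤ),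
        (∀ i, t i ∈ cells r c (Ji i)) → D⁻¹ ≤ |(Matrix.of (fun i => wC (corner r (t i)))).det|),
      Mq μ T p c g Ji (rk m 0) ≤ Γ * ENNReal.ofReal ((rk m Wn : ℝ) ^ (bet p η ε Wn)) *
        (∑ j ∈ J, nrm μ p (g j) ^ 2) ^ (p / 2) := by
  have hp0 : 0 < p := by linarith
  obtain ⟨CA, hCA, hA⟩ := stepA hd hD hp hpd hε
  obtain ⟨CE, hCE, hE⟩ := Mq_le (d := d) hp
  obtain ⟨Cη, hCη, hdec⟩ := hP
  set G1 : ℝ≥0∞ := 1 + CA * Cη ^ (p / 2) with hG1
  set G2 : ℝ≥0∞ := 1 + CE * Cη ^ p with hG2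
  have hG1t : G1 ≠ ∞ := by
    rw [hG1]
    exact ENNReal.add_ne_top.mpr ⟨by simp, ENNReal.mul_ne_top hCA
      (ENNReal.rpow_ne_top_of_nonneg (by positivity) hCη)⟩
  have hG2t : G2 ≠ ∞ := by
    rw [hG2]
    exact ENNReal.add_ne_top.mpr ⟨by simp, ENNReal.mul_ne_top hCE
      (ENNReal.rpow_ne_top_of_nonneg (by positivity) hCη)⟩
  have hG1one : 1 ≤ G1 := le_self_add
  have hG2one : 1 ≤ G2 := le_self_add
  set Γ : ℝ≥0∞ := G1 ^ 2 * G2 with hΓ
  have hΓt : Γ ≠ ∞ := ENNReal.mul_ne_top (ENNReal.pow_ne_top hG1t) hG2t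
  have hΓ1 : CE * Cη ^ p ≤ Γ := by
    calc CE * Cη ^ p ≤ G2 := le_add_self
      _ = 1 * G2 := (one_mul _).symm
      _ ≤ Γ := mul_le_mul_left (one_le_pow₀ hG1one) _
  have hΓ2 : CA * Cη ^ (p / 2) * Γ ^ (1 / 2 : ℝ) ≤ Γ := by
    have h1 : CA * Cη ^ (p / 2) ≤ Γ ^ (1 / 2 : ℝ) := by
      calc CA * Cη ^ (p / 2) ≤ G1 := le_add_self
        _ = (G1 ^ 2) ^ (1 / 2 : ℝ) := by
            rw [← ENNReal.rpow_two, ← ENNReal.rpow_mul]; norm_num
        _ ≤ Γ ^ (1 / 2 : ℝ) := by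
            apply ENNReal.rpow_le_rpow _ (by norm_num)
            calc G1 ^ 2 = G1 ^ 2 * 1 := (mul_one _).symm
              _ ≤ Γ := mul_le_mul_right hG2one _
    calc CA * Cη ^ (p / 2) * Γ ^ (1 / 2 : ℝ) ≤ Γ ^ (1 / 2 : ℝ) * Γ ^ (1 / 2 : ℝ) := by gcongr
      _ = Γ := by
          rw [← ENNReal.rpow_add_of_nonneg _ _ (by norm_num) (by norm_num)]; norm_num
  refine ⟨Γ, hΓt, ?_⟩
  intro m Ω _ μ _ T hT hDs ξ0 ι J c g hc hsep hg Ji hJi htr
  set N : ℝ := (rk m Wn : ℝ) with hN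
  have hN1 : (1 : ℝ) ≤ N := by
    rw [hN]; exact_mod_cast rk_pos m Wn
  have hN0 : 0 < N := by linarith
  set S : ℝ≥0∞ := ∑ j ∈ J, nrm μ p (g j) ^ 2 with hS
  have claim : ∀ l : ℕ, l ≤ Wn → Mq μ T p c g Ji (rk m (Wn - l)) ≤
      Γ * ENNReal.ofReal (N ^ (bet p η ε l)) * S ^ (p / 2) := by
    intro l
    induction l with
    | zero =>
      intro _
      have hdec1 : DecB d p (N / (rk m Wn : ℝ)) Cη := by
        have h := hdec 1 le_rfl
        rw [← hN, div_self hN0.ne']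
        simpa using h
      have h := hE Ω μ T hT hDs N ξ0 ι J c g hsep hg Ji hJi (rk m Wn) (rk_pos _ _) le_rfl Cη hdec1
      have hb : bet p η ε 0 = 0 := by unfold bet; simp
      rw [Nat.sub_zero, hb, Real.rpow_zero, ENNReal.ofReal_one, mul_one]
      refine h.trans ?_
      rw [ENNReal.mul_rpow_of_nonneg _ _ (by positivity), ← ENNReal.rpow_two, ← ENNReal.rpow_mul,
        show (2 : ℝ) * (p / 2) = p by ring, ← mul_assoc]
      gcongr
    | succ l ih =>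
      intro hl
      have ih' := ih (by omega)
      set k : ℕ := Wn - (l + 1) with hk
      have hk1 : Wn - l = k + 1 := by omega
      rw [hk1] at ih'
      set r : ℕ := rk m k with hr
      have hrpos : 0 < r := rk_pos m k
      have hr0 : (0 : ℝ) < r := by exact_mod_cast hrpos
      have hrr : rk m (k + 1) = r * r := rk_succ m k
      rw [hrr] at ih'
      have hrN : ((r * r : ℕ) : ℝ) ≤ N := by
        rw [← hrr, hN]
        exact_mod_cast rk_mono m (by omega)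
      have hrN1 : (r : ℝ) ≤ N := by
        rw [hN, hr]
        exact_mod_cast rk_mono m (by omega)
      have hNr : 1 ≤ N / r := by rw [one_le_div hr0]; exact hrN1
      have h := hA Ω μ T hT hDs N ξ0 ι J c g hc hsep hg Ji hJi r hrpos hrN
        (fun t ht => htr r (rk_mono m (Nat.zero_le k)) t ht) _ (hdec (N / r) hNr)
      -- exponent of `r`
      set a : ℝ := (2 : ℝ) ^ (-((l + 1 : ℕ) : ℝ)) with ha
      have hra : (r : ℝ) = N ^ a := by
        have := rk_rpow m k Wn (by omega)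
        rw [show Wn - k = l + 1 by omega] at this
        rw [hr, hN, ha]
        exact this
      have hNr' : N / r = N ^ (1 - a) := by
        rw [hra, Real.rpow_sub hN0, Real.rpow_one]
      have e1 : (r : ℝ) ^ ε = N ^ (ε * a) := by
        rw [hra, ← Real.rpow_mul hN0.le]; congr 1; ring
      have e2 : (N / r) ^ η = N ^ (η * (1 - a)) := by
        rw [hNr', ← Real.rpow_mul hN0.le]; congr 1; ring
      refine h.trans ?_
      rw [e1, e2]
      calc CA * ENNReal.ofReal (N ^ (ε * a)) * (Mq μ T p c g Ji (r * r)) ^ (1 / 2 : ℝ) *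
            ((Cη * ENNReal.ofReal (N ^ (η * (1 - a)))) ^ 2 * S) ^ (p / 4)
          ≤ CA * ENNReal.ofReal (N ^ (ε * a)) *
            (Γ * ENNReal.ofReal (N ^ (bet p η ε l)) * S ^ (p / 2)) ^ (1 / 2 : ℝ) *
            ((Cη * ENNReal.ofReal (N ^ (η * (1 - a)))) ^ 2 * S) ^ (p / 4) := by gcongr
        _ = (CA * Cη ^ (p / 2) * Γ ^ (1 / 2 : ℝ)) *
            (ENNReal.ofReal (N ^ (ε * a)) * ENNReal.ofReal (N ^ (bet p η ε l)) ^ (1 / 2 : ℝ) *
              ENNReal.ofReal (N ^ (η * (1 - a))) ^ (p / 2)) * (S ^ (p / 4) * S ^ (p / 4)) := by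
            rw [ENNReal.mul_rpow_of_nonneg _ _ (by norm_num : (0 : ℝ) ≤ 1 / 2),
              ENNReal.mul_rpow_of_nonneg _ _ (by norm_num : (0 : ℝ) ≤ 1 / 2),
              ENNReal.mul_rpow_of_nonneg _ _ (by positivity : (0 : ℝ) ≤ p / 4),
              ← ENNReal.rpow_mul S (p / 2) (1 / 2), ← ENNReal.rpow_two, ← ENNReal.rpow_mul _ 2 (p / 4),
              show (2 : ℝ) * (p / 4) = p / 2 by ring, show p / 2 * (1 / 2) = p / 4 by ring,
              ENNReal.mul_rpow_of_nonneg _ _ (by positivity : (0 : ℝ) ≤ p / 2)]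
            ring
        _ = (CA * Cη ^ (p / 2) * Γ ^ (1 / 2 : ℝ)) * ENNReal.ofReal (N ^ (bet p η ε (l + 1))) *
              S ^ (p / 2) := by
            congr 1
            · congr 1
              rw [ENNReal.ofReal_rpow_of_nonneg (by positivity) (by norm_num),
                ENNReal.ofReal_rpow_of_nonneg (by positivity) (by positivity),
                ← Real.rpow_mul hN0.le, ← Real.rpow_mul hN0.le,
                ← ENNReal.ofReal_mul (by positivity), ← ENNReal.ofReal_mul (by positivity),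
                ← Real.rpow_add hN0, ← Real.rpow_add hN0]
              congr 2
              rw [bet_succ, ← ha]
              ring
            · rw [← ENNReal.rpow_add_of_nonneg _ _ (by positivity) (by positivity)]
              congr 1
              ring
        _ ≤ _ := by gcongr
  have := claim Wn le_rfl
  rwa [Nat.sub_self] at this

end BDDK
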