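import Mathlib
import Pool.Agent.BDD.Dec

/-!
# BDD/Transv (OPEN MODULE): geometric lemma (transversal tuple or slab) and continuity of the determinant

`wC c = Fin.cons 1 (fun i => -2 * c i) : Fin (d+1) → ℝ` (BDD/Dec).

PROOF of `transv`.
(a) LINEAR VERSION. Let `M` be a real `n × n` matrix (`n = d+1`), `δ > 0`. If `|det M| < δ^n` there is
`h ≠ 0` with `‖M *ᵥ h‖ < δ ‖h‖` (sup norms). Otherwise `‖M *ᵥ h‖ ≥ δ ‖h‖` for all `h`, so `M` is
injective, hence bijective, and `closedBall 0 δ ⊆ M '' closedBall 0 1`; volumes: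
`δ^n vol(closedBall 0 1) ≤ |det M| vol(closedBall 0 1)` (`MeasureTheory.Measure.addHaar_image_linearMap`,
`Real.volume_pi_closedBall`), i.e. `δ^n ≤ |det M|`, contradiction.
(b) Let `t` maximise `|det (wC (t i))|` over the finite set of tuples in `U` (if `U = ∅` take `ν = e_0`,
`b = 0`). If the maximum is `≥ δ^n` we are in the first case. Otherwise:
 - maximum `> 0`: by Cramer (`Matrix.cramer`, or: replace row `i` of the maximal matrix by `u` and use
   multilinearity) every `u = wC c`, `c ∈ U`, is `u = ∑ a_i u_i` with `a_i = det(..u at i..)/det`, so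
   `|a_i| ≤ 1`; with `h` from (a) normalised to `‖h‖ = 1`: `|⟨h,u⟩| ≤ ∑ |⟨h,u_i⟩| ≤ n δ`.
 - maximum `= 0`: the span of the `u = wC c` is not everything (otherwise `n` of them would be a
   basis, `det ≠ 0`; `exists_linearIndependent`/`Submodule.exists_le_ker_of_lt_top`), so there is `h`,
   `‖h‖ = 1`, with `⟨h,u⟩ = 0` for all of them.
(c) In both cases `|h_0 - 2 ∑ h_{i+1} c_i| ≤ n δ < 1/2` for all `c ∈ U`, `‖h‖ = 1`, `U ≠ ∅`. Let
`h' = (h_{i+1})`. If `‖h'‖ < 1/(4d)` then `|h_0| = 1` and `|2 ∑ h_{i+1} c_i| ≤ 2 d ‖h'‖ < 1/2`, so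
`|h_0 - ..| > 1/2`, contradiction. So `‖h'‖ ≥ 1/(4d)`, `S := √(∑ h_{i+1}²) ≥ 1/(4d)`; put
`ν = h'/S`, `b = h_0/(2S)`: `|∑ ν_i c_i - b| = |h_0 - 2 ∑ h_{i+1} c_i|/(2S) ≤ 2 d (d+1) δ`.

PROOF of `det_unif`: the map `x ↦ det (wC (x i))` on `Fin (d+1) → Fin d → ℝ` is continuous, hence
uniformly continuous on the compact set `closedBall 0 3`; for `ρ ≤ 1` both `x` and `y` are in it.
-/

open Finset

namespace BDDK

/-- linear version of the geometric lemma -/
private theorem lin_small {n : ℕ} (M : Matrix (Fin n) (Fin n) ℝ) {δ : ℝ} (hδ : 0 < δ)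
    (h : |M.det| < δ ^ n) : ∃ x : Fin n → ℝ, ‖x‖ = 1 ∧ ∀ i, |(M.mulVec x) i| ≤ δ := by
  have hex : ∃ x : Fin n → ℝ, ‖M.mulVec x‖ < δ * ‖x‖ := by
    by_contra hcon
    push Not at hcon
    have hinj : Function.Injective (Matrix.toLin' M) := by
      rw [← LinearMap.ker_eq_bot, LinearMap.ker_eq_bot']
      intro x hx
      have h1 := hcon x
      rw [Matrix.toLin'_apply] at hx
      rw [hx, norm_zero] at h1
      have h2 : ‖x‖ ≤ 0 := by
        by_contra h3
        push Not at h3
        have := mul_pos hδ h3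
        linarith
      exact norm_le_zero_iff.mp h2
    have hsurj : Function.Surjective (Matrix.toLin' M) :=
      LinearMap.injective_iff_surjective.mp hinj
    have hsub : Metric.closedBall (0 : Fin n → ℝ) δ ⊆
        (Matrix.toLin' M) '' Metric.closedBall (0 : Fin n → ℝ) 1 := by
      intro y hy
      obtain ⟨x, rfl⟩ := hsurj y
      refine ⟨x, ?_, rfl⟩
      rw [mem_closedBall_zero_iff] at hy ⊢
      rw [Matrix.toLin'_apply] at hy
      have h1 := (hcon x).trans hy
      have h2 : δ * ‖x‖ ≤ δ * 1 := by linarith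
      exact le_of_mul_le_mul_left h2 hδ
    have hvol := MeasureTheory.measure_mono (μ := (MeasureTheory.volume :
      MeasureTheory.Measure (Fin n → ℝ))) hsub
    rw [MeasureTheory.Measure.addHaar_image_linearMap, Real.volume_pi_closedBall _ hδ.le,
      Real.volume_pi_closedBall _ zero_le_one, LinearMap.det_toLin',
      ← ENNReal.ofReal_mul (abs_nonneg _), ENNReal.ofReal_le_ofReal_iff (by positivity),
      Fintype.card_fin, mul_one, mul_pow] at hvol
    have h2 : (0 : ℝ) < 2 ^ n := by positivity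
    have h3 : δ ^ n ≤ |M.det| := by
      by_contra h4
      push Not at h4
      have := mul_lt_mul_of_pos_right h4 h2
      linarith
    linarith
  obtain ⟨x, hx⟩ := hex
  have hx0 : 0 < ‖x‖ := by
    by_contra h3
    push Not at h3
    have h4 : ‖x‖ = 0 := le_antisymm h3 (norm_nonneg _)
    rw [h4, mul_zero] at hx
    exact absurd hx (not_lt.mpr (norm_nonneg _))
  refine ⟨(‖x‖)⁻¹ • x, ?_, fun i => ?_⟩
  · rw [norm_smul, norm_inv, norm_norm, inv_mul_cancel₀ hx0.ne']
  · rw [Matrix.mulVec_smul, Pi.smul_apply, smul_eq_mul, abs_mul, abs_of_pos (inv_pos.mpr hx0),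
      inv_mul_le_iff₀ hx0]
    have h1 := norm_le_pi_norm (M.mulVec x) i
    rw [Real.norm_eq_abs] at h1
    linarith

/-- from an almost orthogonal vector to a slab -/
private theorem slab {d : ℕ} (hd : 1 ≤ d) (U : Finset (Fin d → ℝ)) (hne : U.Nonempty)
    (hU : ∀ c ∈ U, ∀ i, 0 ≤ c i ∧ c i ≤ 1) {ε : ℝ} (hε2 : ε < 1 / 2)
    (x : Fin (d + 1) → ℝ) (hx : ‖x‖ = 1) (h : ∀ c ∈ U, |∑ j, wC c j * x j| ≤ ε) :
    ∃ (ν : Fin d → ℝ) (b : ℝ), ∑ i, ν i ^ 2 = 1 ∧
      ∀ c ∈ U, |∑ i, ν i * c i - b| ≤ 2 * d * ε := by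
  have hd0 : (0 : ℝ) < d := by exact_mod_cast hd
  have hd1 : (1 : ℝ) ≤ d := by exact_mod_cast hd
  have hval : ∀ c : Fin d → ℝ, ∑ j, wC c j * x j = x 0 - 2 * ∑ i, x (Fin.succ i) * c i := by
    intro c
    rw [Fin.sum_univ_succ]
    simp only [wC, Fin.cons_zero, Fin.cons_succ]
    rw [Finset.mul_sum, sub_eq_add_neg, ← Finset.sum_neg_distrib, one_mul]
    congr 1
    refine Finset.sum_congr rfl fun i _ => ?_
    ring
  have hex : ∃ i : Fin d, 1 / (4 * d) ≤ |x i.succ| := by
    by_contra hcon
    push Not at hcon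
    obtain ⟨c, hc⟩ := hne
    have h1 := h c hc
    rw [hval] at h1
    have hx0 : |x 0| = 1 := by
      have hle : |x 0| ≤ 1 := by
        have := norm_le_pi_norm x 0
        rw [hx, Real.norm_eq_abs] at this
        exact this
      refine le_antisymm hle ?_
      have h2 : ‖x‖ ≤ max |x 0| (1 / 4) := by
        rw [pi_norm_le_iff_of_nonneg (le_max_of_le_right (by norm_num))]
        intro j
        refine Fin.cases ?_ (fun i => ?_) j
        · rw [Real.norm_eq_abs]
          exact le_max_left _ _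
        · rw [Real.norm_eq_abs]
          refine le_trans (hcon i).le (le_trans ?_ (le_max_right _ _))
          rw [div_le_div_iff₀ (by positivity) (by norm_num)]
          linarith
      rw [hx] at h2
      rcases le_max_iff.mp h2 with h3 | h3
      · exact h3
      · norm_num at h3
    have hsum : |∑ i, x (Fin.succ i) * c i| ≤ 1 / 4 := by
      calc |∑ i, x (Fin.succ i) * c i| ≤ ∑ i : Fin d, |x (Fin.succ i) * c i| :=
            Finset.abs_sum_le_sum_abs _ _
        _ ≤ ∑ _i : Fin d, 1 / (4 * (d : ℝ)) := by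
            refine Finset.sum_le_sum fun i _ => ?_
            rw [abs_mul, abs_of_nonneg (hU c hc i).1]
            calc |x i.succ| * c i ≤ |x i.succ| * 1 :=
                  mul_le_mul_of_nonneg_left (hU c hc i).2 (abs_nonneg _)
              _ ≤ 1 / (4 * d) := by rw [mul_one]; exact (hcon i).le
        _ = 1 / 4 := by
            rw [Finset.sum_const, Finset.card_univ, Fintype.card_fin, nsmul_eq_mul]
            field_simp
    have h5 := abs_sub_abs_le_abs_sub (x 0) (2 * ∑ i, x (Fin.succ i) * c i)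
    rw [abs_mul, abs_two, hx0] at h5
    linarith
  obtain ⟨i0, hi0⟩ := hex
  set S : ℝ := Real.sqrt (∑ i : Fin d, x i.succ ^ 2) with hS
  have hsq : 0 ≤ ∑ i : Fin d, x i.succ ^ 2 := Finset.sum_nonneg fun i _ => sq_nonneg _
  have hSge : 1 / (4 * d) ≤ S := by
    refine hi0.trans (Real.le_sqrt_of_sq_le ?_)
    rw [sq_abs]
    exact Finset.single_le_sum (f := fun i : Fin d => x i.succ ^ 2)
      (fun i _ => sq_nonneg _) (Finset.mem_univ i0)
  have hS0 : 0 < S := lt_of_lt_of_le (by positivity) hSge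
  have hSS : S ^ 2 = ∑ i : Fin d, x i.succ ^ 2 := Real.sq_sqrt hsq
  refine ⟨fun i => x i.succ / S, x 0 / (2 * S), ?_, fun c hc => ?_⟩
  · simp only [div_pow]
    rw [← Finset.sum_div, ← hSS, div_self (pow_ne_zero 2 hS0.ne')]
  · have h1 := h c hc
    rw [hval] at h1
    have e1 : ∑ i, x (Fin.succ i) / S * c i - x 0 / (2 * S) =
        -((x 0 - 2 * ∑ i, x (Fin.succ i) * c i) / (2 * S)) := by
      have e2 : ∑ i, x (Fin.succ i) / S * c i = (∑ i, x (Fin.succ i) * c i) / S := by
        rw [Finset.sum_div]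
        refine Finset.sum_congr rfl fun i _ => ?_
        ring
      rw [e2]
      field_simp
      ring
    rw [e1, abs_neg, abs_div, abs_of_pos (by positivity : (0 : ℝ) < 2 * S),
      div_le_iff₀ (by positivity)]
    have hε0 : 0 ≤ ε := (abs_nonneg _).trans h1
    refine h1.trans ?_
    have h6 : 1 ≤ 4 * d * S := by
      rw [div_le_iff₀ (by positivity)] at hSge
      linarith
    calc ε = ε * 1 := by ring
      _ ≤ ε * (4 * d * S) := mul_le_mul_of_nonneg_left h6 hε0
      _ = 2 * d * ε * (2 * S) := by ring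

/-- all determinants vanish: there is an orthogonal vector -/
private theorem orth_of_zero {n : ℕ} (W : Set (Fin n → ℝ))
    (hW : ∀ t : Fin n → (Fin n → ℝ), (∀ i, t i ∈ W) → (Matrix.of t).det = 0) :
    ∃ x : Fin n → ℝ, ‖x‖ = 1 ∧ ∀ u ∈ W, ∑ j, u j * x j = 0 := by
  have hspan : Submodule.span ℝ W < ⊤ := by
    rw [lt_top_iff_ne_top]
    intro htop
    let b := Module.Basis.ofSpan (K := ℝ) (V := Fin n → ℝ) (s := W) htop.ge
    have hfin : Module.finrank ℝ (Fin n → ℝ) = n := by simp
    have hcard := Module.finrank_eq_nat_card_basis b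
    rw [hfin] at hcard
    have : Finite (LinearIndepOn.extend (linearIndepOn_empty ℝ id) (Set.empty_subset W)) :=
      Module.Finite.finite_basis b
    let e := (Finite.equivFinOfCardEq hcard.symm)
    let b' := b.reindex e
    have hb' : ∀ i, b' i ∈ W := by
      intro i
      have h1 : b' i = b (e.symm i) := by simp [b']
      rw [h1]
      exact Module.Basis.ofSpan_subset htop.ge ⟨_, rfl⟩
    have hdet := hW (fun i => b' i) hb'
    have hli : LinearIndependent ℝ (fun i => (Matrix.of (fun i => b' i)).row i) := b'.linearIndependent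
    have hu := (Matrix.linearIndependent_rows_iff_isUnit).mp hli
    rw [Matrix.isUnit_iff_isUnit_det, isUnit_iff_ne_zero] at hu
    exact hu hdet
  obtain ⟨f, hf0, hf⟩ := Submodule.exists_le_ker_of_lt_top _ hspan
  have hfx : ∀ u, f u = ∑ j, u j * f (Pi.single j 1) := by
    intro u
    have h1 := LinearMap.pi_apply_eq_sum_univ f u
    rw [h1]
    refine Finset.sum_congr rfl fun j _ => ?_
    rw [smul_eq_mul]
    congr 2
    funext k
    by_cases hjk : j = k
    · subst hjk; simp
    · rw [if_neg hjk, Pi.single_apply, if_neg (Ne.symm hjk)]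
  let y : Fin n → ℝ := fun j => f (Pi.single j 1)
  have hy : y ≠ 0 := by
    intro h0
    apply hf0
    ext j
    have h2 := congrFun h0 j
    simpa [y] using h2
  have hy0 : 0 < ‖y‖ := norm_pos_iff.mpr hy
  refine ⟨(‖y‖)⁻¹ • y, ?_, fun u hu => ?_⟩
  · rw [norm_smul, norm_inv, norm_norm, inv_mul_cancel₀ hy0.ne']
  · have h1 : f u = 0 := hf (Submodule.subset_span hu)
    rw [hfx] at h1
    have h2 : ∑ j, u j * ((‖y‖)⁻¹ • y) j = (‖y‖)⁻¹ * ∑ j, u j * f (Pi.single j 1) := by
      rw [Finset.mul_sum]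
      refine Finset.sum_congr rfl fun j _ => ?_
      simp only [Pi.smul_apply, smul_eq_mul, y]
      ring
    rw [h2, h1, mul_zero]

theorem transv {d : ℕ} (hd : 1 ≤ d) (U : Finset (Fin d → ℝ))
    (hU : ∀ c ∈ U, ∀ i, 0 ≤ c i ∧ c i ≤ 1) {δ : ℝ} (hδ : 0 < δ)
    (hδ2 : ((d : ℝ) + 1) * δ < 1 / 2) :
    (∃ t : Fin (d + 1) → (Fin d → ℝ), (∀ i, t i ∈ U) ∧
      δ ^ (d + 1) ≤ |(Matrix.of (fun i => wC (t i))).det|) ∨
    (∃ (ν : Fin d → ℝ) (b : ℝ), ∑ i, ν i ^ 2 = 1 ∧
      ∀ c ∈ U, |∑ i, ν i * c i - b| ≤ 2 * d * ((d : ℝ) + 1) * δ) := by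
  classical
  rcases U.eq_empty_or_nonempty with hemp | hne
  · right
    subst hemp
    refine ⟨Pi.single ⟨0, hd⟩ 1, 0, ?_, fun c hc => absurd hc (Finset.notMem_empty c)⟩
    rw [Finset.sum_eq_single (⟨0, hd⟩ : Fin d)]
    · simp
    · intro i _ hi
      rw [Pi.single_eq_of_ne hi]
      simp
    · intro h
      exact absurd (Finset.mem_univ _) h
  · obtain ⟨c0, hc0⟩ := hne
    have hne' : (Fintype.piFinset (fun _ : Fin (d + 1) => U)).Nonempty :=
      ⟨fun _ => c0, Fintype.mem_piFinset.mpr fun _ => hc0⟩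
    obtain ⟨t, ht, hmax⟩ := Finset.exists_max_image _
      (fun t : Fin (d + 1) → (Fin d → ℝ) => |(Matrix.of (fun i => wC (t i))).det|) hne'
    rw [Fintype.mem_piFinset] at ht
    by_cases hbig : δ ^ (d + 1) ≤ |(Matrix.of (fun i => wC (t i))).det|
    · exact Or.inl ⟨t, ht, hbig⟩
    right
    push Not at hbig
    have hres : ∃ x : Fin (d + 1) → ℝ, ‖x‖ = 1 ∧
        ∀ c ∈ U, |∑ j, wC c j * x j| ≤ ((d : ℝ) + 1) * δ := by
      by_cases hzero : (Matrix.of (fun i => wC (t i))).det = 0
      · obtain ⟨x, hx, hx2⟩ := orth_of_zero (wC '' (U : Set (Fin d → ℝ))) (by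
          intro s hs
          choose r hr1 hr2 using hs
          have h1 := hmax r (Fintype.mem_piFinset.mpr fun i => hr1 i)
          simp only [hzero, abs_zero] at h1
          have h2 : (Matrix.of (fun i => wC (r i))).det = 0 :=
            abs_eq_zero.mp (le_antisymm h1 (abs_nonneg _))
          have h3 : (fun i => wC (r i)) = s := funext hr2
          rw [← h3]
          exact h2)
        refine ⟨x, hx, fun c hc => ?_⟩
        rw [hx2 _ ⟨c, hc, rfl⟩, abs_zero]
        positivity
      · obtain ⟨x, hx, hx2⟩ := lin_small _ hδ hbig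
        refine ⟨x, hx, fun c hc => ?_⟩
        set M : Matrix (Fin (d + 1)) (Fin (d + 1)) ℝ := Matrix.of (fun i => wC (t i)) with hM
        have hD : 0 < |M.det| := abs_pos.mpr hzero
        have hcr := Matrix.mulVec_cramer M.transpose (wC c)
        have hdot : M.det * ∑ j, wC c j * x j =
            ∑ i, (M.updateRow i (wC c)).det * (M.mulVec x) i := by
          have h1 : (M.transpose.mulVec (M.transpose.cramer (wC c))) ⬝ᵥ x =
              (M.transpose.cramer (wC c)) ⬝ᵥ (M.mulVec x) := by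
            rw [Matrix.dotProduct_mulVec, Matrix.mulVec_transpose]
          rw [hcr, Matrix.det_transpose, smul_dotProduct] at h1
          have h2 : (wC c) ⬝ᵥ x = ∑ j, wC c j * x j := rfl
          rw [h2, smul_eq_mul] at h1
          rw [h1]
          simp only [dotProduct, Matrix.cramer_transpose_apply]
        have hrow : ∀ i, |(M.updateRow i (wC c)).det| ≤ |M.det| := by
          intro i
          have h1 := hmax (Function.update t i c) (Fintype.mem_piFinset.mpr fun k => by
            by_cases hk : k = i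
            · subst hk; rw [Function.update_self]; exact hc
            · rw [Function.update_of_ne hk]; exact ht k)
          have h2 : Matrix.of (fun k => wC (Function.update t i c k)) =
              M.updateRow i (wC c) := by
            ext k j
            by_cases hk : k = i
            · subst hk
              simp [Matrix.updateRow_self]
            · rw [Matrix.updateRow_ne hk]
              simp [hM, Function.update_of_ne hk]
          rw [h2] at h1
          exact h1
        have h3 : |M.det| * |∑ j, wC c j * x j| ≤ |M.det| * (((d : ℝ) + 1) * δ) := by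
          rw [← abs_mul, hdot]
          calc |∑ i, (M.updateRow i (wC c)).det * (M.mulVec x) i|
              ≤ ∑ i, |(M.updateRow i (wC c)).det * (M.mulVec x) i| :=
                Finset.abs_sum_le_sum_abs _ _
            _ ≤ ∑ _i : Fin (d + 1), |M.det| * δ := by
                refine Finset.sum_le_sum fun i _ => ?_
                rw [abs_mul]
                exact mul_le_mul (hrow i) (hx2 i) (abs_nonneg _) (abs_nonneg _)
            _ = |M.det| * (((d : ℝ) + 1) * δ) := by
                rw [Finset.sum_const, Finset.card_univ, Fintype.card_fin, nsmul_eq_mul]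
                push_cast
                ring
        exact le_of_mul_le_mul_left h3 hD
    obtain ⟨x, hx, hx2⟩ := hres
    obtain ⟨ν, b, h1, h2⟩ := slab hd U ⟨c0, hc0⟩ hU hδ2 x hx hx2
    refine ⟨ν, b, h1, fun c hc => (h2 c hc).trans (le_of_eq ?_)⟩
    ring

theorem det_unif (d : ℕ) {η : ℝ} (hη : 0 < η) : ∃ ρ : ℝ, 0 < ρ ∧
    ∀ x y : Fin (d + 1) → (Fin d → ℝ), (∀ i, ‖x i‖ ≤ 2) → (∀ i, ‖x i - y i‖ ≤ ρ) →
      |(Matrix.of (fun i => wC (x i))).det - (Matrix.of (fun i => wC (y i))).det| ≤ η := by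
  have hcont : Continuous fun x : Fin (d + 1) → (Fin d → ℝ) =>
      (Matrix.of (fun i => wC (x i))).det := by
    refine Continuous.matrix_det (continuous_matrix fun i j => ?_)
    refine Fin.cases ?_ (fun k => ?_) j
    · simp only [Matrix.of_apply, wC, Fin.cons_zero]
      exact continuous_const
    · simp only [Matrix.of_apply, wC, Fin.cons_succ]
      fun_prop
  have hcomp : IsCompact (Metric.closedBall (0 : Fin (d + 1) → (Fin d → ℝ)) 3) :=
    isCompact_closedBall _ _
  have hu := hcomp.uniformContinuousOn_of_continuous hcont.continuousOn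
  rw [Metric.uniformContinuousOn_iff] at hu
  obtain ⟨ρ0, hρ0, hu⟩ := hu η hη
  refine ⟨min 1 (ρ0 / 2), lt_min one_pos (half_pos hρ0), fun x y hx hxy => ?_⟩
  have hx' : ‖x‖ ≤ 2 := (pi_norm_le_iff_of_nonneg (by norm_num)).mpr hx
  have hd : ‖x - y‖ ≤ min 1 (ρ0 / 2) :=
    (pi_norm_le_iff_of_nonneg (lt_min one_pos (half_pos hρ0)).le).mpr hxy
  have hy' : ‖y‖ ≤ 3 := by
    have h1 : y = x - (x - y) := by abel
    rw [h1]
    have h2 := norm_sub_le x (x - y)
    have h3 := hd.trans (min_le_left _ _)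
    linarith
  have h4 := hu x (by rw [mem_closedBall_zero_iff]; linarith) y
    (by rw [mem_closedBall_zero_iff]; exact hy') (by
      rw [dist_eq_norm]
      have := hd.trans (min_le_right _ _)
      linarith)
  rw [Real.dist_eq] at h4
  exact h4.le

end BDDK
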