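import Mathlib
import Pool.Agent.BDD.Iter2
import Pool.Agent.BDD.CapSum
import Pool.Agent.BDD.Transv

/-!
# The broad term
-/

open MeasureTheory Finset
open scoped ENNReal

namespace BDDK

theorem cells_card {d : ℕ} {ι : Type*} {J : Finset ι} {c : ι → Fin d → ℝ}
    (hc : ∀ j ∈ J, ∀ i, 0 ≤ c j i ∧ c j i ≤ 1) (r : ℕ) : (cells r c J).card ≤ (r + 1) ^ d := by
  classical
  have h1 : (Fintype.piFinset (fun _ : Fin d => Finset.Icc (0 : ℤ) r)).card = (r + 1) ^ d := by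
    rw [Fintype.card_piFinset]
    simp
  rw [← h1]
  apply Finset.card_le_card
  intro κ hκ
  unfold cells at hκ
  rw [Finset.mem_image] at hκ
  obtain ⟨j, hj, rfl⟩ := hκ
  rw [Fintype.mem_piFinset]
  intro i
  rw [Finset.mem_Icc]
  unfold cell
  have h := hc j hj i
  constructor
  · exact Int.floor_nonneg.mpr (mul_nonneg (by positivity) h.1)
  · rw [Int.floor_le_iff]
    push_cast
    have : (0 : ℝ) ≤ r := by positivity
    nlinarith [h.2]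

theorem broad_term {d : ℕ} (hd : 1 ≤ d) {p ε η : ℝ} (hp : 2 ≤ p)
    (hpd : p ≤ 2 + 4 / d) (hε : 0 < ε)
    (hP : ∃ C : ℝ≥0∞, C ≠ ∞ ∧ ∀ N : ℝ, 1 ≤ N → DecB d p N (C * ENNReal.ofReal (N ^ η))) (Wn : ℕ)
    {δ : ℝ} (hδ : 0 < δ) :
    ∃ (ρ : ℝ) (Γ : ℝ≥0∞), 0 < ρ ∧ Γ ≠ ∞ ∧ ∀ (m : ℕ) (Ω : Type) [MeasurableSpace Ω] (μ : Measure Ω)
      [IsFiniteMeasure μ]
      (T : (Fin (d + 1) → ℝ) → Ω → Ω) (_ : Flow μ T) (_ : DenseSpec μ T)
      (ξ0 : Fin (d + 1) → ℝ) (ι : Type) (J : Finset ι) (c : ι → Fin d → ℝ) (g : ι → Ω → ℂ)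
      (_ : ∀ j ∈ J, ∀ i, 0 ≤ c j i ∧ c j i ≤ 1)
      (_ : ∀ j ∈ J, ∀ k ∈ J, j ≠ k → ∃ i, 1 / (rk m Wn : ℝ) ≤ |c j i - c k i|)
      (_ : ∀ j ∈ J, g j ∈ Spec T (Cap d (rk m Wn : ℝ) ξ0 (c j)))
      (K : ℕ) (_ : 0 < K) (_ : 2 / (K : ℝ) ≤ ρ) (_ : K ≤ rk m 0) (R : ℝ) (_ : 1 ≤ R)
      (_ : R ≤ rk m 0) (t : Fin (d + 1) → Fin d → ℤ) (_ : ∀ i, t i ∈ cells K c J)
      (_ : δ ^ (d + 1) ≤ |(Matrix.of (fun i => wC (corner K (t i)))).det|),
      ∫⁻ ω, ∏ i, (Av T (W R) (fun ω => ‖piece g K c J (t i) ω‖ₑ ^ 2) ω) ^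
        (p / (2 * ((d : ℝ) + 1))) ∂μ ≤
        Γ * ENNReal.ofReal ((((rk m 0 : ℝ) + 1) ^ d * (rk m 0 : ℝ) ^ (d + 1)) ^ (p / 2)) *
          ENNReal.ofReal ((rk m Wn : ℝ) ^ (bet p η ε Wn)) *
          (∑ j ∈ J, nrm μ p (g j) ^ 2) ^ (p / 2) := by
  classical
  have hp0 : 0 < p := by linarith
  have hd1 : (0 : ℝ) < (d : ℝ) + 1 := by positivity
  obtain ⟨ρ, hρ, hρd⟩ := det_unif d (η := δ ^ (d + 1) / 2) (by positivity)
  obtain ⟨Γ, hΓ, hit⟩ := iter hd (D := 2 / δ ^ (d + 1)) (by positivity) hp hpd hε hP Wn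
  refine ⟨ρ, Γ, hρ, hΓ, ?_⟩
  intro m Ω _ μ _ T hT hDs ξ0 ι J c g hc hsep hg K hK hKρ hKr R hR1 hRr t ht hdet
  set Ji : Fin (d + 1) → Finset ι := fun i => mem K c J (t i) with hJi
  have hJiJ : ∀ i, Ji i ⊆ J := fun i => mem_subset K c J (t i)
  have hr0 : 0 < rk m 0 := rk_pos m 0
  have hKR : (0 : ℝ) < K := by exact_mod_cast hK
  have htr : ∀ r : ℕ, rk m 0 ≤ r → ∀ t' : Fin (d + 1) → (Fin d → ℤ),
      (∀ i, t' i ∈ cells r c (Ji i)) →
        (2 / δ ^ (d + 1))⁻¹ ≤ |(Matrix.of (fun i => wC (corner r (t' i)))).det| := by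
    intro r hr t' ht'
    have hrK : (K : ℝ) ≤ r := by exact_mod_cast hKr.trans hr
    have hr' : 0 < r := by omega
    have h1 := hρd (fun i => corner K (t i)) (fun i => corner r (t' i)) ?_ ?_
    · have h2 : |(Matrix.of (fun i => wC (corner K (t i)))).det| ≤
          |(Matrix.of (fun i => wC (corner K (t i)))).det -
            (Matrix.of (fun i => wC (corner r (t' i)))).det| +
          |(Matrix.of (fun i => wC (corner r (t' i)))).det| := by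
        have := abs_add_le ((Matrix.of (fun i => wC (corner K (t i)))).det -
            (Matrix.of (fun i => wC (corner r (t' i)))).det)
          ((Matrix.of (fun i => wC (corner r (t' i)))).det)
        rwa [sub_add_cancel] at this
      rw [inv_div]
      linarith
    · intro i
      rw [pi_norm_le_iff_of_nonneg (by norm_num)]
      intro l
      have h3 := ht i
      unfold cells at h3
      rw [Finset.mem_image] at h3
      obtain ⟨j, hj, hj'⟩ := h3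
      show ‖corner K (t i) l‖ ≤ 2
      rw [← hj', Real.norm_eq_abs]
      have := corner_mem hK (hc j hj) l
      rw [abs_of_nonneg this.1]
      linarith [this.2]
    · intro i
      rw [pi_norm_le_iff_of_nonneg hρ.le]
      intro l
      have h3 := ht' i
      unfold cells at h3
      rw [Finset.mem_image] at h3
      obtain ⟨j, hj, hj'⟩ := h3
      show ‖corner K (t i) l - corner r (t' i) l‖ ≤ ρ
      have h4 := mem_corner hK hj l
      have h5 := cell_corner hr' (c j) l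
      rw [hj'] at h5
      have h6 : (1 : ℝ) / r ≤ 1 / K := by gcongr
      rw [Real.norm_eq_abs]
      have h7 : (2 : ℝ) / K = 1 / K + 1 / K := by ring
      rw [abs_le] at h5 ⊢
      constructor <;> linarith [h4.1, h4.2, h5.1, h5.2]
  have h := hit m Ω μ T hT hDs ξ0 ι J c g hc hsep hg Ji hJiJ htr
  set e : ℝ := p / (2 * ((d : ℝ) + 1)) with he
  have he0 : 0 < e := by positivity
  have hrN : (rk m 0 : ℝ) ≤ (rk m Wn : ℝ) := by exact_mod_cast rk_mono m (Nat.zero_le Wn)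
  set V : ℝ := ((rk m 0 : ℝ) + 1) ^ d * (rk m 0 : ℝ) ^ (d + 1) with hV
  have hV0 : 0 ≤ V := by positivity
  have hpw : ∀ ω, ∏ i, (Av T (W R) (fun ω => ‖piece g K c J (t i) ω‖ₑ ^ 2) ω) ^ e ≤
      ENNReal.ofReal (V ^ (p / 2)) * ∏ i, (∑ κ ∈ cells (rk m 0) c (Ji i),
        Av T (W (rk m 0 : ℝ)) (fun ω => ‖piece g (rk m 0) c (Ji i) κ ω‖ₑ ^ 2) ω) ^ e := by
    intro ω
    have h8 : ENNReal.ofReal (V ^ (p / 2)) = ∏ _i : Fin (d + 1), (ENNReal.ofReal V) ^ e := by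
      rw [Finset.prod_const, Finset.card_univ, Fintype.card_fin, ← ENNReal.rpow_natCast,
        ← ENNReal.rpow_mul, ENNReal.ofReal_rpow_of_nonneg hV0 (by positivity)]
      congr 2
      rw [he]
      push_cast
      field_simp
    rw [h8, ← Finset.prod_mul_distrib]
    apply Finset.prod_le_prod'
    intro i _
    rw [← ENNReal.mul_rpow_of_nonneg _ _ he0.le]
    apply ENNReal.rpow_le_rpow _ he0.le
    exact broad_Mq hc hg hR1 hRr hr0 (t i) ω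
  calc ∫⁻ ω, ∏ i, (Av T (W R) (fun ω => ‖piece g K c J (t i) ω‖ₑ ^ 2) ω) ^ e ∂μ
      ≤ ∫⁻ ω, ENNReal.ofReal (V ^ (p / 2)) * ∏ i, (∑ κ ∈ cells (rk m 0) c (Ji i),
        Av T (W (rk m 0 : ℝ)) (fun ω => ‖piece g (rk m 0) c (Ji i) κ ω‖ₑ ^ 2) ω) ^ e ∂μ :=
        lintegral_mono hpw
    _ = ENNReal.ofReal (V ^ (p / 2)) * Mq μ T p c g Ji (rk m 0) := by
        rw [lintegral_const_mul' _ _ ENNReal.ofReal_ne_top]
        rfl
    _ ≤ ENNReal.ofReal (V ^ (p / 2)) * (Γ * ENNReal.ofReal ((rk m Wn : ℝ) ^ (bet p η ε Wn)) *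
        (∑ j ∈ J, nrm μ p (g j) ^ 2) ^ (p / 2)) := by gcongr
    _ = _ := by ring

end BDDK
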