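import Mathlib
import Pool.Agent.BDD.Dec

/-!
# BDD/TorDense (OPEN MODULE): linear flows on the torus `UnitAddTorus κ = κ → ℝ/ℤ`

Notation of `BDD/Spec`, `BDD/Dec`: `Flow μ T`, `Spec T A`, `DenseSpec μ T`, `nrm μ p f`, `ee`.

`torFlow A x ω = ω + (A x mod 1)`, where `A : ℝ^n → ℝ^κ` is linear.

PROOF of `torFlow_flow`: measurability of `(x, ω) ↦ ω + (A x mod 1)`: continuous
(`A.continuous_of_finiteDimensional`, coercion `ℝ → ℝ/ℤ` continuous, `continuous_pi`); additivity:
`map_add`, `AddCircle.coe_add`, `add_assoc`/`add_comm`; measure preserving: translation of the Haar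
measure (`MeasureTheory.measurePreserving_add_right volume`; if no instance is found for the pi
measure: `measurePreserving_pi` coordinatewise).

PROOF of `torFlow_eig`: `UnitAddTorus.mFourier m ω = ∏ fourier (m j) (ω j)`, and
`fourier (m j) (ω j + (a : ℝ/ℤ)) = fourier (m j) (ω j) * exp (2 π i m_j a)` (`fourier_add`?,
`fourier_coe_apply`); product over `j`: `ee (∑ j, m j * (A x) j)`; and with
`ξ i = ∑ j, m j * (A (Pi.single i 1)) j` one has `∑ i, ξ i * x i = ∑ j, m j * (A x) j` because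
`x = ∑ i, x i • Pi.single i 1` (`pi_eq_sum_univ'`, `map_sum`, `map_smul`).

PROOF of `torFlow_dense`: `h` bounded measurable, `p ≥ 1`, so `h ∈ L^p(volume)`; by
`UnitAddTorus.span_mFourierLp_closure_eq_top` (`p ≠ ∞`) there is `P` in the span of the
`mFourierLp p m` with `‖h - P‖_p < ε`; `P` is a.e. equal to a finite linear combination `Q` of the
functions `mFourier m` (`UnitAddTorus.coeFn_mFourierLp`, span induction), and `Q ∈ Spec T univ` by
`torFlow_eig`; finally `nrm μ p f = eLpNorm f (ENNReal.ofReal p) μ`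
(`eLpNorm_eq_lintegral_rpow_enorm_toReal`).
-/

open MeasureTheory Finset
open scoped ENNReal

namespace BDDK

/-- linear flow on the torus -/
noncomputable def torFlow {n : ℕ} {κ : Type} [Fintype κ] (A : (Fin n → ℝ) →ₗ[ℝ] (κ → ℝ))
    (x : Fin n → ℝ) (ω : UnitAddTorus κ) : UnitAddTorus κ :=
  ω + fun j => ((A x j : ℝ) : UnitAddCircle)

theorem torFlow_flow {n : ℕ} {κ : Type} [Fintype κ] (A : (Fin n → ℝ) →ₗ[ℝ] (κ → ℝ)) :
    Flow (volume : Measure (UnitAddTorus κ)) (torFlow A) := by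
  have hA : Continuous A := A.continuous_of_finiteDimensional
  refine ⟨?_, ?_, ?_⟩
  · refine measurable_pi_iff.2 fun j => ?_
    have h1 : Measurable fun p : (Fin n → ℝ) × UnitAddTorus κ => p.2 j :=
      (measurable_pi_apply j).comp measurable_snd
    have h2 : Measurable fun p : (Fin n → ℝ) × UnitAddTorus κ =>
        ((A p.1 j : ℝ) : UnitAddCircle) := by
      have h3 : Continuous fun x : Fin n → ℝ => ((A x j : ℝ) : UnitAddCircle) :=
        (AddCircle.continuous_mk' (1 : ℝ)).comp ((continuous_apply j).comp hA)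
      exact h3.measurable.comp measurable_fst
    exact h1.add h2
  · intro x y ω
    funext j
    change ω j + ((A (x + y) j : ℝ) : UnitAddCircle) =
      (ω j + ((A y j : ℝ) : UnitAddCircle)) + ((A x j : ℝ) : UnitAddCircle)
    rw [map_add, Pi.add_apply, AddCircle.coe_add, add_assoc, add_comm ((A y j : ℝ) : UnitAddCircle)]
  · intro x
    exact measurePreserving_add_right volume _

private theorem fourier_shift (k : ℤ) (z : UnitAddCircle) (a : ℝ) :
    (fourier k (z + (a : UnitAddCircle)) : ℂ) = ee ((k : ℝ) * a) * fourier k z := by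
  have h1 : (fourier k (z + (a : UnitAddCircle)) : ℂ) =
      fourier k z * fourier k (a : UnitAddCircle) := by
    rw [fourier_apply, fourier_apply, fourier_apply, smul_add, AddCircle.toCircle_add,
      Circle.coe_mul]
  rw [h1, fourier_coe_apply, mul_comm]
  congr 1
  unfold ee
  congr 1
  push_cast
  ring

private theorem ee_sum {ι : Type} (s : Finset ι) (f : ι → ℝ) :
    ee (∑ i ∈ s, f i) = ∏ i ∈ s, ee (f i) := by
  classical
  induction s using Finset.induction_on with
  | empty => rw [Finset.sum_empty, Finset.prod_empty, ee_zero]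
  | insert a s ha ih => rw [Finset.sum_insert ha, Finset.prod_insert ha, ee_add, ih]

theorem torFlow_eig {n : ℕ} {κ : Type} [Fintype κ] (A : (Fin n → ℝ) →ₗ[ℝ] (κ → ℝ))
    (m : κ → ℤ) (ξ : Fin n → ℝ)
    (hξ : ∀ x : Fin n → ℝ, ∑ i, ξ i * x i = ∑ j, (m j : ℝ) * (A x) j) :
    IsEig (torFlow A) ξ (fun ω => UnitAddTorus.mFourier m ω) := by
  refine ⟨(UnitAddTorus.mFourier m).continuous.measurable, ⟨1, fun ω => ?_⟩, fun x ω => ?_⟩
  · have h := (UnitAddTorus.mFourier m).norm_coe_le_norm ω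
    rwa [UnitAddTorus.mFourier_norm] at h
  · rw [hξ, ee_sum]
    change ∏ j, (fourier (m j) (ω j + ((A x j : ℝ) : UnitAddCircle)) : ℂ) =
      (∏ j, ee ((m j : ℝ) * A x j)) * ∏ j, (fourier (m j) (ω j) : ℂ)
    rw [← Finset.prod_mul_distrib]
    exact Finset.prod_congr rfl fun j _ => fourier_shift _ _ _

private theorem mem_spec {n : ℕ} {κ : Type} [Fintype κ] (A : (Fin n → ℝ) →ₗ[ℝ] (κ → ℝ))
    (m : κ → ℤ) : (fun ω => UnitAddTorus.mFourier m ω : UnitAddTorus κ → ℂ) ∈
      Spec (torFlow A) Set.univ := by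
  classical
  refine Submodule.subset_span ⟨fun i => ∑ j, (m j : ℝ) * (A (Pi.single i 1)) j, Set.mem_univ _,
    torFlow_eig A m _ fun x => ?_⟩
  have hx : A x = ∑ i, x i • A (Pi.single i 1) := by
    conv_lhs => rw [← Finset.univ_sum_single x]
    rw [map_sum]
    refine Finset.sum_congr rfl fun i _ => ?_
    rw [← map_smul]
    congr 1
    funext k
    by_cases hk : k = i
    · subst hk
      simp
    · simp [Pi.single_eq_of_ne hk]
  rw [hx]
  simp only [Finset.sum_apply, Pi.smul_apply, smul_eq_mul, Finset.sum_mul, Finset.mul_sum]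
  rw [Finset.sum_comm]
  refine Finset.sum_congr rfl fun j _ => Finset.sum_congr rfl fun i _ => ?_
  ring

/-- the characters in `L^q` -/
private noncomputable def mFL (κ : Type) [Fintype κ] (q : ℝ≥0∞) [Fact (1 ≤ q)] (m : κ → ℤ) :
    Lp ℂ q (volume : Measure (UnitAddTorus κ)) :=
  ContinuousMap.toLp (E := ℂ) q volume ℂ (UnitAddTorus.mFourier m)

private theorem mFL_closure (κ : Type) [Fintype κ] (q : ℝ≥0∞) [Fact (1 ≤ q)] (hq : q ≠ ⊤) :
    (Submodule.span ℂ (Set.range (mFL κ q))).topologicalClosure = ⊤ := by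
  have h1 := (ContinuousMap.toLp_denseRange ℂ (volume : Measure (UnitAddTorus κ)) ℂ
    hq).topologicalClosure_map_submodule (UnitAddTorus.span_mFourier_closure_eq_top (d := κ))
  simp only [Submodule.map_span, ContinuousLinearMap.coe_coe, ← Set.range_comp,
    Function.comp_def] at h1
  exact h1

theorem torFlow_dense {n : ℕ} {κ : Type} [Fintype κ] (A : (Fin n → ℝ) →ₗ[ℝ] (κ → ℝ)) :
    DenseSpec (volume : Measure (UnitAddTorus κ)) (torFlow A) := by
  intro h hm ⟨M, hM⟩ p hp ε hε
  have hp0 : 0 < p := by linarith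
  set q : ℝ≥0∞ := ENNReal.ofReal p with hq
  have hq1 : (1 : ℝ≥0∞) ≤ q := by
    rw [hq, ← ENNReal.ofReal_one]
    exact ENNReal.ofReal_le_ofReal hp
  have hqt : q ≠ ⊤ := ENNReal.ofReal_ne_top
  have hq0 : q ≠ 0 := (lt_of_lt_of_le one_pos hq1).ne'
  have hqr : q.toReal = p := ENNReal.toReal_ofReal hp0.le
  have : Fact (1 ≤ q) := ⟨hq1⟩
  have hmem : MemLp h q (volume : Measure (UnitAddTorus κ)) :=
    MemLp.of_bound hm.aestronglyMeasurable M (Filter.Eventually.of_forall hM)
  have hcl : hmem.toLp h ∈ closure ((Submodule.span ℂ (Set.range (mFL κ q)) :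
      Submodule ℂ (Lp ℂ q (volume : Measure (UnitAddTorus κ)))) :
        Set (Lp ℂ q (volume : Measure (UnitAddTorus κ)))) := by
    have h2 : hmem.toLp h ∈
        (Submodule.span ℂ (Set.range (mFL κ q))).topologicalClosure := by
      rw [mFL_closure κ q hqt]
      exact Submodule.mem_top
    exact h2
  obtain ⟨P, hP, hd⟩ := EMetric.mem_closure_iff.1 hcl ε hε
  have hkey : ∀ P' : Lp ℂ q (volume : Measure (UnitAddTorus κ)),
      P' ∈ Submodule.span ℂ (Set.range (mFL κ q)) →
      ∃ Q ∈ Spec (torFlow A) Set.univ, (P' : UnitAddTorus κ → ℂ) =ᵐ[volume] Q := by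
    intro P' hP'
    induction hP' using Submodule.span_induction with
    | mem x hx =>
      obtain ⟨m, rfl⟩ := hx
      exact ⟨_, mem_spec A m, ContinuousMap.coeFn_toLp volume (UnitAddTorus.mFourier m)⟩
    | zero => exact ⟨0, Submodule.zero_mem _, Lp.coeFn_zero _ _ _⟩
    | add x y _ _ hx hy =>
      obtain ⟨Q, hQ, h1⟩ := hx
      obtain ⟨Q', hQ', h2⟩ := hy
      exact ⟨Q + Q', Submodule.add_mem _ hQ hQ', (Lp.coeFn_add x y).trans (h1.add h2)⟩
    | smul c x _ hx =>
      obtain ⟨Q, hQ, h1⟩ := hx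
      exact ⟨c • Q, Submodule.smul_mem _ c hQ, (Lp.coeFn_smul c x).trans (h1.const_smul c)⟩
  obtain ⟨Q, hQ, hPQ⟩ := hkey P hP
  refine ⟨Q, hQ, ?_⟩
  have h1 : nrm (volume : Measure (UnitAddTorus κ)) p (fun ω => h ω - Q ω) =
      eLpNorm (fun ω => h ω - Q ω) q volume := by
    rw [eLpNorm_eq_lintegral_rpow_enorm_toReal hq0 hqt, hqr]
    rfl
  rw [h1]
  rw [Lp.edist_def] at hd
  refine le_of_eq_of_le (eLpNorm_congr_ae ?_) hd.le
  filter_upwards [hmem.coeFn_toLp, hPQ] with ω h2 h3
  rw [Pi.sub_apply, h2, h3]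

end BDDK
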