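import Mathlib
import Pool.Agent.BDD.Resc
import Pool.Agent.BDD.TorDense
import Pool.Agent.STC.TorusDefs

/-!
# BDD/DiscRes: discrete restriction on rectangular tori from decoupling

`H` = the decoupling theorem (it will be `BDDK.decoupling` of the main chain).

PROOF (everything elementary; no Poisson summation, no limit).
Notation: `e(x) = exp(2 π i x)` (`ee`), `phi_k = ∑ a_j k_j² / (2 π)`, `B2 = ∑ ‖b_k‖²`,
`κ0 = min 1 (min_j √(a_j/2π))`, `Λ = max 1 (max_j √(a_j/2π))`, `σ = 1/(2 N Λ)`, `N' = 1/(σ κ0) = 2 N Λ/κ0 ≥ 1`,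
`λ = min (κ0²/4) (1/(8 T0))`.
(1) Choose `L : ℕ` so large that `L ≥ 1/κ0²`, `λ L ≥ 2`, `L ≥ T0` and `L ≥ 2 π T0 √|s|`; `M = ⌊λ L⌋₊ ≥ 1`
(so `M ≥ λ L/2`); `m_k = round (L phi_k) ∈ ℤ`, `|phi_k - m_k/L| ≤ 1/(2L)`.
(2) `Ψ(u) = ‖(1/M) ∑_{j<M} e(j u)‖²`, a trigonometric polynomial on `ℝ/ℤ` with frequencies `l`, `|l| < M`.
  `Ψ ≥ 1/2` for `u = t/L`, `t ∈ [0,T0]` (real part: `cos(2π j t/L) ≥ cos(π/4)` since `j t/L ≤ λ T0 ≤ 1/8`).
  `∫_{ℝ/ℤ} Ψ^p ≤ ∫ Ψ = 1/M ≤ 2/(λ L)` because `0 ≤ Ψ ≤ 1`, `p ≥ 1`, and Parseval (orthogonality)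
  `∫ ‖∑_{j<M} e(j u)‖² = M`. (No decay estimate needed.)
(3) `Ω = UnitAddTorus (Fin (r+1))` (coordinate `0` = `u`, coordinates `j.succ` = `x_j`),
  `g_k(u,x) = b_k e(-m_k u) Ψ(u) chr k x`, flow `torFlow A`, `A(τ,y) = (-σ² τ/L, λ_j y_j)`,
  `λ_j = σ √(a_j/2π)`. The character with exponents `(m', k)`, `m' = -m_k + l`, `|l| < M`, is an
  eigenfunction (`torFlow_eig`) with frequency `ξ_0 = -σ² m'/L`, `ξ_{j+1} = λ_j k_j`.
  With `c_k = (λ_j k_j)_j`: `|c_k|² = σ² phi_k`, hence `ξ_0 = |c_k|² + s/N'^2` with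
  `|s| = N'^2 σ² |(m_k - l)/L - phi_k| ≤ κ0^-2 (1/(2L) + λ) ≤ 1`. So `g_k ∈ Spec (Cap r N' 0 c_k)` (`z = 0`).
  `c_k ∈ [-1/2,1/2]^r`; `k ≠ k'` gives `|c_{k,j} - c_{k',j}| ≥ λ_j ≥ σ κ0 = 1/N'` for some `j`.
(4) `DecB_resc` (`ρ = 1`, `c0 = -1/2`) gives
  `‖∑ g_k‖_p ≤ C N'^ε (∑ ‖g_k‖_p²)^{1/2}`, `‖g_k‖_p = |b_k| (∫ Ψ^p)^{1/p} ≤ |b_k| (2/(λ L))^{1/p}`, so
  `∫_Ω |∑ g_k|^p ≤ (C N'^ε)^p B2^{p/2} 2/(λ L)`.
(5) `∫_0^{T0} ∫_x |∑ b_k e(-m_k t/L) chr k x|^p dx dt ≤ 2^p ∫_0^{T0} ∫_x |(∑ g_k)(t/L, x)|^p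
  ≤ 2^p L ∫_Ω |∑ g_k|^p` (substitution `t = L u`, `[0,T0/L] ⊂ [0,1]`; `volume` on `UnitAddCircle` is the
  image of Lebesgue measure on `Ioc 0 1`; `MeasureTheory.volume_preserving_piFinSuccAbove` for `Ω`).
(6) for `t ∈ [0,T0]`: `|∑ b_k e(-phi_k t) chr k x| ≤ |∑ b_k e(-m_k t/L) chr k x| + ∑ |b_k| 2π t/(2L)`
  and `∑|b_k| ≤ √|s| √B2`, so the last sum is `≤ √B2`; `(x+y)^p ≤ 2^p (x^p + y^p)`.
Total: `∫∫ ≤ 2^p (2^p (C N'^ε)^p (2/λ) + T0) B2^{p/2}`; use `ε/p` in place of `ε` in `H`.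
(`cexp (-((t * ∑ a_j k_j²)) I) = e(-phi_k t)`, `STC.chr k x = UnitAddTorus.mFourier k x`.)
-/

open MeasureTheory Finset Complex
open scoped ENNReal

namespace BDDK

private lemma fourier_ee (n : ℤ) (t : ℝ) : fourier n ((t : ℝ) : UnitAddCircle) = ee (n * t) := by
  rw [fourier_coe_apply]
  unfold ee
  congr 1
  push_cast
  ring

private noncomputable def DK (M : ℕ) (u : UnitAddCircle) : ℂ :=
  (M : ℂ)⁻¹ * ∑ j ∈ range M, fourier (j : ℤ) u

private lemma DK_cont (M : ℕ) : Continuous (DK M) := by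
  unfold DK
  fun_prop

private lemma norm_fourier (n : ℤ) (u : UnitAddCircle) : ‖fourier n u‖ = 1 := by
  rw [fourier_apply]
  exact Circle.norm_coe _

private lemma norm_DK_le {M : ℕ} (hM : 1 ≤ M) (u : UnitAddCircle) : ‖DK M u‖ ≤ 1 := by
  have hM0 : (0 : ℝ) < M := by exact_mod_cast hM
  unfold DK
  rw [norm_mul, norm_inv, Complex.norm_natCast, inv_mul_le_iff₀ hM0, mul_one]
  refine (norm_sum_le _ _).trans ?_
  have h1 : ∀ j ∈ range M, ‖(fourier (T := 1) (j : ℤ)) u‖ = 1 := fun j _ => norm_fourier _ _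
  rw [Finset.sum_congr rfl h1]
  simp

private lemma DK_sq (M : ℕ) (u : UnitAddCircle) : DK M u * (starRingEnd ℂ) (DK M u) =
    ∑ j ∈ range M, ∑ j' ∈ range M, (M : ℂ)⁻¹ * (M : ℂ)⁻¹ * fourier ((j : ℤ) - j') u := by
  unfold DK
  rw [map_mul, map_inv₀, Complex.conj_natCast, map_sum]
  have h1 : ∀ j ∈ range M, ∑ j' ∈ range M, (M : ℂ)⁻¹ * (M : ℂ)⁻¹ * fourier ((j : ℤ) - j') u =
      (M : ℂ)⁻¹ * fourier (j : ℤ) u * ((M : ℂ)⁻¹ * ∑ j' ∈ range M,
        (starRingEnd ℂ) (fourier (j' : ℤ) u)) := by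
    intro j _
    rw [Finset.mul_sum, Finset.mul_sum]
    refine Finset.sum_congr rfl fun j' _ => ?_
    rw [sub_eq_add_neg, fourier_add, fourier_neg]
    ring
  rw [Finset.sum_congr rfl h1, ← Finset.sum_mul, ← Finset.mul_sum]

private lemma int_fourier (n : ℤ) : ∫ u : UnitAddCircle, fourier n u = if n = 0 then 1 else 0 := by
  have h := congrFun (fourierCoeff_fourier (T := 1) n) 0
  unfold fourierCoeff at h
  rw [AddCircle.integral_haarAddCircle] at h
  simp only [neg_zero, fourier_zero, one_smul, inv_one] at h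
  rw [h]
  by_cases hn : n = 0
  · rw [if_pos hn, hn, Pi.single_eq_same]
  · rw [if_neg hn, Pi.single_eq_of_ne (Ne.symm hn)]

private lemma int_DK {M : ℕ} (hM : 1 ≤ M) : ∫ u : UnitAddCircle, ‖DK M u‖ ^ 2 = 1 / M := by
  have hM0 : (M : ℂ) ≠ 0 := by
    have : M ≠ 0 := by omega
    exact_mod_cast this
  have h1 : ((∫ u : UnitAddCircle, ‖DK M u‖ ^ 2 : ℝ) : ℂ) = ((1 / M : ℝ) : ℂ) := by
    rw [← integral_complex_ofReal]
    have h2 : ∀ u : UnitAddCircle, ((‖DK M u‖ ^ 2 : ℝ) : ℂ) =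
        ∑ j ∈ range M, ∑ j' ∈ range M, (M : ℂ)⁻¹ * (M : ℂ)⁻¹ * fourier ((j : ℤ) - j') u := by
      intro u
      rw [← DK_sq, Complex.mul_conj, Complex.normSq_eq_norm_sq]
    simp_rw [h2]
    have hint : ∀ (c : ℂ) (n : ℤ), Integrable (fun u : UnitAddCircle => c * fourier n u) := by
      intro c n
      have : Continuous fun u : UnitAddCircle => c * fourier n u := by fun_prop
      exact this.integrable_of_hasCompactSupport (HasCompactSupport.of_compactSpace _)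
    rw [integral_finsetSum _ fun j _ => integrable_finsetSum _ fun j' _ => hint _ _]
    have h3 : ∀ j ∈ range M, ∫ u : UnitAddCircle, ∑ j' ∈ range M,
        (M : ℂ)⁻¹ * (M : ℂ)⁻¹ * fourier ((j : ℤ) - j') u = (M : ℂ)⁻¹ * (M : ℂ)⁻¹ := by
      intro j hj
      rw [integral_finsetSum _ fun j' _ => hint _ _]
      have h4 : ∀ j' ∈ range M, ∫ u : UnitAddCircle, (M : ℂ)⁻¹ * (M : ℂ)⁻¹ *
          fourier ((j : ℤ) - j') u = if j' = j then (M : ℂ)⁻¹ * (M : ℂ)⁻¹ else 0 := by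
        intro j' _
        rw [integral_const_mul, int_fourier]
        by_cases h : j' = j
        · simp [h]
        · rw [if_neg h, if_neg (by omega), mul_zero]
      rw [Finset.sum_congr rfl h4, Finset.sum_ite_eq' (range M) j, if_pos hj]
    rw [Finset.sum_congr rfl h3, Finset.sum_const, card_range, nsmul_eq_mul]
    push_cast
    field_simp
  exact_mod_cast h1

private lemma DK_ge {M : ℕ} (hM : 1 ≤ M) {t : ℝ} (h0 : 0 ≤ t) (h : M * t ≤ 1 / 8) :
    1 / 2 ≤ ‖DK M (t : UnitAddCircle)‖ ^ 2 := by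
  have hM0 : (0 : ℝ) < M := by exact_mod_cast hM
  have h1 : (DK M (t : UnitAddCircle)).re = (M : ℝ)⁻¹ * ∑ j ∈ range M,
      Real.cos (2 * Real.pi * (j * t)) := by
    unfold DK
    have : ((M : ℂ)⁻¹) = (((M : ℝ)⁻¹ : ℝ) : ℂ) := by push_cast; rfl
    rw [this, Complex.re_ofReal_mul, Complex.re_sum]
    congr 1
    refine Finset.sum_congr rfl fun j _ => ?_
    rw [fourier_ee]
    unfold ee
    have h2 : (2 * (Real.pi : ℂ) * (((j : ℤ) : ℝ) * t : ℝ) * I) =
        ((2 * Real.pi * (j * t) : ℝ) : ℂ) * I := by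
      push_cast
      ring
    rw [h2, Complex.exp_ofReal_mul_I_re]
  have h2 : Real.sqrt 2 / 2 ≤ (DK M (t : UnitAddCircle)).re := by
    rw [h1, le_inv_mul_iff₀ hM0]
    have h3 : ∀ j ∈ range M, Real.sqrt 2 / 2 ≤ Real.cos (2 * Real.pi * (j * t)) := by
      intro j hj
      rw [← Real.cos_pi_div_four]
      have hj' : (j : ℝ) ≤ M := by exact_mod_cast (mem_range.1 hj).le
      have h4 : (j : ℝ) * t ≤ 1 / 8 := (mul_le_mul_of_nonneg_right hj' h0).trans h
      refine Real.cos_le_cos_of_nonneg_of_le_pi ?_ ?_ ?_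
      · positivity
      · linarith [Real.pi_pos]
      · nlinarith [Real.pi_pos]
    calc (M : ℝ) * (Real.sqrt 2 / 2) = ∑ _j ∈ range M, Real.sqrt 2 / 2 := by
          rw [Finset.sum_const, card_range, nsmul_eq_mul]
      _ ≤ _ := Finset.sum_le_sum h3
  have h3 : 0 ≤ Real.sqrt 2 / 2 := by positivity
  have h4 : (Real.sqrt 2 / 2) ^ 2 = 1 / 2 := by
    rw [div_pow, Real.sq_sqrt (by norm_num)]
    norm_num
  calc 1 / 2 = (Real.sqrt 2 / 2) ^ 2 := h4.symm
    _ ≤ (DK M (t : UnitAddCircle)).re ^ 2 := pow_le_pow_left₀ h3 h2 2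
    _ ≤ ‖DK M (t : UnitAddCircle)‖ ^ 2 := by
      rw [← sq_abs]
      exact pow_le_pow_left₀ (abs_nonneg _) (Complex.abs_re_le_norm _) 2

/-- the function attached to the frequency `k` -/
private noncomputable def gk {r : ℕ} (M : ℕ) (m : (Fin r → ℤ) → ℤ) (b : (Fin r → ℤ) → ℂ)
    (k : Fin r → ℤ) (ω : UnitAddTorus (Fin (r + 1))) : ℂ :=
  b k * fourier (-m k) (ω 0) * (DK M (ω 0) * (starRingEnd ℂ) (DK M (ω 0))) *
    STC.chr k (fun j => ω j.succ)

private lemma chr_cont {r : ℕ} (k : Fin r → ℤ) :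
    Continuous fun x : Fin r → UnitAddCircle => STC.chr k x := by
  unfold STC.chr
  fun_prop

private lemma norm_chr {r : ℕ} (k : Fin r → ℤ) (x : Fin r → UnitAddCircle) :
    ‖STC.chr k x‖ = 1 := by
  unfold STC.chr
  rw [norm_prod]
  exact Finset.prod_eq_one fun j _ => norm_fourier _ _

private lemma gk_cont {r : ℕ} (M : ℕ) (m : (Fin r → ℤ) → ℤ) (b : (Fin r → ℤ) → ℂ)
    (k : Fin r → ℤ) : Continuous (gk M m b k) := by
  unfold gk
  have h1 : Continuous fun ω : UnitAddTorus (Fin (r + 1)) => DK M (ω 0) :=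
    (DK_cont M).comp (continuous_apply 0)
  have h2 : Continuous fun ω : UnitAddTorus (Fin (r + 1)) =>
      STC.chr k (fun j => ω j.succ) :=
    (chr_cont k).comp (continuous_pi fun j => continuous_apply _)
  have h3 : Continuous fun ω : UnitAddTorus (Fin (r + 1)) => fourier (-m k) (ω 0) :=
    (fourier (-m k)).continuous.comp (continuous_apply 0)
  have h4 : Continuous fun ω : UnitAddTorus (Fin (r + 1)) =>
      (starRingEnd ℂ) (DK M (ω 0)) := Complex.continuous_conj.comp h1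
  exact ((continuous_const.mul h3).mul (h1.mul h4)).mul h2

private lemma norm_gk {r : ℕ} (M : ℕ) (m : (Fin r → ℤ) → ℤ) (b : (Fin r → ℤ) → ℂ)
    (k : Fin r → ℤ) (ω : UnitAddTorus (Fin (r + 1))) :
    ‖gk M m b k ω‖ = ‖b k‖ * ‖DK M (ω 0)‖ ^ 2 := by
  unfold gk
  rw [norm_mul, norm_mul, norm_mul, norm_mul, norm_chr, norm_fourier, RCLike.norm_conj]
  ring

private lemma gk_eq {r : ℕ} (M : ℕ) (m : (Fin r → ℤ) → ℤ) (b : (Fin r → ℤ) → ℂ)
    (k : Fin r → ℤ) : gk M m b k = ∑ j ∈ range M, ∑ j' ∈ range M,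
      (b k * ((M : ℂ)⁻¹ * (M : ℂ)⁻¹)) • fun ω : UnitAddTorus (Fin (r + 1)) =>
        UnitAddTorus.mFourier (Fin.cons (-m k + ((j : ℤ) - j')) k : Fin (r + 1) → ℤ) ω := by
  funext ω
  simp only [Finset.sum_apply, Pi.smul_apply, smul_eq_mul]
  unfold gk
  rw [DK_sq, Finset.mul_sum, Finset.sum_mul]
  refine Finset.sum_congr rfl fun j _ => ?_
  rw [Finset.mul_sum, Finset.sum_mul]
  refine Finset.sum_congr rfl fun j' _ => ?_
  have h1 : UnitAddTorus.mFourier (Fin.cons (-m k + ((j : ℤ) - j')) k : Fin (r + 1) → ℤ) ω =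
      fourier (-m k + ((j : ℤ) - j')) (ω 0) * STC.chr k (fun j => ω j.succ) := by
    show ∏ i, fourier _ (ω i) = _
    rw [Fin.prod_univ_succ]
    rfl
  rw [h1, fourier_add]
  ring

private noncomputable def fl {r : ℕ} (σ L : ℝ) (al : Fin r → ℝ) :
    (Fin (r + 1) → ℝ) →ₗ[ℝ] (Fin (r + 1) → ℝ) where
  toFun x := Fin.cons (-(σ ^ 2) * x 0 / L) fun j => σ * al j * x j.succ
  map_add' x y := by
    funext j
    refine Fin.cases ?_ (fun i => ?_) j
    · simp only [Fin.cons_zero, Pi.add_apply]; ring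
    · simp only [Fin.cons_succ, Pi.add_apply]; ring
  map_smul' a x := by
    funext j
    refine Fin.cases ?_ (fun i => ?_) j
    · simp only [Fin.cons_zero, Pi.smul_apply, smul_eq_mul, RingHom.id_apply]; ring
    · simp only [Fin.cons_succ, Pi.smul_apply, smul_eq_mul, RingHom.id_apply]; ring

private lemma gk_mem {r : ℕ} {M : ℕ} {m : (Fin r → ℤ) → ℤ} {b : (Fin r → ℤ) → ℂ}
    {k : Fin r → ℤ} {σ κ L : ℝ} {al : Fin r → ℝ} (hσ : 0 < σ) (hκ : 0 < κ) (hL : 0 < L)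
    (hθ : |∑ j, (al j) ^ 2 * (k j : ℝ) ^ 2 - m k / L| ≤ 1 / (2 * L))
    (hM : (M : ℝ) / L ≤ κ ^ 2 / 4) (hLκ : 1 / L ≤ κ ^ 2) :
    gk M m b k ∈ Spec (torFlow (fl σ L al)) (Cap r (1 / (σ * κ)) 0 fun j => σ * al j * k j) := by
  rw [gk_eq]
  refine Submodule.sum_mem _ fun j hj => Submodule.sum_mem _ fun j' hj' => ?_
  refine Submodule.smul_mem _ _ ?_
  set l : ℤ := (j : ℤ) - j' with hl
  have hl' : |(l : ℝ)| ≤ M := by
    have h1 : (j : ℤ) < M := by exact_mod_cast mem_range.1 hj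
    have h2 : (j' : ℤ) < M := by exact_mod_cast mem_range.1 hj'
    have h3 : |l| ≤ (M : ℤ) := by rw [abs_le]; omega
    exact_mod_cast h3
  refine Spec_of_eig (ξ := Fin.cons (-(σ ^ 2) * ((-m k + l : ℤ) : ℝ) / L)
    fun j => σ * al j * k j) ?_ ?_
  · refine ⟨0, (1 / (σ * κ)) ^ 2 * σ ^ 2 * ((m k - l) / L -
      ∑ j, (al j) ^ 2 * (k j : ℝ) ^ 2), by simp, ?_, ?_, ?_⟩
    · have h1 : (1 / (σ * κ)) ^ 2 * σ ^ 2 = 1 / κ ^ 2 := by
        field_simp
      rw [h1, abs_mul, abs_of_pos (by positivity : (0 : ℝ) < 1 / κ ^ 2), one_div,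
        inv_mul_le_iff₀ (by positivity), mul_one]
      have h2 : ((m k : ℝ) - l) / L - ∑ j, (al j) ^ 2 * (k j : ℝ) ^ 2 =
          -(∑ j, (al j) ^ 2 * (k j : ℝ) ^ 2 - m k / L) + -(l / L) := by ring
      rw [h2]
      refine (abs_add_le _ _).trans ?_
      rw [abs_neg, abs_neg, abs_div, abs_of_pos hL]
      have h3 : |(l : ℝ)| / L ≤ κ ^ 2 / 4 := (div_le_div_of_nonneg_right hl' hL.le).trans hM
      have h4 : 1 / (2 * L) ≤ κ ^ 2 / 2 := by
        have : 1 / (2 * L) = (1 / L) / 2 := by field_simp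
        rw [this]
        linarith
      nlinarith [sq_nonneg κ]
    · intro i
      simp
    · rw [Fin.cons_zero]
      have h1 : ∀ i : Fin r, (σ * al i * k i + (0 : Fin r → ℝ) i / (1 / (σ * κ))) ^ 2 =
          σ ^ 2 * ((al i) ^ 2 * (k i : ℝ) ^ 2) := by
        intro i
        simp only [Pi.zero_apply, zero_div, add_zero]
        ring
      rw [Finset.sum_congr rfl fun i _ => h1 i, ← Finset.mul_sum]
      generalize ∑ i, (al i) ^ 2 * (k i : ℝ) ^ 2 = S
      simp only [Pi.zero_apply]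
      push_cast
      field_simp
      ring
  · refine torFlow_eig _ _ _ fun x => ?_
    rw [Fin.sum_univ_succ, Fin.sum_univ_succ]
    simp only [Fin.cons_zero, Fin.cons_succ, fl, LinearMap.coe_mk, AddHom.coe_mk]
    congr 1
    · push_cast
      ring
    · refine Finset.sum_congr rfl fun i _ => ?_
      ring


private lemma int_omega {r : ℕ} {h : UnitAddCircle × (Fin r → UnitAddCircle) → ℝ}
    (hc : Continuous h) :
    ∫ ω : UnitAddTorus (Fin (r + 1)), h (ω 0, fun j => ω j.succ) =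
      ∫ u : UnitAddCircle, ∫ x : Fin r → UnitAddCircle, h (u, x) := by
  have hmp := volume_preserving_piFinSuccAbove (fun _ : Fin (r + 1) => UnitAddCircle) 0
  have h1 := hmp.integral_comp' (g := h)
  have h2 : ∀ ω : UnitAddTorus (Fin (r + 1)),
      (MeasurableEquiv.piFinSuccAbove (fun _ : Fin (r + 1) => UnitAddCircle) 0) ω =
        (ω 0, fun j => ω j.succ) := by
    intro ω
    refine Prod.ext rfl ?_
    funext j
    show ω (Fin.succAbove 0 j) = _
    rw [Fin.zero_succAbove]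
  simp_rw [h2] at h1
  rw [h1]
  have h3 : Integrable h ((volume : Measure UnitAddCircle).prod
      (volume : Measure (Fin r → UnitAddCircle))) :=
    hc.integrable_of_hasCompactSupport (HasCompactSupport.of_compactSpace _)
  exact integral_prod h h3

private lemma contI {r : ℕ} {E : ℝ × (Fin r → UnitAddCircle) → ℝ} (hE : Continuous E) :
    Continuous fun t : ℝ => ∫ x : Fin r → UnitAddCircle, E (t, x) := by
  have h := continuous_parametric_integral_of_continuous (μ := volume)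
    (f := fun (t : ℝ) (x : Fin r → UnitAddCircle) => E (t, x)) (by exact hE)
    (s := Set.univ) isCompact_univ
  simpa only [setIntegral_univ] using h

private lemma pow_two_ineq {p x y : ℝ} (hp : 1 ≤ p) (hx : 0 ≤ x) (hy : 0 ≤ y) :
    (x + y) ^ p ≤ 2 ^ p * (x ^ p + y ^ p) := by
  have hp0 : 0 ≤ p := by linarith
  have h1 : x + y ≤ 2 * max x y := by
    have := le_max_left x y
    have := le_max_right x y
    linarith
  calc (x + y) ^ p ≤ (2 * max x y) ^ p := Real.rpow_le_rpow (by positivity) h1 hp0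
    _ = 2 ^ p * (max x y) ^ p := Real.mul_rpow (by norm_num) (le_max_of_le_left hx)
    _ ≤ 2 ^ p * (x ^ p + y ^ p) := by
      refine mul_le_mul_of_nonneg_left ?_ (by positivity)
      rcases max_cases x y with ⟨h, -⟩ | ⟨h, -⟩ <;> rw [h]
      · have := Real.rpow_nonneg hy p
        linarith
      · have := Real.rpow_nonneg hx p
        linarith

private lemma cont_integrable {r : ℕ} {f : UnitAddTorus (Fin (r + 1)) → ℝ}
    (hf : Continuous f) : Integrable f volume :=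
  hf.integrable_of_hasCompactSupport (HasCompactSupport.of_compactSpace _)

private lemma lint_DK {r M : ℕ} (hM : 1 ≤ M) :
    ∫⁻ ω : UnitAddTorus (Fin (r + 1)), ENNReal.ofReal (‖DK M (ω 0)‖ ^ 2) =
      ENNReal.ofReal (1 / M) := by
  have hc : Continuous fun z : UnitAddCircle × (Fin r → UnitAddCircle) => ‖DK M z.1‖ ^ 2 :=
    (((DK_cont M).comp continuous_fst).norm).pow 2
  have hc' : Continuous fun ω : UnitAddTorus (Fin (r + 1)) => ‖DK M (ω 0)‖ ^ 2 :=
    (((DK_cont M).comp (continuous_apply 0)).norm).pow 2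
  rw [← ofReal_integral_eq_lintegral_ofReal (cont_integrable hc')
    (Filter.Eventually.of_forall fun ω => by positivity)]
  rw [int_omega (h := fun z => ‖DK M z.1‖ ^ 2) hc]
  simp only [integral_const, smul_eq_mul]
  have h1 : (volume : Measure (Fin r → UnitAddCircle)).real Set.univ = 1 := by
    rw [Measure.real, volume_pi, Measure.pi_univ]
    simp
  simp_rw [h1, one_mul]
  rw [int_DK hM]

private lemma nrm_gk {r M : ℕ} (hM : 1 ≤ M) {p : ℝ} (hp : 1 ≤ p) (m : (Fin r → ℤ) → ℤ)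
    (b : (Fin r → ℤ) → ℂ) (k : Fin r → ℤ) :
    nrm volume p (gk M m b k) ≤ ‖b k‖ₑ * ENNReal.ofReal (1 / M) ^ (1 / p) := by
  have hp0 : 0 < p := by linarith
  unfold nrm
  have h1 : ∀ ω : UnitAddTorus (Fin (r + 1)), ‖gk M m b k ω‖ₑ ^ p ≤
      ‖b k‖ₑ ^ p * ENNReal.ofReal (‖DK M (ω 0)‖ ^ 2) := by
    intro ω
    have h2 : ‖gk M m b k ω‖ₑ = ‖b k‖ₑ * ENNReal.ofReal (‖DK M (ω 0)‖ ^ 2) := by
      rw [← ofReal_norm, norm_gk, ENNReal.ofReal_mul (norm_nonneg _),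
        ofReal_norm]
    rw [h2, ENNReal.mul_rpow_of_nonneg _ _ hp0.le]
    refine mul_le_mul_right ?_ _
    refine ENNReal.rpow_le_self_of_le_one ?_ hp
    rw [ENNReal.ofReal_le_one]
    exact pow_le_one₀ (norm_nonneg _) (norm_DK_le hM _)
  calc (∫⁻ ω, ‖gk M m b k ω‖ₑ ^ p) ^ (1 / p)
      ≤ (∫⁻ ω : UnitAddTorus (Fin (r + 1)), ‖b k‖ₑ ^ p *
          ENNReal.ofReal (‖DK M (ω 0)‖ ^ 2)) ^ (1 / p) :=
        ENNReal.rpow_le_rpow (lintegral_mono h1) (by positivity)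
    _ = (‖b k‖ₑ ^ p * ENNReal.ofReal (1 / M)) ^ (1 / p) := by
        rw [lintegral_const_mul', lint_DK hM]
        exact ENNReal.rpow_ne_top_of_nonneg hp0.le enorm_ne_top
    _ = ‖b k‖ₑ * ENNReal.ofReal (1 / M) ^ (1 / p) := by
        rw [ENNReal.mul_rpow_of_nonneg _ _ (by positivity), ← ENNReal.rpow_mul,
          mul_one_div_cancel hp0.ne', ENNReal.rpow_one]


private lemma int_gk_le {r M : ℕ} (hM : 1 ≤ M) {p : ℝ} (hp : 1 ≤ p) (m : (Fin r → ℤ) → ℤ)
    (b : (Fin r → ℤ) → ℂ) (s : Finset (Fin r → ℤ)) {A : ℝ≥0∞} (hA : A ≠ ∞)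
    (h : nrm (volume : Measure (UnitAddTorus (Fin (r + 1)))) p
      (fun ω => ∑ k ∈ s, gk M m b k ω) ≤
      A * (∑ k ∈ s, nrm volume p (gk M m b k) ^ 2) ^ (1 / 2 : ℝ)) :
    ∫ ω : UnitAddTorus (Fin (r + 1)), ‖∑ k ∈ s, gk M m b k ω‖ ^ p ≤
      A.toReal ^ p * (1 / M) * (∑ k ∈ s, ‖b k‖ ^ 2) ^ (p / 2) := by
  have hp0 : 0 < p := by linarith
  set f : UnitAddTorus (Fin (r + 1)) → ℂ := fun ω => ∑ k ∈ s, gk M m b k ω with hf
  have hfc : Continuous f := continuous_finsetSum _ fun k _ => gk_cont M m b k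
  have hfc' : Continuous fun ω => ‖f ω‖ ^ p :=
    hfc.norm.rpow_const fun _ => Or.inr hp0.le
  set Q : ℝ≥0∞ := ENNReal.ofReal (1 / M) with hQ
  set S : ℝ≥0∞ := ∑ k ∈ s, ‖b k‖ₑ ^ 2 with hS
  have h1 : (∑ k ∈ s, nrm volume p (gk M m b k) ^ 2) ^ (1 / 2 : ℝ) ≤
      Q ^ (1 / p) * S ^ (1 / 2 : ℝ) := by
    calc (∑ k ∈ s, nrm volume p (gk M m b k) ^ 2) ^ (1 / 2 : ℝ)
        ≤ (∑ k ∈ s, (Q ^ (1 / p)) ^ 2 * ‖b k‖ₑ ^ 2) ^ (1 / 2 : ℝ) := by
          refine ENNReal.rpow_le_rpow (Finset.sum_le_sum fun k _ => ?_) (by norm_num)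
          rw [← mul_pow]
          refine pow_le_pow_left' ?_ 2
          rw [mul_comm]
          exact nrm_gk hM hp m b k
      _ = ((Q ^ (1 / p)) ^ 2 * S) ^ (1 / 2 : ℝ) := by rw [hS, Finset.mul_sum]
      _ = Q ^ (1 / p) * S ^ (1 / 2 : ℝ) := by
          rw [ENNReal.mul_rpow_of_nonneg _ _ (by norm_num)]
          congr 1
          rw [← ENNReal.rpow_natCast, ← ENNReal.rpow_mul]
          norm_num
  have h2 : nrm volume p f ≤ A * (Q ^ (1 / p) * S ^ (1 / 2 : ℝ)) :=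
    h.trans (mul_le_mul_right h1 A)
  have h3 : ∫⁻ ω, ‖f ω‖ₑ ^ p ≤ A ^ p * (Q * S ^ (p / 2)) := by
    have h4 := ENNReal.rpow_le_rpow h2 hp0.le
    have h5 : nrm volume p f ^ p = ∫⁻ ω, ‖f ω‖ₑ ^ p := by
      unfold nrm
      rw [← ENNReal.rpow_mul, one_div_mul_cancel hp0.ne', ENNReal.rpow_one]
    rw [h5, ENNReal.mul_rpow_of_nonneg _ _ hp0.le, ENNReal.mul_rpow_of_nonneg _ _ hp0.le,
      ← ENNReal.rpow_mul, ← ENNReal.rpow_mul, one_div_mul_cancel hp0.ne', ENNReal.rpow_one,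
      one_div_mul_eq_div] at h4
    exact h4
  have h6 : ENNReal.ofReal (∫ ω, ‖f ω‖ ^ p) = ∫⁻ ω, ‖f ω‖ₑ ^ p := by
    rw [ofReal_integral_eq_lintegral_ofReal (cont_integrable hfc')
      (Filter.Eventually.of_forall fun ω => by positivity)]
    refine lintegral_congr fun ω => ?_
    rw [← ofReal_norm, ENNReal.ofReal_rpow_of_nonneg (norm_nonneg _) hp0.le]
  have h7 : A ^ p * (Q * S ^ (p / 2)) =
      ENNReal.ofReal (A.toReal ^ p * (1 / M) * (∑ k ∈ s, ‖b k‖ ^ 2) ^ (p / 2)) := by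
    rw [ENNReal.ofReal_mul (by positivity), ENNReal.ofReal_mul (by positivity), ← hQ,
      ← ENNReal.ofReal_rpow_of_nonneg ENNReal.toReal_nonneg hp0.le, ENNReal.ofReal_toReal hA,
      ← ENNReal.ofReal_rpow_of_nonneg (by positivity) (by positivity),
      ENNReal.ofReal_sum_of_nonneg fun k _ => by positivity]
    have h8 : ∑ k ∈ s, ENNReal.ofReal (‖b k‖ ^ 2) = S := by
      rw [hS]
      refine Finset.sum_congr rfl fun k _ => ?_
      rw [ENNReal.ofReal_pow (norm_nonneg _), ofReal_norm]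
    rw [h8, mul_assoc]
  rw [← h6, h7] at h3
  exact (ENNReal.ofReal_le_ofReal_iff (by positivity)).1 h3


private lemma norm_ee_sub_le (s t : ℝ) : ‖ee s - ee t‖ ≤ 2 * Real.pi * |s - t| := by
  have h1 : ee s - ee t = ee t * (ee (s - t) - 1) := by
    rw [mul_sub, ← ee_add, mul_one]
    congr 2
    ring
  rw [h1, norm_mul, norm_ee, one_mul]
  unfold ee
  have h2 : (2 * (Real.pi : ℂ) * ((s - t : ℝ) : ℂ) * I) = I * ((2 * Real.pi * (s - t) : ℝ) : ℂ) := by
    push_cast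
    ring
  rw [h2]
  refine (Real.norm_exp_I_mul_ofReal_sub_one_le).trans ?_
  rw [Real.norm_eq_abs, abs_mul, abs_of_pos (by positivity : (0 : ℝ) < 2 * Real.pi)]

/-- the comparison with rational frequencies -/
private lemma compare {r : ℕ} {s : Finset (Fin r → ℤ)} {b : (Fin r → ℤ) → ℂ}
    {th : (Fin r → ℤ) → ℝ} {m : (Fin r → ℤ) → ℤ} {L T0 t : ℝ} (hL : 0 < L) (ht0 : 0 ≤ t)
    (ht : t ≤ T0) (hth : ∀ k, |th k - m k / L| ≤ 1 / (2 * L))
    (hLs : 2 * Real.pi * T0 * Real.sqrt s.card ≤ L) (x : Fin r → UnitAddCircle) :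
    ‖∑ k ∈ s, b k * ee (-(th k * t)) * STC.chr k x‖ ≤
      ‖∑ k ∈ s, b k * ee (-(m k * (t / L))) * STC.chr k x‖ +
        Real.sqrt (∑ k ∈ s, ‖b k‖ ^ 2) := by
  have h1 : ∑ k ∈ s, b k * ee (-(th k * t)) * STC.chr k x =
      ∑ k ∈ s, b k * ee (-(m k * (t / L))) * STC.chr k x +
        ∑ k ∈ s, b k * (ee (-(th k * t)) - ee (-(m k * (t / L)))) * STC.chr k x := by
    rw [← Finset.sum_add_distrib]
    refine Finset.sum_congr rfl fun k _ => ?_
    ring
  rw [h1]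
  refine (norm_add_le _ _).trans (add_le_add le_rfl ?_)
  refine (norm_sum_le _ _).trans ?_
  have hpi := Real.pi_pos
  have h2 : ∀ k ∈ s, ‖b k * (ee (-(th k * t)) - ee (-(m k * (t / L)))) * STC.chr k x‖ ≤
      Real.pi * T0 / L * ‖b k‖ := by
    intro k _
    rw [norm_mul, norm_mul, norm_chr, mul_one, mul_comm]
    refine mul_le_mul_of_nonneg_right ?_ (norm_nonneg _)
    refine (norm_ee_sub_le _ _).trans ?_
    have h3 : -(th k * t) - -(m k * (t / L)) = -((th k - m k / L) * t) := by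
      ring
    rw [h3, abs_neg, abs_mul, abs_of_nonneg ht0]
    have h4 : |th k - m k / L| * t ≤ 1 / (2 * L) * T0 :=
      mul_le_mul (hth k) ht ht0 (by positivity)
    calc 2 * Real.pi * (|th k - m k / L| * t) ≤ 2 * Real.pi * (1 / (2 * L) * T0) :=
          mul_le_mul_of_nonneg_left h4 (by positivity)
      _ = Real.pi * T0 / L := by field_simp
  refine (Finset.sum_le_sum h2).trans ?_
  rw [← Finset.mul_sum]
  have hT0 : 0 ≤ T0 := ht0.trans ht
  have h5 : ∑ k ∈ s, ‖b k‖ ≤ Real.sqrt s.card * Real.sqrt (∑ k ∈ s, ‖b k‖ ^ 2) := by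
    rw [← Real.sqrt_mul (by positivity)]
    exact Real.le_sqrt_of_sq_le sq_sum_le_card_mul_sum_sq
  calc Real.pi * T0 / L * ∑ k ∈ s, ‖b k‖
      ≤ Real.pi * T0 / L * (Real.sqrt s.card * Real.sqrt (∑ k ∈ s, ‖b k‖ ^ 2)) :=
        mul_le_mul_of_nonneg_left h5 (by positivity)
    _ = (Real.pi * T0 * Real.sqrt s.card) / L * Real.sqrt (∑ k ∈ s, ‖b k‖ ^ 2) := by ring
    _ ≤ 1 * Real.sqrt (∑ k ∈ s, ‖b k‖ ^ 2) := by
        refine mul_le_mul_of_nonneg_right ?_ (Real.sqrt_nonneg _)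
        rw [div_le_one hL]
        have : 0 ≤ Real.pi * T0 * Real.sqrt s.card := by positivity
        linarith
    _ = _ := one_mul _

/-- the sum with rational frequencies, on `ℝ × X` -/
private noncomputable def Gf {r : ℕ} (s : Finset (Fin r → ℤ)) (b : (Fin r → ℤ) → ℂ)
    (m : (Fin r → ℤ) → ℤ) (z : ℝ × (Fin r → UnitAddCircle)) : ℂ :=
  ∑ k ∈ s, b k * ee (-(m k * z.1)) * STC.chr k z.2

private lemma Gf_cont {r : ℕ} (s : Finset (Fin r → ℤ)) (b : (Fin r → ℤ) → ℂ)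
    (m : (Fin r → ℤ) → ℤ) : Continuous (Gf s b m) := by
  unfold Gf
  refine continuous_finsetSum _ fun k _ => ?_
  have h1 : Continuous fun z : ℝ × (Fin r → UnitAddCircle) => ee (-(m k * z.1)) :=
    ee_cont.comp (by fun_prop)
  exact (continuous_const.mul h1).mul ((chr_cont k).comp continuous_snd)

private lemma sum_gk {r : ℕ} (M : ℕ) (s : Finset (Fin r → ℤ)) (b : (Fin r → ℤ) → ℂ)
    (m : (Fin r → ℤ) → ℤ) (u : ℝ) (x : Fin r → UnitAddCircle) :
    ‖∑ k ∈ s, b k * fourier (-m k) (u : UnitAddCircle) *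
      (DK M (u : UnitAddCircle) * (starRingEnd ℂ) (DK M (u : UnitAddCircle))) * STC.chr k x‖ =
      ‖DK M (u : UnitAddCircle)‖ ^ 2 * ‖Gf s b m (u, x)‖ := by
  have h1 : ∑ k ∈ s, b k * fourier (-m k) (u : UnitAddCircle) *
      (DK M (u : UnitAddCircle) * (starRingEnd ℂ) (DK M (u : UnitAddCircle))) * STC.chr k x =
      (DK M (u : UnitAddCircle) * (starRingEnd ℂ) (DK M (u : UnitAddCircle))) *
        Gf s b m (u, x) := by
    unfold Gf
    rw [Finset.mul_sum]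
    refine Finset.sum_congr rfl fun k _ => ?_
    rw [fourier_ee]
    push_cast
    rw [neg_mul]
    ring
  rw [h1, norm_mul, norm_mul, RCLike.norm_conj]
  ring

/-- passage from the interval to the torus -/
private lemma transfer {r M : ℕ} (hM : 1 ≤ M) {p : ℝ} (hp : 1 ≤ p) {s : Finset (Fin r → ℤ)}
    {b : (Fin r → ℤ) → ℂ} {m : (Fin r → ℤ) → ℤ} {L T0 : ℝ} (hL : 0 < L) (hT0 : 0 < T0)
    (hTL : T0 ≤ L) (hML : M * (T0 / L) ≤ 1 / 8) :
    ∫ t in (0 : ℝ)..T0, ∫ x : Fin r → UnitAddCircle, ‖Gf s b m (t / L, x)‖ ^ p ≤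
      L * (2 ^ p * ∫ ω : UnitAddTorus (Fin (r + 1)), ‖∑ k ∈ s, gk M m b k ω‖ ^ p) := by
  have hp0 : 0 < p := by linarith
  have hc1 : Continuous fun z : ℝ × (Fin r → UnitAddCircle) => ‖Gf s b m z‖ ^ p :=
    (Gf_cont s b m).norm.rpow_const fun _ => Or.inr hp0.le
  have hI1 : Continuous fun u : ℝ => ∫ x : Fin r → UnitAddCircle, ‖Gf s b m (u, x)‖ ^ p :=
    contI hc1
  set h2 : UnitAddCircle × (Fin r → UnitAddCircle) → ℝ := fun z =>
    ‖∑ k ∈ s, b k * fourier (-m k) z.1 * (DK M z.1 * (starRingEnd ℂ) (DK M z.1)) *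
      STC.chr k z.2‖ ^ p with hh2
  have hc2 : Continuous h2 := by
    have h3 : Continuous fun z : UnitAddCircle × (Fin r → UnitAddCircle) =>
        ∑ k ∈ s, b k * fourier (-m k) z.1 * (DK M z.1 * (starRingEnd ℂ) (DK M z.1)) *
          STC.chr k z.2 := by
      refine continuous_finsetSum _ fun k _ => ?_
      have e1 : Continuous fun z : UnitAddCircle × (Fin r → UnitAddCircle) => DK M z.1 :=
        (DK_cont M).comp continuous_fst
      have e2 : Continuous fun z : UnitAddCircle × (Fin r → UnitAddCircle) =>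
          fourier (-m k) z.1 := (fourier (-m k)).continuous.comp continuous_fst
      have e3 : Continuous fun z : UnitAddCircle × (Fin r → UnitAddCircle) =>
          (starRingEnd ℂ) (DK M z.1) := Complex.continuous_conj.comp e1
      exact ((continuous_const.mul e2).mul (e1.mul e3)).mul ((chr_cont k).comp continuous_snd)
    exact h3.norm.rpow_const fun _ => Or.inr hp0.le
  have hI2 : Continuous fun u : ℝ => ∫ x : Fin r → UnitAddCircle,
      h2 ((u : UnitAddCircle), x) := by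
    refine contI (E := fun z => h2 ((z.1 : UnitAddCircle), z.2)) ?_
    exact hc2.comp (((AddCircle.continuous_mk' 1).comp continuous_fst).prodMk continuous_snd)
  have hint : ∫ ω : UnitAddTorus (Fin (r + 1)), ‖∑ k ∈ s, gk M m b k ω‖ ^ p =
      ∫ u in (0 : ℝ)..1, ∫ x : Fin r → UnitAddCircle, h2 ((u : UnitAddCircle), x) := by
    have e1 := int_omega hc2
    have e2 := UnitAddCircle.intervalIntegral_preimage 0
      (fun u : UnitAddCircle => ∫ x : Fin r → UnitAddCircle, h2 (u, x))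
    rw [zero_add] at e2
    rw [e2, ← e1]
    rfl
  have hTL1 : T0 / L ≤ 1 := by rw [div_le_one hL]; exact hTL
  have hTL0 : 0 ≤ T0 / L := by positivity
  have key : ∀ u ∈ Set.Icc (0 : ℝ) (T0 / L),
      (∫ x : Fin r → UnitAddCircle, ‖Gf s b m (u, x)‖ ^ p) ≤
        2 ^ p * ∫ x : Fin r → UnitAddCircle, h2 ((u : UnitAddCircle), x) := by
    intro u hu
    rw [← integral_const_mul]
    have i1 : Integrable (fun x : Fin r → UnitAddCircle => ‖Gf s b m (u, x)‖ ^ p) volume := by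
      have : Continuous fun x : Fin r → UnitAddCircle => ‖Gf s b m (u, x)‖ ^ p :=
        hc1.comp (continuous_const.prodMk continuous_id)
      exact this.integrable_of_hasCompactSupport (HasCompactSupport.of_compactSpace _)
    have i2 : Integrable (fun x : Fin r → UnitAddCircle =>
        2 ^ p * h2 ((u : UnitAddCircle), x)) volume := by
      have : Continuous fun x : Fin r → UnitAddCircle => 2 ^ p * h2 ((u : UnitAddCircle), x) :=
        continuous_const.mul (hc2.comp (continuous_const.prodMk continuous_id))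
      exact this.integrable_of_hasCompactSupport (HasCompactSupport.of_compactSpace _)
    refine integral_mono i1 i2 fun x => ?_
    show ‖Gf s b m (u, x)‖ ^ p ≤ 2 ^ p * ‖_‖ ^ p
    rw [sum_gk, ← Real.mul_rpow (by norm_num) (by positivity)]
    refine Real.rpow_le_rpow (norm_nonneg _) ?_ hp0.le
    have hMu : (M : ℝ) * u ≤ 1 / 8 :=
      (mul_le_mul_of_nonneg_left hu.2 (Nat.cast_nonneg M)).trans hML
    have hD := DK_ge hM hu.1 hMu
    have hn := norm_nonneg (Gf s b m (u, x))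
    nlinarith
  calc ∫ t in (0 : ℝ)..T0, ∫ x : Fin r → UnitAddCircle, ‖Gf s b m (t / L, x)‖ ^ p
      = L * ∫ u in (0 : ℝ)..(T0 / L), ∫ x : Fin r → UnitAddCircle, ‖Gf s b m (u, x)‖ ^ p := by
        have := intervalIntegral.integral_comp_div (a := 0) (b := T0)
          (fun u : ℝ => ∫ x : Fin r → UnitAddCircle, ‖Gf s b m (u, x)‖ ^ p) hL.ne'
        rw [this, zero_div, smul_eq_mul]
    _ ≤ L * ∫ u in (0 : ℝ)..(T0 / L), 2 ^ p * ∫ x : Fin r → UnitAddCircle,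
          h2 ((u : UnitAddCircle), x) := by
        refine mul_le_mul_of_nonneg_left ?_ hL.le
        refine intervalIntegral.integral_mono_on hTL0 (hI1.intervalIntegrable _ _)
          ((continuous_const.mul hI2).intervalIntegrable _ _) key
    _ = L * (2 ^ p * ∫ u in (0 : ℝ)..(T0 / L), ∫ x : Fin r → UnitAddCircle,
          h2 ((u : UnitAddCircle), x)) := by
        rw [intervalIntegral.integral_const_mul]
    _ ≤ L * (2 ^ p * ∫ u in (0 : ℝ)..1, ∫ x : Fin r → UnitAddCircle,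
          h2 ((u : UnitAddCircle), x)) := by
        refine mul_le_mul_of_nonneg_left (mul_le_mul_of_nonneg_left ?_ (by positivity)) hL.le
        refine intervalIntegral.integral_mono_interval le_rfl hTL0 hTL1 ?_
          (hI2.intervalIntegrable _ _)
        refine Filter.Eventually.of_forall fun u => ?_
        exact integral_nonneg fun x => by positivity
    _ = _ := by rw [hint]


/-- the sum with real frequencies, on `ℝ × X` -/
private noncomputable def Ff {r : ℕ} (s : Finset (Fin r → ℤ)) (b : (Fin r → ℤ) → ℂ)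
    (th : (Fin r → ℤ) → ℝ) (z : ℝ × (Fin r → UnitAddCircle)) : ℂ :=
  ∑ k ∈ s, b k * ee (-(th k * z.1)) * STC.chr k z.2

private lemma Ff_cont {r : ℕ} (s : Finset (Fin r → ℤ)) (b : (Fin r → ℤ) → ℂ)
    (th : (Fin r → ℤ) → ℝ) : Continuous (Ff s b th) := by
  unfold Ff
  refine continuous_finsetSum _ fun k _ => ?_
  have h1 : Continuous fun z : ℝ × (Fin r → UnitAddCircle) => ee (-(th k * z.1)) :=
    ee_cont.comp (by fun_prop)
  exact (continuous_const.mul h1).mul ((chr_cont k).comp continuous_snd)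

private lemma Ff_eq {r : ℕ} (s : Finset (Fin r → ℤ)) (b : (Fin r → ℤ) → ℂ)
    {th : (Fin r → ℤ) → ℝ} {a : Fin r → ℝ}
    (hth : ∀ k : Fin r → ℤ, ∑ j, a j * (k j : ℝ) ^ 2 = 2 * Real.pi * th k) (t : ℝ)
    (x : Fin r → UnitAddCircle) :
    ∑ k ∈ s, b k * cexp (-((t * ∑ j, a j * (k j : ℝ) ^ 2 : ℝ) : ℂ) * I) * STC.chr k x =
      Ff s b th (t, x) := by
  unfold Ff
  refine Finset.sum_congr rfl fun k _ => ?_
  rw [hth]
  congr 2
  unfold ee
  congr 1
  push_cast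
  ring

private lemma Ff_int_le {r : ℕ} {p : ℝ} (hp : 1 ≤ p) {s : Finset (Fin r → ℤ)}
    {b : (Fin r → ℤ) → ℂ} {th : (Fin r → ℤ) → ℝ} {m : (Fin r → ℤ) → ℤ} {L T0 : ℝ}
    (hL : 0 < L) (hT0 : 0 < T0) (hth : ∀ k, |th k - m k / L| ≤ 1 / (2 * L))
    (hLs : 2 * Real.pi * T0 * Real.sqrt s.card ≤ L) :
    ∫ t in Set.Icc (0 : ℝ) T0, ∫ x : Fin r → UnitAddCircle, ‖Ff s b th (t, x)‖ ^ p ≤
      2 ^ p * ((∫ t in (0 : ℝ)..T0, ∫ x : Fin r → UnitAddCircle,
        ‖Gf s b m (t / L, x)‖ ^ p) + T0 * (∑ k ∈ s, ‖b k‖ ^ 2) ^ (p / 2)) := by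
  have hp0 : 0 < p := by linarith
  obtain ⟨B2, hB2⟩ : ∃ B2 : ℝ, B2 = ∑ k ∈ s, ‖b k‖ ^ 2 := ⟨_, rfl⟩
  have hB20 : 0 ≤ B2 := by rw [hB2]; positivity
  rw [← hB2]
  have hc1 : Continuous fun z : ℝ × (Fin r → UnitAddCircle) => ‖Gf s b m z‖ ^ p :=
    (Gf_cont s b m).norm.rpow_const fun _ => Or.inr hp0.le
  have hcF : Continuous fun z : ℝ × (Fin r → UnitAddCircle) => ‖Ff s b th z‖ ^ p :=
    (Ff_cont s b th).norm.rpow_const fun _ => Or.inr hp0.le
  have hcG : Continuous fun z : ℝ × (Fin r → UnitAddCircle) => ‖Gf s b m (z.1 / L, z.2)‖ ^ p :=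
    hc1.comp ((continuous_fst.div_const _).prodMk continuous_snd)
  have hIF : Continuous fun t : ℝ => ∫ x : Fin r → UnitAddCircle, ‖Ff s b th (t, x)‖ ^ p :=
    contI hcF
  have hIG : Continuous fun t : ℝ => ∫ x : Fin r → UnitAddCircle,
      ‖Gf s b m (t / L, x)‖ ^ p := contI hcG
  have hvol : (volume : Measure (Fin r → UnitAddCircle)).real Set.univ = 1 := by
    rw [Measure.real, volume_pi, Measure.pi_univ]
    simp
  have hpt : ∀ t ∈ Set.Icc (0 : ℝ) T0, (∫ x : Fin r → UnitAddCircle,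
      ‖Ff s b th (t, x)‖ ^ p) ≤ 2 ^ p * ((∫ x : Fin r → UnitAddCircle,
          ‖Gf s b m (t / L, x)‖ ^ p) + B2 ^ (p / 2)) := by
    intro t ht
    have i1 : Integrable (fun x : Fin r → UnitAddCircle => ‖Ff s b th (t, x)‖ ^ p) volume := by
      have : Continuous fun x : Fin r → UnitAddCircle => ‖Ff s b th (t, x)‖ ^ p :=
        hcF.comp (continuous_const.prodMk continuous_id)
      exact this.integrable_of_hasCompactSupport (HasCompactSupport.of_compactSpace _)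
    have i2 : Integrable (fun x : Fin r → UnitAddCircle => ‖Gf s b m (t / L, x)‖ ^ p)
        volume := by
      have : Continuous fun x : Fin r → UnitAddCircle => ‖Gf s b m (t / L, x)‖ ^ p :=
        hc1.comp (continuous_const.prodMk continuous_id)
      exact this.integrable_of_hasCompactSupport (HasCompactSupport.of_compactSpace _)
    have h5 : 2 ^ p * ((∫ x : Fin r → UnitAddCircle, ‖Gf s b m (t / L, x)‖ ^ p) +
        B2 ^ (p / 2)) = ∫ x : Fin r → UnitAddCircle,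
          2 ^ p * (‖Gf s b m (t / L, x)‖ ^ p + B2 ^ (p / 2)) := by
      rw [integral_const_mul, integral_add i2 (integrable_const _), integral_const, hvol,
        one_smul]
    rw [h5]
    refine integral_mono i1 ((i2.add (integrable_const _)).const_mul _) fun x => ?_
    have h8 := compare (s := s) (b := b) (th := th) (m := m) (L := L) (T0 := T0) (t := t)
      hL ht.1 ht.2 hth hLs x
    rw [← hB2] at h8
    have h9 : Real.sqrt B2 ^ p = B2 ^ (p / 2) := by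
      rw [Real.sqrt_eq_rpow, ← Real.rpow_mul hB20]
      congr 1
      ring
    calc ‖Ff s b th (t, x)‖ ^ p
        ≤ (‖Gf s b m (t / L, x)‖ + Real.sqrt B2) ^ p :=
          Real.rpow_le_rpow (norm_nonneg _) h8 hp0.le
      _ ≤ 2 ^ p * (‖Gf s b m (t / L, x)‖ ^ p + Real.sqrt B2 ^ p) :=
          pow_two_ineq hp (norm_nonneg _) (Real.sqrt_nonneg _)
      _ = _ := by rw [h9]
  calc ∫ t in Set.Icc (0 : ℝ) T0, ∫ x : Fin r → UnitAddCircle, ‖Ff s b th (t, x)‖ ^ p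
      ≤ ∫ t in Set.Icc (0 : ℝ) T0, 2 ^ p * ((∫ x : Fin r → UnitAddCircle,
          ‖Gf s b m (t / L, x)‖ ^ p) + B2 ^ (p / 2)) := by
        refine setIntegral_mono_on hIF.integrableOn_Icc ?_ measurableSet_Icc hpt
        exact (continuous_const.mul (hIG.add continuous_const)).integrableOn_Icc
    _ = _ := by
        rw [integral_Icc_eq_integral_Ioc, ← intervalIntegral.integral_of_le hT0.le,
          intervalIntegral.integral_const_mul, intervalIntegral.integral_add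
            (hIG.intervalIntegrable _ _) (intervalIntegrable_const),
          intervalIntegral.integral_const, sub_zero, smul_eq_mul]

private lemma exists_bounds {r : ℕ} (al : Fin r → ℝ) (hal : ∀ j, 0 < al j) :
    ∃ κ Λ : ℝ, 0 < κ ∧ κ ≤ 1 ∧ 1 ≤ Λ ∧ ∀ j, κ ≤ al j ∧ al j ≤ Λ := by
  have h1 : 0 ≤ ∑ j, 1 / al j := Finset.sum_nonneg fun j _ => (one_div_pos.2 (hal j)).le
  have h2 : 0 ≤ ∑ j, al j := Finset.sum_nonneg fun j _ => (hal j).le
  refine ⟨1 / (1 + ∑ j, 1 / al j), 1 + ∑ j, al j, by positivity, ?_, by linarith, ?_⟩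
  · rw [div_le_one (by positivity)]
    linarith
  · intro j
    constructor
    · have h3 : 1 / al j ≤ ∑ j, 1 / al j :=
        Finset.single_le_sum (f := fun j => 1 / al j) (fun i _ => (one_div_pos.2 (hal i)).le)
          (Finset.mem_univ j)
      rw [div_le_iff₀ (by positivity)]
      have h4 : al j * (1 / al j) = 1 := mul_one_div_cancel (hal j).ne'
      have h5 := mul_le_mul_of_nonneg_left h3 (hal j).le
      nlinarith [hal j]
    · have h3 : al j ≤ ∑ j, al j :=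
        Finset.single_le_sum (f := fun j => al j) (fun i _ => (hal i).le) (Finset.mem_univ j)
      linarith

theorem discRes {r : ℕ} (hr : 1 ≤ r) {p : ℝ} (hp : 1 ≤ p)
    (H : ∀ ε : ℝ, 0 < ε → ∃ C : ℝ≥0∞, C ≠ ∞ ∧ ∀ N : ℝ, 1 ≤ N →
      DecB r p N (C * ENNReal.ofReal (N ^ ε)))
    (a : Fin r → ℝ) (ha : ∀ j, 0 < a j) (ε : ℝ) (hε : 0 < ε) (T0 : ℝ) (hT0 : 0 < T0) :
    ∃ C : ℝ, 0 < C ∧ ∀ N : ℕ, 1 ≤ N →
      ∀ (s : Finset (Fin r → ℤ)) (b : (Fin r → ℤ) → ℂ), (∀ k ∈ s, ∀ j, |(k j : ℝ)| ≤ N) →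
      ∫ t in Set.Icc (0 : ℝ) T0, ∫ x : Fin r → UnitAddCircle,
        ‖∑ k ∈ s, b k * cexp (-((t * ∑ j, a j * (k j : ℝ) ^ 2 : ℝ) : ℂ) * I) *
          STC.chr k x‖ ^ p ≤
        C * (N : ℝ) ^ ε * (∑ k ∈ s, ‖b k‖ ^ 2) ^ (p / 2) := by
  have hp0 : 0 < p := by linarith
  have hpi := Real.pi_pos
  obtain ⟨al, hal⟩ : ∃ al : Fin r → ℝ, ∀ j, al j = Real.sqrt (a j / (2 * Real.pi)) :=
    ⟨_, fun _ => rfl⟩
  have hal0 : ∀ j, 0 < al j := fun j => by
    rw [hal]; exact Real.sqrt_pos.2 (div_pos (ha j) (by positivity))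
  have hal2 : ∀ j, 2 * Real.pi * (al j) ^ 2 = a j := fun j => by
    rw [hal, Real.sq_sqrt (div_pos (ha j) (by positivity)).le]
    field_simp
  obtain ⟨κ, Λ, hκ, hκ1, hΛ, hb⟩ := exists_bounds al hal0
  obtain ⟨lam, hlam⟩ : ∃ lam : ℝ, lam = min (κ ^ 2 / 4) (1 / (8 * T0)) := ⟨_, rfl⟩
  have hlam0 : 0 < lam := by rw [hlam]; positivity
  have hlam1 : lam ≤ κ ^ 2 / 4 := by rw [hlam]; exact min_le_left _ _
  have hlam2 : lam * T0 ≤ 1 / 8 := by
    have : lam ≤ 1 / (8 * T0) := by rw [hlam]; exact min_le_right _ _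
    calc lam * T0 ≤ 1 / (8 * T0) * T0 := mul_le_mul_of_nonneg_right this hT0.le
      _ = 1 / 8 := by field_simp
  obtain ⟨C0, hC0, hdec⟩ := H (ε / p) (by positivity)
  refine ⟨2 ^ p * (2 ^ p * (C0.toReal ^ p * (2 * Λ / κ) ^ ε * (2 / lam)) + T0), by positivity,
    fun N hN s b hk => ?_⟩
  have hNr : (1 : ℝ) ≤ N := by exact_mod_cast hN
  obtain ⟨σ, hσd⟩ : ∃ σ : ℝ, σ = 1 / (2 * N * Λ) := ⟨_, rfl⟩
  have hΛ0 : 0 < Λ := by linarith
  have hσ : 0 < σ := by rw [hσd]; positivity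
  have hσN : σ * Λ * N = 1 / 2 := by
    rw [hσd]
    have : (N : ℝ) ≠ 0 := by positivity
    field_simp
  obtain ⟨N', hN'⟩ : ∃ N' : ℝ, N' = 1 / (σ * κ) := ⟨_, rfl⟩
  have hN'e : N' = 2 * Λ / κ * N := by
    rw [hN', hσd]
    have : (N : ℝ) ≠ 0 := by positivity
    field_simp
  have hN'1 : 1 ≤ N' := by
    rw [hN'e]
    have h1 : 1 ≤ 2 * Λ / κ := by
      rw [le_div_iff₀ hκ]
      linarith
    calc (1 : ℝ) = 1 * 1 := (mul_one 1).symm
      _ ≤ 2 * Λ / κ * N := mul_le_mul h1 hNr zero_le_one (by linarith)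
  have hN'0 : 0 < N' := by linarith
  -- the denominator `L`
  obtain ⟨L, hL⟩ := exists_nat_ge (1 / κ ^ 2 + 2 / lam + T0 +
    2 * Real.pi * T0 * Real.sqrt s.card)
  have q1 : 0 < 1 / κ ^ 2 := by positivity
  have q2 : 0 < 2 / lam := by positivity
  have q3 : 0 ≤ 2 * Real.pi * T0 * Real.sqrt s.card := by positivity
  have hL0 : (0 : ℝ) < L := by linarith
  have hLκ : 1 / (L : ℝ) ≤ κ ^ 2 := by
    have h1 : 1 / κ ^ 2 ≤ L := by linarith
    rw [div_le_iff₀ hL0]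
    rw [div_le_iff₀ (by positivity)] at h1
    linarith
  have hLlam : 2 ≤ lam * L := by
    have h1 : 2 / lam ≤ L := by linarith
    rw [div_le_iff₀ hlam0] at h1
    linarith
  have hLT : T0 ≤ L := by linarith
  have hLs : 2 * Real.pi * T0 * Real.sqrt s.card ≤ L := by linarith
  obtain ⟨M, hMd⟩ : ∃ M : ℕ, M = ⌊lam * L⌋₊ := ⟨_, rfl⟩
  have hMle : (M : ℝ) ≤ lam * L := by rw [hMd]; exact Nat.floor_le (by positivity)
  have hMlt : lam * L < M + 1 := by rw [hMd]; exact Nat.lt_floor_add_one _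
  have hMge : lam * L / 2 ≤ M := by linarith
  have hM1 : 1 ≤ M := by
    have : (1 : ℝ) ≤ M := by linarith
    exact_mod_cast this
  have hM0 : (0 : ℝ) < M := by exact_mod_cast hM1
  obtain ⟨th, hthd⟩ : ∃ th : (Fin r → ℤ) → ℝ, ∀ k, th k = ∑ j, (al j) ^ 2 * (k j : ℝ) ^ 2 :=
    ⟨_, fun _ => rfl⟩
  obtain ⟨m, hmd⟩ : ∃ m : (Fin r → ℤ) → ℤ, ∀ k, m k = round (L * th k) := ⟨_, fun _ => rfl⟩
  have hth : ∀ k, |th k - m k / L| ≤ 1 / (2 * L) := by
    intro k
    have h1 := abs_sub_round (L * th k)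
    rw [← hmd] at h1
    have h2 : th k - m k / L = (L * th k - m k) / L := by field_simp
    rw [h2, abs_div, abs_of_pos hL0, div_le_iff₀ hL0]
    have h3 : 1 / (2 * (L : ℝ)) * L = 1 / 2 := by field_simp
    rw [h3]
    exact h1
  -- decoupling
  have hdec1 := hdec N' hN'1
  have hA : C0 * ENNReal.ofReal (N' ^ (ε / p)) ≠ ∞ := ENNReal.mul_ne_top hC0 ENNReal.ofReal_ne_top
  have hD := DecB_resc (d := r) (p := p) (N := N') (ρ := 1)
    (A := C0 * ENNReal.ofReal (N' ^ (ε / p))) one_pos hN'0 (by rw [mul_one]; exact hdec1)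
    (μ := (volume : Measure (UnitAddTorus (Fin (r + 1)))))
    (torFlow_flow (fl σ L al)) (torFlow_dense (fl σ L al)) 0 (fun _ => -(1 / 2)) s
    (fun k j => σ * al j * k j) (gk M m b)
    (by
      intro k hks j
      have h1 : |σ * al j * (k j : ℝ)| ≤ 1 / 2 := by
        rw [abs_mul, abs_of_pos (mul_pos hσ (hal0 j)), ← hσN]
        exact mul_le_mul (mul_le_mul_of_nonneg_left (hb j).2 hσ.le) (hk k hks j)
          (abs_nonneg _) (by positivity)
      rw [abs_le] at h1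
      constructor <;> linarith [h1.1, h1.2])
    (by
      intro k _ k' _ hkk
      obtain ⟨i, hi⟩ := Function.ne_iff.1 hkk
      refine ⟨i, ?_⟩
      have h1 : σ * al i * (k i : ℝ) - σ * al i * (k' i : ℝ) = σ * al i * ((k i - k' i : ℤ) : ℝ) := by
        push_cast
        ring
      rw [h1, abs_mul, abs_of_pos (mul_pos hσ (hal0 i)), hN', one_div_one_div]
      have h2 : (1 : ℝ) ≤ |((k i - k' i : ℤ) : ℝ)| := by
        have h3 : 1 ≤ |k i - k' i| := Int.one_le_abs (sub_ne_zero.2 hi)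
        exact_mod_cast h3
      calc σ * κ = σ * κ * 1 := (mul_one _).symm
        _ ≤ σ * al i * |((k i - k' i : ℤ) : ℝ)| :=
          mul_le_mul (mul_le_mul_of_nonneg_left (hb i).1 hσ.le) h2 zero_le_one
            (mul_pos hσ (hal0 i)).le)
    (by
      intro k _
      rw [hN']
      refine gk_mem hσ hκ hL0 ?_ ?_ hLκ
      · rw [← hthd]; exact hth k
      · rw [div_le_iff₀ hL0]
        exact hMle.trans (mul_le_mul_of_nonneg_right hlam1 hL0.le))
  have hG := int_gk_le hM1 hp m b s hA hD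
  obtain ⟨B2, hB2⟩ : ∃ B2 : ℝ, B2 = ∑ k ∈ s, ‖b k‖ ^ 2 := ⟨_, rfl⟩
  have hB20 : 0 ≤ B2 := by rw [hB2]; positivity
  rw [← hB2] at hG ⊢
  have hML : (M : ℝ) * (T0 / L) ≤ 1 / 8 := by
    calc (M : ℝ) * (T0 / L) ≤ lam * L * (T0 / L) :=
          mul_le_mul_of_nonneg_right hMle (by positivity)
      _ = lam * T0 := by field_simp
      _ ≤ 1 / 8 := hlam2
  have hTr := transfer hM1 hp (s := s) (b := b) (m := m) hL0 hT0 hLT hML
  -- the constants
  have hconst : L * (2 ^ p * ∫ ω : UnitAddTorus (Fin (r + 1)), ‖∑ k ∈ s, gk M m b k ω‖ ^ p) ≤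
      2 ^ p * (C0.toReal ^ p * (2 * Λ / κ) ^ ε * (2 / lam)) * (N : ℝ) ^ ε * B2 ^ (p / 2) := by
    have h1 : (C0 * ENNReal.ofReal (N' ^ (ε / p))).toReal ^ p =
        C0.toReal ^ p * ((2 * Λ / κ) ^ ε * (N : ℝ) ^ ε) := by
      rw [ENNReal.toReal_mul, ENNReal.toReal_ofReal (by positivity),
        Real.mul_rpow ENNReal.toReal_nonneg (by positivity), ← Real.rpow_mul hN'0.le,
        div_mul_cancel₀ _ hp0.ne', hN'e, Real.mul_rpow (by positivity) (by positivity)]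
    rw [h1] at hG
    have h2 : (L : ℝ) * (1 / M) ≤ 2 / lam := by
      rw [mul_one_div, div_le_div_iff₀ hM0 hlam0]
      linarith
    calc L * (2 ^ p * ∫ ω : UnitAddTorus (Fin (r + 1)), ‖∑ k ∈ s, gk M m b k ω‖ ^ p)
        ≤ L * (2 ^ p * (C0.toReal ^ p * ((2 * Λ / κ) ^ ε * (N : ℝ) ^ ε) * (1 / M) *
            B2 ^ (p / 2))) :=
          mul_le_mul_of_nonneg_left (mul_le_mul_of_nonneg_left hG (by positivity)) hL0.le
      _ = 2 ^ p * (C0.toReal ^ p * (2 * Λ / κ) ^ ε * (L * (1 / M))) * (N : ℝ) ^ ε *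
            B2 ^ (p / 2) := by ring
      _ ≤ _ := by
          refine mul_le_mul_of_nonneg_right (mul_le_mul_of_nonneg_right
            (mul_le_mul_of_nonneg_left (mul_le_mul_of_nonneg_left h2 (by positivity))
              (by positivity)) (by positivity)) (by positivity)
  have hth2 : ∀ k : Fin r → ℤ, ∑ j, a j * (k j : ℝ) ^ 2 = 2 * Real.pi * th k := by
    intro k
    rw [hthd, Finset.mul_sum]
    refine Finset.sum_congr rfl fun j _ => ?_
    rw [← hal2 j]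
    ring
  simp_rw [Ff_eq s b hth2]
  have hF := Ff_int_le hp (s := s) (b := b) hL0 hT0 hth hLs
  rw [← hB2] at hF
  have hNε : (1 : ℝ) ≤ (N : ℝ) ^ ε := Real.one_le_rpow hNr hε.le
  refine hF.trans ?_
  calc 2 ^ p * ((∫ t in (0 : ℝ)..T0, ∫ x : Fin r → UnitAddCircle,
          ‖Gf s b m (t / L, x)‖ ^ p) + T0 * B2 ^ (p / 2))
      ≤ 2 ^ p * (2 ^ p * (C0.toReal ^ p * (2 * Λ / κ) ^ ε * (2 / lam)) * (N : ℝ) ^ ε *
          B2 ^ (p / 2) + T0 * ((N : ℝ) ^ ε * B2 ^ (p / 2))) := by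
        refine mul_le_mul_of_nonneg_left (add_le_add (hTr.trans hconst) ?_) (by positivity)
        refine mul_le_mul_of_nonneg_left ?_ hT0.le
        have h10 : 0 ≤ B2 ^ (p / 2) := by positivity
        nlinarith
    _ = _ := by ring

end BDDK
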