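import Mathlib
import Pool.Agent.BDD.BICap
import Pool.Agent.BDD.Norms

/-!
# BDD/LocC (OPEN MODULE): pointwise bounds for pieces

PROOF of `locC`. `rep_bound_pow` (BDD/Rep) with `q = 2`, `A0 = AC d (1/2) 0`, at the point `T y ω`
(`Spec_mono` and `Cap_sub_Box` (BDD/Dec)): `‖f (T y ω)‖ₑ^2 ≤ ofReal (Crep n)^2 * cW n * Av T (KT A0) G (T y ω)`,
`n = d + 1`, `G = ‖f‖ₑ^2`. `Av T (KT A0) G (T y ω) = ∫⁻ z, KT A0 z * G (T z (T y ω)) = ∫⁻ z, KT A0 (z - y) * G (T z ω)`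
(`hT.add`, `lintegral_add_right_eq_self`, see `Av_Av` in BDD/Orth2). `AC_low` (BDD/BICap, `N = 1/2`, `c = 0`):
`‖z - y‖ ≤ ‖A0 (z - y)‖`, hence
`KT A0 (z - y) ≤ |det A0| (1 + ‖z - y‖)^-(2n+2) ≤ |det A0| (1 + ‖z - y‖/R)^-(n+1) = |det A0| R^n W R (z - y)
 ≤ |det A0| R^n 2^(n+1) W R z` (`W_add_le_two` (BDD/KakKer), `‖-y‖ ≤ R`; `R ≥ 1`).
`C = 1 + ofReal (Crep n)^2 * cW n * ofReal |det A0| * 2^(n+1)`.

PROOF of `Spec_T0`: span induction, `ee 0 = 1`.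

PROOF of `max_term`: `Av_rpow` (BDD/Norms) with `a = p/2`, `lintegral_Av`, `lintegral_W`, `nrm_rpow`.
-/

open MeasureTheory Finset
open scoped ENNReal

namespace BDDK

private theorem locC_kt (d : ℕ) {R : ℝ} (hR : 1 ≤ R) (x y : Fin (d + 1) → ℝ) (hy : ‖y‖ ≤ R) :
    KT (AC d (1 / 2) 0) (x - y) ≤ ENNReal.ofReal |LinearMap.det (AC d (1 / 2) 0)| *
      (2 ^ (d + 1 + 1) * (ENNReal.ofReal (R ^ (d + 1)) * W R x)) := by
  have hR0 : 0 < R := by linarith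
  set A0 := AC d (1 / 2) (0 : Fin d → ℝ) with hA0
  have h1 : KT A0 (x - y) ≤ ENNReal.ofReal |LinearMap.det A0| *
      (ENNReal.ofReal (R ^ (d + 1)) * W R (x - y)) := by
    have hlow : ‖x - y‖ ≤ ‖A0 (x - y)‖ := by
      have h := AC_low (d := d) (N := 1 / 2) le_rfl (c := (0 : Fin d → ℝ)) (by simp) (x - y)
      rw [← hA0] at h
      calc ‖x - y‖ ≤ 4 * (1 / 2) ^ 2 * ‖A0 (x - y)‖ := h
        _ = ‖A0 (x - y)‖ := by ring
    unfold KT W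
    rw [← ENNReal.ofReal_mul (by positivity), ← ENNReal.ofReal_mul (abs_nonneg _)]
    apply ENNReal.ofReal_le_ofReal
    refine mul_le_mul_of_nonneg_left ?_ (abs_nonneg _)
    have e : R ^ (d + 1) * ((R⁻¹) ^ (d + 1) * ((1 + ‖x - y‖ / R)⁻¹) ^ (d + 1 + 1)) =
        ((1 + ‖x - y‖ / R)⁻¹) ^ (d + 1 + 1) := by
      rw [← mul_assoc, ← mul_pow, mul_inv_cancel₀ hR0.ne', one_pow, one_mul]
    rw [e]
    have hx0 : 0 ≤ ‖x - y‖ := norm_nonneg _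
    have hle : 1 + ‖x - y‖ / R ≤ 1 + ‖A0 (x - y)‖ := by
      have : ‖x - y‖ / R ≤ ‖x - y‖ := div_le_self hx0 hR
      linarith
    have h0 : (0 : ℝ) < 1 + ‖x - y‖ / R := by positivity
    have hA1 : (1 + ‖A0 (x - y)‖)⁻¹ ≤ 1 := by
      apply inv_le_one_of_one_le₀
      have := norm_nonneg (A0 (x - y))
      linarith
    calc ((1 + ‖A0 (x - y)‖)⁻¹) ^ (2 * (d + 1) + 2)
        ≤ ((1 + ‖A0 (x - y)‖)⁻¹) ^ (d + 1 + 1) := by
          apply pow_le_pow_of_le_one (by positivity) hA1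
          omega
      _ ≤ ((1 + ‖x - y‖ / R)⁻¹) ^ (d + 1 + 1) := by
          gcongr
  have h2 : W R (x - y) ≤ 2 ^ (d + 1 + 1) * W R x := by
    have h := W_add_le_two hR0 x (-y) (by rwa [norm_neg])
    rwa [← sub_eq_add_neg] at h
  calc KT A0 (x - y) ≤ ENNReal.ofReal |LinearMap.det A0| *
      (ENNReal.ofReal (R ^ (d + 1)) * W R (x - y)) := h1
    _ ≤ ENNReal.ofReal |LinearMap.det A0| *
      (ENNReal.ofReal (R ^ (d + 1)) * (2 ^ (d + 1 + 1) * W R x)) := by gcongr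
    _ = _ := by ring

theorem locC (d : ℕ) : ∃ C : ℝ≥0∞, C ≠ ∞ ∧ 1 ≤ C ∧ ∀ (Ω : Type) [MeasurableSpace Ω] (μ : Measure Ω)
    (T : (Fin (d + 1) → ℝ) → Ω → Ω) (_ : Flow μ T) (R : ℝ) (_ : 1 ≤ R) (ξ0 : Fin (d + 1) → ℝ)
    (f : Ω → ℂ) (_ : f ∈ Spec T (Cap d (1 / 2) ξ0 0)) (ω : Ω) (y : Fin (d + 1) → ℝ) (_ : ‖y‖ ≤ R),
    ‖f (T y ω)‖ₑ ^ 2 ≤
      C * ENNReal.ofReal (R ^ (d + 1)) * Av T (W R) (fun ω => ‖f ω‖ₑ ^ 2) ω := by
  refine ⟨1 + ENNReal.ofReal (Crep (d + 1)) ^ 2 * cW (d + 1) *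
    ENNReal.ofReal |LinearMap.det (AC d (1 / 2) 0)| * 2 ^ (d + 1 + 1), ?_, le_self_add, ?_⟩
  · refine ENNReal.add_ne_top.2 ⟨ENNReal.one_ne_top, ?_⟩
    exact ENNReal.mul_ne_top (ENNReal.mul_ne_top (ENNReal.mul_ne_top
      (ENNReal.pow_ne_top ENNReal.ofReal_ne_top) (cW_lt_top _).ne) ENNReal.ofReal_ne_top)
      (ENNReal.pow_ne_top (by norm_num))
  intro Ω _ μ T hT R hR ξ0 f hf ω y hy
  have hf' : f ∈ Spec T (BoxSet (ξ0 + Fin.cons (∑ i, (0 : Fin d → ℝ) i ^ 2) (0 : Fin d → ℝ))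
      (AC d (1 / 2) 0)) := Spec_mono (Cap_sub_Box (by norm_num) ξ0 0) hf
  have h := rep_bound_pow (AC_det (by norm_num : (1 / 2 : ℝ) ≠ 0) 0) hf' (q := 2) (by norm_num)
    (T y ω)
  have e1 : (2 : ℝ) - 1 = 1 := by norm_num
  rw [e1, ENNReal.rpow_one] at h
  simp only [ENNReal.rpow_ofNat] at h
  set G : Ω → ℝ≥0∞ := fun ω => ‖f ω‖ₑ ^ 2 with hG
  have hAv : Av T (KT (AC d (1 / 2) 0)) G (T y ω) ≤
      ENNReal.ofReal |LinearMap.det (AC d (1 / 2) 0)| * 2 ^ (d + 1 + 1) *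
        (ENNReal.ofReal (R ^ (d + 1)) * Av T (W R) G ω) := by
    have e2 : Av T (KT (AC d (1 / 2) 0)) G (T y ω) =
        ∫⁻ z, KT (AC d (1 / 2) 0) (z - y) * G (T z ω) := by
      unfold Av
      have := lintegral_add_right_eq_self (μ := (volume : Measure (Fin (d + 1) → ℝ)))
        (fun z => KT (AC d (1 / 2) 0) (z - y) * G (T z ω)) y
      rw [← this]
      refine lintegral_congr fun z => ?_
      rw [add_sub_cancel_right, hT.add]
    rw [e2]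
    calc ∫⁻ z, KT (AC d (1 / 2) 0) (z - y) * G (T z ω)
        ≤ ∫⁻ z, (ENNReal.ofReal |LinearMap.det (AC d (1 / 2) 0)| * 2 ^ (d + 1 + 1) *
            ENNReal.ofReal (R ^ (d + 1))) * (W R z * G (T z ω)) := by
          refine lintegral_mono fun z => ?_
          calc KT (AC d (1 / 2) 0) (z - y) * G (T z ω)
              ≤ (ENNReal.ofReal |LinearMap.det (AC d (1 / 2) 0)| *
                (2 ^ (d + 1 + 1) * (ENNReal.ofReal (R ^ (d + 1)) * W R z))) * G (T z ω) := by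
                gcongr
                exact locC_kt d hR z y hy
            _ = _ := by ring
      _ = (ENNReal.ofReal |LinearMap.det (AC d (1 / 2) 0)| * 2 ^ (d + 1 + 1) *
            ENNReal.ofReal (R ^ (d + 1))) * ∫⁻ z, W R z * G (T z ω) := by
          rw [lintegral_const_mul']
          exact ENNReal.mul_ne_top (ENNReal.mul_ne_top ENNReal.ofReal_ne_top
            (ENNReal.pow_ne_top (by norm_num))) ENNReal.ofReal_ne_top
      _ = _ := by unfold Av; ring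
  calc ‖f (T y ω)‖ₑ ^ 2 ≤ ENNReal.ofReal (Crep (d + 1)) ^ 2 * cW (d + 1) *
        Av T (KT (AC d (1 / 2) 0)) G (T y ω) := h
    _ ≤ ENNReal.ofReal (Crep (d + 1)) ^ 2 * cW (d + 1) *
        (ENNReal.ofReal |LinearMap.det (AC d (1 / 2) 0)| * 2 ^ (d + 1 + 1) *
        (ENNReal.ofReal (R ^ (d + 1)) * Av T (W R) G ω)) := by gcongr
    _ = (ENNReal.ofReal (Crep (d + 1)) ^ 2 * cW (d + 1) *
        ENNReal.ofReal |LinearMap.det (AC d (1 / 2) 0)| * 2 ^ (d + 1 + 1)) *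
        ENNReal.ofReal (R ^ (d + 1)) * Av T (W R) G ω := by ring
    _ ≤ _ := by
        gcongr
        exact le_add_self

theorem Spec_T0 {n : ℕ} {Ω : Type*} [MeasurableSpace Ω] {T : (Fin n → ℝ) → Ω → Ω}
    {A : Set (Fin n → ℝ)} {f : Ω → ℂ} (hf : f ∈ Spec T A) (ω : Ω) : f (T 0 ω) = f ω := by
  induction hf using Submodule.span_induction with
  | mem x hx =>
    obtain ⟨ξ, _, h⟩ := hx
    rw [h.eig]
    simp [ee_zero]
  | zero => rfl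
  | add x y _ _ hx hy => simp only [Pi.add_apply, hx, hy]
  | smul a x _ hx => simp only [Pi.smul_apply, hx]

theorem max_term {n : ℕ} {Ω : Type*} [MeasurableSpace Ω] {μ : Measure Ω} [IsFiniteMeasure μ]
    {T : (Fin n → ℝ) → Ω → Ω} (hT : Flow μ T) {A : Set (Fin n → ℝ)} {f : Ω → ℂ}
    (hf : f ∈ Spec T A) {p R : ℝ} (hp : 2 ≤ p) (hR : 0 < R) :
    ∫⁻ ω, (Av T (W R) (fun ω => ‖f ω‖ₑ ^ 2) ω) ^ (p / 2) ∂μ ≤ cW n ^ (p / 2) * nrm μ p f ^ p := by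
  have hp0 : 0 < p := by linarith
  have hp2 : 1 ≤ p / 2 := by linarith
  have hfm : Measurable f := Spec_meas hf
  have e : ∀ ω, (‖f ω‖ₑ ^ 2) ^ (p / 2) = ‖f ω‖ₑ ^ p := by
    intro ω
    rw [← ENNReal.rpow_natCast, ← ENNReal.rpow_mul]
    congr 1
    push_cast
    ring
  calc ∫⁻ ω, (Av T (W R) (fun ω => ‖f ω‖ₑ ^ 2) ω) ^ (p / 2) ∂μ
      ≤ ∫⁻ ω, (∫⁻ x : Fin n → ℝ, W R x) ^ (p / 2 - 1) *
          Av T (W R) (fun ω => (‖f ω‖ₑ ^ 2) ^ (p / 2)) ω ∂μ := by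
        refine lintegral_mono fun ω => ?_
        refine Av_rpow (W_meas R) hp2 ω ?_
        exact (Spec_orbit_cont hf ω).measurable.enorm.pow_const 2
    _ = cW n ^ (p / 2 - 1) * (cW n * ∫⁻ ω, ‖f ω‖ₑ ^ p ∂μ) := by
        simp_rw [e]
        rw [lintegral_W hR, lintegral_const_mul', lintegral_Av hT (W_meas R) (by fun_prop),
          lintegral_W hR]
        exact ENNReal.rpow_ne_top_of_nonneg (by linarith) (cW_lt_top n).ne
    _ = cW n ^ (p / 2) * nrm μ p f ^ p := by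
        rw [nrm_rpow μ hp0, ← mul_assoc]
        congr 1
        by_cases h0 : cW n = 0
        · rw [h0, mul_zero, ENNReal.zero_rpow_of_pos (by linarith)]
        · nth_rewrite 2 [← ENNReal.rpow_one (cW n)]
          rw [← ENNReal.rpow_add _ _ h0 (cW_lt_top n).ne]
          congr 1
          ring

end BDDK
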