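import Mathlib
import Pool.Agent.BDD.Norms

/-!
# BDD/KerR2 (OPEN MODULE): scaled positive band-limited kernel with pointwise lower bound

PROOF. `φ, C, c, δ` from `exists_kerP n (2*n+2)` (BDD/KerN); `φ R x = (R⁻¹)^n * φ (R⁻¹ • x)` exactly as in
`exists_kerR` (BDD/Orth2: copy the proofs of continuity, integrability and of the vanishing Fourier
transform). `δ' = min δ 1`. Lower bound: `‖R⁻¹ • x‖ ≤ δ' ≤ δ`. Mass: `∫⁻ ofReal (φ R x) = ∫⁻ ofReal (φ x)`
(scaling) `≤ C cW n`; or directly from the upper bound `φ x ≤ C (1+‖x‖)^-(2n+2)` and `lintegral_KT_le`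
(BDD/Rep) with `A = R⁻¹ • id` as in `exists_kerR`.
-/

open MeasureTheory Finset
open scoped ENNReal

namespace BDDK

theorem exists_kerR2 (n : ℕ) : ∃ (φ : ℝ → (Fin n → ℝ) → ℝ) (c δ C : ℝ), 0 < c ∧ 0 < δ ∧ δ ≤ 1 ∧
    0 ≤ C ∧ ∀ R : ℝ, 0 < R → Continuous (φ R) ∧ (∀ x, 0 ≤ φ R x) ∧ Integrable (φ R) ∧
      (∀ η : Fin n → ℝ, (∃ i, 1 / R ≤ |η i|) → ∫ x, (φ R x : ℂ) * ee (∑ i, η i * x i) = 0) ∧
      (∀ x, ‖x‖ ≤ δ * R → c * (R⁻¹) ^ n ≤ φ R x) ∧
      ∫⁻ x, ENNReal.ofReal (φ R x) ≤ ENNReal.ofReal C := by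
  obtain ⟨φ, hφc, hφ0, ⟨C, hC, hCx⟩, ⟨c, hc, δ, hδ, hcx⟩, hφi, hφη⟩ := exists_kerP n (2 * n + 2)
  refine ⟨fun R x => (R⁻¹) ^ n * φ (R⁻¹ • x), c, min δ 1, C * (cW n).toReal, hc,
    lt_min hδ one_pos, min_le_right _ _, by positivity, ?_⟩
  intro R hR
  have hRi : 0 < R⁻¹ := by positivity
  refine ⟨by fun_prop, fun x => mul_nonneg (by positivity) (hφ0 _), ?_, ?_, ?_, ?_⟩
  · exact (hφi.comp_smul hRi.ne').const_mul _
  · rintro η ⟨i, hi⟩
    have h1 : ∀ x : Fin n → ℝ, (((R⁻¹) ^ n * φ (R⁻¹ • x) : ℝ) : ℂ) * ee (∑ i, η i * x i) =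
        ((R⁻¹) ^ n : ℝ) • ((φ (R⁻¹ • x) : ℂ) * ee (∑ i, (R • η) i * (R⁻¹ • x) i)) := by
      intro x
      rw [Complex.real_smul, Complex.ofReal_mul, mul_assoc]
      congr 3
      refine Finset.sum_congr rfl fun j _ => ?_
      simp only [Pi.smul_apply, smul_eq_mul]
      field_simp
    simp_rw [h1]
    rw [integral_smul]
    have h2 := Measure.integral_comp_smul (volume : Measure (Fin n → ℝ))
      (fun z => (φ z : ℂ) * ee (∑ i, (R • η) i * z i)) R⁻¹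
    rw [h2, hφη (R • η) ⟨i, ?_⟩]
    · simp
    · simp only [Pi.smul_apply, smul_eq_mul, abs_mul, abs_of_pos hR]
      rw [div_le_iff₀ hR] at hi
      linarith
  · intro x hx
    show c * (R⁻¹) ^ n ≤ (R⁻¹) ^ n * φ (R⁻¹ • x)
    rw [mul_comm c]
    gcongr
    apply hcx
    rw [norm_smul, Real.norm_of_nonneg hRi.le]
    calc R⁻¹ * ‖x‖ ≤ R⁻¹ * (min δ 1 * R) := by gcongr
      _ = min δ 1 := by field_simp
      _ ≤ δ := min_le_left _ _
  · set A : (Fin n → ℝ) →ₗ[ℝ] (Fin n → ℝ) := R⁻¹ • LinearMap.id with hA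
    have hdet : LinearMap.det A = (R⁻¹) ^ n := by
      rw [hA, LinearMap.det_smul]; simp
    have hdet0 : LinearMap.det A ≠ 0 := by rw [hdet]; positivity
    have hAx : ∀ x, A x = R⁻¹ • x := fun x => by simp [hA]
    have hcW : cW n ≠ ∞ := (cW_lt_top n).ne
    calc ∫⁻ x, ENNReal.ofReal ((R⁻¹) ^ n * φ (R⁻¹ • x))
        ≤ ∫⁻ x, ENNReal.ofReal C * KT A x := by
          apply lintegral_mono
          intro x
          show ENNReal.ofReal ((R⁻¹) ^ n * φ (R⁻¹ • x)) ≤ ENNReal.ofReal C * KT A x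
          unfold KT
          rw [← ENNReal.ofReal_mul (by positivity), hdet, hAx, abs_of_nonneg (by positivity)]
          apply ENNReal.ofReal_le_ofReal
          calc (R⁻¹) ^ n * φ (R⁻¹ • x)
              ≤ (R⁻¹) ^ n * (C * ((1 + ‖R⁻¹ • x‖)⁻¹) ^ (2 * n + 2)) := by
                gcongr
                exact hCx _
            _ = _ := by ring
      _ = ENNReal.ofReal C * ∫⁻ x, KT A x := by
          rw [lintegral_const_mul]
          exact KT_meas A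
      _ ≤ ENNReal.ofReal C * cW n := by
          gcongr
          exact lintegral_KT_le A hdet0
      _ = ENNReal.ofReal (C * (cW n).toReal) := by
          rw [ENNReal.ofReal_mul (by positivity), ENNReal.ofReal_toReal hcW]

end BDDK
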