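import Mathlib
import Pool.Agent.BDD.Norms

/-!
# BDD/Weighted (OPEN MODULE): decoupling passes to band-limited weights

Situation: `f_j ∈ Spec T univ`, `φ ≥ 0` an integrable kernel on `ℝ^n` whose Fourier transform vanishes
outside the cube `|η_i| < 1/R`, `h` a bounded measurable weight, `ρ ω = ∫ φ x * h (T x ω) dx`. If the
inequality `nrm (∑ f_j P) ≤ A (∑ nrm (f_j P)²)^(1/2)` holds for all `P ∈ Spec T {ζ | ∀ i, |ζ i| < 1/R}`,
then it holds with `ρ` in place of `P`.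

PROOF. Let `ε > 0` and `P0 ∈ Spec T univ` with `nrm μ p (h - P0) ≤ ε` (`DenseSpec`). Put
`P ω = ∫ φ x * P0 (T x ω) dx`.
(1) `P ∈ Spec T {ζ | ∀ i, |ζ i| < 1/R}`: span induction on `P0`: for an eigenfunction with frequency
`ξ` one gets `(∫ φ x * ee (ξ·x)) • P0`, and the factor is `0` unless all `|ξ_i| < 1/R`
(integrability of `φ * P0(T · ω)`: `Spec_integrable` in BDD/Orth, for the kernel `(φ : ℂ)`).
(2) `‖ρ ω - P ω‖ₑ ≤ Av T (ofReal φ) (‖h - P0‖ₑ) ω` (`enorm_integral_le_lintegral_enorm`), hence by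
`Av_rpow` and `lintegral_Av`: `nrm μ p (ρ - P) ≤ (∫ φ) ε =: c ε` (`(c^(p-1) c ε^p)^(1/p) = c ε`).
(3) If `‖f_j‖ ≤ M_j` everywhere: `nrm (f_j ρ - f_j P) ≤ M_j c ε`, and the same for `∑ f_j` with
`∑ M_j`. By `nrm_add_le`: `nrm (∑ f_j ρ) ≤ nrm (∑ f_j P) + (∑ M_j) c ε`,
`nrm (f_j P) ≤ nrm (f_j ρ) + M_j c ε`.
(4) So `nrm (∑ f_j ρ) ≤ A (∑ (nrm (f_j ρ) + M_j c ε)²)^(1/2) + (∑ M_j) c ε` for every `ε > 0`; let
`ε → 0` (all quantities are finite if `A ≠ ∞`; if `A = ∞` the claim is trivial unless all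
`nrm (f_j ρ)` are `0`, which is why `hA : A ≠ ∞` is assumed. Use Minkowski in `ℓ²`:
`(∑ (x_j + y_j)²)^(1/2) ≤ (∑ x_j²)^(1/2) + (∑ y_j²)^(1/2) ≤ (∑ x_j²)^(1/2) + ∑ y_j`,
`ENNReal.Lp_add_le`, and `le_of_forall_pos_le_add`-type lemma or `ENNReal.le_of_forall_pos_le_add`).
-/

open MeasureTheory Finset
open scoped ENNReal

namespace BDDK

/-- step (1): averages of finite sums of eigenfunctions are band limited -/
private theorem weighted_spec {n : ℕ} {Ω : Type*} [MeasurableSpace Ω]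
    {T : (Fin n → ℝ) → Ω → Ω} {R : ℝ} (φ : (Fin n → ℝ) → ℝ) (hφi : Integrable φ)
    (hφη : ∀ η : Fin n → ℝ, (∃ i, 1 / R ≤ |η i|) → ∫ x, (φ x : ℂ) * ee (∑ i, η i * x i) = 0)
    {P0 : Ω → ℂ} (hP0 : P0 ∈ Spec T Set.univ) :
    (fun ω => ∫ x, (φ x : ℂ) * P0 (T x ω)) ∈ Spec T {ζ | ∀ i, |ζ i| < 1 / R} := by
  have hφC : Integrable (fun x => (φ x : ℂ)) := hφi.ofReal
  induction hP0 using Submodule.span_induction with
  | mem g hg =>
    obtain ⟨ξ, _, h⟩ := hg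
    have e : (fun ω => ∫ x, (φ x : ℂ) * g (T x ω)) =
        (∫ x, (φ x : ℂ) * ee (∑ i, ξ i * x i)) • g := by
      funext ω
      simp_rw [h.eig]
      have h1 : ∀ y : Fin n → ℝ, (φ y : ℂ) * (ee (∑ i, ξ i * y i) * g ω) =
          ((φ y : ℂ) * ee (∑ i, ξ i * y i)) * g ω := fun y => by ring
      simp_rw [h1]
      rw [integral_mul_const]
      rfl
    rw [e]
    by_cases hξ : ∀ i, |ξ i| < 1 / R
    · exact Submodule.smul_mem _ _ (Spec_of_eig (A := {ζ | ∀ i, |ζ i| < 1 / R}) hξ h)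
    · push Not at hξ
      rw [hφη ξ hξ, zero_smul]
      exact Submodule.zero_mem _
  | zero =>
    have e : (fun ω => ∫ x, (φ x : ℂ) * (0 : Ω → ℂ) (T x ω)) = 0 := by
      funext ω; simp
    rw [e]
    exact Submodule.zero_mem _
  | add x y hx hy ihx ihy =>
    have e : (fun ω => ∫ z, (φ z : ℂ) * (x + y) (T z ω)) =
        (fun ω => ∫ z, (φ z : ℂ) * x (T z ω)) + (fun ω => ∫ z, (φ z : ℂ) * y (T z ω)) := by
      funext ω
      simp only [Pi.add_apply, mul_add]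
      exact integral_add (Spec_integrable hφC hx ω) (Spec_integrable hφC hy ω)
    rw [e]
    exact Submodule.add_mem _ ihx ihy
  | smul a x hx ihx =>
    have e : (fun ω => ∫ z, (φ z : ℂ) * (a • x) (T z ω)) =
        a • (fun ω => ∫ z, (φ z : ℂ) * x (T z ω)) := by
      funext ω
      simp only [Pi.smul_apply, smul_eq_mul]
      rw [← integral_const_mul]
      refine integral_congr_ae (Filter.Eventually.of_forall fun z => ?_)
      simp only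
      ring
    rw [e]
    exact Submodule.smul_mem _ _ ihx

private theorem weighted_nrm_le {Ω : Type*} [MeasurableSpace Ω] (μ : Measure Ω) {p : ℝ}
    (hp : 1 ≤ p) {f g : Ω → ℂ} {M : ℝ} (hM : ∀ ω, ‖f ω‖ ≤ M) (hg : Measurable g) :
    nrm μ p (fun ω => f ω * g ω) ≤ ENNReal.ofReal M * nrm μ p g := by
  have hp0 : 0 < p := by linarith
  unfold nrm
  have h1 : ∫⁻ ω, ‖f ω * g ω‖ₑ ^ p ∂μ ≤ ∫⁻ ω, (ENNReal.ofReal M) ^ p * ‖g ω‖ₑ ^ p ∂μ := by
    apply lintegral_mono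
    intro ω
    simp only
    rw [← ENNReal.mul_rpow_of_nonneg _ _ hp0.le]
    apply ENNReal.rpow_le_rpow _ hp0.le
    rw [enorm_mul]
    gcongr
    rw [← ofReal_norm]
    exact ENNReal.ofReal_le_ofReal (hM ω)
  rw [lintegral_const_mul _ (hg.enorm.pow_const p)] at h1
  calc (∫⁻ ω, ‖f ω * g ω‖ₑ ^ p ∂μ) ^ (1 / p)
      ≤ ((ENNReal.ofReal M) ^ p * ∫⁻ ω, ‖g ω‖ₑ ^ p ∂μ) ^ (1 / p) :=
        ENNReal.rpow_le_rpow h1 (by positivity)
    _ = ENNReal.ofReal M * (∫⁻ ω, ‖g ω‖ₑ ^ p ∂μ) ^ (1 / p) := by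
        rw [ENNReal.mul_rpow_of_nonneg _ _ (by positivity), ← ENNReal.rpow_mul,
          mul_one_div_cancel hp0.ne', ENNReal.rpow_one]

/-- steps (2): the averaged error -/
private theorem weighted_err {n : ℕ} {Ω : Type*} [MeasurableSpace Ω] {μ : Measure Ω}
    [IsFiniteMeasure μ] {T : (Fin n → ℝ) → Ω → Ω} (hT : Flow μ T) {p : ℝ} (hp : 1 ≤ p)
    (φ : (Fin n → ℝ) → ℝ) (hφ0 : ∀ x, 0 ≤ φ x) (hφm : Measurable φ) (hφi : Integrable φ)
    (h : Ω → ℝ) (hm : Measurable h) {B : ℝ} (hB : ∀ ω, |h ω| ≤ B)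
    {P0 : Ω → ℂ} (hP0 : P0 ∈ Spec T Set.univ) :
    nrm μ p (fun ω => ((∫ x, φ x * h (T x ω) : ℝ) : ℂ) - ∫ x, (φ x : ℂ) * P0 (T x ω)) ≤
      (∫⁻ x, ENNReal.ofReal (φ x)) * nrm μ p (fun ω => (h ω : ℂ) - P0 ω) := by
  have hp0 : 0 < p := by linarith
  have hφC : Integrable (fun x => (φ x : ℂ)) := hφi.ofReal
  set K : (Fin n → ℝ) → ℝ≥0∞ := fun x => ENNReal.ofReal (φ x) with hK
  have hKm : Measurable K := hφm.ennreal_ofReal
  set G : Ω → ℝ≥0∞ := fun ω => ‖(h ω : ℂ) - P0 ω‖ₑ with hG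
  have hP0m : Measurable P0 := Spec_meas hP0
  have hdm : Measurable (fun ω => (h ω : ℂ) - P0 ω) :=
    (Complex.measurable_ofReal.comp hm).sub hP0m
  have hGm : Measurable G := hdm.enorm
  have hTx : ∀ ω, Measurable (fun x => T x ω) := fun ω =>
    hT.meas.comp measurable_prodMk_right
  have hpt : ∀ ω, ‖((∫ x, φ x * h (T x ω) : ℝ) : ℂ) - ∫ x, (φ x : ℂ) * P0 (T x ω)‖ₑ ≤
      Av T K G ω := by
    intro ω
    have h1 : ((∫ x, φ x * h (T x ω) : ℝ) : ℂ) = ∫ x, (φ x : ℂ) * (h (T x ω) : ℂ) := by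
      rw [← integral_complex_ofReal]
      refine integral_congr_ae (Filter.Eventually.of_forall fun z => ?_)
      simp
    have hi1 : Integrable (fun x => (φ x : ℂ) * (h (T x ω) : ℂ)) := by
      apply hφC.mul_bdd (c := B)
      · exact (Complex.measurable_ofReal.comp (hm.comp (hTx ω))).aestronglyMeasurable
      · refine Filter.Eventually.of_forall fun y => ?_
        rw [Complex.norm_real, Real.norm_eq_abs]
        exact hB _
    rw [h1, ← integral_sub hi1 (Spec_integrable hφC hP0 ω)]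
    refine (enorm_integral_le_lintegral_enorm _).trans (le_of_eq ?_)
    unfold Av
    refine lintegral_congr fun x => ?_
    rw [← mul_sub, enorm_mul]
    congr 1
    rw [← ofReal_norm, Complex.norm_real, Real.norm_of_nonneg (hφ0 x)]
  unfold nrm
  have h2 : ∫⁻ ω, ‖((∫ x, φ x * h (T x ω) : ℝ) : ℂ) - ∫ x, (φ x : ℂ) * P0 (T x ω)‖ₑ ^ p ∂μ ≤
      (∫⁻ x, K x) ^ p * ∫⁻ ω, G ω ^ p ∂μ := by
    calc ∫⁻ ω, ‖((∫ x, φ x * h (T x ω) : ℝ) : ℂ) - ∫ x, (φ x : ℂ) * P0 (T x ω)‖ₑ ^ p ∂μ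
        ≤ ∫⁻ ω, (∫⁻ x, K x) ^ (p - 1) * Av T K (fun ω => (G ω) ^ p) ω ∂μ := by
          apply lintegral_mono
          intro ω
          refine (ENNReal.rpow_le_rpow (hpt ω) hp0.le).trans ?_
          exact Av_rpow hKm hp ω (hGm.comp (hTx ω))
      _ = (∫⁻ x, K x) ^ (p - 1) * ((∫⁻ x, K x) * ∫⁻ ω, G ω ^ p ∂μ) := by
          rw [lintegral_const_mul _ (Av_meas hT hKm (hGm.pow_const p)),
            lintegral_Av hT hKm (hGm.pow_const p)]
      _ = (∫⁻ x, K x) ^ p * ∫⁻ ω, G ω ^ p ∂μ := by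
          rw [← mul_assoc]
          congr 1
          nth_rewrite 2 [← ENNReal.rpow_one (∫⁻ x, K x)]
          rw [← ENNReal.rpow_add_of_nonneg _ _ (by linarith) zero_le_one, sub_add_cancel]
  calc (∫⁻ ω, ‖((∫ x, φ x * h (T x ω) : ℝ) : ℂ) - ∫ x, (φ x : ℂ) * P0 (T x ω)‖ₑ ^ p ∂μ) ^ (1 / p)
      ≤ ((∫⁻ x, K x) ^ p * ∫⁻ ω, G ω ^ p ∂μ) ^ (1 / p) :=
        ENNReal.rpow_le_rpow h2 (by positivity)
    _ = (∫⁻ x, K x) * (∫⁻ ω, G ω ^ p ∂μ) ^ (1 / p) := by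
        rw [ENNReal.mul_rpow_of_nonneg _ _ (by positivity), ← ENNReal.rpow_mul,
          mul_one_div_cancel hp0.ne', ENNReal.rpow_one]

theorem weighted {n : ℕ} {Ω : Type*} [MeasurableSpace Ω] {μ : Measure Ω} [IsFiniteMeasure μ]
    {T : (Fin n → ℝ) → Ω → Ω} (hT : Flow μ T) (hD : DenseSpec μ T) {p R : ℝ} (hp : 1 ≤ p)
    (φ : (Fin n → ℝ) → ℝ) (hφ0 : ∀ x, 0 ≤ φ x) (hφm : Measurable φ) (hφi : Integrable φ)
    (hφη : ∀ η : Fin n → ℝ, (∃ i, 1 / R ≤ |η i|) → ∫ x, (φ x : ℂ) * ee (∑ i, η i * x i) = 0)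
    {ι : Type*} (J : Finset ι) (f : ι → Ω → ℂ) (hf : ∀ j ∈ J, f j ∈ Spec T Set.univ)
    {A : ℝ≥0∞} (hA : A ≠ ∞)
    (H : ∀ P ∈ Spec T {ζ | ∀ i, |ζ i| < 1 / R},
      nrm μ p (fun ω => (∑ j ∈ J, f j ω) * P ω) ≤
        A * (∑ j ∈ J, nrm μ p (fun ω => f j ω * P ω) ^ 2) ^ (1 / 2 : ℝ))
    (h : Ω → ℝ) (hm : Measurable h) (hh0 : ∀ ω, 0 ≤ h ω) (hh1 : ∃ B, ∀ ω, h ω ≤ B) :
    nrm μ p (fun ω => (∑ j ∈ J, f j ω) * ((∫ x, φ x * h (T x ω) : ℝ) : ℂ)) ≤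
      A * (∑ j ∈ J, nrm μ p (fun ω => f j ω * ((∫ x, φ x * h (T x ω) : ℝ) : ℂ)) ^ 2) ^
        (1 / 2 : ℝ) := by
  obtain ⟨B, hB⟩ := hh1
  have hBabs : ∀ ω, |h ω| ≤ B := fun ω => by rw [abs_of_nonneg (hh0 ω)]; exact hB ω
  have hp0 : 0 < p := by linarith
  set ρ : Ω → ℂ := fun ω => ((∫ x, φ x * h (T x ω) : ℝ) : ℂ) with hρ
  set C : ℝ≥0∞ := ∫⁻ x, ENNReal.ofReal (φ x) with hC
  have hCtop : C ≠ ∞ := by
    have h1 := hφi.hasFiniteIntegral
    rw [hasFiniteIntegral_iff_ofReal (Filter.Eventually.of_forall hφ0)] at h1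
    exact h1.ne
  have hρm : Measurable ρ := by
    apply Complex.measurable_ofReal.comp
    have h1 : StronglyMeasurable (Function.uncurry (fun (ω : Ω) (x : Fin n → ℝ) =>
        φ x * h (T x ω))) := by
      apply Measurable.stronglyMeasurable
      exact (hφm.comp measurable_snd).mul (hm.comp (hT.meas.comp measurable_swap))
    exact h1.integral_prod_right.measurable
  have hex : ∀ j, ∃ M : ℝ, j ∈ J → 0 ≤ M ∧ ∀ ω, ‖f j ω‖ ≤ M := by
    intro j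
    by_cases hj : j ∈ J
    · obtain ⟨M, h0, h1⟩ := Spec_bdd (hf j hj)
      exact ⟨M, fun _ => ⟨h0, h1⟩⟩
    · exact ⟨0, fun h => absurd h hj⟩
  choose M hM using hex
  have hfm : ∀ j ∈ J, Measurable (f j) := fun j hj => Spec_meas (hf j hj)
  have hsumm : Measurable (fun ω => ∑ j ∈ J, f j ω) :=
    Finset.measurable_fun_sum _ fun j hj => hfm j hj
  have hsumM : ∀ ω, ‖∑ j ∈ J, f j ω‖ ≤ ∑ j ∈ J, M j := by
    intro ω
    refine (norm_sum_le _ _).trans ?_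
    exact Finset.sum_le_sum fun j hj => (hM j hj).2 ω
  set D1 : ℝ≥0∞ := ENNReal.ofReal (∑ j ∈ J, M j) * C with hD1
  set D2 : ℝ≥0∞ := (∑ j ∈ J, (ENNReal.ofReal (M j) * C) ^ (2 : ℝ)) ^ (1 / 2 : ℝ) with hD2
  have hD1t : D1 ≠ ∞ := ENNReal.mul_ne_top ENNReal.ofReal_ne_top hCtop
  have hD2t : D2 ≠ ∞ := by
    apply ENNReal.rpow_ne_top_of_nonneg (by norm_num)
    apply (ENNReal.sum_ne_top).2
    intro j _
    apply ENNReal.rpow_ne_top_of_nonneg (by norm_num)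
    exact ENNReal.mul_ne_top ENNReal.ofReal_ne_top hCtop
  -- the estimate with `ε`
  have key : ∀ ε : ℝ≥0∞, 0 < ε →
      nrm μ p (fun ω => (∑ j ∈ J, f j ω) * ρ ω) ≤
        A * (∑ j ∈ J, nrm μ p (fun ω => f j ω * ρ ω) ^ 2) ^ (1 / 2 : ℝ) +
          (A * D2 + D1) * ε := by
    intro ε hε
    obtain ⟨P0, hP0, hP0ε⟩ := hD (fun ω => (h ω : ℂ)) (Complex.measurable_ofReal.comp hm)
      ⟨B, fun ω => by
        rw [Complex.norm_real, Real.norm_eq_abs]; exact hBabs ω⟩ p hp ε hε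
    set P : Ω → ℂ := fun ω => ∫ x, (φ x : ℂ) * P0 (T x ω) with hP
    have hPs : P ∈ Spec T {ζ | ∀ i, |ζ i| < 1 / R} := weighted_spec φ hφi hφη hP0
    have hPm : Measurable P := Spec_meas hPs
    have herr : nrm μ p (fun ω => ρ ω - P ω) ≤ C * ε := by
      refine (weighted_err hT hp φ hφ0 hφm hφi h hm hBabs hP0).trans ?_
      gcongr
    have herr' : nrm μ p (fun ω => P ω - ρ ω) ≤ C * ε := by
      refine le_trans (le_of_eq ?_) herr
      unfold nrm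
      congr 1
      refine lintegral_congr fun ω => ?_
      rw [enorm_sub_rev]
    have s1 : nrm μ p (fun ω => (∑ j ∈ J, f j ω) * ρ ω) ≤
        nrm μ p (fun ω => (∑ j ∈ J, f j ω) * P ω) + D1 * ε := by
      have e : (fun ω => (∑ j ∈ J, f j ω) * ρ ω) = fun ω =>
          (∑ j ∈ J, f j ω) * P ω + (∑ j ∈ J, f j ω) * (ρ ω - P ω) := by
        funext ω; ring
      rw [e]
      have t1 := nrm_add_le μ hp (f := fun ω => (∑ j ∈ J, f j ω) * P ω)
        (g := fun ω => (∑ j ∈ J, f j ω) * (ρ ω - P ω)) (hsumm.mul hPm) (hsumm.mul (hρm.sub hPm))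
      have t2 : nrm μ p (fun ω => (∑ j ∈ J, f j ω) * (ρ ω - P ω)) ≤ D1 * ε := by
        refine (weighted_nrm_le μ hp hsumM (g := fun ω => ρ ω - P ω) (hρm.sub hPm)).trans ?_
        rw [hD1, mul_assoc]
        gcongr
      exact t1.trans (add_le_add le_rfl t2)
    have s2 : ∀ j ∈ J, nrm μ p (fun ω => f j ω * P ω) ≤
        nrm μ p (fun ω => f j ω * ρ ω) + (ENNReal.ofReal (M j) * C) * ε := by
      intro j hj
      have e : (fun ω => f j ω * P ω) = fun ω => f j ω * ρ ω + f j ω * (P ω - ρ ω) := by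
        funext ω; ring
      rw [e]
      have t1 := nrm_add_le μ hp (f := fun ω => f j ω * ρ ω)
        (g := fun ω => f j ω * (P ω - ρ ω)) ((hfm j hj).mul hρm)
        ((hfm j hj).mul (hPm.sub hρm))
      have t2 : nrm μ p (fun ω => f j ω * (P ω - ρ ω)) ≤ (ENNReal.ofReal (M j) * C) * ε := by
        refine (weighted_nrm_le μ hp (hM j hj).2 (g := fun ω => P ω - ρ ω)
          (hPm.sub hρm)).trans ?_
        rw [mul_assoc]
        gcongr
      exact t1.trans (add_le_add le_rfl t2)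
    have s3 : (∑ j ∈ J, nrm μ p (fun ω => f j ω * P ω) ^ 2) ^ (1 / 2 : ℝ) ≤
        (∑ j ∈ J, nrm μ p (fun ω => f j ω * ρ ω) ^ 2) ^ (1 / 2 : ℝ) + D2 * ε := by
      calc (∑ j ∈ J, nrm μ p (fun ω => f j ω * P ω) ^ 2) ^ (1 / 2 : ℝ)
          ≤ (∑ j ∈ J, (nrm μ p (fun ω => f j ω * ρ ω) +
              (ENNReal.ofReal (M j) * C) * ε) ^ (2 : ℝ)) ^ (1 / 2 : ℝ) := by
            apply ENNReal.rpow_le_rpow _ (by norm_num)
            apply Finset.sum_le_sum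
            intro j hj
            rw [ENNReal.rpow_two]
            gcongr
            exact s2 j hj
        _ ≤ (∑ j ∈ J, nrm μ p (fun ω => f j ω * ρ ω) ^ (2 : ℝ)) ^ (1 / 2 : ℝ) +
            (∑ j ∈ J, ((ENNReal.ofReal (M j) * C) * ε) ^ (2 : ℝ)) ^ (1 / 2 : ℝ) :=
            ENNReal.Lp_add_le J _ _ (by norm_num)
        _ = _ := by
            congr 1
            · simp_rw [ENNReal.rpow_two]
            · rw [hD2]
              simp_rw [ENNReal.mul_rpow_of_nonneg _ ε (by norm_num : (0 : ℝ) ≤ 2)]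
              rw [← Finset.sum_mul, ENNReal.mul_rpow_of_nonneg _ _ (by norm_num),
                ← ENNReal.rpow_mul ε]
              norm_num
    calc nrm μ p (fun ω => (∑ j ∈ J, f j ω) * ρ ω)
        ≤ nrm μ p (fun ω => (∑ j ∈ J, f j ω) * P ω) + D1 * ε := s1
      _ ≤ A * (∑ j ∈ J, nrm μ p (fun ω => f j ω * P ω) ^ 2) ^ (1 / 2 : ℝ) + D1 * ε := by
          gcongr
          exact H P hPs
      _ ≤ A * ((∑ j ∈ J, nrm μ p (fun ω => f j ω * ρ ω) ^ 2) ^ (1 / 2 : ℝ) + D2 * ε) +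
          D1 * ε := by
          gcongr
      _ = _ := by ring
  -- let `ε → 0`
  apply ENNReal.le_of_forall_pos_le_add
  intro δ hδ _
  set D : ℝ≥0∞ := A * D2 + D1 with hDD
  have hDt : D + 1 ≠ ∞ := by
    apply ENNReal.add_ne_top.2
    refine ⟨?_, ENNReal.one_ne_top⟩
    exact ENNReal.add_ne_top.2 ⟨ENNReal.mul_ne_top hA hD2t, hD1t⟩
  have hδ' : (0 : ℝ≥0∞) < (δ : ℝ≥0∞) / (D + 1) :=
    ENNReal.div_pos (by exact_mod_cast hδ.ne') hDt
  refine (key _ hδ').trans ?_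
  gcongr
  calc D * ((δ : ℝ≥0∞) / (D + 1)) ≤ (D + 1) * ((δ : ℝ≥0∞) / (D + 1)) := by
        gcongr
        exact le_self_add
    _ ≤ δ := ENNReal.mul_div_le

end BDDK
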