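import Mathlib
import Pool.Agent.BDD.KerR2
import Pool.Agent.BDD.Weighted

/-!
# BDD/NarrowAbs: the narrow part, abstract form

`E s` (`s ∈ 𝒮`) are disjoint measurable sets; for every `s` the subfamily `f β` (`β ∈ B s ⊆ B`) satisfies the
decoupling inequality with constant `A` even after multiplication with any `P` with spectrum in
`{|ζ i| < 1/R}`. Then
`∑_s ∫ |∑_{β ∈ B s} f β|^p (W_R * 1_{E s}) dμ ≤ C A^p (∑_{β ∈ B} ‖f β‖_p²)^(p/2)`, `C = C(n,p)`.

PROOF. Let `m_s = Av T (W R) (indicator (E s) 1)` (so `m_s ≤ cW n`, and `∑_s m_s ≤ cW n` by disjointness) and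
`h_s = (m_s.toReal)^(1/p)`, bounded, measurable. With `φ R` from `exists_kerR2`:
`ρ_s ω = ∫ φ R x * h_s (T x ω) dx`.
(1) LOWER BOUND `m_s ω ≤ C1 ‖ρ_s ω‖ₑ^p`: for `‖x‖ ≤ R`, `m_s ω ≤ 2^(n+1) m_s (T x ω)`
(`m_s (T x ω) = ∫ W R (z - x) 1_{E_s}(T z ω) dz` and `W_add_le_two`), so `h_s (T x ω) ≥ 2^(-(n+1)/p) h_s ω`, and
`ρ_s ω ≥ ∫_{‖x‖ ≤ δ R} φ R x h_s (T x ω) ≥ c R^-n (2 δ R)^n 2^(-(n+1)/p) h_s ω` (`Real.volume_pi_closedBall`).
(2) UPPER BOUND `∑_s ‖ρ_s ω‖ₑ^p ≤ C2`: `ρ_s ω ≤ Av T (ofReal ∘ φ R) (ofReal h_s) ω`, Jensen (`Av_rpow`):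
`≤ (∫ φ R)^(p-1) Av T (φ R) (m_s)`; sum over `s`, `∑_s m_s ≤ cW n`.
(3) `weighted` (BDD/Weighted) for every `s`: `nrm (f_s ρ_s) ≤ A (∑_{β ∈ B s} nrm (f β ρ_s)²)^(1/2)`, where
`f_s = ∑_{β ∈ B s} f β`.
(4) `∑_s ∫ |f_s|^p m_s ≤ C1 ∑_s ∫ |f_s|^p |ρ_s|^p = C1 ∑_s nrm (f_s ρ_s)^p
 ≤ C1 A^p ∑_s (∑_{β ∈ B} nrm (f β ρ_s)²)^(p/2) ≤ C1 A^p (∑_β (∑_s nrm (f β ρ_s)^p)^(2/p))^(p/2)`
(Minkowski in `ℓ^(p/2)`: `minkowski` (BDD/Norms) with `μ = Measure.count` on the finite set `𝒮`, or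
`ENNReal.Lp_add_le` and induction; `p/2 ≥ 1`) and `∑_s nrm (f β ρ_s)^p = ∫ |f β|^p ∑_s |ρ_s|^p ≤ C2 nrm (f β)^p`.
Total constant `C1 C2`.
If `A = ∞`: the right side is `∞` unless all `nrm (f β) = 0`; the hypothesis `hA : A ≠ ∞` avoids this.
-/

open MeasureTheory Finset
open scoped ENNReal

namespace BDDK

/-- Minkowski over a finite index set -/
private theorem narrow_mink {σ ι : Type} (𝒮 : Finset σ) (B : Finset ι) (X : ι → σ → ℝ≥0∞) {a : ℝ}
    (ha : 1 ≤ a) : (∑ s ∈ 𝒮, (∑ β ∈ B, X β s) ^ a) ^ (1 / a) ≤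
      ∑ β ∈ B, (∑ s ∈ 𝒮, (X β s) ^ a) ^ (1 / a) := by
  letI : MeasurableSpace σ := ⊤
  have h := minkowski ((Measure.count : Measure σ).restrict (𝒮 : Set σ)) ha B X
    (fun _ _ => measurable_from_top)
  have e : ∀ F : σ → ℝ≥0∞, ∫⁻ s, F s ∂((Measure.count : Measure σ).restrict (𝒮 : Set σ)) =
      ∑ s ∈ 𝒮, F s := by
    intro F
    rw [lintegral_finset]
    refine Finset.sum_congr rfl fun s _ => ?_
    rw [Measure.count_singleton, mul_one]
  simp_rw [e] at h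
  exact h

private theorem narrow_m_le {n : ℕ} {Ω : Type} {T : (Fin n → ℝ) → Ω → Ω} {R : ℝ} (hR : 0 < R)
    (E : Set Ω) (ω : Ω) :
    Av T (W R) (E.indicator (fun _ => (1 : ℝ≥0∞))) ω ≤ cW n := by
  rw [← lintegral_W hR]
  unfold Av
  apply lintegral_mono
  intro y
  show W R y * E.indicator (fun _ => (1 : ℝ≥0∞)) (T y ω) ≤ W R y
  calc W R y * E.indicator (fun _ => (1 : ℝ≥0∞)) (T y ω) ≤ W R y * 1 := by
        gcongr
        exact Set.indicator_le_self' (fun _ _ => zero_le) _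
    _ = W R y := mul_one _

private theorem narrow_sum_m_le {n : ℕ} {Ω : Type} [MeasurableSpace Ω] {μ : Measure Ω}
    {T : (Fin n → ℝ) → Ω → Ω} (hT : Flow μ T) {R : ℝ} (hR : 0 < R)
    {σ : Type} (𝒮 : Finset σ) (E : σ → Set Ω) (hE : ∀ s ∈ 𝒮, MeasurableSet (E s))
    (hdis : ∀ s ∈ 𝒮, ∀ t ∈ 𝒮, s ≠ t → Disjoint (E s) (E t)) (ω : Ω) :
    ∑ s ∈ 𝒮, Av T (W R) ((E s).indicator (fun _ => (1 : ℝ≥0∞))) ω ≤ cW n := by
  classical
  unfold Av
  rw [← lintegral_finsetSum']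
  · rw [← lintegral_W hR]
    apply lintegral_mono
    intro y
    show ∑ s ∈ 𝒮, W R y * (E s).indicator (fun _ => (1 : ℝ≥0∞)) (T y ω) ≤ W R y
    rw [← Finset.mul_sum]
    calc W R y * ∑ s ∈ 𝒮, (E s).indicator (fun _ => (1 : ℝ≥0∞)) (T y ω) ≤ W R y * 1 := by
          gcongr
          by_cases hex : ∃ s ∈ 𝒮, T y ω ∈ E s
          · obtain ⟨s, hs, hys⟩ := hex
            rw [Finset.sum_eq_single_of_mem s hs]
            · simp [hys]
            · intro t ht hts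
              rw [Set.indicator_of_notMem]
              intro hyt
              exact Set.disjoint_left.mp (hdis t ht s hs hts) hyt hys
          · push Not at hex
            rw [Finset.sum_eq_zero]
            · exact zero_le
            · intro s hs
              rw [Set.indicator_of_notMem (hex s hs)]
      _ = W R y := mul_one _
  · intro s hs
    apply Measurable.aemeasurable
    apply (W_meas R).mul
    exact (measurable_const.indicator (hE s hs)).comp (hT.orbit_meas ω)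

/-- slow variation of the averaged indicator -/
private theorem narrow_m_slow {n : ℕ} {Ω : Type} [MeasurableSpace Ω] {μ : Measure Ω}
    {T : (Fin n → ℝ) → Ω → Ω} (hT : Flow μ T) {R : ℝ} (hR : 0 < R)
    (E : Set Ω) (ω : Ω) (x : Fin n → ℝ) (hx : ‖x‖ ≤ R) :
    Av T (W R) (E.indicator (fun _ => (1 : ℝ≥0∞))) ω ≤
      2 ^ (n + 1) * Av T (W R) (E.indicator (fun _ => (1 : ℝ≥0∞))) (T x ω) := by
  rw [← Av_eq_Kop hT]
  unfold Av Kop
  rw [← lintegral_const_mul' _ _ (by finiteness)]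
  apply lintegral_mono
  intro z
  show W R z * E.indicator (fun _ => (1 : ℝ≥0∞)) (T z ω) ≤
    2 ^ (n + 1) * (W R (z - x) * E.indicator (fun _ => (1 : ℝ≥0∞)) (T z ω))
  rw [← mul_assoc]
  gcongr
  have := W_add_le_two hR (z - x) x hx
  rwa [sub_add_cancel] at this

theorem narrow_abs (n : ℕ) {p : ℝ} (hp : 2 ≤ p) : ∃ C : ℝ≥0∞, C ≠ ∞ ∧
    ∀ (Ω : Type) [MeasurableSpace Ω] (μ : Measure Ω) [IsFiniteMeasure μ]
      (T : (Fin n → ℝ) → Ω → Ω) (_ : Flow μ T) (_ : DenseSpec μ T) (R : ℝ) (_ : 0 < R)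
      (σ ι : Type) (𝒮 : Finset σ) (E : σ → Set Ω) (_ : ∀ s ∈ 𝒮, MeasurableSet (E s))
      (_ : ∀ s ∈ 𝒮, ∀ t ∈ 𝒮, s ≠ t → Disjoint (E s) (E t))
      (B : Finset ι) (Bs : σ → Finset ι) (_ : ∀ s ∈ 𝒮, Bs s ⊆ B) (f : ι → Ω → ℂ)
      (_ : ∀ β ∈ B, f β ∈ Spec T Set.univ) (A : ℝ≥0∞) (_ : A ≠ ∞)
      (_ : ∀ s ∈ 𝒮, ∀ P ∈ Spec T {ζ | ∀ i, |ζ i| < 1 / R},
        nrm μ p (fun ω => (∑ β ∈ Bs s, f β ω) * P ω) ≤
          A * (∑ β ∈ Bs s, nrm μ p (fun ω => f β ω * P ω) ^ 2) ^ (1 / 2 : ℝ)),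
      ∑ s ∈ 𝒮, ∫⁻ ω, ‖∑ β ∈ Bs s, f β ω‖ₑ ^ p *
          Av T (W R) ((E s).indicator (fun _ => (1 : ℝ≥0∞))) ω ∂μ ≤
        C * A ^ p * (∑ β ∈ B, nrm μ p (f β) ^ 2) ^ (p / 2) := by
  have hp0 : 0 < p := by linarith
  have hp1 : 1 ≤ p := by linarith
  obtain ⟨φ, c, δ, C, hc, hδ, hδ1, hC, hφ⟩ := exists_kerR2 n
  set a : ℝ≥0∞ := ENNReal.ofReal (c * (2 * δ) ^ n) with ha
  have ha0 : a ≠ 0 := by
    rw [ha]; exact (ENNReal.ofReal_pos.mpr (by positivity)).ne'
  have hat : a ≠ ∞ := ENNReal.ofReal_ne_top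
  set C1 : ℝ≥0∞ := (a ^ p)⁻¹ * 2 ^ (n + 1) with hC1
  have hap0 : a ^ p ≠ 0 := by
    intro h
    rw [ENNReal.rpow_eq_zero_iff] at h
    rcases h with h | h
    · exact ha0 h.1
    · exact hat h.1
  have hapt : a ^ p ≠ ∞ := ENNReal.rpow_ne_top_of_nonneg hp0.le hat
  have hC1t : C1 ≠ ∞ := by
    rw [hC1]
    apply ENNReal.mul_ne_top
    · exact ENNReal.inv_ne_top.mpr hap0
    · finiteness
  set C2 : ℝ≥0∞ := (ENNReal.ofReal C) ^ p * cW n with hC2
  have hC2t : C2 ≠ ∞ := by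
    rw [hC2]
    exact ENNReal.mul_ne_top (ENNReal.rpow_ne_top_of_nonneg hp0.le ENNReal.ofReal_ne_top)
      (cW_lt_top n).ne
  refine ⟨C1 * C2, ENNReal.mul_ne_top hC1t hC2t, ?_⟩
  intro Ω _ μ _ T hT hD R hR σ ι 𝒮 E hE hdis B Bs hBs f hf A hA H
  obtain ⟨hφc, hφ0, hφi, hφη, hlow, hmass⟩ := hφ R hR
  -- the weights
  set K : (Fin n → ℝ) → ℝ≥0∞ := fun x => ENNReal.ofReal (φ R x) with hK
  have hKm : Measurable K := hφc.measurable.ennreal_ofReal
  set m : σ → Ω → ℝ≥0∞ := fun s => Av T (W R) ((E s).indicator (fun _ => (1 : ℝ≥0∞))) with hm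
  have hmm : ∀ s ∈ 𝒮, Measurable (m s) := fun s hs =>
    Av_meas hT (W_meas R) (measurable_const.indicator (hE s hs))
  have hmle : ∀ s ω, m s ω ≤ cW n := fun s ω => narrow_m_le hR (E s) ω
  have hmt : ∀ s ω, m s ω ≠ ∞ := fun s ω => ((hmle s ω).trans_lt (cW_lt_top n)).ne
  set h : σ → Ω → ℝ := fun s ω => ((m s ω) ^ (1 / p)).toReal with hh
  have hh0 : ∀ s ω, 0 ≤ h s ω := fun s ω => ENNReal.toReal_nonneg
  have hpt : ∀ s ω, (m s ω) ^ (1 / p) ≠ ∞ := fun s ω =>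
    ENNReal.rpow_ne_top_of_nonneg (by positivity) (hmt s ω)
  have hhof : ∀ s ω, ENNReal.ofReal (h s ω) = (m s ω) ^ (1 / p) := fun s ω =>
    ENNReal.ofReal_toReal (hpt s ω)
  have hhm : ∀ s ∈ 𝒮, Measurable (h s) := fun s hs => ((hmm s hs).pow_const _).ennreal_toReal
  have hhB : ∀ s ω, h s ω ≤ ((cW n) ^ (1 / p)).toReal := by
    intro s ω
    apply ENNReal.toReal_mono
    · exact ENNReal.rpow_ne_top_of_nonneg (by positivity) (cW_lt_top n).ne
    · exact ENNReal.rpow_le_rpow (hmle s ω) (by positivity)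
  set ρ : σ → Ω → ℂ := fun s ω => ((∫ x, φ R x * h s (T x ω) : ℝ) : ℂ) with hρ
  have hρe : ∀ s ∈ 𝒮, ∀ ω, ‖ρ s ω‖ₑ = Av T K (fun ω => (m s ω) ^ (1 / p)) ω := by
    intro s hs ω
    have hnn : 0 ≤ ∫ x, φ R x * h s (T x ω) :=
      integral_nonneg fun x => mul_nonneg (hφ0 x) (hh0 _ _)
    have hint : Integrable (fun x => φ R x * h s (T x ω)) := by
      apply hφi.mul_bdd (c := ((cW n) ^ (1 / p)).toReal)
      · exact ((hhm s hs).comp (hT.orbit_meas ω)).aestronglyMeasurable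
      · refine Filter.Eventually.of_forall fun x => ?_
        rw [Real.norm_of_nonneg (hh0 _ _)]
        exact hhB _ _
    have e1 : ‖ρ s ω‖ₑ = ENNReal.ofReal (∫ x, φ R x * h s (T x ω)) := by
      rw [← ofReal_norm, hρ]
      simp only [Complex.norm_real]
      rw [Real.norm_of_nonneg hnn]
    rw [e1, ofReal_integral_eq_lintegral_ofReal hint
      (Filter.Eventually.of_forall fun x => mul_nonneg (hφ0 x) (hh0 _ _))]
    unfold Av
    refine lintegral_congr fun x => ?_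
    rw [ENNReal.ofReal_mul (hφ0 x), hhof]
  have hρm : ∀ s ∈ 𝒮, Measurable (ρ s) := by
    intro s hs
    apply Complex.measurable_ofReal.comp
    have h1 : StronglyMeasurable (Function.uncurry (fun (ω : Ω) (x : Fin n → ℝ) =>
        φ R x * h s (T x ω))) := by
      apply Measurable.stronglyMeasurable
      exact (hφc.measurable.comp measurable_snd).mul
        ((hhm s hs).comp (hT.meas.comp measurable_swap))
    exact h1.integral_prod_right.measurable
  -- lower bound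
  have hlower : ∀ s ∈ 𝒮, ∀ ω, m s ω ≤ C1 * ‖ρ s ω‖ₑ ^ p := by
    intro s hs ω
    rw [hρe s hs]
    set b : ℝ≥0∞ := 2 ^ (n + 1) with hb
    have hb1 : b ≠ ∞ := by rw [hb]; finiteness
    have step : a * (m s ω) ^ (1 / p) ≤
        b ^ (1 / p) * Av T K (fun ω => (m s ω) ^ (1 / p)) ω := by
      have hvol : volume (Metric.closedBall (0 : Fin n → ℝ) (δ * R)) =
          ENNReal.ofReal ((2 * (δ * R)) ^ n) := by
        rw [Real.volume_pi_closedBall _ (by positivity)]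
        simp
      calc a * (m s ω) ^ (1 / p)
          = ∫⁻ _x in Metric.closedBall (0 : Fin n → ℝ) (δ * R),
              ENNReal.ofReal (c * (R⁻¹) ^ n) * (m s ω) ^ (1 / p) := by
            rw [setLIntegral_const, hvol, mul_right_comm, ← ENNReal.ofReal_mul (by positivity)]
            congr 2
            rw [ha]
            congr 1
            rw [mul_assoc, ← mul_pow]
            congr 2
            field_simp
        _ ≤ ∫⁻ x in Metric.closedBall (0 : Fin n → ℝ) (δ * R),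
              b ^ (1 / p) * (K x * (m s (T x ω)) ^ (1 / p)) := by
            apply setLIntegral_mono' measurableSet_closedBall
            intro x hx
            rw [mem_closedBall_zero_iff] at hx
            have hxR : ‖x‖ ≤ R := hx.trans (by nlinarith)
            rw [mul_left_comm]
            apply mul_le_mul'
            · exact ENNReal.ofReal_le_ofReal (hlow x hx)
            · rw [← ENNReal.mul_rpow_of_nonneg _ _ (by positivity)]
              apply ENNReal.rpow_le_rpow _ (by positivity)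
              exact narrow_m_slow hT hR (E s) ω x hxR
        _ ≤ ∫⁻ x, b ^ (1 / p) * (K x * (m s (T x ω)) ^ (1 / p)) := setLIntegral_le_lintegral _ _
        _ = _ := by
            rw [lintegral_const_mul' _ _ (ENNReal.rpow_ne_top_of_nonneg (by positivity) hb1)]
            rfl
    have step2 := ENNReal.rpow_le_rpow step hp0.le
    rw [ENNReal.mul_rpow_of_nonneg _ _ hp0.le, ENNReal.mul_rpow_of_nonneg _ _ hp0.le,
      ← ENNReal.rpow_mul, ← ENNReal.rpow_mul, one_div_mul_cancel hp0.ne', ENNReal.rpow_one,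
      ENNReal.rpow_one] at step2
    calc m s ω = (a ^ p)⁻¹ * (a ^ p * m s ω) := by
          rw [← mul_assoc, ENNReal.inv_mul_cancel hap0 hapt, one_mul]
      _ ≤ (a ^ p)⁻¹ * (b * Av T K (fun ω => (m s ω) ^ (1 / p)) ω ^ p) := by gcongr
      _ = _ := by rw [hC1, mul_assoc]
  -- upper bound
  have hupper : ∀ ω, ∑ s ∈ 𝒮, ‖ρ s ω‖ₑ ^ p ≤ C2 := by
    intro ω
    calc ∑ s ∈ 𝒮, ‖ρ s ω‖ₑ ^ p
        ≤ ∑ s ∈ 𝒮, (∫⁻ x, K x) ^ (p - 1) * Av T K (m s) ω := by
          apply Finset.sum_le_sum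
          intro s hs
          rw [hρe s hs]
          have h1 := Av_rpow (T := T) hKm (G := fun ω => (m s ω) ^ (1 / p)) hp1 ω
            (((hmm s hs).pow_const _).comp (hT.orbit_meas ω))
          refine h1.trans (le_of_eq ?_)
          congr 2
          funext ω
          rw [← ENNReal.rpow_mul, one_div_mul_cancel hp0.ne', ENNReal.rpow_one]
      _ = (∫⁻ x, K x) ^ (p - 1) * ∑ s ∈ 𝒮, Av T K (m s) ω := by rw [Finset.mul_sum]
      _ ≤ (∫⁻ x, K x) ^ (p - 1) * ((∫⁻ x, K x) * cW n) := by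
          gcongr
          unfold Av
          rw [← lintegral_finsetSum']
          · rw [← lintegral_mul_const _ hKm]
            apply lintegral_mono
            intro x
            show ∑ s ∈ 𝒮, K x * m s (T x ω) ≤ K x * cW n
            rw [← Finset.mul_sum]
            gcongr
            exact narrow_sum_m_le hT hR 𝒮 E hE hdis (T x ω)
          · intro s hs
            exact (hKm.mul ((hmm s hs).comp (hT.orbit_meas ω))).aemeasurable
      _ = (∫⁻ x, K x) ^ p * cW n := by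
          rw [← mul_assoc]
          congr 1
          conv_lhs => rw [← ENNReal.rpow_one (∫⁻ x, K x)]
          rw [← ENNReal.rpow_mul, one_mul, ← ENNReal.rpow_add_of_nonneg _ _ (by linarith)
            zero_le_one]
          congr 1
          ring
      _ ≤ C2 := by
          rw [hC2]
          gcongr
  -- the weighted decoupling
  have hdec : ∀ s ∈ 𝒮, nrm μ p (fun ω => (∑ β ∈ Bs s, f β ω) * ρ s ω) ≤
      A * (∑ β ∈ B, nrm μ p (fun ω => f β ω * ρ s ω) ^ 2) ^ (1 / 2 : ℝ) := by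
    intro s hs
    have h1 := weighted hT hD hp1 (φ R) hφ0 hφc.measurable hφi hφη (Bs s) f
      (fun β hβ => hf β (hBs s hs hβ)) hA (H s hs) (h s) (hhm s hs) (hh0 s)
      ⟨_, hhB s⟩
    refine h1.trans ?_
    gcongr
    exact hBs s hs
  have hfm : ∀ β ∈ B, Measurable (f β) := fun β hβ => Spec_meas (hf β hβ)
  have hpp : ∀ x : ℝ≥0∞, (x ^ 2) ^ (p / 2) = x ^ p := by
    intro x
    rw [← ENNReal.rpow_natCast, ← ENNReal.rpow_mul]
    congr 1
    push_cast
    ring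
  -- assembly
  calc ∑ s ∈ 𝒮, ∫⁻ ω, ‖∑ β ∈ Bs s, f β ω‖ₑ ^ p * m s ω ∂μ
      ≤ ∑ s ∈ 𝒮, C1 * nrm μ p (fun ω => (∑ β ∈ Bs s, f β ω) * ρ s ω) ^ p := by
        apply Finset.sum_le_sum
        intro s hs
        rw [nrm_rpow μ hp0, ← lintegral_const_mul' _ _ hC1t]
        apply lintegral_mono
        intro ω
        show ‖∑ β ∈ Bs s, f β ω‖ₑ ^ p * m s ω ≤ C1 * ‖(∑ β ∈ Bs s, f β ω) * ρ s ω‖ₑ ^ p
        rw [enorm_mul, ENNReal.mul_rpow_of_nonneg _ _ hp0.le, mul_left_comm]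
        gcongr
        exact hlower s hs ω
    _ ≤ ∑ s ∈ 𝒮, C1 * (A ^ p * (∑ β ∈ B, nrm μ p (fun ω => f β ω * ρ s ω) ^ 2) ^ (p / 2)) := by
        apply Finset.sum_le_sum
        intro s hs
        gcongr
        have h1 := ENNReal.rpow_le_rpow (hdec s hs) hp0.le
        rw [ENNReal.mul_rpow_of_nonneg _ _ hp0.le, ← ENNReal.rpow_mul] at h1
        refine h1.trans (le_of_eq ?_)
        congr 2
        ring
    _ = C1 * A ^ p * ∑ s ∈ 𝒮, (∑ β ∈ B, nrm μ p (fun ω => f β ω * ρ s ω) ^ 2) ^ (p / 2) := by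
        rw [Finset.mul_sum]
        exact Finset.sum_congr rfl fun s _ => (mul_assoc _ _ _).symm
    _ ≤ C1 * A ^ p * (C2 * (∑ β ∈ B, nrm μ p (f β) ^ 2) ^ (p / 2)) := by
        gcongr
        have ha2 : 1 ≤ p / 2 := by linarith
        have h1 := narrow_mink 𝒮 B (fun β s => nrm μ p (fun ω => f β ω * ρ s ω) ^ 2) ha2
        have h2 : ∀ β ∈ B, (∑ s ∈ 𝒮, (nrm μ p (fun ω => f β ω * ρ s ω) ^ 2) ^ (p / 2)) ^
            (1 / (p / 2)) ≤ C2 ^ (1 / (p / 2)) * nrm μ p (f β) ^ 2 := by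
          intro β hβ
          have h3 : ∑ s ∈ 𝒮, (nrm μ p (fun ω => f β ω * ρ s ω) ^ 2) ^ (p / 2) ≤
              C2 * nrm μ p (f β) ^ p := by
            calc ∑ s ∈ 𝒮, (nrm μ p (fun ω => f β ω * ρ s ω) ^ 2) ^ (p / 2)
                = ∑ s ∈ 𝒮, ∫⁻ ω, ‖f β ω‖ₑ ^ p * ‖ρ s ω‖ₑ ^ p ∂μ := by
                  refine Finset.sum_congr rfl fun s _ => ?_
                  rw [hpp, nrm_rpow μ hp0]
                  refine lintegral_congr fun ω => ?_
                  rw [enorm_mul, ENNReal.mul_rpow_of_nonneg _ _ hp0.le]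
              _ = ∫⁻ ω, ∑ s ∈ 𝒮, ‖f β ω‖ₑ ^ p * ‖ρ s ω‖ₑ ^ p ∂μ := by
                  rw [lintegral_finsetSum']
                  intro s hs
                  exact (((hfm β hβ).enorm.pow_const _).mul
                    ((hρm s hs).enorm.pow_const _)).aemeasurable
              _ ≤ ∫⁻ ω, C2 * ‖f β ω‖ₑ ^ p ∂μ := by
                  apply lintegral_mono
                  intro ω
                  show ∑ s ∈ 𝒮, ‖f β ω‖ₑ ^ p * ‖ρ s ω‖ₑ ^ p ≤ C2 * ‖f β ω‖ₑ ^ p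
                  rw [← Finset.mul_sum, mul_comm]
                  gcongr
                  exact hupper ω
              _ = C2 * nrm μ p (f β) ^ p := by
                  rw [lintegral_const_mul' _ _ hC2t, nrm_rpow μ hp0]
          have h4 := ENNReal.rpow_le_rpow h3 (by positivity : 0 ≤ 1 / (p / 2))
          rw [ENNReal.mul_rpow_of_nonneg _ _ (by positivity), ← hpp (nrm μ p (f β)),
            ← ENNReal.rpow_mul (nrm μ p (f β) ^ 2), mul_one_div_cancel (by positivity),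
            ENNReal.rpow_one] at h4
          exact h4
        have h5 : (∑ s ∈ 𝒮, (∑ β ∈ B, nrm μ p (fun ω => f β ω * ρ s ω) ^ 2) ^ (p / 2)) ^
            (1 / (p / 2)) ≤ C2 ^ (1 / (p / 2)) * ∑ β ∈ B, nrm μ p (f β) ^ 2 := by
          refine h1.trans ?_
          rw [Finset.mul_sum]
          exact Finset.sum_le_sum h2
        have h6 := ENNReal.rpow_le_rpow h5 (by positivity : 0 ≤ p / 2)
        rw [ENNReal.mul_rpow_of_nonneg _ _ (by positivity), ← ENNReal.rpow_mul,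
          ← ENNReal.rpow_mul, one_div_mul_cancel (by positivity), ENNReal.rpow_one,
          ENNReal.rpow_one] at h6
        exact h6
    _ = _ := by ring

end BDDK
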