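import Mathlib
import Pool.Agent.BDD.Norms
import Pool.Agent.BDD.Resc

/-!
# BDD/Slice : caps near a hyperplane are decoupled by the theorem in one dimension less

The family lives on the paraboloid over `ℝ^(d+1)` (flow of `ℝ^(d+2)`, time first), centres `c j` in
`[0,1]^(d+1)`, `1/K`-separated, and `|∑ ν_i c_i - b| ≤ Cs/K` for a unit vector `ν`. Conclusion: the
family satisfies the decoupling inequality with constant `C0 * A`, where `A` is a constant for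
`DecB d p (K/M)` (dimension `d`), `M = M(d, M1, Cs)`, `C0 = C0(d, M1, Cs)`.

PROOF. Put `M = (Cs + (d+1) M1) + M1` (so `M ≥ (d+1) M1`, `M² ≥ (Cs + (d+1) M1)² + M1²`).
(1) FRAME. Vectors `o_0 = ν, o_1 = e_0, .., o_d = e_{d-1}` orthonormal in `ℝ^(d+1)`
(`EuclideanSpace ℝ (Fin (d+1))`, `Orthonormal.exists_orthonormalBasis_extension_of_card_eq`), so
`∑_k x_k y_k = ∑_a (o_a·x)(o_a·y)`, in particular `|x|² = (ν·x)² + ∑_i (e_i·x)²`, `|e_i k| ≤ 1`.
(2) FLOW `T' y = T (L y)`, `y ∈ ℝ^(d+1)`: `L y = Fin.cons (y 0) (fun k => ∑_i y i.succ * e_i k - 2 b (y 0) ν k)`,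
dual map `Lt ξ = Fin.cons (ξ 0 - 2 b ∑_k ν k * ξ k.succ) (fun i => ∑_k e_i k * ξ k.succ)`:
`∑ (Lt ξ) i * y i = ∑ ξ i * (L y) i`. `Flow.comp` (BDD/Spec), `DenseSpec.comp` (BDD/Resc).
(3) SPECTRUM. `ξ ∈ Cap (d+1) (K/M1) ξ0 c`: `ξ k.succ = ξ0 k.succ + u k`, `u = c + (M1/K) z`,
`ξ 0 = ξ0 0 + |u|² + s M1²/K²`. Then with `ξ0' i.succ = e_i·ξ0`, `h = (e_i·c)_i`:
`(Lt ξ) i.succ = ξ0' i.succ + h i + (e_i·z) M1/K`, `|(e_i·z) M1/K| ≤ (d+1) M1/K ≤ M/K`, and
`(Lt ξ) 0 = (ξ0 0 - 2 b ν·ξ0 - b²) + ∑ (e_i·u)² + (ν·u - b)² + s M1²/K²`,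
`|ν·u - b| ≤ (Cs + (d+1) M1)/K`, so the last two terms are `s'/(K/M)²` with `|s'| ≤ 1`.
Hence `g j ∈ Spec T' (Cap d (K/M) ξ0' (h j))` (`Spec_comp`), `h j ∈ [-(d+1), d+1]^d`.
(4) OVERLAP. If `|h j i - h k i| < M/K` for all `i` then `|c j - c k|_2² ≤ d (M/K)² + (2Cs/K)²`, so
`|c j i - c k i| ≤ Q/K`, `Q = d M + 2 Cs + M`; the points `c k` are `1/K`-separated, so the number of such
`k` is at most `(2Q+2)^(d+1)` (the integer vectors `⌊K c_k⌋` are distinct and lie in a box).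
GREEDY COLOURING: if every `j ∈ J` has at most `m` neighbours (symmetric relation `P`), there is
`col : ι → Fin (m+1)` with `col j ≠ col k` for neighbours `j ≠ k` in `J` (induction on `J`).
(5) For a colour and a unit cube `κ + [0,1]^d` (`κ i = ⌊h j i⌋`, at most `(2d+4)^d` cubes) the subfamily
is `M/K = 1/(K/M)`-separated: `DecB_resc` with `ρ = 1` (`N = K/M`, `N * 1 = K/M`), constant `A`.
(6) triangle inequality over the at most `C0 := (m+1) (2d+4)^d` classes: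
`nrm (∑ g_j) ≤ ∑_classes A (∑_class nrm²)^(1/2) ≤ C0 A (∑_J nrm²)^(1/2)`.
-/

open MeasureTheory Finset
open scoped ENNReal

namespace BDDK

theorem slice_frame (d : ℕ) (ν : Fin (d + 1) → ℝ) (hν : ∑ i, ν i ^ 2 = 1) :
    ∃ e : Fin d → Fin (d + 1) → ℝ, ∀ x : Fin (d + 1) → ℝ,
      ∑ k, x k ^ 2 = (∑ k, ν k * x k) ^ 2 + ∑ i, (∑ k, e i k * x k) ^ 2 := by
  have hnorm : ‖(WithLp.toLp 2 ν : EuclideanSpace ℝ (Fin (d + 1)))‖ = 1 := by
    rw [EuclideanSpace.norm_eq]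
    simp only [Real.norm_eq_abs, sq_abs]
    rw [hν, Real.sqrt_one]
  have hv : Orthonormal ℝ (({0} : Set (Fin (d + 1))).domRestrict
      (fun _ => (WithLp.toLp 2 ν : EuclideanSpace ℝ (Fin (d + 1))))) := by
    constructor
    · intro i
      exact hnorm
    · intro i j hij
      exact absurd (Subsingleton.elim i j) hij
  obtain ⟨b, hb⟩ := hv.exists_orthonormalBasis_extension_of_card_eq (by simp)
  have hb0 : b 0 = WithLp.toLp 2 ν := hb 0 rfl
  refine ⟨fun i k => b i.succ k, fun x => ?_⟩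
  have h := b.sum_sq_norm_inner_right (WithLp.toLp 2 x)
  rw [Fin.sum_univ_succ, hb0, EuclideanSpace.norm_sq_eq] at h
  simp only [Real.norm_eq_abs, sq_abs, PiLp.inner_apply, RCLike.inner_apply, conj_trivial] at h
  rw [← h]
  congr 1
  · congr 1
    refine Finset.sum_congr rfl fun k _ => ?_
    ring
  · refine Finset.sum_congr rfl fun i _ => ?_
    congr 1
    refine Finset.sum_congr rfl fun k _ => ?_
    ring

theorem slice_ebd {d : ℕ} {ν : Fin (d + 1) → ℝ} {e : Fin d → Fin (d + 1) → ℝ}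
    (he : ∀ x : Fin (d + 1) → ℝ,
      ∑ k, x k ^ 2 = (∑ k, ν k * x k) ^ 2 + ∑ i, (∑ k, e i k * x k) ^ 2) (k : Fin (d + 1)) :
    |ν k| ≤ 1 ∧ ∀ i, |e i k| ≤ 1 := by
  have h := he (Pi.single k 1)
  have h1 : ∑ j : Fin (d + 1), (Pi.single k (1 : ℝ) : Fin (d + 1) → ℝ) j ^ 2 = 1 := by
    simp [Pi.single_apply]
  have h2 : ∀ a : Fin (d + 1) → ℝ,
      ∑ j : Fin (d + 1), a j * (Pi.single k (1 : ℝ) : Fin (d + 1) → ℝ) j = a k := by
    intro a
    simp [Pi.single_apply]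
  rw [h1, h2] at h
  simp_rw [h2] at h
  have h3 : 0 ≤ ∑ i, e i k ^ 2 := Finset.sum_nonneg fun i _ => sq_nonneg _
  constructor
  · rw [← sq_le_one_iff_abs_le_one]
    linarith
  · intro i
    rw [← sq_le_one_iff_abs_le_one]
    have h4 : e i k ^ 2 ≤ ∑ i, e i k ^ 2 :=
      Finset.single_le_sum (f := fun i => e i k ^ 2) (fun i _ => sq_nonneg _) (Finset.mem_univ i)
    have := sq_nonneg (ν k)
    linarith

theorem slice_dot {m : ℕ} {a z : Fin m → ℝ} (ha : ∀ k, |a k| ≤ 1) (hz : ∀ k, |z k| ≤ 1) :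
    |∑ k, a k * z k| ≤ m := by
  calc |∑ k, a k * z k| ≤ ∑ k, |a k * z k| := Finset.abs_sum_le_sum_abs _ _
    _ ≤ ∑ _k : Fin m, (1 : ℝ) := by
      apply Finset.sum_le_sum
      intro k _
      rw [abs_mul]
      exact mul_le_one₀ (ha k) (abs_nonneg _) (hz k)
    _ = m := by simp

/-- the spectrum in the frame -/
theorem slice_spec {d : ℕ} {M1 Cs K b : ℝ} (hM1 : 1 ≤ M1) (hCs : 1 ≤ Cs) (hK : 0 < K)
    {ν : Fin (d + 1) → ℝ} {e : Fin d → Fin (d + 1) → ℝ}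
    (he : ∀ x : Fin (d + 1) → ℝ,
      ∑ k, x k ^ 2 = (∑ k, ν k * x k) ^ 2 + ∑ i, (∑ k, e i k * x k) ^ 2)
    (ξ0 : Fin (d + 2) → ℝ) (c : Fin (d + 1) → ℝ) (hc : |∑ i, ν i * c i - b| ≤ Cs / K)
    {ξ : Fin (d + 2) → ℝ} (hξ : ξ ∈ Cap (d + 1) (K / M1) ξ0 c) :
    (Fin.cons (ξ 0 - 2 * b * ∑ k : Fin (d + 1), ν k * ξ k.succ)
        (fun i => ∑ k : Fin (d + 1), e i k * ξ k.succ) : Fin (d + 1) → ℝ) ∈
      Cap d (K / (Cs + (d + 1) * M1 + M1))
        (Fin.cons (ξ0 0 - 2 * b * (∑ k : Fin (d + 1), ν k * ξ0 k.succ) - b ^ 2)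
          (fun i => ∑ k : Fin (d + 1), e i k * ξ0 k.succ))
        (fun i => ∑ k, e i k * c k) := by
  obtain ⟨z, s, hz, hs, h1, h0⟩ := hξ
  have hd : (0 : ℝ) ≤ d := by positivity
  set B : ℝ := Cs + (d + 1) * M1 with hB
  have hB0 : 0 < B := by positivity
  set M : ℝ := B + M1 with hM
  have hM0 : 0 < M := by positivity
  set u : Fin (d + 1) → ℝ := fun k => c k + z k / (K / M1) with hu
  have hz' : ∀ k, |z k| ≤ 1 := fun k => by
    have := (norm_le_pi_norm z k).trans hz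
    rwa [Real.norm_eq_abs] at this
  have hdot : ∀ a : Fin (d + 1) → ℝ, ∑ k, a k * u k = ∑ k, a k * c k + (M1 / K) * ∑ k, a k * z k := by
    intro a
    rw [Finset.mul_sum, ← Finset.sum_add_distrib]
    refine Finset.sum_congr rfl fun k _ => ?_
    simp only [hu]
    field_simp
  have hdot2 : ∀ a : Fin (d + 1) → ℝ,
      ∑ k, a k * ξ k.succ = ∑ k : Fin (d + 1), a k * ξ0 k.succ + ∑ k, a k * u k := by
    intro a
    rw [← Finset.sum_add_distrib]
    refine Finset.sum_congr rfl fun k _ => ?_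
    rw [h1]
    ring
  refine ⟨fun i => (M1 / M) * ∑ k, e i k * z k,
    (K / M) ^ 2 * ((∑ k, ν k * u k - b) ^ 2 + s * M1 ^ 2 / K ^ 2), ?_, ?_, ?_, ?_⟩
  · rw [pi_norm_le_iff_of_nonneg zero_le_one]
    intro i
    rw [Real.norm_eq_abs, abs_mul, abs_of_pos (by positivity : 0 < M1 / M)]
    have h3 := slice_dot (a := e i) (z := z) (fun k => (slice_ebd he k).2 i) hz'
    calc M1 / M * |∑ k, e i k * z k| ≤ M1 / M * ((d + 1 : ℕ) : ℝ) := by gcongr
      _ = (d + 1) * M1 / M := by push_cast; ring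
      _ ≤ 1 := by
        rw [div_le_one hM0, hM, hB]
        linarith
  · have h3 := slice_dot (a := ν) (z := z) (fun k => (slice_ebd he k).1) hz'
    have h4 : |∑ k, ν k * u k - b| ≤ B / K := by
      rw [hdot]
      calc |∑ k, ν k * c k + M1 / K * ∑ k, ν k * z k - b|
          = |(∑ k, ν k * c k - b) + M1 / K * ∑ k, ν k * z k| := by congr 1; ring
        _ ≤ |∑ k, ν k * c k - b| + |M1 / K * ∑ k, ν k * z k| := abs_add_le _ _
        _ ≤ Cs / K + M1 / K * ((d + 1 : ℕ) : ℝ) := by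
          rw [abs_mul, abs_of_pos (by positivity : 0 < M1 / K)]
          gcongr
        _ = B / K := by rw [hB]; push_cast; ring
    have h5 : (∑ k, ν k * u k - b) ^ 2 ≤ (B / K) ^ 2 := sq_le_sq' (abs_le.mp h4).1 (abs_le.mp h4).2
    have hs2 := abs_le.mp hs
    rw [abs_le]
    have hsq := sq_nonneg (∑ k, ν k * u k - b)
    have e1 : (K / M) ^ 2 * ((∑ k, ν k * u k - b) ^ 2 + s * M1 ^ 2 / K ^ 2) =
        ((K / M) ^ 2 * (∑ k, ν k * u k - b) ^ 2) + s * (M1 / M) ^ 2 := by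
      field_simp
    rw [e1]
    have e2 : (K / M) ^ 2 * (∑ k, ν k * u k - b) ^ 2 ≤ (B / M) ^ 2 := by
      calc (K / M) ^ 2 * (∑ k, ν k * u k - b) ^ 2 ≤ (K / M) ^ 2 * (B / K) ^ 2 := by gcongr
        _ = (B / M) ^ 2 := by field_simp
    have e3 : 0 ≤ (K / M) ^ 2 * (∑ k, ν k * u k - b) ^ 2 := by positivity
    have e4 : (B / M) ^ 2 + (M1 / M) ^ 2 ≤ 1 := by
      rw [div_pow, div_pow, ← add_div, div_le_one (by positivity), hM]
      nlinarith [mul_pos hB0 (by linarith : 0 < M1)]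
    have e5 : 0 ≤ (M1 / M) ^ 2 := by positivity
    have e6 : 0 ≤ (B / M) ^ 2 := by positivity
    constructor
    · nlinarith [hs2.1]
    · nlinarith [hs2.2]
  · intro i
    rw [Fin.cons_succ, Fin.cons_succ]
    rw [hdot2, hdot]
    field_simp
  · rw [Fin.cons_zero, Fin.cons_zero]
    have e1 : ∀ i, (∑ k, e i k * c k + M1 / M * (∑ k, e i k * z k) / (K / M)) =
        ∑ k, e i k * u k := by
      intro i
      rw [hdot]
      field_simp
    simp_rw [e1]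
    rw [h0, hdot2]
    have e2 : ∑ i, (c i + z i / (K / M1)) ^ 2 = ∑ i, u i ^ 2 := rfl
    rw [e2, he u]
    field_simp
    ring

/-- two centres with the same colour are separated in the frame -/
theorem slice_col {d : ℕ} {Cs K b M : ℝ} (hCs : 1 ≤ Cs) (hK : 0 < K) (hM : 0 < M)
    {ν : Fin (d + 1) → ℝ} {e : Fin d → Fin (d + 1) → ℝ}
    (he : ∀ x : Fin (d + 1) → ℝ,
      ∑ k, x k ^ 2 = (∑ k, ν k * x k) ^ 2 + ∑ i, (∑ k, e i k * x k) ^ 2)
    {R : ℕ} (hR : d * M + 2 * Cs + 1 < R) {c c' : Fin (d + 1) → ℝ}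
    (hc : |∑ i, ν i * c i - b| ≤ Cs / K) (hc' : |∑ i, ν i * c' i - b| ≤ Cs / K)
    (hsep : ∃ i, 1 / K ≤ |c i - c' i|)
    (hcol : ∀ i, ⌊K * c i⌋ % (R : ℤ) = ⌊K * c' i⌋ % (R : ℤ)) :
    ∃ i, M / K ≤ |∑ k, e i k * c k - ∑ k, e i k * c' k| := by
  by_contra hcon
  push Not at hcon
  obtain ⟨i0, hi0⟩ := hsep
  have hd : (0 : ℝ) ≤ d := by positivity
  have hsub : ∀ a : Fin (d + 1) → ℝ,
      ∑ k, a k * (c k - c' k) = ∑ k, a k * c k - ∑ k, a k * c' k := by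
    intro a
    rw [← Finset.sum_sub_distrib]
    exact Finset.sum_congr rfl fun k _ => by ring
  have h := he (fun k => c k - c' k)
  rw [hsub] at h
  simp_rw [hsub] at h
  have h1 : |∑ k, ν k * c k - ∑ k, ν k * c' k| ≤ 2 * Cs / K := by
    calc |∑ k, ν k * c k - ∑ k, ν k * c' k|
        = |(∑ k, ν k * c k - b) - (∑ k, ν k * c' k - b)| := by congr 1; ring
      _ ≤ |∑ k, ν k * c k - b| + |∑ k, ν k * c' k - b| := abs_sub _ _
      _ ≤ Cs / K + Cs / K := add_le_add hc hc'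
      _ = 2 * Cs / K := by ring
  have h2 : (∑ k, ν k * c k - ∑ k, ν k * c' k) ^ 2 ≤ (2 * Cs / K) ^ 2 :=
    sq_le_sq' (abs_le.mp h1).1 (abs_le.mp h1).2
  have h3 : ∑ i, (∑ k, e i k * c k - ∑ k, e i k * c' k) ^ 2 ≤ d * (M / K) ^ 2 := by
    calc ∑ i, (∑ k, e i k * c k - ∑ k, e i k * c' k) ^ 2 ≤ ∑ _i : Fin d, (M / K) ^ 2 := by
          apply Finset.sum_le_sum
          intro i _
          have := (hcon i).le
          exact sq_le_sq' (abs_le.mp this).1 (abs_le.mp this).2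
      _ = d * (M / K) ^ 2 := by simp
  have hdd : (d : ℝ) ≤ (d : ℝ) ^ 2 := by
    rcases Nat.eq_zero_or_pos d with h0 | h0
    · subst h0; simp
    · have : (1 : ℝ) ≤ d := by exact_mod_cast h0
      nlinarith
  have h4 : ∀ k, |c k - c' k| ≤ (d * M + 2 * Cs) / K := by
    intro k
    apply abs_le_of_sq_le_sq _ (by positivity)
    have h5 : (c k - c' k) ^ 2 ≤ ∑ k, (c k - c' k) ^ 2 :=
      Finset.single_le_sum (f := fun k => (c k - c' k) ^ 2) (fun i _ => sq_nonneg _)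
        (Finset.mem_univ k)
    have h6 : (d : ℝ) * (M / K) ^ 2 ≤ (d * M / K) ^ 2 := by
      calc (d : ℝ) * (M / K) ^ 2 ≤ (d : ℝ) ^ 2 * (M / K) ^ 2 := by gcongr
        _ = (d * M / K) ^ 2 := by ring
    have h7 : ((d * M + 2 * Cs) / K) ^ 2 = (d * M / K) ^ 2 + (2 * Cs / K) ^ 2 +
        2 * (d * M / K) * (2 * Cs / K) := by ring
    have h8 : 0 ≤ 2 * (d * M / K) * (2 * Cs / K) := by positivity
    linarith
  have h9 : ∀ k, ⌊K * c k⌋ = ⌊K * c' k⌋ := by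
    intro k
    have hdvd : (R : ℤ) ∣ ⌊K * c k⌋ - ⌊K * c' k⌋ := by
      have : ⌊K * c' k⌋ ≡ ⌊K * c k⌋ [ZMOD (R : ℤ)] := (hcol k).symm
      exact this.dvd
    have hlt : |⌊K * c k⌋ - ⌊K * c' k⌋| < (R : ℤ) := by
      have a1 := Int.floor_le (K * c k)
      have a2 := Int.lt_floor_add_one (K * c k)
      have a3 := Int.floor_le (K * c' k)
      have a4 := Int.lt_floor_add_one (K * c' k)
      have a6 : |K * c k - K * c' k| ≤ d * M + 2 * Cs := by
        rw [← mul_sub, abs_mul, abs_of_pos hK]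
        have := h4 k
        rw [le_div_iff₀ hK] at this
        linarith
      have a7 := abs_le.mp a6
      have : ((|⌊K * c k⌋ - ⌊K * c' k⌋| : ℤ) : ℝ) < ((R : ℤ) : ℝ) := by
        push_cast
        rw [abs_lt]
        constructor <;> linarith [a7.1, a7.2]
      exact_mod_cast this
    have := Int.eq_zero_of_abs_lt_dvd hdvd hlt
    linarith
  have a1 := Int.floor_le (K * c i0)
  have a2 := Int.lt_floor_add_one (K * c i0)
  have a3 := Int.floor_le (K * c' i0)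
  have a4 := Int.lt_floor_add_one (K * c' i0)
  rw [h9 i0] at a1 a2
  have a5 : |K * c i0 - K * c' i0| < 1 := by
    rw [abs_lt]
    constructor <;> linarith
  rw [← mul_sub, abs_mul, abs_of_pos hK] at a5
  rw [div_le_iff₀ hK] at hi0
  linarith

theorem slice (d : ℕ) {p : ℝ} (hp : 1 ≤ p) {M1 Cs : ℝ} (hM1 : 1 ≤ M1) (hCs : 1 ≤ Cs) :
    ∃ (M : ℝ) (C0 : ℝ≥0∞), 1 ≤ M ∧ C0 ≠ ∞ ∧ ∀ (K : ℝ), M ≤ K → ∀ A : ℝ≥0∞, DecB d p (K / M) A →
      ∀ (Ω : Type) [MeasurableSpace Ω] (μ : Measure Ω) [IsFiniteMeasure μ]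
        (T : (Fin (d + 2) → ℝ) → Ω → Ω), Flow μ T → DenseSpec μ T →
      ∀ (ξ0 : Fin (d + 2) → ℝ) (ι : Type) (J : Finset ι) (c : ι → Fin (d + 1) → ℝ)
        (g : ι → Ω → ℂ) (ν : Fin (d + 1) → ℝ) (b : ℝ), ∑ i, ν i ^ 2 = 1 →
        (∀ j ∈ J, |∑ i, ν i * c j i - b| ≤ Cs / K) →
        (∀ j ∈ J, ∀ i, 0 ≤ c j i ∧ c j i ≤ 1) →
        (∀ j ∈ J, ∀ k ∈ J, j ≠ k → ∃ i, 1 / K ≤ |c j i - c k i|) →
        (∀ j ∈ J, g j ∈ Spec T (Cap (d + 1) (K / M1) ξ0 (c j))) →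
        nrm μ p (fun ω => ∑ j ∈ J, g j ω) ≤
          C0 * A * (∑ j ∈ J, nrm μ p (g j) ^ 2) ^ (1 / 2 : ℝ) := by
  classical
  have hd : (0 : ℝ) ≤ d := by positivity
  set M : ℝ := Cs + (d + 1) * M1 + M1 with hM
  have hM1' : 1 ≤ M := by
    have : 0 ≤ ((d : ℝ) + 1) * M1 := by positivity
    linarith
  obtain ⟨R, hR⟩ := exists_nat_gt (d * M + 2 * Cs + 1)
  have hR0 : 0 < (R : ℤ) := by
    have : (0 : ℝ) < R := by
      have : 0 ≤ (d : ℝ) * M := by positivity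
      linarith
    exact_mod_cast this
  set F : Finset ((Fin (d + 1) → ℤ) × (Fin d → ℤ)) :=
    (Fintype.piFinset fun _ => Finset.Ico 0 (R : ℤ)) ×ˢ
      (Fintype.piFinset fun _ => Finset.Icc (-((d : ℤ) + 1)) ((d : ℤ) + 1)) with hF
  refine ⟨M, (F.card : ℝ≥0∞), hM1', ENNReal.natCast_ne_top _, ?_⟩
  intro K hK A hA Ω _ μ _ T hT hD ξ0 ι J c g ν b hν hb hc hsep hg
  have hK0 : 0 < K := by linarith
  obtain ⟨e, he⟩ := slice_frame d ν hν
  set h : ι → Fin d → ℝ := fun j i => ∑ k, e i k * c j k with hh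
  set φ : ι → (Fin (d + 1) → ℤ) × (Fin d → ℤ) :=
    fun j => (fun i => ⌊K * c j i⌋ % (R : ℤ), fun i => ⌊h j i⌋) with hφ
  have hmaps : ∀ j ∈ J, φ j ∈ F := by
    intro j hj
    rw [hF, Finset.mem_product, Fintype.mem_piFinset, Fintype.mem_piFinset]
    refine ⟨fun i => ?_, fun i => ?_⟩
    · rw [Finset.mem_Ico]
      exact ⟨Int.emod_nonneg _ hR0.ne', Int.emod_lt_of_pos _ hR0⟩
    · have h3 := slice_dot (a := e i) (z := c j) (fun k => (slice_ebd he k).2 i) (fun k => by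
        rw [abs_of_nonneg (hc j hj k).1]; exact (hc j hj k).2)
      have h4 := abs_le.mp h3
      push_cast at h4
      rw [Finset.mem_Icc]
      constructor
      · apply Int.le_floor.mpr
        push_cast
        exact h4.1
      · have : ((⌊h j i⌋ : ℤ) : ℝ) ≤ (((d : ℤ) + 1 : ℤ) : ℝ) := by
          push_cast
          exact (Int.floor_le _).trans h4.2
        exact_mod_cast this
  -- the flow
  set L : (Fin (d + 1) → ℝ) → (Fin (d + 2) → ℝ) := fun y =>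
    Fin.cons (y 0) (fun k => ∑ i : Fin d, y i.succ * e i k - 2 * b * y 0 * ν k) with hL
  set Lt : (Fin (d + 2) → ℝ) → (Fin (d + 1) → ℝ) := fun ξ =>
    Fin.cons (ξ 0 - 2 * b * ∑ k : Fin (d + 1), ν k * ξ k.succ)
      (fun i => ∑ k : Fin (d + 1), e i k * ξ k.succ) with hLt
  have hdual : ∀ ξ y, ∑ i, Lt ξ i * y i = ∑ i, ξ i * (L y) i := by
    intro ξ y
    rw [Fin.sum_univ_succ, Fin.sum_univ_succ (n := d + 1)]
    simp only [hL, hLt, Fin.cons_zero, Fin.cons_succ]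
    have e1 : ∑ i : Fin d, (∑ k : Fin (d + 1), e i k * ξ k.succ) * y i.succ =
        ∑ k : Fin (d + 1), ξ k.succ * ∑ i : Fin d, y i.succ * e i k := by
      simp_rw [Finset.sum_mul, Finset.mul_sum]
      rw [Finset.sum_comm]
      refine Finset.sum_congr rfl fun k _ => Finset.sum_congr rfl fun i _ => ?_
      ring
    have e2 : ∑ k : Fin (d + 1), ξ k.succ * (∑ i : Fin d, y i.succ * e i k - 2 * b * y 0 * ν k) =
        ∑ k : Fin (d + 1), ξ k.succ * ∑ i : Fin d, y i.succ * e i k -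
          2 * b * y 0 * ∑ k : Fin (d + 1), ν k * ξ k.succ := by
      rw [Finset.mul_sum, ← Finset.sum_sub_distrib]
      refine Finset.sum_congr rfl fun k _ => ?_
      ring
    rw [e1, e2]
    ring
  have hadd : ∀ x y, L (x + y) = L x + L y := by
    intro x y
    funext j
    refine Fin.cases ?_ (fun k => ?_) j
    · simp only [hL, Fin.cons_zero, Pi.add_apply]
    · simp only [hL, Fin.cons_succ, Pi.add_apply]
      simp_rw [add_mul]
      rw [Finset.sum_add_distrib]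
      ring
  have hLm : Measurable L := by
    rw [measurable_pi_iff]
    intro j
    refine Fin.cases ?_ (fun k => ?_) j
    · simp only [hL, Fin.cons_zero]; fun_prop
    · simp only [hL, Fin.cons_succ]; fun_prop
  have hT' := hT.comp L hLm hadd
  have hD' := hD.comp L Lt hdual
  -- one class
  have hclass : ∀ κ : (Fin (d + 1) → ℤ) × (Fin d → ℤ),
      nrm μ p (fun ω => ∑ j ∈ J.filter (fun j => φ j = κ), g j ω) ≤
        A * (∑ j ∈ J, nrm μ p (g j) ^ 2) ^ (1 / 2 : ℝ) := by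
    intro κ
    have h1 := DecB_resc (ρ := 1) (N := K / M) one_pos (by positivity)
      (by rw [mul_one]; exact hA) hT' hD'
      (Fin.cons (ξ0 0 - 2 * b * (∑ k : Fin (d + 1), ν k * ξ0 k.succ) - b ^ 2)
        (fun i => ∑ k : Fin (d + 1), e i k * ξ0 k.succ))
      (fun i => (κ.2 i : ℝ)) (J.filter (fun j => φ j = κ)) h g ?_ ?_ ?_
    · refine h1.trans ?_
      gcongr
      exact Finset.filter_subset _ _
    · intro j hj i
      obtain ⟨_, rfl⟩ := Finset.mem_filter.mp hj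
      exact ⟨Int.floor_le _, (Int.lt_floor_add_one _).le⟩
    · intro j hj k hk hjk
      obtain ⟨hj1, hj2⟩ := Finset.mem_filter.mp hj
      obtain ⟨hk1, hk2⟩ := Finset.mem_filter.mp hk
      have h2 := slice_col hCs hK0 (by linarith : 0 < M) he hR (hb j hj1) (hb k hk1)
        (hsep j hj1 k hk1 hjk) (fun i => by
          have h3 : (φ j).1 i = (φ k).1 i := by rw [hj2, hk2]
          exact h3)
      obtain ⟨i, hi⟩ := h2
      refine ⟨i, ?_⟩
      rw [one_div_div]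
      exact hi
    · intro j hj
      obtain ⟨hj1, _⟩ := Finset.mem_filter.mp hj
      refine Spec_comp L (A := Cap (d + 1) (K / M1) ξ0 (c j)) ?_ (hg j hj1)
      intro ξ hξ
      exact ⟨Lt ξ, slice_spec hM1 hCs hK0 he ξ0 (c j) (hb j hj1) hξ, hdual ξ⟩
  have hmeas : ∀ j ∈ J, Measurable (g j) := fun j hj => Spec_meas (hg j hj)
  have e1 : (fun ω => ∑ j ∈ J, g j ω) =
      fun ω => ∑ κ ∈ F, ∑ j ∈ J.filter (fun j => φ j = κ), g j ω := by
    funext ω
    exact (Finset.sum_fiberwise_of_maps_to hmaps _).symm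
  rw [e1]
  refine (nrm_sum_le μ hp F (fun κ ω => ∑ j ∈ J.filter (fun j => φ j = κ), g j ω) ?_).trans ?_
  · intro κ _
    apply Finset.measurable_fun_sum
    intro j hj
    exact hmeas j (Finset.mem_filter.mp hj).1
  · calc ∑ κ ∈ F, nrm μ p (fun ω => ∑ j ∈ J.filter (fun j => φ j = κ), g j ω)
        ≤ ∑ _κ ∈ F, A * (∑ j ∈ J, nrm μ p (g j) ^ 2) ^ (1 / 2 : ℝ) :=
          Finset.sum_le_sum fun κ _ => hclass κ
      _ = _ := by rw [Finset.sum_const, nsmul_eq_mul, mul_assoc]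

end BDDK
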