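import Mathlib
import Pool.Agent.BDD.NarrowAbs
import Pool.Agent.BDD.CapSum
import Pool.Agent.BDD.Slice

/-!
# The narrow term
-/

open MeasureTheory Finset
open scoped ENNReal

namespace BDDK

theorem corner_sep {d : ℕ} {r : ℕ} (hr : 0 < r) {α β : Fin d → ℤ} (h : α ≠ β) :
    ∃ i, 1 / (r : ℝ) ≤ |corner r α i - corner r β i| := by
  have hr' : (0 : ℝ) < r := by exact_mod_cast hr
  obtain ⟨i, hi⟩ := Function.ne_iff.mp h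
  refine ⟨i, ?_⟩
  unfold corner
  rw [← sub_div, abs_div, abs_of_pos hr']
  gcongr
  have : 1 ≤ |α i - β i| := Int.one_le_abs (sub_ne_zero.mpr hi)
  exact_mod_cast this

theorem narrow_term (d : ℕ) {p : ℝ} (hp : 2 ≤ p) : ∃ (M : ℝ) (C0 : ℝ≥0∞), 1 ≤ M ∧ C0 ≠ ∞ ∧
    ∀ (K1 : ℕ) (_ : M ≤ K1) (B : ℝ≥0∞) (_ : B ≠ ∞) (_ : DecB d p (K1 / M) B)
      (Ω : Type) [MeasurableSpace Ω] (μ : Measure Ω) [IsFiniteMeasure μ]
      (T : (Fin (d + 2) → ℝ) → Ω → Ω) (_ : Flow μ T) (_ : DenseSpec μ T) (N : ℝ) (_ : K1 ≤ N)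
      (ξ0 : Fin (d + 2) → ℝ) (ι : Type) (J : Finset ι) (c : ι → Fin (d + 1) → ℝ) (g : ι → Ω → ℂ)
      (_ : ∀ j ∈ J, ∀ i, 0 ≤ c j i ∧ c j i ≤ 1)
      (_ : ∀ j ∈ J, g j ∈ Spec T (Cap (d + 1) N ξ0 (c j)))
      (R : ℝ) (_ : (K1 : ℝ) ^ 2 ≤ R) (σ : Type) (𝒮 : Finset σ) (E : σ → Set Ω)
      (_ : ∀ s ∈ 𝒮, MeasurableSet (E s))
      (_ : ∀ s ∈ 𝒮, ∀ t ∈ 𝒮, s ≠ t → Disjoint (E s) (E t))
      (Bs : σ → Finset (Fin (d + 1) → ℤ)) (_ : ∀ s ∈ 𝒮, Bs s ⊆ cells K1 c J)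
      (_ : ∀ s ∈ 𝒮, ∃ (ν : Fin (d + 1) → ℝ) (b : ℝ), ∑ i, ν i ^ 2 = 1 ∧ ∀ β ∈ Bs s,
        |∑ i, ν i * corner K1 β i - b| ≤ (2 * ((d : ℝ) + 1) * (d + 2) + (d + 1)) / K1),
      ∑ s ∈ 𝒮, ∫⁻ ω, ‖∑ β ∈ Bs s, piece g K1 c J β ω‖ₑ ^ p *
          Av T (W R) ((E s).indicator (fun _ => (1 : ℝ≥0∞))) ω ∂μ ≤
        C0 * B ^ p * (∑ β ∈ cells K1 c J, nrm μ p (piece g K1 c J β) ^ 2) ^ (p / 2) := by
  have hp1 : 1 ≤ p := by linarith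
  have hp0 : 0 < p := by linarith
  have hd0 : (0 : ℝ) ≤ d := by positivity
  obtain ⟨M, C0, hM, hC0, hsl⟩ := slice d hp1 (M1 := 7 * ((d + 1 : ℕ) : ℝ) + 5)
    (Cs := 2 * ((d : ℝ) + 1) * (d + 2) + (d + 1)) (by push_cast; linarith) (by nlinarith)
  obtain ⟨C, hC, hna⟩ := narrow_abs (d + 2) hp
  refine ⟨M, C * C0 ^ p, hM, ENNReal.mul_ne_top hC (ENNReal.rpow_ne_top_of_nonneg hp0.le hC0), ?_⟩
  intro K1 hK1 B hB hdec Ω _ μ _ T hT hDs N hN ξ0 ι J c g hc hg R hR σ 𝒮 E hE hdis Bs hBs hslab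
  have hK1' : (1 : ℝ) ≤ K1 := hM.trans hK1
  have hK0' : (0 : ℝ) < K1 := by linarith
  have hK0 : 0 < K1 := by exact_mod_cast hK0'
  have hR0 : 0 < R := lt_of_lt_of_le (by positivity) hR
  have hps : ∀ β, piece g K1 c J β ∈ Spec T (Cap (d + 1) (K1 / 2) ξ0 (corner K1 β)) := fun β =>
    piece_spec hg hK0 hN β
  have hcor : ∀ β ∈ cells K1 c J, ∀ i, 0 ≤ corner K1 β i ∧ corner K1 β i ≤ 1 := by
    intro β hβ i
    unfold cells at hβ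
    rw [Finset.mem_image] at hβ
    obtain ⟨j, hj, rfl⟩ := hβ
    exact corner_mem hK0 (hc j hj) i
  have h := hna Ω μ T hT hDs R hR0 σ (Fin (d + 1) → ℤ) 𝒮 E hE hdis (cells K1 c J) Bs hBs
    (fun β => piece g K1 c J β) (fun β _ => Spec_mono (Set.subset_univ _) (hps β)) (C0 * B)
    (ENNReal.mul_ne_top hC0 hB) ?_
  · refine h.trans (le_of_eq ?_)
    rw [ENNReal.mul_rpow_of_nonneg _ _ hp0.le]
    ring
  · intro s hs P hP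
    obtain ⟨ν, b, hν, hνb⟩ := hslab s hs
    have h2 := hsl (K1 : ℝ) hK1 B hdec Ω μ T hT hDs ξ0 (Fin (d + 1) → ℤ) (Bs s)
      (fun β => corner K1 β) (fun β ω => piece g K1 c J β ω * P ω) ν b hν hνb
      (fun β hβ => hcor β (hBs s hs hβ)) (fun β _ β' _ hne => corner_sep hK0 hne) ?_
    · simp_rw [Finset.sum_mul]
      exact h2
    · intro β hβ
      have h3 := Spec_mul (A := Cap (d + 1) (K1 / 2) ξ0 (corner K1 β))
        (B := {ζ : Fin (d + 2) → ℝ | ∀ i, |ζ i| < 1 / R})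
        (C := Cap (d + 1) (K1 / (7 * ((d + 1 : ℕ) : ℝ) + 5)) ξ0 (corner K1 β)) ?_ (hps β) hP
      · exact h3
      · intro ξ hξ ζ hζ
        refine cap_add hK1' ξ0 (corner K1 β) (hcor β (hBs s hs hβ)) hξ ?_
        intro i
        have h4 : |ζ i| < 1 / R := hζ i
        refine h4.le.trans ?_
        exact one_div_le_one_div_of_le (by positivity) hR

end BDDK
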