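import Mathlib
import Pool.Agent.BDD.Broad
import Pool.Agent.BDD.Narrow
import Pool.Agent.BDD.LocC
import Pool.Agent.BDD.BNpt
import Pool.Agent.BDD.AvgBox

/-!
# Broad-narrow: the pointwise inequality and its integrated form
-/

open MeasureTheory Finset
open scoped ENNReal

namespace BDDK

theorem sum_fil {d : ℕ} {Ω ι : Type*} (g : ι → Ω → ℂ) (r : ℕ) (c : ι → Fin d → ℝ) (J : Finset ι)
    (B : Finset (Fin d → ℤ)) (ω : Ω) :
    ∑ β ∈ B, piece g r c J β ω = ∑ j ∈ J.filter (fun j => cell r (c j) ∈ B), g j ω := by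
  classical
  rw [← Finset.sum_fiberwise_of_maps_to (t := B) (g := fun j => cell r (c j))
    (fun j hj => (Finset.mem_filter.mp hj).2)]
  refine Finset.sum_congr rfl fun β hβ => ?_
  unfold piece mem
  rw [Finset.filter_filter]
  refine Finset.sum_congr ?_ fun _ _ => rfl
  ext j
  simp only [Finset.mem_filter]
  constructor
  · rintro ⟨h1, h2⟩; exact ⟨h1, by rw [h2]; exact hβ, h2⟩
  · rintro ⟨h1, _, h2⟩; exact ⟨h1, h2⟩

theorem sum_rpow_le_one {κ : Type*} (S : Finset κ) (a : κ → ℝ≥0∞) {q : ℝ} (hq : 1 ≤ q) :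
    ∑ i ∈ S, a i ^ q ≤ (∑ i ∈ S, a i) ^ q := by
  classical
  have hq0 : 0 < q := by linarith
  induction S using Finset.induction_on with
  | empty => simp [ENNReal.zero_rpow_of_pos hq0]
  | insert i S hi ih =>
    rw [Finset.sum_insert hi, Finset.sum_insert hi]
    calc a i ^ q + ∑ j ∈ S, a j ^ q ≤ a i ^ q + (∑ j ∈ S, a j) ^ q := by gcongr
      _ ≤ _ := ENNReal.add_rpow_le_rpow_add _ _ hq

theorem cells_dec {d : ℕ} {Ω : Type} [MeasurableSpace Ω] {μ : Measure Ω} [IsFiniteMeasure μ]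
    {T : (Fin (d + 1) → ℝ) → Ω → Ω} (hT : Flow μ T) (hDs : DenseSpec μ T) {p N : ℝ} (hN : 0 < N)
    {ξ0 : Fin (d + 1) → ℝ} {ι : Type} {J : Finset ι} {c : ι → Fin d → ℝ} {g : ι → Ω → ℂ}
    (hsep : ∀ j ∈ J, ∀ k ∈ J, j ≠ k → ∃ i, 1 / N ≤ |c j i - c k i|)
    (hg : ∀ j ∈ J, g j ∈ Spec T (Cap d N ξ0 (c j))) {r r1 : ℕ} (hr1 : 0 < r1) (hr : r1 ≤ r)
    {A : ℝ≥0∞} (hA : DecB d p (N / r1) A) :
    ∑ κ ∈ cells r c J, nrm μ p (piece g r c J κ) ^ 2 ≤ A ^ 2 * ∑ j ∈ J, nrm μ p (g j) ^ 2 := by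
  rw [← sum_cells r c J (fun j => nrm μ p (g j) ^ 2), Finset.mul_sum]
  apply Finset.sum_le_sum
  intro κ _
  exact piece_dec' hT hDs hN hsep hg hr1 hr hA κ

/-- parents of the cells of side `1/(K1 s)` -/
noncomputable def par {d : ℕ} (s : ℕ) (α : Fin d → ℤ) : Fin d → ℤ := fun i => α i / (s : ℤ)

theorem corner_par {d : ℕ} {K1 s : ℕ} (hK1 : 0 < K1) (hs : 0 < s) (α : Fin d → ℤ) (i : Fin d) :
    |corner (K1 * s) α i - corner K1 (par s α) i| ≤ 1 / K1 := by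
  have h1 : (0 : ℝ) < K1 := by exact_mod_cast hK1
  have h2 : (0 : ℝ) < s := by exact_mod_cast hs
  have h3 : (0 : ℤ) < s := by exact_mod_cast hs
  unfold corner par
  have e := Int.mul_ediv_add_emod (α i) (s : ℤ)
  have h4 := Int.emod_nonneg (α i) h3.ne'
  have h5 := Int.emod_lt_of_pos (α i) h3
  have e' : (α i : ℝ) = (s : ℝ) * ((α i / (s : ℤ) : ℤ) : ℝ) + ((α i % (s : ℤ) : ℤ) : ℝ) := by
    exact_mod_cast e.symm
  have h4' : (0 : ℝ) ≤ ((α i % (s : ℤ) : ℤ) : ℝ) := by exact_mod_cast h4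
  have h5' : ((α i % (s : ℤ) : ℤ) : ℝ) ≤ s := by exact_mod_cast h5.le
  have e2 : (α i : ℝ) / ((K1 * s : ℕ) : ℝ) - ((α i / (s : ℤ) : ℤ) : ℝ) / (K1 : ℝ) =
      ((α i % (s : ℤ) : ℤ) : ℝ) / (K1 * s) := by
    push_cast
    rw [e']
    field_simp
    ring
  rw [e2, abs_of_nonneg (by positivity), div_le_div_iff₀ (by positivity) h1]
  nlinarith

/-- the slab of a set without transversal tuples -/
theorem slab_par {d : ℕ} (hd : 1 ≤ d) {K1 s : ℕ} (hK1 : 2 * (d + 1) < K1) (hs : 0 < s)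
    (S : Finset (Fin d → ℤ)) (hS : ∀ α ∈ S, ∀ i, 0 ≤ corner (K1 * s) α i ∧ corner (K1 * s) α i ≤ 1)
    (hdet : ∀ t : Fin (d + 1) → Fin d → ℤ, (∀ i, t i ∈ S) →
      |(Matrix.of (fun i => wC (corner (K1 * s) (t i)))).det| < (1 / (K1 : ℝ)) ^ (d + 1)) :
    ∃ (ν : Fin d → ℝ) (b : ℝ), ∑ i, ν i ^ 2 = 1 ∧ ∀ β ∈ S.image (par s),
      |∑ i, ν i * corner K1 β i - b| ≤ (2 * (d : ℝ) * (d + 1) + d) / K1 := by
  classical
  have hK0 : 0 < K1 := by omega
  have hK0' : (0 : ℝ) < K1 := by exact_mod_cast hK0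
  have hK2 : 2 * ((d : ℝ) + 1) < K1 := by exact_mod_cast hK1
  have hU : ∀ c ∈ S.image (corner (K1 * s)), ∀ i, 0 ≤ c i ∧ c i ≤ 1 := by
    intro c hc i
    rw [Finset.mem_image] at hc
    obtain ⟨α, hα, rfl⟩ := hc
    exact hS α hα i
  have hδ2 : ((d : ℝ) + 1) * (1 / (K1 : ℝ)) < 1 / 2 := by
    rw [mul_one_div, div_lt_iff₀ hK0']
    linarith
  rcases transv hd (S.image (corner (K1 * s))) hU (δ := 1 / (K1 : ℝ)) (by positivity) hδ2 with h | h
  · exfalso
    obtain ⟨t, ht, htd⟩ := h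
    have h1 : ∀ i, ∃ α ∈ S, corner (K1 * s) α = t i := fun i => by
      have := ht i
      rwa [Finset.mem_image] at this
    choose t' ht' ht'' using h1
    have h2 := hdet t' ht'
    simp_rw [ht''] at h2
    exact absurd htd (not_le.mpr h2)
  · obtain ⟨ν, b, hν, hb⟩ := h
    refine ⟨ν, b, hν, ?_⟩
    intro β hβ
    rw [Finset.mem_image] at hβ
    obtain ⟨α, hα, rfl⟩ := hβ
    have h1 := hb (corner (K1 * s) α) (Finset.mem_image_of_mem _ hα)
    have hν1 : ∀ i, |ν i| ≤ 1 := by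
      intro i
      rw [← sq_le_one_iff_abs_le_one, ← hν]
      exact Finset.single_le_sum (f := fun i => ν i ^ 2) (fun i _ => sq_nonneg _) (Finset.mem_univ i)
    have h2 : |∑ i, ν i * corner (K1 * s) α i - ∑ i, ν i * corner K1 (par s α) i| ≤ d * (1 / K1) := by
      rw [← Finset.sum_sub_distrib]
      calc |∑ i, (ν i * corner (K1 * s) α i - ν i * corner K1 (par s α) i)|
          ≤ ∑ i, |ν i * corner (K1 * s) α i - ν i * corner K1 (par s α) i| :=
            Finset.abs_sum_le_sum_abs _ _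
        _ ≤ ∑ _i : Fin d, (1 / (K1 : ℝ)) := by
            apply Finset.sum_le_sum
            intro i _
            rw [← mul_sub, abs_mul]
            calc |ν i| * |corner (K1 * s) α i - corner K1 (par s α) i| ≤ 1 * (1 / K1) := by
                  gcongr
                  · exact hν1 i
                  · exact corner_par hK0 hs α i
              _ = _ := one_mul _
        _ = d * (1 / K1) := by simp
    have e : (2 * (d : ℝ) * (d + 1) + d) / K1 = 2 * d * ((d : ℝ) + 1) * (1 / K1) + d * (1 / K1) := by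
      ring
    rw [e]
    rw [abs_le] at h1 h2 ⊢
    constructor <;> linarith [h1.1, h1.2, h2.1, h2.2]

end BDDK
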