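import Mathlib
import Pool.Agent.BDD.MainA

/-!
# Broad-narrow: integrated inequality
-/

open MeasureTheory Finset
open scoped ENNReal

namespace BDDK

theorem BNS_mem {κ : Type} {𝒞 : Finset κ} {L : ℝ≥0∞} {a : κ → ℝ≥0∞} {α : κ} :
    α ∈ BNS 𝒞 L a ↔ α ∈ 𝒞 ∧ ∀ β ∈ 𝒞, a β ≤ (𝒞.card : ℝ≥0∞) ^ 2 * L * a α := by
  unfold BNS
  rw [Finset.mem_filter]

theorem BNS_meas {κ : Type} [DecidableEq κ] {Ω : Type*} [MeasurableSpace Ω] {𝒞 : Finset κ}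
    {L : ℝ≥0∞} {a : κ → Ω → ℝ≥0∞} (ha : ∀ α ∈ 𝒞, Measurable (a α)) (s : Finset κ) :
    MeasurableSet {ω | BNS 𝒞 L (fun α => a α ω) = s} := by
  by_cases hs : s ⊆ 𝒞
  · have e : {ω | BNS 𝒞 L (fun α => a α ω) = s} =
        ⋂ α ∈ 𝒞, (if α ∈ s then ⋂ β ∈ 𝒞, {ω | a β ω ≤ (𝒞.card : ℝ≥0∞) ^ 2 * L * a α ω}
          else (⋂ β ∈ 𝒞, {ω | a β ω ≤ (𝒞.card : ℝ≥0∞) ^ 2 * L * a α ω})ᶜ) := by
      ext ω
      simp only [Set.mem_ofPred_eq, Set.mem_iInter]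
      constructor
      · intro h α hα
        split_ifs with h1
        · rw [← h, BNS_mem] at h1
          simpa using h1.2
        · intro h2
          apply h1
          rw [← h, BNS_mem]
          exact ⟨hα, by simpa using h2⟩
      · intro h
        ext α
        constructor
        · intro h1
          rw [BNS_mem] at h1
          by_contra h2
          have h3 := h α h1.1
          rw [if_neg h2] at h3
          apply h3
          simpa using h1.2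
        · intro h1
          have h3 := h α (hs h1)
          rw [if_pos h1] at h3
          rw [BNS_mem]
          exact ⟨hs h1, by simpa using h3⟩
    rw [e]
    apply Finset.measurableSet_biInter
    intro α hα
    have hG : MeasurableSet (⋂ β ∈ 𝒞, {ω | a β ω ≤ (𝒞.card : ℝ≥0∞) ^ 2 * L * a α ω}) := by
      apply Finset.measurableSet_biInter
      intro β hβ
      exact measurableSet_le (ha β hβ) ((ha α hα).const_mul _)
    split_ifs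
    · exact hG
    · exact hG.compl
  · convert MeasurableSet.empty
    rw [Set.eq_empty_iff_forall_notMem]
    intro ω hω
    apply hs
    rw [← (show BNS 𝒞 L (fun α => a α ω) = s from hω)]
    intro α hα
    exact (BNS_mem.mp hα).1

/-- transversal tuples of cells -/
noncomputable def TT {d : ℕ} {ι : Type} (K : ℕ) (δ : ℝ) (c : ι → Fin d → ℝ) (J : Finset ι) :
    Finset (Fin (d + 1) → Fin d → ℤ) := by
  classical
  exact (Fintype.piFinset (fun _ : Fin (d + 1) => cells K c J)).filter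
    (fun t => δ ^ (d + 1) ≤ |(Matrix.of (fun i => wC (corner K (t i)))).det|)

set_option maxHeartbeats 4000000 in
theorem bn_int (d : ℕ) {p : ℝ} (hp : 2 ≤ p) : ∃ (M : ℝ) (C0 : ℝ≥0∞), 1 ≤ M ∧ C0 ≠ ∞ ∧
    ∀ (K1 s : ℕ) (_ : M ≤ K1) (_ : 2 * (d + 2) < K1) (_ : 0 < s), ∃ CB : ℝ≥0∞, CB ≠ ∞ ∧
    ∀ (B : ℝ≥0∞) (_ : B ≠ ∞) (_ : DecB d p (K1 / M) B)
      (Ω : Type) [MeasurableSpace Ω] (μ : Measure Ω) [IsFiniteMeasure μ]
      (T : (Fin (d + 2) → ℝ) → Ω → Ω) (_ : Flow μ T) (_ : DenseSpec μ T) (N : ℝ)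
      (_ : ((K1 * s : ℕ) : ℝ) ≤ N)
      (ξ0 : Fin (d + 2) → ℝ) (ι : Type) (J : Finset ι) (c : ι → Fin (d + 1) → ℝ) (g : ι → Ω → ℂ)
      (_ : ∀ j ∈ J, ∀ i, 0 ≤ c j i ∧ c j i ≤ 1)
      (_ : ∀ j ∈ J, ∀ k ∈ J, j ≠ k → ∃ i, 1 / N ≤ |c j i - c k i|)
      (_ : ∀ j ∈ J, g j ∈ Spec T (Cap (d + 1) N ξ0 (c j)))
      (A : ℝ≥0∞) (_ : DecB (d + 1) p (N / K1) A),
      ∫⁻ ω, ‖∑ j ∈ J, g j ω‖ₑ ^ p ∂μ ≤
        CB * ∑ t ∈ TT (K1 * s) (1 / (K1 : ℝ)) c J,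
          ∫⁻ ω, ∏ i, (Av T (W ((K1 : ℝ) ^ 2)) (fun ω => ‖piece g (K1 * s) c J (t i) ω‖ₑ ^ 2) ω) ^
            (p / (2 * (((d + 1 : ℕ) : ℝ) + 1))) ∂μ +
        C0 * (B ^ p + 1) * A ^ p * (∑ j ∈ J, nrm μ p (g j) ^ 2) ^ (p / 2) := by
  classical
  have hp1 : 1 ≤ p := by linarith
  have hp0 : 0 < p := by linarith
  have hp2 : 1 ≤ p / 2 := by linarith
  obtain ⟨M, C0, hM, hC0, hnar⟩ := narrow_term d hp
  obtain ⟨Cl, hCl, hCl1, hloc⟩ := locC (d + 1)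
  set w : ℝ≥0∞ := cW (d + 2) with hw
  have hwt : w ≠ ∞ := (cW_lt_top _).ne
  refine ⟨M, 2 ^ p * w ^ (p / 2) + 2 ^ (d + 2 + 1) * (2 ^ p * C0), hM, ?_, ?_⟩
  · apply ENNReal.add_ne_top.mpr
    constructor
    · exact ENNReal.mul_ne_top (ENNReal.rpow_ne_top_of_nonneg hp0.le (by norm_num))
        (ENNReal.rpow_ne_top_of_nonneg (by linarith) hwt)
    · exact ENNReal.mul_ne_top (ENNReal.pow_ne_top (by norm_num))
        (ENNReal.mul_ne_top (ENNReal.rpow_ne_top_of_nonneg hp0.le (by norm_num)) hC0)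
  intro K1 s hMK1 hK1 hs
  have hK0 : 0 < K1 := by omega
  have hK0' : (0 : ℝ) < K1 := by exact_mod_cast hK0
  have hK1' : (1 : ℝ) ≤ K1 := hM.trans hMK1
  set K : ℕ := K1 * s with hK
  have hKpos : 0 < K := Nat.mul_pos hK0 hs
  have hK2 : 2 ≤ K := by
    have : K1 ≤ K := Nat.le_mul_of_pos_right _ hs
    omega
  have hK2' : (2 : ℝ) ≤ K := by exact_mod_cast hK2
  set R : ℝ := (K1 : ℝ) ^ 2 with hR
  have hR1 : 1 ≤ R := one_le_pow₀ hK1'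
  have hR0 : 0 < R := by linarith
  set L : ℝ≥0∞ := Cl * ENNReal.ofReal (R ^ (d + 2)) with hL
  have hLt : L ≠ ∞ := ENNReal.mul_ne_top hCl ENNReal.ofReal_ne_top
  have hL1 : 1 ≤ L := by
    have : (1 : ℝ≥0∞) ≤ ENNReal.ofReal (R ^ (d + 2)) := by
      rw [ENNReal.one_le_ofReal]
      exact one_le_pow₀ hR1
    calc (1 : ℝ≥0∞) = 1 * 1 := (one_mul _).symm
      _ ≤ L := mul_le_mul' hCl1 this
  set nK : ℝ≥0∞ := (((K + 1) ^ (d + 1) : ℕ) : ℝ≥0∞) with hnK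
  set CB : ℝ≥0∞ := nK ^ p * L ^ (p / 2) * (nK ^ 2 * L) ^ (p / 2) with hCB
  have hnKt : nK ≠ ∞ := ENNReal.natCast_ne_top _
  refine ⟨CB, ?_, ?_⟩
  · rw [hCB]
    refine ENNReal.mul_ne_top (ENNReal.mul_ne_top ?_ ?_) ?_
    · exact ENNReal.rpow_ne_top_of_nonneg hp0.le hnKt
    · exact ENNReal.rpow_ne_top_of_nonneg (by linarith) hLt
    · exact ENNReal.rpow_ne_top_of_nonneg (by linarith)
        (ENNReal.mul_ne_top (ENNReal.pow_ne_top hnKt) hLt)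
  intro B hB hdec Ω _ μ _ T hT hDs N hKN ξ0 ι J c g hc hsep hg A hA
  have hKN' : (K : ℝ) ≤ N := hKN
  have hN0 : 0 < N := by linarith
  have hK1N : (K1 : ℝ) ≤ N := by
    refine le_trans ?_ hKN
    have : K1 ≤ K1 * s := Nat.le_mul_of_pos_right _ hs
    exact_mod_cast this
  set S : ℝ≥0∞ := ∑ j ∈ J, nrm μ p (g j) ^ 2 with hS
  set 𝒞 := cells K c J with h𝒞
  set F : (Fin (d + 1) → ℤ) → Ω → ℂ := fun α => piece g K c J α with hF
  set a : (Fin (d + 1) → ℤ) → Ω → ℝ≥0∞ := fun α => Av T (W R) (fun ω => ‖F α ω‖ₑ ^ 2) with ha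
  have hcard : (𝒞.card : ℝ≥0∞) ≤ nK := by
    rw [hnK]
    exact_mod_cast cells_card hc K
  have hFs : ∀ α, F α ∈ Spec T (Cap (d + 1) (K / 2) ξ0 (corner K α)) := fun α =>
    piece_spec hg hKpos hKN' α
  have hcor : ∀ α ∈ 𝒞, ∀ i, 0 ≤ corner K α i ∧ corner K α i ≤ 1 := by
    intro α hα i
    rw [h𝒞] at hα
    unfold cells at hα
    rw [Finset.mem_image] at hα
    obtain ⟨j, hj, rfl⟩ := hα
    exact corner_mem hKpos (hc j hj) i
  have hFs0 : ∀ α ∈ 𝒞, F α ∈ Spec T (Cap (d + 1) (1 / 2) ξ0 0) := by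
    intro α hα
    refine Spec_mono (Cap_coarse (by norm_num) (by linarith) ξ0 0 (corner K α) ?_) (hFs α)
    intro i
    have := hcor α hα i
    rw [Pi.zero_apply, sub_zero, abs_of_nonneg this.1]
    norm_num
    exact this.2
  have hFm : ∀ α, Measurable (F α) := fun α => Spec_meas (hFs α)
  have ham : ∀ α, Measurable (a α) := fun α => Av_meas hT (W_meas R) ((hFm α).enorm.pow_const 2)
  have hat : ∀ α ω, a α ω ≠ ∞ := by
    intro α ω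
    obtain ⟨M', hM0', hM'⟩ := Spec_bdd (hFs α)
    refine Av_ne_top (M := ENNReal.ofReal M' ^ 2) (W_meas R) ?_ (ENNReal.pow_ne_top
      ENNReal.ofReal_ne_top) ?_ ω
    · rw [lintegral_W hR0]; exact (cW_lt_top _).ne
    · intro ω
      have : ‖F α ω‖ₑ ≤ ENNReal.ofReal M' := by
        rw [← ofReal_norm]
        exact ENNReal.ofReal_le_ofReal (hM' ω)
      gcongr
  set sel : Ω → Finset (Fin (d + 1) → ℤ) := fun ω => BNS 𝒞 L (fun α => a α ω) with hsel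
  have hsel𝒞 : ∀ ω, sel ω ⊆ 𝒞 := fun ω α hα => (BNS_mem.mp hα).1
  set δ : ℝ := 1 / (K1 : ℝ) with hδ
  set 𝒯 := TT K δ c J with h𝒯
  set 𝒮 : Finset (Finset (Fin (d + 1) → ℤ)) := 𝒞.powerset.filter (fun S' =>
    ∀ t : Fin (d + 2) → Fin (d + 1) → ℤ, (∀ i, t i ∈ S') →
      |(Matrix.of (fun i => wC (corner K (t i)))).det| < δ ^ (d + 2)) with h𝒮
  set E : Finset (Fin (d + 1) → ℤ) → Set Ω := fun S' => {ω | sel ω = S'} with hE
  set Bs : Finset (Fin (d + 1) → ℤ) → Finset (Fin (d + 1) → ℤ) := fun S' => S'.image (par s) with hBs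
  have hEm : ∀ S', MeasurableSet (E S') := fun S' => BNS_meas (fun α _ => ham α) S'
  have hEd : ∀ S' ∈ 𝒮, ∀ S'' ∈ 𝒮, S' ≠ S'' → Disjoint (E S') (E S'') := by
    intro S' _ S'' _ hne
    rw [Set.disjoint_left]
    intro ω h1 h2
    exact hne ((show sel ω = S' from h1) ▸ (show sel ω = S'' from h2))
  have hpar : ∀ x : Fin (d + 1) → ℝ, cell K1 x = par s (cell K x) := fun x => cell_parent hs x
  have hBsub : ∀ S' ∈ 𝒮, Bs S' ⊆ cells K1 c J := by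
    intro S' hS' β hβ
    rw [h𝒮, Finset.mem_filter, Finset.mem_powerset] at hS'
    simp only [hBs] at hβ
    rw [Finset.mem_image] at hβ
    obtain ⟨α, hα, rfl⟩ := hβ
    have h1 := hS'.1 hα
    rw [h𝒞] at h1
    unfold cells at h1 ⊢
    rw [Finset.mem_image] at h1 ⊢
    obtain ⟨j, hj, rfl⟩ := h1
    exact ⟨j, hj, hpar _⟩
  have hslab : ∀ S' ∈ 𝒮, ∃ (ν : Fin (d + 1) → ℝ) (b : ℝ), ∑ i, ν i ^ 2 = 1 ∧ ∀ β ∈ Bs S',
        |∑ i, ν i * corner K1 β i - b| ≤ (2 * ((d : ℝ) + 1) * (d + 2) + (d + 1)) / K1 := by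
    intro S' hS'
    rw [h𝒮, Finset.mem_filter, Finset.mem_powerset] at hS'
    obtain ⟨ν, b, hν, hb⟩ := slab_par (d := d + 1) (by omega) (K1 := K1) (s := s) (by omega) hs S'
      (fun α hα => hcor α (hS'.1 hα)) hS'.2
    refine ⟨ν, b, hν, fun β hβ => (hb β hβ).trans (le_of_eq ?_)⟩
    push_cast
    ring
  set Fs : Finset (Fin (d + 1) → ℤ) → Ω → ℂ := fun S' ω => ∑ β ∈ Bs S', piece g K1 c J β ω with hFs'
  set e : ℝ := p / (2 * (((d + 1 : ℕ) : ℝ) + 1)) with he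
  set Q : Ω → ℝ≥0∞ := fun ω => CB * ∑ t ∈ 𝒯, ∏ i, (a (t i) ω) ^ e +
    2 ^ p * ∑ α ∈ 𝒞, (a α ω) ^ (p / 2) with hQ
  have hQm1 : Measurable (fun ω => ∑ t ∈ 𝒯, ∏ i, (a (t i) ω) ^ e) := by
    apply Finset.measurable_fun_sum
    intro t _
    apply Finset.measurable_fun_prod
    intro i _
    exact (ham _).pow_const _
  have hQm2 : Measurable (fun ω => ∑ α ∈ 𝒞, (a α ω) ^ (p / 2)) := by
    apply Finset.measurable_fun_sum
    intro α _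
    exact (ham _).pow_const _
  have hQm : Measurable Q := (hQm1.const_mul _).add (hQm2.const_mul _)
  have hps : ∀ β, piece g K1 c J β ∈ Spec T (Cap (d + 1) (K1 / 2) ξ0 (corner K1 β)) := fun β =>
    piece_spec hg hK0 hK1N β
  have hFsspec : ∀ S', Fs S' ∈ Spec T Set.univ := by
    intro S'
    have e1 : Fs S' = ∑ β ∈ Bs S', piece g K1 c J β := by
      funext ω; simp [hFs']
    rw [e1]
    exact Submodule.sum_mem _ fun β _ => Spec_mono (Set.subset_univ _) (hps β)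
  have hFsm : ∀ S', Measurable (Fs S') := fun S' => Spec_meas (hFsspec S')
  have hFm' : Measurable (fun ω => ∑ j ∈ J, g j ω) := by
    apply Finset.measurable_fun_sum
    intro j hj
    exact Spec_meas (hg j hj)
  have hCBle : (𝒞.card : ℝ≥0∞) ^ p * L ^ (p / 2) * ((𝒞.card : ℝ≥0∞) ^ 2 * L) ^ (p / 2) ≤ CB := by
    have h1 : (𝒞.card : ℝ≥0∞) ^ p ≤ nK ^ p := ENNReal.rpow_le_rpow hcard hp0.le
    have h2 : ((𝒞.card : ℝ≥0∞) ^ 2 * L) ^ (p / 2) ≤ (nK ^ 2 * L) ^ (p / 2) :=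
      ENNReal.rpow_le_rpow (mul_le_mul' (pow_le_pow_left' hcard 2) le_rfl) (by linarith)
    exact mul_le_mul' (mul_le_mul' h1 le_rfl) h2
  have hsingle : ∀ (f : (Fin (d + 1 + 1) → Fin (d + 1) → ℤ) → ℝ≥0∞), ∀ t ∈ 𝒯, f t ≤ ∑ t ∈ 𝒯, f t :=
    fun f t ht => Finset.single_le_sum (f := f) (fun _ _ => zero_le) ht
  -- the pointwise inequality
  have hpt : ∀ ω y, ‖y‖ ≤ R → ‖∑ j ∈ J, g j (T y ω)‖ₑ ^ p ≤ Q ω + ∑ S' ∈ 𝒮,
      (E S').indicator (fun _ => (1 : ℝ≥0∞)) ω * (2 ^ p * ‖Fs S' (T y ω)‖ₑ ^ p) := by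
    intro ω y hy
    have hz : ∀ α ∈ 𝒞, ‖F α (T y ω)‖ₑ ^ 2 ≤ L * a α ω := fun α hα =>
      hloc Ω μ T hT R hR1 ξ0 (F α) (hFs0 α hα) ω y hy
    have hsum : ∑ j ∈ J, g j (T y ω) = ∑ α ∈ 𝒞, F α (T y ω) := (sum_piece g K c J (T y ω)).symm
    rw [hsum]
    by_cases hbr : ∃ t : Fin (d + 2) → Fin (d + 1) → ℤ, (∀ i, t i ∈ sel ω) ∧
        δ ^ (d + 2) ≤ |(Matrix.of (fun i => wC (corner K (t i)))).det|
    · obtain ⟨t, ht, htd⟩ := hbr
      have h1 := bn_broad (d := d + 1) hLt hz hp t ht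
      have ht𝒯 : t ∈ 𝒯 := by
        rw [h𝒯]
        unfold TT
        rw [Finset.mem_filter, Fintype.mem_piFinset]
        exact ⟨fun i => hsel𝒞 ω (ht i), htd⟩
      calc ‖∑ α ∈ 𝒞, F α (T y ω)‖ₑ ^ p
          ≤ (𝒞.card : ℝ≥0∞) ^ p * L ^ (p / 2) * ((𝒞.card : ℝ≥0∞) ^ 2 * L) ^ (p / 2) *
            ∏ i, (a (t i) ω) ^ e := h1
        _ ≤ CB * ∏ i, (a (t i) ω) ^ e := mul_le_mul' hCBle le_rfl
        _ ≤ CB * ∑ t ∈ 𝒯, ∏ i, (a (t i) ω) ^ e := mul_le_mul' le_rfl (hsingle _ t ht𝒯)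
        _ ≤ Q ω := le_self_add
        _ ≤ _ := le_self_add
    · have hS𝒮 : sel ω ∈ 𝒮 := by
        rw [h𝒮, Finset.mem_filter, Finset.mem_powerset]
        refine ⟨hsel𝒞 ω, fun t ht => ?_⟩
        by_contra h
        exact hbr ⟨t, ht, not_lt.mp h⟩
      set B' : Finset (Fin (d + 1) → ℤ) := 𝒞.filter (fun α => par s α ∈ Bs (sel ω)) with hB'
      have h1 := bn_narrow hLt hL1 (fun α _ => hat α ω) hz hp (B := B') (Finset.filter_subset _ _)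
        (by
          intro α hα
          rw [hB', Finset.mem_filter]
          exact ⟨hsel𝒞 ω hα, Finset.mem_image_of_mem _ hα⟩)
      have h2 : ∑ α ∈ B', F α (T y ω) = Fs (sel ω) (T y ω) := by
        rw [hFs', hF]
        simp only
        rw [sum_fil, sum_fil]
        refine Finset.sum_congr ?_ fun _ _ => rfl
        ext j
        rw [Finset.mem_filter, Finset.mem_filter, Finset.mem_filter, hpar]
        constructor
        · rintro ⟨h3, _, h4⟩; exact ⟨h3, h4⟩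
        · rintro ⟨h3, h4⟩
          refine ⟨h3, ?_, h4⟩
          rw [h𝒞]
          unfold cells
          exact Finset.mem_image_of_mem _ h3
      rw [h2] at h1
      have h3 : (2 : ℝ≥0∞) ^ p * ‖Fs (sel ω) (T y ω)‖ₑ ^ p ≤ ∑ S' ∈ 𝒮,
          (E S').indicator (fun _ => (1 : ℝ≥0∞)) ω * (2 ^ p * ‖Fs S' (T y ω)‖ₑ ^ p) := by
        have h4 := Finset.single_le_sum (f := fun S' =>
          (E S').indicator (fun _ => (1 : ℝ≥0∞)) ω * (2 ^ p * ‖Fs S' (T y ω)‖ₑ ^ p))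
          (fun _ _ => zero_le) hS𝒮
        have h5 : (E (sel ω)).indicator (fun _ => (1 : ℝ≥0∞)) ω = 1 :=
          Set.indicator_of_mem (show ω ∈ E (sel ω) from rfl) _
        simp only [h5, one_mul] at h4
        exact h4
      calc ‖∑ α ∈ 𝒞, F α (T y ω)‖ₑ ^ p
          ≤ 2 ^ p * (‖Fs (sel ω) (T y ω)‖ₑ ^ p + ∑ α ∈ 𝒞, (a α ω) ^ (p / 2)) := h1
        _ = 2 ^ p * ∑ α ∈ 𝒞, (a α ω) ^ (p / 2) + 2 ^ p * ‖Fs (sel ω) (T y ω)‖ₑ ^ p := by
            rw [mul_add, add_comm]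
        _ ≤ Q ω + _ := by
            apply add_le_add _ h3
            rw [hQ]
            exact le_add_self
  -- integration
  have hint := avg_box hT hR0 (P := fun ω => ‖∑ j ∈ J, g j ω‖ₑ ^ p) (Q := Q)
    (hFm'.enorm.pow_const p) hQm 𝒮 E (fun S' _ => hEm S')
    (fun S' ω => 2 ^ p * ‖Fs S' ω‖ₑ ^ p) (fun S' _ => ((hFsm S').enorm.pow_const p).const_mul _)
    (fun S' _ ω => by rw [Spec_T0 (hFsspec S')]) hpt
  -- the three terms
  have hQint : ∫⁻ ω, Q ω ∂μ = CB * ∑ t ∈ 𝒯, ∫⁻ ω, ∏ i, (a (t i) ω) ^ e ∂μ +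
      2 ^ p * ∑ α ∈ 𝒞, ∫⁻ ω, (a α ω) ^ (p / 2) ∂μ := by
    rw [hQ]
    rw [lintegral_add_left (hQm1.const_mul _), lintegral_const_mul _ hQm1, lintegral_const_mul _ hQm2,
      lintegral_finsetSum, lintegral_finsetSum]
    · intro α _
      exact (ham _).pow_const _
    · intro t _
      apply Finset.measurable_fun_prod
      intro i _
      exact (ham _).pow_const _
  have hAS : (A ^ 2 * S) ^ (p / 2) = A ^ p * S ^ (p / 2) := by
    rw [ENNReal.mul_rpow_of_nonneg _ _ (by linarith), ← ENNReal.rpow_two, ← ENNReal.rpow_mul]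
    congr 2
    ring
  have hmax : ∑ α ∈ 𝒞, ∫⁻ ω, (a α ω) ^ (p / 2) ∂μ ≤ w ^ (p / 2) * (A ^ p * S ^ (p / 2)) := by
    calc ∑ α ∈ 𝒞, ∫⁻ ω, (a α ω) ^ (p / 2) ∂μ
        ≤ ∑ α ∈ 𝒞, w ^ (p / 2) * nrm μ p (F α) ^ p :=
          Finset.sum_le_sum fun α _ => max_term hT (hFs α) hp hR0
      _ = w ^ (p / 2) * ∑ α ∈ 𝒞, (nrm μ p (F α) ^ 2) ^ (p / 2) := by
          rw [Finset.mul_sum]
          refine Finset.sum_congr rfl fun α _ => ?_
          rw [← ENNReal.rpow_two, ← ENNReal.rpow_mul]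
          congr 2
          ring
      _ ≤ w ^ (p / 2) * (∑ α ∈ 𝒞, nrm μ p (F α) ^ 2) ^ (p / 2) := by
          gcongr
          exact sum_rpow_le_one 𝒞 _ hp2
      _ ≤ w ^ (p / 2) * (A ^ 2 * S) ^ (p / 2) := by
          gcongr
          exact cells_dec hT hDs hN0 hsep hg hK0 (Nat.le_mul_of_pos_right _ hs) hA
      _ = _ := by rw [hAS]
  have hnr : ∑ S' ∈ 𝒮, ∫⁻ ω, 2 ^ p * ‖Fs S' ω‖ₑ ^ p *
      Av T (W R) ((E S').indicator (fun _ => (1 : ℝ≥0∞))) ω ∂μ ≤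
      2 ^ p * (C0 * B ^ p * (A ^ p * S ^ (p / 2))) := by
    have h1 := hnar K1 hMK1 B hB hdec Ω μ T hT hDs N hK1N ξ0 ι J c g hc hg R le_rfl
      (Finset (Fin (d + 1) → ℤ)) 𝒮 E (fun S' _ => hEm S') hEd Bs hBsub hslab
    calc ∑ S' ∈ 𝒮, ∫⁻ ω, 2 ^ p * ‖Fs S' ω‖ₑ ^ p *
          Av T (W R) ((E S').indicator (fun _ => (1 : ℝ≥0∞))) ω ∂μ
        = 2 ^ p * ∑ S' ∈ 𝒮, ∫⁻ ω, ‖Fs S' ω‖ₑ ^ p *
          Av T (W R) ((E S').indicator (fun _ => (1 : ℝ≥0∞))) ω ∂μ := by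
          rw [Finset.mul_sum]
          refine Finset.sum_congr rfl fun S' _ => ?_
          rw [← lintegral_const_mul']
          · simp_rw [mul_assoc]
          · exact ENNReal.rpow_ne_top_of_nonneg hp0.le (by norm_num)
      _ ≤ 2 ^ p * (C0 * B ^ p *
          (∑ β ∈ cells K1 c J, nrm μ p (piece g K1 c J β) ^ 2) ^ (p / 2)) := by
          gcongr
      _ ≤ 2 ^ p * (C0 * B ^ p * (A ^ 2 * S) ^ (p / 2)) := by
          gcongr
          exact cells_dec hT hDs hN0 hsep hg hK0 le_rfl hA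
      _ = _ := by rw [hAS]
  calc ∫⁻ ω, ‖∑ j ∈ J, g j ω‖ₑ ^ p ∂μ
      ≤ (CB * ∑ t ∈ 𝒯, ∫⁻ ω, ∏ i, (a (t i) ω) ^ e ∂μ + 2 ^ p * (w ^ (p / 2) * (A ^ p * S ^ (p / 2)))) +
        2 ^ (d + 2 + 1) * (2 ^ p * (C0 * B ^ p * (A ^ p * S ^ (p / 2)))) := by
        refine hint.trans ?_
        rw [hQint]
        gcongr
    _ = CB * ∑ t ∈ 𝒯, ∫⁻ ω, ∏ i, (a (t i) ω) ^ e ∂μ + (2 ^ p * w ^ (p / 2) * 1 +
        2 ^ (d + 2 + 1) * (2 ^ p * C0) * B ^ p) * A ^ p * S ^ (p / 2) := by ring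
    _ ≤ CB * ∑ t ∈ 𝒯, ∫⁻ ω, ∏ i, (a (t i) ω) ^ e ∂μ + ((2 ^ p * w ^ (p / 2) +
        2 ^ (d + 2 + 1) * (2 ^ p * C0)) * (B ^ p + 1)) * A ^ p * S ^ (p / 2) := by
        gcongr
        rw [add_mul]
        gcongr
        · exact le_add_self
        · exact le_self_add
    _ = _ := by ring

end BDDK
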