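import Mathlib
import Pool.Agent.BDD.MainB
import Pool.Agent.BDD.Boot

/-!
# The bootstrap step
-/

open MeasureTheory Finset
open scoped ENNReal

namespace BDDK

theorem TT_card {d : ℕ} {ι : Type} {J : Finset ι} {c : ι → Fin d → ℝ}
    (hc : ∀ j ∈ J, ∀ i, 0 ≤ c j i ∧ c j i ≤ 1) (K : ℕ) (δ : ℝ) :
    (TT K δ c J).card ≤ ((K + 1) ^ d) ^ (d + 1) := by
  classical
  unfold TT
  refine (Finset.card_filter_le _ _).trans ?_
  rw [Fintype.card_piFinset]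
  simp only [Finset.prod_const, Finset.card_univ, Fintype.card_fin]
  exact Nat.pow_le_pow_left (cells_card hc K) _

/-- exponents -/
theorem expo_le {d : ℕ} {p ηs η : ℝ} (hp : 0 < p) (hη : ηs ≤ η) {Wn : ℕ}
    (hW : (2 * (d : ℝ) + 3) / 2 ≤ Wn * (ηs / 4)) {m : ℕ} :
    ((((rk m 0 : ℝ) + 1) ^ (d + 1) * (rk m 0 : ℝ) ^ (d + 2)) ^ (1 / 2 : ℝ)) *
      (rk m Wn : ℝ) ^ (bet p η (p * ηs / 4) Wn / p) ≤
    ((2 : ℝ) ^ (d + 1)) ^ (1 / 2 : ℝ) * (rk m Wn : ℝ) ^ (η - (2 : ℝ) ^ (-(Wn : ℝ)) * ηs) := by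
  set r : ℝ := (rk m 0 : ℝ) with hr
  set N : ℝ := (rk m Wn : ℝ) with hN
  have hr1 : 1 ≤ r := by rw [hr]; exact_mod_cast rk_pos m 0
  have hN1 : 1 ≤ N := by rw [hN]; exact_mod_cast rk_pos m Wn
  have hN0 : 0 < N := by linarith
  have hr0 : 0 < r := by linarith
  have hrN : r = N ^ ((2 : ℝ) ^ (-(Wn : ℝ))) := by
    have := rk_rpow m 0 Wn (Nat.zero_le _)
    simpa using this
  set u : ℝ := (2 : ℝ) ^ (-(Wn : ℝ)) with hu
  have hu0 : 0 < u := by positivity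
  have h1 : ((r + 1) ^ (d + 1) * r ^ (d + 2)) ^ (1 / 2 : ℝ) ≤
      ((2 : ℝ) ^ (d + 1)) ^ (1 / 2 : ℝ) * N ^ (u * ((2 * (d : ℝ) + 3) / 2)) := by
    have h2 : (r + 1) ^ (d + 1) * r ^ (d + 2) ≤ (2 : ℝ) ^ (d + 1) * r ^ (2 * d + 3) := by
      calc (r + 1) ^ (d + 1) * r ^ (d + 2) ≤ (2 * r) ^ (d + 1) * r ^ (d + 2) := by
            gcongr
            linarith
        _ = _ := by rw [mul_pow, mul_assoc, ← pow_add]; congr 2; ring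
    calc ((r + 1) ^ (d + 1) * r ^ (d + 2)) ^ (1 / 2 : ℝ)
        ≤ ((2 : ℝ) ^ (d + 1) * r ^ (2 * d + 3)) ^ (1 / 2 : ℝ) := by gcongr
      _ = _ := by
          rw [Real.mul_rpow (by positivity) (by positivity)]
          congr 1
          rw [hrN, ← Real.rpow_natCast, ← Real.rpow_mul hN0.le, ← Real.rpow_mul hN0.le]
          congr 1
          push_cast
          ring
  have h3 : u * ((2 * (d : ℝ) + 3) / 2) + bet p η (p * ηs / 4) Wn / p ≤ η - u * ηs := by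
    have e1 : bet p η (p * ηs / 4) Wn / p = η - η * u + Wn * u * (ηs / 4 - η / 2) := by
      unfold bet
      rw [← hu]
      field_simp
    rw [e1]
    have h4 : (Wn : ℝ) * (ηs / 4 - η / 2) ≤ - (Wn * (ηs / 4)) := by
      have : (0 : ℝ) ≤ Wn := by positivity
      nlinarith
    have h5 : (2 * (d : ℝ) + 3) / 2 - η + Wn * (ηs / 4 - η / 2) ≤ - ηs := by linarith
    have h6 := mul_le_mul_of_nonneg_left h5 hu0.le
    nlinarith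
  calc ((r + 1) ^ (d + 1) * r ^ (d + 2)) ^ (1 / 2 : ℝ) * N ^ (bet p η (p * ηs / 4) Wn / p)
      ≤ (((2 : ℝ) ^ (d + 1)) ^ (1 / 2 : ℝ) * N ^ (u * ((2 * (d : ℝ) + 3) / 2))) *
        N ^ (bet p η (p * ηs / 4) Wn / p) := by gcongr
    _ = ((2 : ℝ) ^ (d + 1)) ^ (1 / 2 : ℝ) *
        N ^ (u * ((2 * (d : ℝ) + 3) / 2) + bet p η (p * ηs / 4) Wn / p) := by
        rw [mul_assoc, ← Real.rpow_add hN0]
    _ ≤ _ := by
        gcongr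

set_option maxHeartbeats 1000000 in
theorem main_step (d : ℕ) {p : ℝ} (hp : 2 ≤ p) (hpd : p ≤ 2 + 4 / ((d + 1 : ℕ) : ℝ))
    (hIH : ∀ ε : ℝ, 0 < ε → ∃ C : ℝ≥0∞, C ≠ ∞ ∧ ∀ N : ℝ, 1 ≤ N →
      DecB d p N (C * ENNReal.ofReal (N ^ ε))) :
    ∀ ηs : ℝ, 0 < ηs → ∃ (W : ℕ) (δ : ℝ), 0 < δ ∧ δ ≤ ηs / 2 ∧
      ∀ η : ℝ, ηs ≤ η → (∃ C : ℝ≥0∞, C ≠ ∞ ∧ ∀ N : ℝ, 1 ≤ N →
        DecB (d + 1) p N (C * ENNReal.ofReal (N ^ η))) →
        ∀ θ : ℝ, 0 < θ → ∀ k0 : ℕ, ∃ k1 : ℕ, k0 ≤ k1 ∧ 1 ≤ k1 ∧ ∃ CK : ℝ≥0∞, CK ≠ ∞ ∧ ∃ m0 : ℕ,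
          ∀ m : ℕ, m0 ≤ m → k1 ≤ m → ∀ A : ℝ≥0∞,
            DecB (d + 1) p ((2 : ℝ) ^ ((m - k1) * 2 ^ W)) A →
            DecB (d + 1) p ((2 : ℝ) ^ (m * 2 ^ W))
              (ENNReal.ofReal (((2 : ℝ) ^ (k1 * 2 ^ W)) ^ θ) * A +
              CK * ENNReal.ofReal (((2 : ℝ) ^ (m * 2 ^ W)) ^ (η - δ))) := by
  classical
  have hp0 : 0 < p := by linarith
  have hpi : 0 ≤ 1 / p := by positivity
  have hpi1 : 1 / p ≤ 1 := by rw [div_le_one hp0]; linarith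
  obtain ⟨M, C0, hM, hC0, hbn⟩ := bn_int d hp
  intro ηs hηs
  set Wn : ℕ := ⌈(2 * (2 * (d : ℝ) + 3)) / ηs⌉₊ + 1 with hWn
  have hWn1 : 1 ≤ Wn := by omega
  have hW : (2 * (d : ℝ) + 3) / 2 ≤ Wn * (ηs / 4) := by
    have h1 : (2 * (2 * (d : ℝ) + 3)) / ηs ≤ Wn := by
      rw [hWn]; push_cast
      have := Nat.le_ceil ((2 * (2 * (d : ℝ) + 3)) / ηs)
      linarith
    rw [div_le_iff₀ hηs] at h1
    linarith
  refine ⟨Wn, (2 : ℝ) ^ (-(Wn : ℝ)) * ηs, by positivity, ?_, ?_⟩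
  · have : (2 : ℝ) ^ (-(Wn : ℝ)) ≤ (2 : ℝ) ^ (-(1 : ℝ)) := by
      apply Real.rpow_le_rpow_of_exponent_le (by norm_num)
      have : (1 : ℝ) ≤ Wn := by exact_mod_cast hWn1
      linarith
    rw [Real.rpow_neg_one] at this
    nlinarith
  intro η hη hP θ hθ k0
  obtain ⟨C', hC', hIH'⟩ := hIH (θ / 2) (by positivity)
  set Λ : ℝ≥0∞ := C0 ^ (1 / p) * (C' + 1) with hΛ
  have hΛt : Λ ≠ ∞ := ENNReal.mul_ne_top (ENNReal.rpow_ne_top_of_nonneg hpi hC0)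
    (ENNReal.add_ne_top.mpr ⟨hC', by norm_num⟩)
  set k1 : ℕ := k0 + 1 + ⌈M⌉₊ + (2 * (d + 2)) + ⌈Λ.toReal ^ (2 / θ)⌉₊ with hk1
  set K1 : ℕ := 2 ^ (k1 * 2 ^ Wn) with hK1
  have hk1K : k1 < K1 := by
    have h1 : k1 < 2 ^ k1 := Nat.lt_two_pow_self
    have h2 : 2 ^ k1 ≤ 2 ^ (k1 * 2 ^ Wn) := by
      apply Nat.pow_le_pow_right (by norm_num)
      exact Nat.le_mul_of_pos_right _ (by positivity)
    omega
  have hK1pos : 0 < K1 := by omega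
  have hk1K' : (k1 : ℝ) ≤ K1 := by exact_mod_cast hk1K.le
  have hMK : M ≤ K1 := by
    have h1 := Nat.le_ceil M
    have h2 : ((⌈M⌉₊ : ℕ) : ℝ) ≤ k1 := by exact_mod_cast (by omega : ⌈M⌉₊ ≤ k1)
    linarith
  have hK1' : (1 : ℝ) ≤ K1 := hM.trans hMK
  have hK10 : (0 : ℝ) < K1 := by linarith
  have hdK : 2 * (d + 2) < K1 := by omega
  have hΛK : Λ ≤ ENNReal.ofReal ((K1 : ℝ) ^ (θ / 2)) := by
    rw [← ENNReal.ofReal_toReal hΛt]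
    apply ENNReal.ofReal_le_ofReal
    have h1 := Nat.le_ceil (Λ.toReal ^ (2 / θ))
    have h2 : ((⌈Λ.toReal ^ (2 / θ)⌉₊ : ℕ) : ℝ) ≤ k1 := by
      exact_mod_cast (by omega : ⌈Λ.toReal ^ (2 / θ)⌉₊ ≤ k1)
    have h3 : Λ.toReal ^ (2 / θ) ≤ K1 := by linarith
    calc Λ.toReal = (Λ.toReal ^ (2 / θ)) ^ (θ / 2) := by
          rw [← Real.rpow_mul ENNReal.toReal_nonneg]
          have : 2 / θ * (θ / 2) = 1 := by field_simp
          rw [this, Real.rpow_one]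
      _ ≤ _ := by
          apply Real.rpow_le_rpow (by positivity) h3 (by positivity)
  obtain ⟨ρ, Γ, hρ, hΓ, hbr⟩ := broad_term (d := d + 1) (by omega) hp hpd
    (ε := p * ηs / 4) (by positivity) hP Wn (δ := 1 / (K1 : ℝ)) (by positivity)
  set s : ℕ := ⌈2 / ρ⌉₊ + 1 with hs
  have hs0 : 0 < s := by omega
  have hsρ : 2 / ((K1 * s : ℕ) : ℝ) ≤ ρ := by
    have h1 : 2 / ρ ≤ s := by
      rw [hs]; push_cast
      have := Nat.le_ceil (2 / ρ)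
      linarith
    have h2 : (0 : ℝ) < s := by exact_mod_cast hs0
    rw [div_le_iff₀ hρ] at h1
    rw [div_le_iff₀ (by positivity)]
    push_cast
    nlinarith
  obtain ⟨CB, hCB, hbn'⟩ := hbn K1 s hMK hdK hs0
  set nT : ℝ≥0∞ := ((((K1 * s + 1) ^ (d + 1)) ^ (d + 2) : ℕ) : ℝ≥0∞) with hnT
  set CK : ℝ≥0∞ := (CB * nT * Γ) ^ (1 / p) *
    ENNReal.ofReal (((2 : ℝ) ^ (d + 1)) ^ (1 / 2 : ℝ)) with hCK
  refine ⟨k1, by omega, by omega, CK, ?_, K1 * s + K1 ^ 2, ?_⟩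
  · exact ENNReal.mul_ne_top (ENNReal.rpow_ne_top_of_nonneg hpi
      (ENNReal.mul_ne_top (ENNReal.mul_ne_top hCB (ENNReal.natCast_ne_top _)) hΓ))
      ENNReal.ofReal_ne_top
  intro m hm hkm A hA
  have hrk0 : m ≤ rk m 0 := by
    unfold rk
    simp only [pow_zero, mul_one]
    exact Nat.lt_two_pow_self.le
  have hrkW : ((rk m Wn : ℕ) : ℝ) = (2 : ℝ) ^ (m * 2 ^ Wn) := by unfold rk; push_cast; rfl
  have hrk0W : rk m 0 ≤ rk m Wn := rk_mono m (Nat.zero_le _)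
  set B : ℝ≥0∞ := C' * ENNReal.ofReal ((K1 / M : ℝ) ^ (θ / 2)) with hB
  have hBt : B ≠ ∞ := ENNReal.mul_ne_top hC' ENNReal.ofReal_ne_top
  have hdecB : DecB d p (K1 / M) B := hIH' (K1 / M) (by rw [one_le_div (by linarith)]; exact hMK)
  have hBle : (C0 * (B ^ p + 1)) ^ (1 / p) ≤ ENNReal.ofReal (((2 : ℝ) ^ (k1 * 2 ^ Wn)) ^ θ) := by
    have h1 : (B ^ p + 1) ^ (1 / p) ≤ B + 1 := by
      have h2 := ENNReal.rpow_add_le_add_rpow (B ^ p) 1 hpi hpi1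
      rwa [← ENNReal.rpow_mul, mul_one_div_cancel hp0.ne', ENNReal.rpow_one, ENNReal.one_rpow] at h2
    have hK1c : (2 : ℝ) ^ (k1 * 2 ^ Wn) = (K1 : ℝ) := by rw [hK1]; push_cast; rfl
    have h3 : B ≤ C' * ENNReal.ofReal ((K1 : ℝ) ^ (θ / 2)) := by
      rw [hB]
      gcongr
      exact div_le_self hK10.le hM
    have h4 : (1 : ℝ≥0∞) ≤ ENNReal.ofReal ((K1 : ℝ) ^ (θ / 2)) := by
      rw [ENNReal.one_le_ofReal]
      exact Real.one_le_rpow hK1' (by positivity)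
    rw [ENNReal.mul_rpow_of_nonneg _ _ hpi, hK1c]
    calc C0 ^ (1 / p) * (B ^ p + 1) ^ (1 / p)
        ≤ C0 ^ (1 / p) * (C' * ENNReal.ofReal ((K1 : ℝ) ^ (θ / 2)) +
          ENNReal.ofReal ((K1 : ℝ) ^ (θ / 2))) := by
          gcongr
          exact h1.trans (add_le_add h3 h4)
      _ = Λ * ENNReal.ofReal ((K1 : ℝ) ^ (θ / 2)) := by rw [hΛ]; ring
      _ ≤ ENNReal.ofReal ((K1 : ℝ) ^ (θ / 2)) * ENNReal.ofReal ((K1 : ℝ) ^ (θ / 2)) := by gcongr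
      _ = _ := by
          rw [← ENNReal.ofReal_mul (by positivity), ← Real.rpow_add hK10]
          congr 2
          ring
  intro Ω _ μ _ T hT hDs ξ0 ι J c g hc hsep hg
  rw [← hrkW] at hsep hg
  set N : ℝ := ((rk m Wn : ℕ) : ℝ) with hN
  have hN1 : (1 : ℝ) ≤ N := by rw [hN]; exact_mod_cast rk_pos m Wn
  have hKs : K1 * s ≤ rk m 0 := by omega
  have hKs' : ((K1 * s : ℕ) : ℝ) ≤ N := by rw [hN]; exact_mod_cast hKs.trans hrk0W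
  have hdiv : N / K1 = (2 : ℝ) ^ ((m - k1) * 2 ^ Wn) := by
    rw [hrkW, hK1]
    push_cast
    rw [div_eq_iff (by positivity), ← pow_add]
    congr 1
    rw [← Nat.add_mul, Nat.sub_add_cancel hkm]
  have hR : ((K1 : ℝ) ^ 2) ≤ rk m 0 := by
    have : K1 ^ 2 ≤ rk m 0 := by omega
    exact_mod_cast this
  set S : ℝ≥0∞ := ∑ j ∈ J, nrm μ p (g j) ^ 2 with hS
  have hmain := hbn' B hBt hdecB Ω μ T hT hDs N hKs' ξ0 ι J c g hc hsep hg A (by rw [hdiv]; exact hA)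
  set V : ℝ := ((rk m 0 : ℝ) + 1) ^ (d + 1) * (rk m 0 : ℝ) ^ (d + 2) with hV
  have hV0 : 0 ≤ V := by positivity
  set X : ℝ≥0∞ := Γ * ENNReal.ofReal (V ^ (p / 2)) *
    ENNReal.ofReal (N ^ (bet p η (p * ηs / 4) Wn)) * S ^ (p / 2) with hX
  have hterm : ∀ t ∈ TT (K1 * s) (1 / (K1 : ℝ)) c J,
      ∫⁻ ω, ∏ i, (Av T (W ((K1 : ℝ) ^ 2)) (fun ω => ‖piece g (K1 * s) c J (t i) ω‖ₑ ^ 2) ω) ^
            (p / (2 * (((d + 1 : ℕ) : ℝ) + 1))) ∂μ ≤ X := by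
    intro t ht
    unfold TT at ht
    rw [Finset.mem_filter, Fintype.mem_piFinset] at ht
    exact hbr m Ω μ T hT hDs ξ0 ι J c g hc hsep hg (K1 * s) (Nat.mul_pos hK1pos hs0) hsρ hKs
      ((K1 : ℝ) ^ 2) (one_le_pow₀ hK1') hR t ht.1 ht.2
  have hsumT : ∑ t ∈ TT (K1 * s) (1 / (K1 : ℝ)) c J,
      ∫⁻ ω, ∏ i, (Av T (W ((K1 : ℝ) ^ 2)) (fun ω => ‖piece g (K1 * s) c J (t i) ω‖ₑ ^ 2) ω) ^
            (p / (2 * (((d + 1 : ℕ) : ℝ) + 1))) ∂μ ≤ nT * X := by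
    refine (Finset.sum_le_card_nsmul _ _ _ hterm).trans ?_
    rw [nsmul_eq_mul]
    have h1 := TT_card hc (K1 * s) (1 / (K1 : ℝ))
    have h2 : ((TT (K1 * s) (1 / (K1 : ℝ)) c J).card : ℝ≥0∞) ≤ nT := by
      rw [hnT]; exact_mod_cast h1
    exact mul_le_mul' h2 le_rfl
  have hSh : ∀ x : ℝ≥0∞, (x ^ (p / 2)) ^ (1 / p) = x ^ (1 / 2 : ℝ) := by
    intro x
    rw [← ENNReal.rpow_mul]
    congr 1
    field_simp
  have hfirst : (CB * (nT * X)) ^ (1 / p) ≤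
      CK * ENNReal.ofReal (N ^ (η - (2 : ℝ) ^ (-(Wn : ℝ)) * ηs)) * S ^ (1 / 2 : ℝ) := by
    have e1 : CB * (nT * X) = (CB * nT * Γ) * (ENNReal.ofReal (V ^ (p / 2)) *
      ENNReal.ofReal (N ^ (bet p η (p * ηs / 4) Wn))) * S ^ (p / 2) := by rw [hX]; ring
    rw [e1, ENNReal.mul_rpow_of_nonneg _ _ hpi, ENNReal.mul_rpow_of_nonneg _ _ hpi, hSh,
      ← ENNReal.ofReal_mul (by positivity), ENNReal.ofReal_rpow_of_nonneg (by positivity) hpi,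
      Real.mul_rpow (by positivity) (by positivity), ← Real.rpow_mul hV0,
      ← Real.rpow_mul (by positivity)]
    have e2 : p / 2 * (1 / p) = 1 / 2 := by field_simp
    have e3 : bet p η (p * ηs / 4) Wn * (1 / p) = bet p η (p * ηs / 4) Wn / p := by ring
    rw [e2, e3, hCK]
    have h5 := expo_le (d := d) hp0 hη hW (m := m)
    refine mul_le_mul' ?_ le_rfl
    rw [mul_assoc ((CB * nT * Γ) ^ (1 / p))]
    refine mul_le_mul' le_rfl ?_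
    rw [← ENNReal.ofReal_mul (by positivity)]
    exact ENNReal.ofReal_le_ofReal h5
  have hsecond : (C0 * (B ^ p + 1) * A ^ p * S ^ (p / 2)) ^ (1 / p) ≤
      ENNReal.ofReal (((2 : ℝ) ^ (k1 * 2 ^ Wn)) ^ θ) * A * S ^ (1 / 2 : ℝ) := by
    rw [ENNReal.mul_rpow_of_nonneg _ _ hpi, ENNReal.mul_rpow_of_nonneg _ _ hpi, hSh,
      ← ENNReal.rpow_mul A, mul_one_div_cancel hp0.ne', ENNReal.rpow_one]
    gcongr
  calc nrm μ p (fun ω => ∑ j ∈ J, g j ω)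
      = (∫⁻ ω, ‖∑ j ∈ J, g j ω‖ₑ ^ p ∂μ) ^ (1 / p) := rfl
    _ ≤ (CB * (nT * X) + C0 * (B ^ p + 1) * A ^ p * S ^ (p / 2)) ^ (1 / p) := by
        apply ENNReal.rpow_le_rpow _ hpi
        refine hmain.trans ?_
        gcongr
    _ ≤ (CB * (nT * X)) ^ (1 / p) + (C0 * (B ^ p + 1) * A ^ p * S ^ (p / 2)) ^ (1 / p) :=
        ENNReal.rpow_add_le_add_rpow _ _ hpi hpi1
    _ ≤ CK * ENNReal.ofReal (N ^ (η - (2 : ℝ) ^ (-(Wn : ℝ)) * ηs)) * S ^ (1 / 2 : ℝ) +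
        ENNReal.ofReal (((2 : ℝ) ^ (k1 * 2 ^ Wn)) ^ θ) * A * S ^ (1 / 2 : ℝ) :=
        add_le_add hfirst hsecond
    _ = _ := by
        rw [hrkW]
        ring

end BDDK
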