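import Mathlib
import Pool.Agent.BDD.MainC

/-!
# The decoupling theorem (Bourgain-Demeter) for the paraboloid
-/

open MeasureTheory Finset
open scoped ENNReal

namespace BDDK

theorem decoupling : ∀ (d : ℕ) (p : ℝ), 2 ≤ p → (1 ≤ d → p ≤ 2 + 4 / (d : ℝ)) → ∀ ε : ℝ, 0 < ε →
    ∃ C : ℝ≥0∞, C ≠ ∞ ∧ ∀ N : ℝ, 1 ≤ N → DecB d p N (C * ENNReal.ofReal (N ^ ε)) := by
  intro d
  induction d with
  | zero =>
    intro p hp _ ε hε
    refine ⟨1, by norm_num, fun N hN => ?_⟩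
    refine DecB_mono (DecB_zero (by linarith) N) ?_
    rw [one_mul, ENNReal.one_le_ofReal]
    exact Real.one_le_rpow hN hε.le
  | succ d ih =>
    intro p hp hpd ε hε
    have hpd' : p ≤ 2 + 4 / ((d + 1 : ℕ) : ℝ) := hpd (by omega)
    have hp1 : 1 ≤ p := by linarith
    have hIH : ∀ ε : ℝ, 0 < ε → ∃ C : ℝ≥0∞, C ≠ ∞ ∧ ∀ N : ℝ, 1 ≤ N →
        DecB d p N (C * ENNReal.ofReal (N ^ ε)) := by
      apply ih p hp
      intro hd
      refine hpd'.trans ?_
      have hd0 : (0 : ℝ) < d := by exact_mod_cast hd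
      push_cast
      gcongr
      linarith
    refine boot (fun N A => DecB (d + 1) p N A) (fun N A A' h hA => DecB_mono h hA) ?_
      (fun M hM => DecB_coarse (d + 1) hp1 hM) (main_step d hp hpd' hIH) ε hε
    refine ⟨ENNReal.ofReal ((2 : ℝ) ^ (((d + 1 : ℕ) : ℝ) / 2)), ENNReal.ofReal_ne_top,
      ((d + 1 : ℕ) : ℝ) / 2, by positivity, fun N hN => ?_⟩
    have h := DecB_triv (d + 1) hp1 hN
    refine DecB_mono h (le_of_eq ?_)
    have hN0 : 0 < N := by linarith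
    rw [← ENNReal.ofReal_mul (by positivity), ← Real.mul_rpow (by norm_num) hN0.le]
    congr 1
    rw [← Real.rpow_natCast, ← Real.rpow_mul (by positivity)]
    congr 1
    ring

end BDDK
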