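import Pool.Agent.STE.Link
import Pool.Agent.BDD.Final

/-!
# The scale-invariant Strichartz estimates on all rectangular tori (unconditional)
-/

open MeasureTheory Complex
open scoped Real ENNReal

namespace STE

open STC BDDK

/-- Bourgain-Demeter, Killip-Visan: the scale-invariant estimate on all rectangular tori, in the full
range `q > 2 + 4/r` -/
theorem rectStr_all {r : ℕ} (hr : 1 ≤ r) {q : ℝ} (hq : 2 + 4 / (r : ℝ) < q) : RectStr r q := by
  have h0 : 0 ≤ 4 / (r : ℝ) := by positivity
  exact rectStr_of_dec hr (decoupling r (2 + 4 / (r : ℝ)) (by linarith) (fun _ => le_rfl)) hq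

end STE
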